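import Pool.Agent.P.MP_c1f06d_ag.r.Inf

/-! The frame `g • x1 = x2` over `S ⊗ T`: naturality, CONST and DESC. -/

open Matrix
open scoped TensorProduct

universe u

namespace Pool.Agent.GR

namespace HS

variable {k : Type u} [Field k] {n : ℕ} (H : HS k n) (R : Type u) [CommRing R]
  {S : Type u} [CommRing S] [Algebra R S] [Algebra k S] [Algebra k R] [IsScalarTower k R S]
  {T T' : Type u} [CommRing T] [Algebra R T] [CommRing T'] [Algebra R T']

/-- `g • x1 = x2` over `S ⊗ T`. -/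
def Fr (x1 x2 : H.B →ₐ[k] S) (g : GL (Fin n) T) : Prop :=
  H.act (gm (Algebra.TensorProduct.includeRight : T →ₐ[R] S ⊗[R] T) g)
    ((Algebra.TensorProduct.includeLeft : S →ₐ[k] S ⊗[R] T).comp x1) =
    (Algebra.TensorProduct.includeLeft : S →ₐ[k] S ⊗[R] T).comp x2

/-- The point `g • x` over `S ⊗ T`. -/
noncomputable def fa (g : GL (Fin n) T) (x : H.B →ₐ[k] S) : H.B →ₐ[k] S ⊗[R] T :=
  H.act (gm (Algebra.TensorProduct.includeRight : T →ₐ[R] S ⊗[R] T) g)
    ((Algebra.TensorProduct.includeLeft : S →ₐ[k] S ⊗[R] T).comp x)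

variable {R}

variable (k S) in
/-- The map `S ⊗ T → S ⊗ T'`. -/
noncomputable def _root_.Pool.Agent.GR.lT (f : T →ₐ[R] T') : S ⊗[R] T →ₐ[k] S ⊗[R] T' :=
  (Algebra.TensorProduct.map (AlgHom.id R S) f).restrictScalars k

theorem _root_.Pool.Agent.GR.lT_apply (f : T →ₐ[R] T') (v : S ⊗[R] T) :
    lT k S f v = f.toLinearMap.lTensor S v := rfl

theorem _root_.Pool.Agent.GR.lT_left (f : T →ₐ[R] T') :
    (lT k S f).comp (Algebra.TensorProduct.includeLeft : S →ₐ[k] S ⊗[R] T) =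
      (Algebra.TensorProduct.includeLeft : S →ₐ[k] S ⊗[R] T') := by
  refine AlgHom.ext fun s => ?_
  change Algebra.TensorProduct.map (AlgHom.id R S) f (s ⊗ₜ 1) = s ⊗ₜ 1
  rw [Algebra.TensorProduct.map_tmul, map_one]
  rfl

theorem _root_.Pool.Agent.GR.lT_gm (f : T →ₐ[R] T') (g : GL (Fin n) T) :
    gm (lT k S f) (gm (Algebra.TensorProduct.includeRight : T →ₐ[R] S ⊗[R] T) g) =
      gm (Algebra.TensorProduct.includeRight : T' →ₐ[R] S ⊗[R] T') (gm f g) :=
  Units.ext (Matrix.ext fun _ _ => rfl)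

theorem fa_map (f : T →ₐ[R] T') (g : GL (Fin n) T) (x : H.B →ₐ[k] S) :
    (lT k S f).comp (H.fa R g x) = H.fa R (gm f g) x := by
  unfold fa
  rw [H.act_nat, lT_gm, ← AlgHom.comp_assoc, lT_left]

theorem fa_one (x : H.B →ₐ[k] S) : H.fa R (1 : GL (Fin n) T) x =
    (Algebra.TensorProduct.includeLeft : S →ₐ[k] S ⊗[R] T).comp x := by
  unfold fa
  rw [map_one, H.act_one]

variable {H} {x1 x2 x3 : H.B →ₐ[k] S}

theorem fr_iff {g : GL (Fin n) T} : H.Fr R x1 x2 g ↔ H.fa R g x1 = H.fa R 1 x2 := by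
  rw [fa_one]
  rfl

theorem Fr.fa_mul {g : GL (Fin n) T} (h : H.Fr R x1 x2 g) (g' : GL (Fin n) T) :
    H.fa R (g' * g) x1 = H.fa R g' x2 := by
  unfold fa
  rw [map_mul, H.act_mul, h]

theorem Fr.one : H.Fr R x1 x1 (1 : GL (Fin n) T) := fr_iff.2 rfl

theorem Fr.mul {g g' : GL (Fin n) T} (h' : H.Fr R x2 x3 g') (h : H.Fr R x1 x2 g) :
    H.Fr R x1 x3 (g' * g) := fr_iff.2 ((h.fa_mul g').trans (fr_iff.1 h'))

theorem Fr.inv {g : GL (Fin n) T} (h : H.Fr R x1 x2 g) : H.Fr R x2 x1 g⁻¹ := by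
  rw [fr_iff, ← h.fa_mul, inv_mul_cancel]

theorem Fr.map {g : GL (Fin n) T} (h : H.Fr R x1 x2 g) (f : T →ₐ[R] T') :
    H.Fr R x1 x2 (gm f g) := by
  rw [fr_iff] at h ⊢
  rw [← fa_map, h, fa_map, map_one]

theorem Fr.of_inj [Module.Flat R S] (f : T →ₐ[R] T') (hf : Function.Injective f)
    {g : GL (Fin n) T} (h : H.Fr R x1 x2 (gm f g)) : H.Fr R x1 x2 g := by
  rw [fr_iff] at h ⊢
  have hi : Function.Injective (lT k S f) :=
    Module.Flat.lTensor_preserves_injective_linearMap f.toLinearMap hf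
  refine AlgHom.ext fun b => hi ?_
  have h1 := AlgHom.congr_fun (H.fa_map f g x1) b
  have h2 := AlgHom.congr_fun (H.fa_map f 1 x2) b
  rw [map_one, ← h] at h2
  exact h1.trans h2.symm

/-- CONST. -/
theorem Fr.const {L1 L2 D1 D2 : Type u} [CommRing L1] [Algebra R L1] [CommRing L2] [Algebra R L2]
    [CommRing D1] [Algebra R D1] [CommRing D2] [Algebra R D2] (au : T →ₐ[R] R)
    (i1 : T →ₐ[R] L1) (i2 : T →ₐ[R] L2) (j1 : D1 →ₐ[R] L1) (j2 : D2 →ₐ[R] L2)
    (ret : L1 × L2 →ₗ[R] T) (hret : ∀ t, ret (i1 t, i2 t) = t - algebraMap R T (au t))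
    (hD : ∀ d1 d2, ret (j1 d1, j2 d2) = 0) {a : GL (Fin n) T} (ha : gm au a = 1)
    {φ : GL (Fin n) L1} (hφ : H.Fr R x1 x2 φ) {η : GL (Fin n) L2} (hη : H.Fr R x2 x2 η)
    {b1 : GL (Fin n) D1} {b2 : GL (Fin n) D2} (h1 : gm i1 a = φ * gm j1 b1)
    (h2 : gm i2 a = η * gm j2 b2) : H.Fr R x2 x2 a := by
  have e1 : (lT k S i1).comp (H.fa R a⁻¹ x2) = (lT k S j1).comp (H.fa R b1⁻¹ x1) := by
    rw [fa_map, fa_map, map_inv, map_inv, h1, _root_.mul_inv_rev, hφ.inv.fa_mul]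
  have e2 : (lT k S i2).comp (H.fa R a⁻¹ x2) = (lT k S j2).comp (H.fa R b2⁻¹ x2) := by
    rw [fa_map, fa_map, map_inv, map_inv, h2, _root_.mul_inv_rev, hη.inv.fa_mul]
  let r1 : L1 →ₗ[R] T := ret ∘ₗ LinearMap.inl R L1 L2
  let r2 : L2 →ₗ[R] T := ret ∘ₗ LinearMap.inr R L1 L2
  have z1 : r1 ∘ₗ j1.toLinearMap = 0 := by
    ext d
    have := hD d 0
    rw [map_zero] at this
    exact this
  have z2 : r2 ∘ₗ j2.toLinearMap = 0 := by
    ext d
    have := hD 0 d
    rw [map_zero] at this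
    exact this
  have z3 : r1 ∘ₗ i1.toLinearMap + r2 ∘ₗ i2.toLinearMap =
      LinearMap.id - ((Algebra.ofId R T).comp au).toLinearMap := by
    ext t
    have h3 : ret (i1 t, 0) + ret (0, i2 t) = t - algebraMap R T (au t) := by
      rw [← map_add, Prod.mk_add_mk, add_zero, zero_add, hret]
    exact h3
  have key : H.fa R a⁻¹ x2 = (lT k S ((Algebra.ofId R T).comp au)).comp (H.fa R a⁻¹ x2) := by
    refine AlgHom.ext fun b => ?_
    have f1 : i1.toLinearMap.lTensor S (H.fa R a⁻¹ x2 b) =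
        j1.toLinearMap.lTensor S (H.fa R b1⁻¹ x1 b) := AlgHom.congr_fun e1 b
    have f2 : i2.toLinearMap.lTensor S (H.fa R a⁻¹ x2 b) =
        j2.toLinearMap.lTensor S (H.fa R b2⁻¹ x2 b) := AlgHom.congr_fun e2 b
    have f3 := congrArg (fun l : T →ₗ[R] T => l.lTensor S (H.fa R a⁻¹ x2 b)) z3
    simp only [LinearMap.lTensor_add, LinearMap.lTensor_sub, LinearMap.lTensor_comp,
      LinearMap.add_apply, LinearMap.sub_apply, LinearMap.comp_apply, LinearMap.lTensor_id,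
      LinearMap.id_apply] at f3
    rw [f1, f2, ← LinearMap.lTensor_comp_apply, ← LinearMap.lTensor_comp_apply, z1, z2,
      LinearMap.lTensor_zero, LinearMap.lTensor_zero, LinearMap.zero_apply, LinearMap.zero_apply,
      add_zero] at f3
    exact sub_eq_zero.1 f3.symm
  rw [fa_map, ← gm_comp, map_inv, ha, inv_one, map_one] at key
  have h4 : H.Fr R x2 x2 a⁻¹ := fr_iff.2 key
  simpa using h4.inv

/-- CONST, with the conclusion on `D1`. -/
theorem Fr.const_left [Module.Flat R S] {L1 L2 D1 D2 : Type u} [CommRing L1] [Algebra R L1]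
    [CommRing L2] [Algebra R L2] [CommRing D1] [Algebra R D1] [CommRing D2] [Algebra R D2]
    (au : T →ₐ[R] R) (i1 : T →ₐ[R] L1) (i2 : T →ₐ[R] L2) (j1 : D1 →ₐ[R] L1) (j2 : D2 →ₐ[R] L2)
    (hj : Function.Injective j1)
    (ret : L1 × L2 →ₗ[R] T) (hret : ∀ t, ret (i1 t, i2 t) = t - algebraMap R T (au t))
    (hD : ∀ d1 d2, ret (j1 d1, j2 d2) = 0) {a : GL (Fin n) T} (ha : gm au a = 1)
    {φ : GL (Fin n) L1} (hφ : H.Fr R x1 x2 φ) {η : GL (Fin n) L2} (hη : H.Fr R x2 x2 η)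
    {b1 : GL (Fin n) D1} {b2 : GL (Fin n) D2} (h1 : gm i1 a = φ * gm j1 b1)
    (h2 : gm i2 a = η * gm j2 b2) : H.Fr R x1 x2 b1⁻¹ := by
  have h3 := Fr.const au i1 i2 j1 j2 ret hret hD ha hφ hη h1 h2
  refine Fr.of_inj j1 hj ?_
  have h4 := (h3.map i1).inv.mul hφ
  rwa [h1, _root_.mul_inv_rev, inv_mul_cancel_right, ← map_inv] at h4

/-- DESC. -/
theorem Fr.desc [Module.Flat R S] {κ : Type u} [Field κ] [Algebra R κ] (H1 : HS κ n)
    (hG : ∀ (T : Type u) [CommRing T] [Algebra κ T] [Algebra R T] [IsScalarTower R κ T]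
      (g : GL (Fin n) T), g ∈ H1.G T ↔ H.Fr R x2 x2 g)
    {K : Type u} [CommRing K] [Nontrivial K] [Algebra κ K] [Algebra R K] [IsScalarTower R κ K]
    {e : GL (Fin n) K} (he : H.Fr R x1 x2 e) :
    ∃ y1 : H1.B →ₐ[κ] κ, ∀ (T : Type u) [CommRing T] [Algebra κ T] [Algebra R T]
      [IsScalarTower R κ T] (g : GL (Fin n) T),
      H.Fr R x1 x2 g ↔ H1.act g ((Algebra.ofId κ T).comp y1) = H1.pt T := by
  have main : ∀ (U : Type u) [CommRing U] [Algebra κ U] [Algebra R U] [IsScalarTower R κ U]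
      (p : K →ₐ[κ] U) (g : GL (Fin n) U),
      H.Fr R x1 x2 g ↔ H1.act g (p.comp (H1.act e⁻¹ (H1.pt K))) = H1.pt U := by
    intro U _ _ _ _ p g
    have h1 : H.Fr R x1 x2 (gm p e) := he.map (p.restrictScalars R)
    rw [H1.act_nat, pt_map, ← H1.act_mul, map_inv]
    refine Iff.trans ?_ (hG U (g * (gm p e)⁻¹)).symm
    refine ⟨fun h => h.mul h1.inv, fun h => ?_⟩
    have h2 := h.mul h1
    rwa [inv_mul_cancel_right] at h2
  have hr : ∀ b, H1.act e⁻¹ (H1.pt K) b ∈ Set.range (algebraMap κ K) := by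
    intro b
    refine (Algebra.IsEffective.of_faithfullyFlat κ K _).mp ?_
    rw [Algebra.TensorProduct.includeLeftSubRight_apply, sub_eq_zero]
    let p1 : K →ₐ[κ] K ⊗[κ] K := Algebra.TensorProduct.includeLeft
    let p2 : K →ₐ[κ] K ⊗[κ] K := Algebra.TensorProduct.includeRight
    have h1 : H.Fr R x1 x2 (gm p1 e) := he.map (p1.restrictScalars R)
    have h2 := (main _ p1 _).1 h1
    have h3 := (main _ p2 _).1 h1
    have h4 := congrArg (H1.act (gm p1 e)⁻¹) (h2.trans h3.symm)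
    rw [← H1.act_mul, ← H1.act_mul, inv_mul_cancel, H1.act_one, H1.act_one] at h4
    exact AlgHom.congr_fun h4 b
  choose y hy using hr
  have hi : Function.Injective (algebraMap κ K) := (algebraMap κ K).injective
  let y1 : H1.B →ₐ[κ] κ :=
    { toFun := y
      map_one' := hi (by rw [hy, map_one, map_one])
      map_mul' := fun a b => hi (by rw [map_mul, hy, hy, hy, map_mul])
      map_zero' := hi (by rw [hy, map_zero, map_zero])
      map_add' := fun a b => hi (by rw [map_add, hy, hy, hy, map_add])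
      commutes' := fun c => hi (by rw [hy, AlgHom.commutes]; rfl) }
  refine ⟨y1, fun T _ _ _ _ g => ?_⟩
  let q1 : T →ₐ[κ] T ⊗[κ] K := Algebra.TensorProduct.includeLeft
  let q2 : K →ₐ[κ] T ⊗[κ] K := Algebra.TensorProduct.includeRight
  have hq : Function.Injective q1 := Algebra.TensorProduct.includeLeft_injective hi
  have e1 : q2.comp (H1.act e⁻¹ (H1.pt K)) = q1.comp ((Algebra.ofId κ T).comp y1) := by
    refine AlgHom.ext fun b => ?_
    rw [AlgHom.comp_apply, ← hy, AlgHom.commutes]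
    exact (q1.commutes _).symm
  have h1 := main _ q2 (gm q1 g)
  rw [e1, ← H1.pt_map q1] at h1
  constructor
  · intro h
    exact H1.act_inj q1 hq (h1.1 (h.map (q1.restrictScalars R)))
  · intro h
    exact Fr.of_inj (q1.restrictScalars R) hq (h1.2 (H1.act_map q1 h))

end HS

end Pool.Agent.GR
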