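import Pool.Agent.P.MP_c1f06d_ag.f.Rat

/-! The closed fibre of the double cover. -/

set_option autoImplicit false

open Polynomial

universe u

namespace Pool.Agent.GF.Cov

open Pool.Agent.GR.KL

/-- The homogenisation of `p` in degree `n`, evaluated at two polynomials. -/
noncomputable def hg {R : Type u} [CommRing R] (p : R[X]) (n : ℕ) (a b : R[X]) : R[X] :=
  ∑ i ∈ Finset.range (n + 1), C (p.coeff i) * a ^ i * b ^ (n - i)

theorem aeval_hg {R S : Type u} [CommRing R] [CommRing S] [Algebra R S] (p : R[X]) (n : ℕ)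
    (a b : R[X]) (y : S) : aeval y (hg p n a b) =
      ∑ i ∈ Finset.range (n + 1), algebraMap R S (p.coeff i) * aeval y a ^ i *
        aeval y b ^ (n - i) := by
  simp [hg, map_sum]

theorem sum_hom {R S : Type u} [CommRing R] [CommRing S] [Algebra R S] {p : R[X]} {n : ℕ}
    (hn : p.natDegree ≤ n) (x b : S) :
    ∑ i ∈ Finset.range (n + 1), algebraMap R S (p.coeff i) * (x * b) ^ i * b ^ (n - i) =
      aeval x p * b ^ n := by
  rw [aeval_eq_sum_range' (Nat.lt_succ_of_le hn), Finset.sum_mul]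
  refine Finset.sum_congr rfl fun i hi => ?_
  have hi' : i ≤ n := Nat.lt_succ_iff.1 (Finset.mem_range.1 hi)
  rw [Algebra.smul_def, mul_pow, mul_assoc, mul_assoc, ← pow_add, Nat.add_sub_cancel' hi',
    mul_assoc]

theorem map_hg {R S : Type u} [CommRing R] [CommRing S] (φ : R →+* S) (p : R[X]) (n : ℕ)
    (a b : R[X]) : (hg p n a b).map φ = hg (p.map φ) n (a.map φ) (b.map φ) := by
  simp [hg, Polynomial.map_sum]

theorem dvd_hg {R : Type u} [CommRing R] {p : R[X]} {n : ℕ} (hn : p.natDegree < n)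
    (a b : R[X]) : b ∣ hg p n a b := by
  refine Finset.dvd_sum fun i hi => ?_
  by_cases h : i = n
  · rw [h, coeff_eq_zero_of_natDegree_lt hn]
    simp
  · have hi' : i ≤ n := Nat.lt_succ_iff.1 (Finset.mem_range.1 hi)
    exact Dvd.dvd.mul_left (dvd_pow_self b (by omega)) _

variable {k : Type u} [Field k]

theorem eval_hg {p : k[X]} (hp : p.Monic) {a b : k[X]} (hb : b.eval 0 = 0) :
    (hg p p.natDegree a b).eval 0 = a.eval 0 ^ p.natDegree := by
  rw [hg, eval_finsetSum, Finset.sum_range_succ, Finset.sum_eq_zero]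
  · simp [hp.coeff_natDegree]
  · intro i hi
    have : p.natDegree - i ≠ 0 := by have := Finset.mem_range.1 hi; omega
    simp [hb, this]

/-- The pull-back of `p` under `X + 1 / X`. -/
noncomputable def sh (p : k[X]) : k[X] := hg p p.natDegree (X ^ 2 + 1) X

theorem sh_eval {p : k[X]} (hp : p.Monic) : (sh p).eval 0 = 1 := by
  rw [sh, eval_hg hp (by simp)]
  simp

theorem sh_monic {p : k[X]} (hp : p.Monic) :
    (sh p).Monic ∧ (sh p).natDegree = 2 * p.natDegree := by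
  have hq : (X ^ 2 + 1 : k[X]).Monic := by monicity!
  have hq2 : (X ^ 2 + 1 : k[X]).natDegree = 2 := by compute_degree!
  have h1 : ((X ^ 2 + 1 : k[X]) ^ p.natDegree).natDegree = 2 * p.natDegree := by
    rw [hq.natDegree_pow, hq2, mul_comm]
  have h2 : (∑ i ∈ Finset.range p.natDegree,
      C (p.coeff i) * (X ^ 2 + 1) ^ i * X ^ (p.natDegree - i) : k[X]).degree <
      ((X ^ 2 + 1 : k[X]) ^ p.natDegree).degree := by
    rw [degree_eq_natDegree (hq.pow _).ne_zero, h1]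
    refine (degree_sum_le _ _).trans_lt ((Finset.sup_lt_iff (WithBot.bot_lt_coe _)).2
      fun i hi => ?_)
    have hi' := Finset.mem_range.1 hi
    refine degree_le_natDegree.trans_lt (WithBot.coe_lt_coe.2 ?_)
    refine natDegree_mul_le.trans_lt ?_
    have h3 : (C (p.coeff i) * (X ^ 2 + 1) ^ i : k[X]).natDegree ≤ 2 * i :=
      (natDegree_C_mul_le _ _).trans (by rw [hq.natDegree_pow, hq2, mul_comm])
    rw [natDegree_X_pow]
    show _ < 2 * p.natDegree
    omega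
  have e : sh p = (X ^ 2 + 1) ^ p.natDegree + ∑ i ∈ Finset.range p.natDegree,
      C (p.coeff i) * (X ^ 2 + 1) ^ i * X ^ (p.natDegree - i) := by
    rw [sh, hg, Finset.sum_range_succ, add_comm]
    simp [hp.coeff_natDegree]
  rw [e]
  exact ⟨(hq.pow _).add_of_left h2, by rw [natDegree_add_eq_left_of_degree_lt h2, h1]⟩

theorem cop_X {p : k[X]} (h : p.eval 0 ≠ 0) : IsCoprime X p :=
  irreducible_X.coprime_iff_not_dvd.2 fun hd => h (by
    rw [← coeff_zero_eq_eval_zero]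
    exact X_dvd_iff.1 hd)

theorem p3 {H a b E a' w f1 : k[X]} {M : ℕ} (hH : H ≠ 0) (h0 : X ∣ H) (hE : X ∣ E)
    (r1 : H ^ 2 ∣ E * (E - 1)) (r2 : H ^ 2 ∣ (1 - E) * (b - X ^ 2))
    (r3 : H ^ 2 ∣ (1 - E) * X ^ M) (r4 : H ^ 2 ∣ E * (b - 1))
    (r5 : H ^ 2 ∣ E * (X * (a - X) - 1)) (r6 : H ^ 2 ∣ (1 - E) * (a * a' - 1))
    (hb : b ∣ H * w) (hw : IsCoprime w H) (hf : f1.Monic) (hF : sh f1 ∣ H) :
    DegZero H (aeval (rf a / rf b) f1) := by
  obtain ⟨H1, hH1, hnd⟩ := exists_eq_pow_rootMultiplicity_mul_and_not_dvd H hH 0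
  simp only [map_zero, sub_zero] at hH1 hnd
  generalize rootMultiplicity 0 H = m at hH1
  have hc : IsCoprime X H1 := irreducible_X.coprime_iff_not_dvd.2 hnd
  have d1 : H1 ^ 2 ∣ H ^ 2 := pow_dvd_pow_of_dvd (Dvd.intro_left _ hH1.symm) 2
  have d2 : (X ^ m) ^ 2 ∣ H ^ 2 := pow_dvd_pow_of_dvd (Dvd.intro _ hH1.symm) 2
  have hm1 : 1 ≤ m := by
    rcases Nat.eq_zero_or_pos m with h | h
    · rw [h, pow_zero, one_mul] at hH1
      exact absurd (hH1 ▸ h0) hnd
    · exact h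
  have s1 : H1 ^ 2 ∣ 1 - E := (hc.symm.pow (m := 2) (n := M)).dvd_of_dvd_mul_right (d1.trans r3)
  have s2 : H1 ^ 2 ∣ b - 1 := by
    rw [show b - 1 = E * (b - 1) + (1 - E) * (b - 1) by ring]
    exact dvd_add (d1.trans r4) (s1.mul_right _)
  have s3 : H1 ^ 2 ∣ X * a - (X ^ 2 + 1) := by
    rw [show X * a - (X ^ 2 + 1) = E * (X * (a - X) - 1) + (1 - E) * (X * (a - X) - 1) by ring]
    exact dvd_add (d1.trans r5) (s1.mul_right _)
  have hXE : IsCoprime X (E - 1) := by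
    obtain ⟨E', rfl⟩ := hE
    exact ⟨E', -1, by ring⟩
  have s4 : (X ^ m) ^ 2 ∣ E :=
    ((hXE.pow_left (m := m)).pow_left (m := 2)).dvd_of_dvd_mul_right (d2.trans r1)
  have s5 : (X ^ m) ^ 2 ∣ b - X ^ 2 := by
    rw [show b - X ^ 2 = (1 - E) * (b - X ^ 2) + E * (b - X ^ 2) by ring]
    exact dvd_add (d2.trans r2) (s4.mul_right _)
  have hXX : (X : k[X]) ∣ (X ^ m) ^ 2 :=
    (dvd_pow_self X (by omega : m ≠ 0)).trans (dvd_pow_self _ two_ne_zero)
  have s6 : a.eval 0 ≠ 0 := by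
    have h1 : X ∣ a * a' - 1 := by
      rw [show a * a' - 1 = (1 - E) * (a * a' - 1) + E * (a * a' - 1) by ring]
      exact dvd_add (hXX.trans (d2.trans r6)) (hE.mul_right _)
    intro h2
    have h3 := X_dvd_iff.1 h1
    rw [coeff_zero_eq_eval_zero] at h3
    simp [h2] at h3
  have hX2 : (X : k[X]) ^ 2 ∣ b := by
    rw [show b = (b - X ^ 2) + X ^ 2 by ring]
    exact dvd_add ((pow_dvd_pow_of_dvd (dvd_pow_self X (by omega : m ≠ 0)) 2).trans s5) dvd_rfl
  have hm2 : 2 ≤ m := by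
    have h1 : (X : k[X]) ^ 2 ∣ H :=
      ((hw.of_isCoprime_of_dvd_right h0).symm.pow_left (m := 2)).dvd_of_dvd_mul_right
        (hX2.trans hb)
    rw [hH1] at h1
    have h2 := natDegree_le_of_dvd ((hc.pow_left (m := 2)).dvd_of_dvd_mul_right h1)
      (pow_ne_zero _ X_ne_zero)
    simpa using h2
  obtain ⟨m', rfl⟩ : ∃ m', m = m' + 2 := ⟨m - 2, by omega⟩
  obtain ⟨q5, hq5⟩ := s5
  set b1 : k[X] := 1 + X * (X ^ (2 * m' + 1) * q5) with hb1
  have hbb : b = X ^ 2 * b1 := by rw [hb1]; linear_combination hq5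
  have cop : ∀ z : k[X], IsCoprime z X → IsCoprime z H1 → IsCoprime z H := fun z h1 h2 => by
    rw [hH1]
    exact h1.pow_right.mul_right h2
  have hb1c : IsCoprime b1 H := by
    refine cop _ ⟨1, -(X ^ (2 * m' + 1) * q5), by rw [hb1]; ring⟩ ?_
    obtain ⟨q2, hq2⟩ := s2
    exact ⟨X ^ 2, -(H1 * q2), by linear_combination hq2 - hbb⟩
  obtain ⟨hs1, hs2⟩ := sh_monic hf
  have hsX : IsCoprime X (sh f1) := cop_X (by rw [sh_eval hf]; exact one_ne_zero)
  obtain ⟨r, hr⟩ : sh f1 ∣ H1 :=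
    (hsX.symm.pow_right (n := m' + 2)).dvd_of_dvd_mul_left (hH1 ▸ hF)
  have s7 : H1 ^ 2 ∣ X ^ f1.natDegree * hg f1 f1.natDegree a b - sh f1 := by
    rw [← Ideal.mem_span_singleton, ← Ideal.Quotient.eq]
    have e1 := Ideal.Quotient.eq.2 (Ideal.mem_span_singleton.2 s3)
    have e2 : Ideal.Quotient.mk (Ideal.span {H1 ^ 2}) (X * b) = Ideal.Quotient.mk _ X :=
      Ideal.Quotient.eq.2 (Ideal.mem_span_singleton.2 (by
        rw [show X * b - X = X * (b - 1) by ring]
        exact s2.mul_left _))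
    have e3 : X ^ f1.natDegree * hg f1 f1.natDegree a b =
        hg f1 f1.natDegree (X * a) (X * b) := by
      rw [hg, hg, Finset.mul_sum]
      refine Finset.sum_congr rfl fun i hi => ?_
      have hi' : i ≤ f1.natDegree := Nat.lt_succ_iff.1 (Finset.mem_range.1 hi)
      conv_lhs => rw [← Nat.add_sub_cancel' hi', pow_add]
      rw [Nat.add_sub_cancel' hi']
      ring
    rw [e3, sh, hg, hg, map_sum, map_sum]
    refine Finset.sum_congr rfl fun i _ => ?_
    rw [map_mul, map_mul, map_pow, map_pow, e1, e2, ← map_pow, ← map_pow, ← map_mul, ← map_mul]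
  obtain ⟨q7, hq7⟩ := s7
  have e4 : X ^ f1.natDegree * hg f1 f1.natDegree a b = sh f1 * (1 + H1 * r * q7) := by
    linear_combination hq7 + H1 * q7 * hr
  obtain ⟨w1, hw1⟩ : sh f1 ∣ hg f1 f1.natDegree a b :=
    (hsX.symm.pow_right (n := f1.natDegree)).dvd_of_dvd_mul_left ⟨_, e4⟩
  have e5 : X ^ f1.natDegree * w1 = 1 + H1 * r * q7 :=
    mul_left_cancel₀ hs1.ne_zero (by rw [← e4, hw1]; ring)
  have hw1c : IsCoprime w1 H := by
    refine cop _ (cop_X fun h => ?_).symm ⟨X ^ f1.natDegree, -(r * q7), by linear_combination e5⟩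
    have h1 := eval_hg hf (a := a) (b := b) (by rw [hbb]; simp)
    rw [hw1, eval_mul, h, mul_zero] at h1
    exact pow_ne_zero _ s6 h1.symm
  have hb0 : b ≠ 0 := by
    rintro rfl
    rw [zero_dvd_iff] at hb
    rcases mul_eq_zero.1 hb with h | h
    · exact hH h
    · rw [h, isCoprime_zero_left] at hw
      exact not_isUnit_X (isUnit_of_dvd_unit h0 hw)
  refine ⟨sh f1, X ^ (2 * f1.natDegree), w1, b1 ^ f1.natDegree, hs1, monic_X_pow _,
    by rw [hs2, natDegree_X_pow], ⟨1, by rwa [pow_one]⟩, ⟨_, pow_dvd_pow_of_dvd h0 _⟩, hw1c,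
    hb1c.pow_left, ?_⟩
  rw [← hw1, pow_mul, ← mul_pow, ← hbb]
  have h1 := sum_hom (le_refl f1.natDegree) (rf a / rf b) (rf b)
  rw [div_mul_cancel₀ _ (rf_ne hb0)] at h1
  have h2 : rf (b ^ f1.natDegree) = rf b ^ f1.natDegree := map_pow _ _ _
  rw [h2, ← h1, hg]
  refine ((map_sum (algebraMap k[X] (RatFunc k)) _ _).trans ?_).symm
  refine Finset.sum_congr rfl fun i _ => ?_
  rw [map_mul, map_mul, map_pow, map_pow, rf_C]

end Pool.Agent.GF.Cov
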