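import Pool.Agent.P.MP_c1f06d_ag.f.Nb
import Pool.Agent.P.MP_c1f06d_ag.f.CoverA

/-! The double cover of a finite closed subscheme of a curve is monogenic. -/

set_option autoImplicit false

open Polynomial IsLocalRing

universe u

namespace Pool.Agent.GF.Cov

variable {R : Type u} [CommRing R]

theorem exists_eqn' {B : Type u} [CommRing B] [Algebra R B] [Nontrivial R] {G : B}
    (h1 : ∀ b, G * b = 0 → b = 0) (h2 : FM R G) [Module.Free R (B ⧸ Ideal.span {G})] (T : B)
    (h3 : ∀ b, ∃ f : R[X], G ^ 2 ∣ b - aeval T f) :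
    ∃ (m : R[X]) (c : B), m.Monic ∧ aeval T m = c * G ∧ IsCoprime c G ∧
      ∀ f : R[X], G ∣ aeval T f → m ∣ f := by
  have := h2.finite
  let π := Ideal.Quotient.mkₐ R (Ideal.span {G})
  let m := (Algebra.lmul R _ (π T)).charpoly
  have hm : m.Monic := LinearMap.charpoly_monic _
  have h4 : aeval (π T) m = 0 := Algebra.aeval_self_charpoly_lmul _
  have h0 : ∀ b, π b = 0 ↔ G ∣ b := fun b =>
    Ideal.Quotient.eq_zero_iff_mem.trans Ideal.mem_span_singleton
  let φ := AdjoinRoot.liftAlgHom m (Algebra.ofId R _) (π T) h4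
  have hφ : ∀ f, φ (AdjoinRoot.mk m f) = π (aeval T f) := fun f => by
    rw [← aeval_algHom_apply]
    rfl
  have := hm.free_adjoinRoot
  have := hm.finite_adjoinRoot
  have h5 := OrzechProperty.bijective_of_surjective_of_finrank_le φ.toLinearMap (fun x => by
    obtain ⟨b, rfl⟩ := Ideal.Quotient.mk_surjective x
    obtain ⟨f, hf⟩ := h3 b
    refine ⟨AdjoinRoot.mk m f, (hφ f).trans (sub_eq_zero.1 ?_).symm⟩
    exact (map_sub π b _).symm.trans ((h0 _).2 ((dvd_pow_self G two_ne_zero).trans hf))) (by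
    rw [(AdjoinRoot.powerBasis' hm).finrank]
    exact (LinearMap.charpoly_natDegree _).le)
  have h6 : ∀ f : R[X], G ∣ aeval T f → m ∣ f := fun f hf =>
    AdjoinRoot.mk_eq_zero.1 (h5.1 (((hφ f).trans ((h0 _).2 hf)).trans (map_zero φ).symm))
  rw [aeval_algHom_apply] at h4
  obtain ⟨c, hc⟩ := (h0 _).1 h4
  obtain ⟨f, v, hv⟩ := h3 G
  obtain ⟨w, rfl⟩ := h6 f ⟨1 - G * v, by linear_combination -hv⟩
  rw [map_mul, hc] at hv
  refine ⟨m, c, hm, hc.trans (mul_comm _ _), ⟨aeval T w, v, ?_⟩, h6⟩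
  exact sub_eq_zero.1 (h1 _ (by linear_combination -hv))

theorem free_adjoin {A : Type u} [CommRing A] [Algebra R A] {G : A}
    [Module.Free R (A ⧸ Ideal.span {G})] {q : A[X]} (hq : q.Monic) :
    Module.Free R (AdjoinRoot q ⧸ Ideal.span {algebraMap A (AdjoinRoot q) G}) := by
  have := (hq.map (Ideal.Quotient.mk (Ideal.span {G}))).free_adjoinRoot
  have : Module.Free R (AdjoinRoot (q.map (Ideal.Quotient.mk (Ideal.span {G})))) :=
    Module.Free.trans (S := A ⧸ Ideal.span {G})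
  have e1 : Ideal.span {algebraMap A (AdjoinRoot q) G} =
      Ideal.map (AdjoinRoot.of q) (Ideal.span {G}) := by
    rw [Ideal.map_span, Set.image_singleton]
    rfl
  let e : (AdjoinRoot q ⧸ Ideal.span {algebraMap A (AdjoinRoot q) G}) ≃ₐ[A]
      AdjoinRoot (q.map (Ideal.Quotient.mk (Ideal.span {G}))) :=
    (Ideal.quotientEquivAlgOfEq A e1).trans (AdjoinRoot.quotEquivQuotMap q (Ideal.span {G}))
  exact Module.Free.of_equiv (e.restrictScalars R).toLinearEquiv.symm

theorem inv_int {S : Type u} [CommRing S] [Algebra R S] {z η e : S} (h1 : e * e = e)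
    (h2 : e * z = z) (h3 : z * η = e) {d : R[X]} (hd : d.Monic) (h4 : aeval η d = 0) :
    ∃ s : R[X], e = z * aeval z s := by
  have h5 : ∀ i, e * (z ^ i * η ^ i) = e := fun i => by
    rw [← mul_pow, h3, ← pow_succ']
    exact IsIdempotentElem.pow_succ_eq i h1
  rw [aeval_eq_sum_range, Finset.sum_range_succ, hd.coeff_natDegree, one_smul] at h4
  refine ⟨-∑ i ∈ Finset.range d.natDegree, C (d.coeff i) * X ^ (d.natDegree - i - 1), ?_⟩
  have h6 : e = e * z ^ d.natDegree * -∑ i ∈ Finset.range d.natDegree, d.coeff i • η ^ i := by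
    rw [← eq_neg_of_add_eq_zero_right h4, mul_assoc, h5]
  rw [h6, map_neg, map_sum, mul_neg, mul_neg, Finset.mul_sum, Finset.mul_sum]
  congr 1
  refine Finset.sum_congr rfl fun i hi => ?_
  obtain ⟨j, hj⟩ : ∃ j, d.natDegree = i + j + 1 :=
    ⟨d.natDegree - i - 1, by have := Finset.mem_range.1 hi; omega⟩
  rw [hj, show i + j + 1 - i - 1 = j by omega, map_mul, aeval_C, map_pow, aeval_X,
    Algebra.smul_def]
  linear_combination (algebraMap R S (d.coeff i) * z * z ^ j) * h5 i +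
    (algebraMap R S (d.coeff i) * z ^ j) * h2

section abs

variable {A S : Type u} [CommRing A] [Algebra R A] [CommRing S] [Algebra R S]

/-- The algebra is generated by the root of the quadratic equation. -/
theorem gen_abs (π : A →ₐ[R] S) {Y e al be : S} {N : ℕ} (e1 : e * e = e)
    (hq : Y ^ 2 - e * al * Y + (e - (1 - e) * be) = 0) (e3 : (1 - e) * be ^ N = 0)
    (e5 : ∀ a, ∃ p : R[X], e * π a = e * aeval al p)
    (e6 : ∀ a, ∃ (c : R) (a' : A), (1 - e) * π a = (1 - e) * (algebraMap R S c + be * π a'))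
    (hi : ∃ d : R[X], d.Monic ∧ aeval ((e * (al - Y)) ^ (2 * N + 1)) d = 0) :
    e * (Y * (al - Y) - 1) = 0 ∧ (1 - e) * (be - Y ^ 2) = 0 ∧ (1 - e) * Y ^ (2 * N + 1) = 0 ∧
      (∃ s : R[X], e = aeval Y (X * s)) ∧ ∀ a, π a ∈ (aeval (R := R) Y).range := by
  have q1 : e * (Y * (al - Y) - 1) = 0 := by
    linear_combination (-e) * hq + (1 + be - al * Y) * e1
  have q2 : (1 - e) * (be - Y ^ 2) = 0 := by
    linear_combination (-(1 - e)) * hq - (1 + be - al * Y) * e1
  have q3 : ∀ j, (1 - e) * Y ^ (2 * j) = (1 - e) * be ^ j := by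
    intro j
    induction j with
    | zero => simp
    | succ j ih => linear_combination be * ih - Y ^ (2 * j) * q2
  have q4 : (1 - e) * Y ^ (2 * N + 1) = 0 := by linear_combination Y * q3 N + Y * e3
  obtain ⟨d, hd, hd0⟩ := hi
  obtain ⟨s0, hs0⟩ := inv_int (z := Y ^ (2 * N + 1)) e1 (by linear_combination -q4) (by
    rw [← mul_pow, show Y * (e * (al - Y)) = e by linear_combination q1]
    exact IsIdempotentElem.pow_succ_eq _ e1) hd hd0
  have hs : e = Y * aeval Y (X ^ (2 * N) * s0.comp (X ^ (2 * N + 1))) := by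
    rw [map_mul, aeval_comp, map_pow, map_pow, aeval_X]
    linear_combination hs0
  generalize X ^ (2 * N) * s0.comp (X ^ (2 * N + 1)) = s at hs
  let T := (aeval (R := R) Y).range
  have hY : Y ∈ T := ⟨X, aeval_X Y⟩
  have hsT : aeval Y s ∈ T := ⟨s, rfl⟩
  have he : e ∈ T := hs ▸ T.mul_mem hY hsT
  have hal : e * al ∈ T := by
    have : e * al = e * Y + e * aeval Y s := by
      linear_combination (aeval Y s) * q1 + (e * (al - Y)) * hs - (al - Y) * e1
    rw [this]
    exact T.add_mem (T.mul_mem he hY) (T.mul_mem he hsT)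
  have h5 : ∀ p : R[X], e * aeval al p ∈ T := by
    intro p
    induction p using Polynomial.induction_on' with
    | add p q hp hq => rw [map_add, mul_add]; exact T.add_mem hp hq
    | monomial n c =>
      have : e * aeval al (monomial n c) = algebraMap R S c * (e * (e * al) ^ n) := by
        rw [aeval_monomial, mul_pow, ← mul_assoc e (e ^ n), ← pow_succ',
          IsIdempotentElem.pow_succ_eq n e1]
        ring
      rw [this]
      exact T.mul_mem (T.algebraMap_mem c) (T.mul_mem he (T.pow_mem hal n))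
  have h6 : ∀ (j : ℕ) (a : A), ∃ σ ∈ T, ∃ a', (1 - e) * π a = (1 - e) * (σ + be ^ j * π a') := by
    intro j a
    induction j with
    | zero => exact ⟨0, T.zero_mem, a, by simp⟩
    | succ j ih =>
      obtain ⟨σ, hσ, a', h⟩ := ih
      obtain ⟨c, a'', h'⟩ := e6 a'
      refine ⟨σ + Y ^ (2 * j) * algebraMap R S c,
        T.add_mem hσ (T.mul_mem (T.pow_mem hY _) (T.algebraMap_mem c)), a'', ?_⟩
      linear_combination h + be ^ j * h' - algebraMap R S c * q3 j
  refine ⟨q1, q2, q4, ⟨s, by rw [map_mul, aeval_X]; exact hs⟩, fun a => ?_⟩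
  obtain ⟨p, hp⟩ := e5 a
  obtain ⟨σ, hσ, a', h⟩ := h6 N a
  have : π a = e * aeval al p + (1 - e) * σ := by linear_combination hp + h + π a' * e3
  rw [this]
  exact T.add_mem (h5 p) (T.mul_mem (T.sub_mem T.one_mem he) hσ)

variable [IsLocalRing R]

/-- Divisibility by `H ^ 2` modulo the maximal ideal. -/
def Cg (H p : R[X]) : Prop := ∃ p' ∈ mB R R[X], H ^ 2 ∣ p - p'

theorem Cg.map {H p : R[X]} (h : Cg H p) {k : Type u} [CommRing k] (φ : R →+* k)
    (hφ : ∀ r ∈ maximalIdeal R, φ r = 0) : H.map φ ^ 2 ∣ p.map φ := by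
  obtain ⟨p', hp', hd⟩ := h
  have h0 : p'.map φ = 0 := by
    ext n
    rw [coeff_map, coeff_zero]
    exact hφ _ (Ideal.mem_map_C_iff.1 hp' n)
  have := Polynomial.map_dvd φ hd
  rwa [Polynomial.map_sub, h0, sub_zero, Polynomial.map_pow] at this

theorem cg_of_mem {B : Type u} [CommRing B] [Algebra R B] {G T c : B} {H : R[X]}
    (h1 : ∀ b, G * b = 0 → b = 0) (h3 : ∀ b, ∃ f : R[X], G ^ 2 ∣ b - aeval T f)
    (h4 : aeval T H = c * G) (h5 : IsCoprime c G) (h6 : ∀ f : R[X], G ∣ aeval T f → H ∣ f)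
    {p : R[X]} (hp : aeval T p ∈ Ideal.span {G ^ 2} ⊔ mB R B) : Cg H p := by
  have h7 : ∀ z ∈ mB R B, ∃ p' ∈ mB R R[X], G ^ 2 ∣ z - aeval T p' := by
    intro z hz
    induction hz using Submodule.span_induction with
    | mem x hx =>
      obtain ⟨r, hr, rfl⟩ := hx
      exact ⟨C r, Ideal.mem_map_of_mem (algebraMap R R[X]) hr, by simp⟩
    | zero => exact ⟨0, zero_mem _, by simp⟩
    | add x y _ _ hx hy =>
      obtain ⟨p1, a1, b1⟩ := hx
      obtain ⟨p2, a2, b2⟩ := hy
      refine ⟨p1 + p2, add_mem a1 a2, ?_⟩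
      rw [map_add, add_sub_add_comm]
      exact dvd_add b1 b2
    | smul b x _ hx =>
      obtain ⟨p1, a1, b1⟩ := hx
      obtain ⟨q, hq⟩ := h3 b
      refine ⟨q * p1, Ideal.mul_mem_left _ _ a1, ?_⟩
      rw [map_mul, smul_eq_mul, show b * x - aeval T q * aeval T p1 =
        b * (x - aeval T p1) + (b - aeval T q) * aeval T p1 by ring]
      exact dvd_add (b1.mul_left _) (hq.mul_right _)
  obtain ⟨x, hx, z, hz, e⟩ := Submodule.mem_sup.1 hp
  obtain ⟨p', hp', hd⟩ := h7 z hz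
  refine ⟨p', hp', ?_⟩
  obtain ⟨v, hv⟩ : G ^ 2 ∣ aeval T (p - p') := by
    rw [map_sub, ← e, add_sub_assoc]
    exact dvd_add (Ideal.mem_span_singleton.1 hx) hd
  obtain ⟨r, hr⟩ := h6 (p - p') ⟨G * v, by rw [hv]; ring⟩
  rw [hr, map_mul, h4] at hv
  have h8 : c * aeval T r = G * v := sub_eq_zero.1 (h1 _ (by linear_combination hv))
  rw [hr, pow_two]
  exact mul_dvd_mul_left _ (h6 r (h5.symm.dvd_of_dvd_mul_left ⟨v, h8⟩))

variable (R) in
/-- The ideal of the second neighbourhood in the closed fibre. -/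
abbrev KK (G : A) : Ideal A := Ideal.span {G ^ 2} ⊔ mB R A

theorem KK_map {B : Type u} [CommRing B] [Algebra R B] (θ : A →ₐ[R] B) {G x : A}
    (h : x ∈ KK R G) : θ x ∈ KK R (θ G) := by
  obtain ⟨y, hy, z, hz, rfl⟩ := Submodule.mem_sup.1 h
  rw [map_add]
  refine Submodule.add_mem_sup (Ideal.mem_span_singleton.2 ?_) (mB_map θ hz)
  rw [← map_pow]
  exact _root_.map_dvd θ (Ideal.mem_span_singleton.1 hy)

theorem cover_abs (f : R[X]) (n N : ℕ) {ph α β ε ω α' ω' : A} (n1 : ph ∈ nonZeroDivisors A)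
    (n2 : FM R ph) [Module.Free R (A ⧸ Ideal.span {ph})]
    (e1 : ε * ε - ε ∈ KK R ph) (e2 : ε * (β - 1) ∈ KK R ph) (e3 : (1 - ε) * β ^ N ∈ KK R ph)
    (e4 : (1 - ε) * (α * α' - 1) ∈ KK R ph)
    (e5 : ∀ a, ∃ p : R[X], ε * a - ε * aeval α p ∈ KK R ph)
    (e6 : ∀ a, ∃ (c : R) (a' : A),
      (1 - ε) * a - (1 - ε) * (algebraMap R A c + β * a') ∈ KK R ph)
    (e7 : ω * ω' - 1 ∈ KK R ph)
    (e8 : ∑ i ∈ Finset.range (n + 1), algebraMap R A (f.coeff i) * α ^ i * β ^ (n - i) =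
      ph * ω) :
    ∃ (H a b w E a' : R[X]) (M : ℕ), H.Monic ∧ IsCoprime w H ∧ hg f n a b = H * w ∧ X ∣ E ∧
      Cg H (E * (E - 1)) ∧ Cg H ((1 - E) * (b - X ^ 2)) ∧ Cg H ((1 - E) * X ^ M) ∧
      Cg H (E * (b - 1)) ∧ Cg H (E * (X * (a - X) - 1)) ∧ Cg H ((1 - E) * (a * a' - 1)) ∧
      ∀ (T : Type u) [CommRing T] [Algebra R T] (θ : A →ₐ[R] T) (z : T), θ ph = 0 →
        z ^ 2 - θ ε * θ α * z + (θ ε - (1 - θ ε) * θ β) = 0 → aeval z H = 0 := by
  let q : A[X] := X ^ 2 + (C (ε - (1 - ε) * β) - C (ε * α) * X)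
  have hq : q.Monic := by
    rcases subsingleton_or_nontrivial A with hA | hA
    · exact monic_of_subsingleton _
    refine monic_X_pow_add ?_
    compute_degree!
  have hev : ∀ (T : Type u) [CommRing T] [Algebra R T] (θ : A →ₐ[R] T) (z : T),
      q.eval₂ (θ : A →+* T) z = z ^ 2 - θ ε * θ α * z + (θ ε - (1 - θ ε) * θ β) := by
    intro T _ _ θ z
    simp only [q, eval₂_add, eval₂_sub, eval₂_mul, eval₂_C, eval₂_X, eval₂_X_pow]
    simp only [RingHom.coe_coe, map_sub, map_mul, map_one]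
    ring
  let B := AdjoinRoot q
  let ι : A →ₐ[R] B := IsScalarTower.toAlgHom R A B
  let y : B := AdjoinRoot.root q
  have := hq.free_adjoinRoot
  have := hq.finite_adjoinRoot
  have m1 : ∀ b, ι ph * b = 0 → b = 0 := fun b hb =>
    Module.Flat.isSMulRegular_of_nonZeroDivisors (M := B) n1
      (show ph • b = ph • (0 : B) by rw [smul_zero, Algebra.smul_def]; exact hb)
  have m2 : FM R (ι ph) := n2.ext B
  have m3 : FM R (ι ph ^ 2) := pow_two (ι ph) ▸ m2.mul m2
  have : Module.Free R (B ⧸ Ideal.span {ι ph}) := free_adjoin hq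
  let πB := Ideal.Quotient.mkₐ R (KK R (ι ph))
  have h0 : ∀ b, πB b = 0 ↔ b ∈ KK R (ι ph) := fun b => Ideal.Quotient.eq_zero_iff_mem
  let π := πB.comp ι
  have hK : ∀ x ∈ KK R ph, π x = 0 := fun x hx => (h0 _).2 (KK_map ι hx)
  have hy : y ^ 2 - ι ε * ι α * y + (ι ε - (1 - ι ε) * ι β) = 0 :=
    (hev B ι y).symm.trans (AdjoinRoot.eval₂_root q)
  have f1 := hK _ e1
  have f2 := hK _ e2
  have f3 := hK _ e3
  have f4 := hK _ e4
  have fy := congrArg πB hy
  simp only [map_sub, map_mul, map_one, map_pow, map_add, map_zero] at f1 f2 f3 f4 fy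
  obtain ⟨q1, q2, q4, ⟨s, hs⟩, hgen⟩ := gen_abs π (Y := πB y) (e := π ε) (al := π α) (be := π β)
    (N := N) (sub_eq_zero.1 f1) fy f3 (fun a => by
      obtain ⟨p, hp⟩ := e5 a
      have := hK _ hp
      rw [map_sub, map_mul, map_mul, ← aeval_algHom_apply] at this
      exact ⟨p, sub_eq_zero.1 this⟩) (fun a => by
      obtain ⟨c, a', hp⟩ := e6 a
      have := hK _ hp
      simp only [map_sub, map_mul, map_one, map_add, AlgHom.commutes] at this
      exact ⟨c, a', sub_eq_zero.1 this⟩) (by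
      obtain ⟨d, hd, hd'⟩ := m3.integral ((ι ε * (ι α - y)) ^ (2 * N + 1))
      refine ⟨d, hd, ?_⟩
      have := (h0 _).2 (Submodule.mem_sup_left (Ideal.mem_span_singleton.2 hd'))
      rw [← aeval_algHom_apply, map_pow, map_mul, map_sub] at this
      exact this)
  have hall : ∀ b : B, πB b ∈ (aeval (R := R) (πB y)).range := by
    intro b
    induction b using AdjoinRoot.induction_on with
    | ih p =>
      induction p using Polynomial.induction_on' with
      | add p p' hp hp' => rw [map_add, map_add]; exact add_mem hp hp'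
      | monomial j c =>
        rw [← C_mul_X_pow_eq_monomial, map_mul, map_pow, map_mul, map_pow]
        have hy' : πB y ∈ (aeval (R := R) (πB y)).range := ⟨X, aeval_X _⟩
        exact Subalgebra.mul_mem _ (hgen c) (Subalgebra.pow_mem _ hy' j)
  have h3 : ∀ b : B, ∃ p : R[X], ι ph ^ 2 ∣ b - aeval y p := fun b => by
    obtain ⟨_, ⟨p, rfl⟩, hp⟩ := m3.nak (LinearMap.range (aeval (R := R) y).toLinearMap)
      (fun b => by
        obtain ⟨p, hp⟩ := hall b
        refine ⟨aeval y p, ⟨p, rfl⟩, (h0 _).1 ?_⟩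
        rw [map_sub, ← aeval_algHom_apply]
        exact sub_eq_zero.2 hp.symm) b
    exact ⟨p, hp⟩
  obtain ⟨H, c, hH, h4, h5, h6⟩ := exists_eqn' m1 m2 y h3
  have cg : ∀ p : R[X], aeval (πB y) p = 0 → Cg H p := fun p hp =>
    cg_of_mem m1 h3 h4 h5 h6 ((h0 _).1 (by rw [← aeval_algHom_apply]; exact hp))
  obtain ⟨a, ha⟩ := h3 (ι α)
  obtain ⟨b, hb⟩ := h3 (ι β)
  obtain ⟨a', ha'⟩ := h3 (ι α')
  have tr : ∀ (x : A) (p : R[X]), ι ph ^ 2 ∣ ι x - aeval y p → aeval (πB y) p = π x := by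
    intro x p hp
    have := (h0 _).2 (Submodule.mem_sup_left (Ideal.mem_span_singleton.2 hp))
    rw [map_sub, ← aeval_algHom_apply] at this
    exact (sub_eq_zero.1 this).symm
  obtain ⟨z, hz⟩ : ι ph ^ 2 ∣ aeval y (hg f n a b) - ι ph * ι ω := by
    rw [← map_mul, ← e8, aeval_hg, map_sum, ← Ideal.mem_span_singleton, ← Ideal.Quotient.eq,
      map_sum, map_sum]
    refine Finset.sum_congr rfl fun i _ => ?_
    simp only [map_mul, map_pow, AlgHom.commutes]
    rw [Ideal.Quotient.eq.2 (Ideal.mem_span_singleton.2 ha),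
      Ideal.Quotient.eq.2 (Ideal.mem_span_singleton.2 hb)]
  obtain ⟨w, hw⟩ := h6 (hg f n a b) ⟨ι ω + ι ph * z, by linear_combination hz⟩
  have h7 : c * aeval y w = ι ω + ι ph * z := by
    rw [hw, map_mul, h4] at hz
    exact sub_eq_zero.1 (m1 _ (by linear_combination hz))
  have h8 : IsCoprime (aeval y w) (ι ph) := by
    refine m2.coprime (z' := c * ι ω') ?_
    have h9 := KK_map ι e7
    rw [map_sub, map_mul, map_one] at h9
    rw [show aeval y w * (c * ι ω') - 1 = (ι ω * ι ω' - 1) + ι ph * (z * ι ω') by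
      linear_combination ι ω' * h7]
    have hle : KK R (ι ph) ≤ Ideal.span {ι ph} ⊔ mB R B :=
      sup_le_sup_right (Ideal.span_singleton_le_span_singleton.2 (dvd_pow_self _ two_ne_zero)) _
    refine add_mem (hle h9) (Submodule.mem_sup_left ?_)
    exact Ideal.mem_span_singleton.2 (Dvd.intro _ rfl)
  have h10 : IsCoprime w H := by
    obtain ⟨s1, s2, h⟩ := h8
    obtain ⟨p, v, hp⟩ := h3 s1
    obtain ⟨r, hr⟩ := h6 (1 - p * w) ⟨s2 + ι ph * v * aeval y w, by
      rw [map_sub, map_mul, map_one]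
      linear_combination -h + aeval y w * hp⟩
    exact ⟨p, r, by linear_combination -hr⟩
  refine ⟨H, a, b, w, X * s, a', 2 * N + 1, hH, h10, hw, Dvd.intro _ rfl, cg _ ?_, cg _ ?_,
    cg _ ?_, cg _ ?_, cg _ ?_, cg _ ?_, fun T _ _ θ z hθ hz => ?_⟩
  · rw [map_mul, map_sub, ← hs, map_one]
    linear_combination f1
  · rw [map_mul, map_sub, map_sub, ← hs, map_one, tr _ _ hb, map_pow, aeval_X]
    exact q2
  · rw [map_mul, map_sub, ← hs, map_one, map_pow, aeval_X]
    exact q4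
  · rw [map_mul, map_sub, ← hs, map_one, tr _ _ hb]
    exact f2
  · rw [map_mul, ← hs, map_sub, map_mul, map_sub, map_one, tr _ _ ha, aeval_X]
    exact q1
  · rw [map_mul, map_sub, ← hs, map_sub, map_mul, map_one, tr _ _ ha, tr _ _ ha']
    exact f4
  · let Θ := AdjoinRoot.liftAlgHom q θ z ((hev T θ z).trans hz)
    have a1 : Θ y = z := AdjoinRoot.lift_root ((hev T θ z).trans hz)
    have a2 : Θ (ι ph) = 0 := (AdjoinRoot.liftAlgHom_of q θ z _ ph).trans hθ
    rw [← a1, aeval_algHom_apply, h4, map_mul, a2, mul_zero]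

end abs

end Pool.Agent.GF.Cov
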