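import Pool.Agent.P.MP_c1f06d_ag.f.CoverB
import Pool.Agent.P.MP_c1f06d_ag.f.CoverC

/-! The double cover. -/

set_option autoImplicit false

open Polynomial IsLocalRing

universe u

namespace Pool.Agent.GF

open Pool.Agent.GR.KL

namespace Cov

variable {R : Type u} [CommRing R] [IsLocalRing R]

theorem exists_f0 {f : R[X]} (hf : f.map (residue R) ≠ 0) :
    ∃ (f0 : R[X]) (j : ℕ) (v : Rˣ), f0.Monic ∧ f0.natDegree ≤ f.natDegree ∧ f.coeff j = v ∧
      f - C (v : R) * f0 ∈ mB R R[X] := by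
  have h1 : residue R (f.coeff (f.map (residue R)).natDegree) = (f.map (residue R)).leadingCoeff :=
    (coeff_map _ _).symm
  have h2 : (f.map (residue R)).leadingCoeff ≠ 0 := leadingCoeff_ne_zero.2 hf
  obtain ⟨v, hv⟩ := (residue_ne_zero_iff_isUnit _).1 (h1 ▸ h2)
  obtain ⟨f0, a1, a2, a3⟩ := lifts_and_natDegree_eq_and_monic
    ((mem_lifts _).2 (map_surjective _ (residue_surjective (R := R)) _))
    (monic_mul_leadingCoeff_inv hf)
  refine ⟨f0, _, v, a3, ?_, hv.symm, Ideal.mem_map_C_iff.2 fun n => ?_⟩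
  · rw [a2, natDegree_mul_leadingCoeff_self_inv]
    exact natDegree_map_le
  · rw [← residue_eq_zero_iff, ← coeff_map, Polynomial.map_sub, Polynomial.map_mul, map_C, a1, hv,
      h1, mul_left_comm, ← C_mul, mul_inv_cancel₀ h2, C_1, mul_one, sub_self, coeff_zero]

theorem main {f f0 : R[X]} {j : ℕ} {v : Rˣ} (h0 : f0.Monic) (hd : f0.natDegree ≤ f.natDegree)
    (hj : f.coeff j = v) (hm : f - C (v : R) * f0 ∈ mB R R[X]) {D : ℕ} (hD : f.natDegree < D) :
    ∃ (H a b w E a' : R[X]) (e M : ℕ), f.natDegree < e ∧ H.Monic ∧ IsCoprime w H ∧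
      hg f e a b = H * w ∧ X ∣ E ∧
      Cg H (E * (E - 1)) ∧ Cg H ((1 - E) * (b - X ^ 2)) ∧ Cg H ((1 - E) * X ^ M) ∧
      Cg H (E * (b - 1)) ∧ Cg H (E * (X * (a - X) - 1)) ∧ Cg H ((1 - E) * (a * a' - 1)) ∧
      H.coeff 0 ∈ maximalIdeal R ∧
      ∀ (T : Type u) [CommRing T] [Algebra R T] (u0 z : T), aeval u0 f = 0 → aeval u0 f0 = 0 →
        z ^ 2 - u0 * z + 1 = 0 → aeval z H = 0 := by
  obtain ⟨g, hgd⟩ : ∃ g : R[X], g = X ^ (D + 1) * f0 ^ 2 + 1 := ⟨_, rfl⟩
  obtain ⟨G, hGd⟩ : ∃ G : R[X], G = X ^ D * f0 ^ 2 + 1 := ⟨_, rfl⟩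
  obtain ⟨e, he⟩ : ∃ e, e = D + 2 * f0.natDegree := ⟨_, rfl⟩
  have m1 : (X ^ (D + 1) * f0 ^ 2 : R[X]).Monic := (monic_X_pow _).mul (h0.pow 2)
  have m2 : (X ^ (D + 1) * f0 ^ 2 : R[X]).natDegree = e + 1 := by
    rw [(monic_X_pow _).natDegree_mul (h0.pow 2), natDegree_X_pow, h0.natDegree_pow]
    omega
  have m3 : (1 : R[X]).degree < (X ^ (D + 1) * f0 ^ 2 : R[X]).degree := by
    rw [degree_eq_natDegree m1.ne_zero, m2, degree_one]
    exact_mod_cast Nat.succ_pos e
  have hg1 : g.Monic := hgd ▸ m1.add_of_left m3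
  have hge : g.natDegree = e + 1 := by rw [hgd, natDegree_add_eq_left_of_degree_lt m3, m2]
  have hGe : G.natDegree ≤ e := by
    rw [hGd]
    refine natDegree_add_le_of_degree_le (natDegree_mul_le.trans ?_) (by simp)
    rw [natDegree_X_pow, h0.natDegree_pow]
    omega
  have lv : ∀ {p : R[X]}, p.natDegree ≤ e + 1 → p.natDegree ≤ 1 * g.natDegree := fun h => by
    omega
  have hc : IsCoprime f g := by
    refine (FM.of_monic (R := R) hg1).coprime (z' := -(C ((v⁻¹ : Rˣ) : R) * X ^ (D + 1) * f0)) ?_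
    have hv : (C (v : R) * C ((v⁻¹ : Rˣ) : R) : R[X]) = 1 := by rw [← C_mul, Units.mul_inv, C_1]
    rw [show f * -(C ((v⁻¹ : Rˣ) : R) * X ^ (D + 1) * f0) - 1 = -1 * g +
      -(C ((v⁻¹ : Rˣ) : R) * X ^ (D + 1) * f0) * (f - C (v : R) * f0) by
        rw [hgd]
        linear_combination (-(X ^ (D + 1) * f0 ^ 2)) * hv]
    exact Submodule.add_mem_sup (Ideal.mul_mem_left _ _ (Ideal.mem_span_singleton_self g))
      (Ideal.mul_mem_left _ _ hm)
  have hf1 : f.natDegree ≤ 1 * g.natDegree := lv (by omega)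
  have hXG : (X * G).natDegree ≤ e + 1 :=
    natDegree_mul_le.trans (by have := natDegree_X_le (R := R); omega)
  have hX1 : (X - 1 : R[X]).natDegree ≤ e := (natDegree_sub_le _ _).trans
    (max_le (by have := natDegree_X_le (R := R); omega) (by simp))
  have hω : (G ^ (e + 1)).natDegree ≤ e * g.natDegree := natDegree_pow_le.trans (by
    rw [hge, mul_comm]
    exact Nat.mul_le_mul_right _ hGe)
  have gt := io_ti g
  have ig : io g g = io g X ^ (D + 1) * io g f0 ^ 2 + 1 := by
    conv_lhs => rw [io, show algebraMap R[X] (Localization.Away g) g =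
      algebraMap R[X] (Localization.Away g) (X ^ (D + 1) * f0 ^ 2 + 1) from congrArg _ hgd]
    simp only [map_add, map_mul, map_pow, map_one]
  have iG : io g G = io g X ^ D * io g f0 ^ 2 + 1 := by
    rw [hGd]
    simp only [io, map_add, map_mul, map_pow, map_one]
  rw [ig] at gt
  let t : Out g := el g 1 1 (lv (by simp))
  let ph : Out g := el g 1 f hf1
  let φ0 : Out g := el g 1 f0 (lv (by omega))
  let β : Out g := el g 1 G (lv (by omega))
  let α : Out g := el g 1 (X * G) (lv hXG)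
  let ν : Out g := el g 1 (X - 1) (lv (by omega))
  let ω : Out g := el g e (G ^ (e + 1)) hω
  let xe : Out g := el g 1 (X ^ (e + 1)) (lv (natDegree_X_pow_le _))
  let α' : Out g := ∑ i ∈ Finset.range (2 * (e + 1)), (-ν) ^ i
  have k0 : φ0 ^ 2 ∈ KK R ph := by
    have a1 : (f - C (v : R) * f0).natDegree ≤ 1 * g.natDegree :=
      lv ((natDegree_sub_le _ _).trans (max_le (by omega)
        ((natDegree_C_mul_le _ _).trans (by omega))))
    have a2 : ph - algebraMap R _ (v : R) * φ0 = el g 1 _ a1 := Subtype.ext (by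
      simp only [ph, φ0, AddSubgroupClass.coe_sub, Subalgebra.coe_mul, Subalgebra.coe_algebraMap,
        el_val, io_C, io, map_sub, map_mul]
      ring)
    have a3 : algebraMap R (Out g) ((v⁻¹ : Rˣ) : R) * algebraMap R _ (v : R) = 1 := by
      rw [← map_mul, Units.inv_mul, map_one]
    rw [show φ0 ^ 2 = algebraMap R (Out g) ((v⁻¹ : Rˣ) : R) ^ 2 * ph ^ 2 +
      -(algebraMap R (Out g) ((v⁻¹ : Rˣ) : R) ^ 2 * (ph + algebraMap R _ (v : R) * φ0)) *
        (ph - algebraMap R _ (v : R) * φ0) by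
      linear_combination (-(φ0 ^ 2 * (1 + algebraMap R (Out g) ((v⁻¹ : Rˣ) : R) *
        algebraMap R _ (v : R)))) * a3]
    exact Submodule.add_mem_sup (Ideal.mul_mem_left _ _ (Ideal.mem_span_singleton_self _))
      (Ideal.mul_mem_left _ _ (a2 ▸ el_mem_mB a1 hm))
  have k1 : t * t * (1 - t) ∈ KK R ph := by
    rw [show t * t * (1 - t) = el g 1 (X ^ (D + 1)) (lv ((natDegree_X_pow_le _).trans (by omega))) *
      φ0 ^ 2 from Subtype.ext (by
        simp only [t, φ0, AddSubgroupClass.coe_sub, Subalgebra.coe_mul, Subalgebra.coe_one,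
          Subalgebra.coe_pow, el_val, io, map_pow, map_one]
        linear_combination (-ti g ^ 2) * gt)]
    exact Ideal.mul_mem_left _ _ k0
  have k2 : t * t * (β - t) ∈ KK R ph := by
    rw [show t * t * (β - t) = el g 1 (X ^ D) (lv ((natDegree_X_pow_le _).trans (by omega))) *
      φ0 ^ 2 from Subtype.ext (by
        simp only [t, φ0, β, AddSubgroupClass.coe_sub, Subalgebra.coe_mul, Subalgebra.coe_pow,
          el_val, iG]
        simp only [io, map_pow, map_one]
        ring)]
    exact Ideal.mul_mem_left _ _ k0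
  have k3 : ∀ (p : R[X]) (hp : p.natDegree ≤ e),
      (1 - t * t) * el g 1 p (lv (by omega)) ^ (2 * (e + 1)) ∈ KK R ph := by
    intro p hp
    have a1 : (X ^ (D + 1) * p ^ (2 * (e + 1)) : R[X]).natDegree ≤ (2 * e + 1) * g.natDegree := by
      refine natDegree_mul_le.trans ?_
      have a2 : (p ^ (2 * (e + 1))).natDegree ≤ 2 * (e + 1) * e :=
        natDegree_pow_le.trans (Nat.mul_le_mul_left _ hp)
      rw [natDegree_X_pow, hge]
      have : D ≤ e := by omega
      nlinarith
    rw [show (1 - t * t) * el g 1 p (lv (by omega)) ^ (2 * (e + 1)) =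
      (1 + t) * el g _ _ a1 * φ0 ^ 2 from Subtype.ext (by
        simp only [t, φ0, AddSubgroupClass.coe_sub, Subalgebra.coe_mul, Subalgebra.coe_one,
          Subalgebra.coe_add, Subalgebra.coe_pow, el_val, io, map_pow, map_one, map_mul]
        linear_combination (-(1 + ti g) * (io g p * ti g) ^ (2 * (e + 1))) * gt)]
    exact Ideal.mul_mem_left _ _ k0
  have k4 : α = 1 + ν := Subtype.ext (by
    simp only [α, ν, Subalgebra.coe_add, Subalgebra.coe_one, el_val, io, map_mul, map_sub, map_one]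
    linear_combination gt + (io g X * ti g) * iG)
  have e1 : t * t * (t * t) - t * t ∈ KK R ph := by
    rw [show t * t * (t * t) - t * t = -(1 + t) * (t * t * (1 - t)) by ring]
    exact Ideal.mul_mem_left _ _ k1
  have e2 : t * t * (β - 1) ∈ KK R ph := by
    rw [show t * t * (β - 1) = t * t * (β - t) - t * t * (1 - t) by ring]
    exact sub_mem k2 k1
  have e4 : (1 - t * t) * (α * α' - 1) ∈ KK R ph := by
    have a1 : (1 - -ν) * α' = 1 - (-ν) ^ (2 * (e + 1)) := mul_neg_geom_sum (-ν) (2 * (e + 1))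
    have a2 : (-ν) ^ (2 * (e + 1)) = ν ^ (2 * (e + 1)) := by
      rw [pow_mul, pow_mul, show (-ν) ^ 2 = ν ^ 2 by ring]
    rw [a2] at a1
    rw [show (1 - t * t) * (α * α' - 1) = -((1 - t * t) * ν ^ (2 * (e + 1))) by
      linear_combination (1 - t * t) * a1 + (1 - t * t) * α' * k4]
    exact neg_mem (k3 _ hX1)
  let π := Ideal.Quotient.mkₐ R (KK R ph)
  have hz : ∀ b, π b = 0 ↔ b ∈ KK R ph := fun b => Ideal.Quotient.eq_zero_iff_mem
  have p1 := (hz _).2 k1
  have p2 := (hz _).2 e2
  have p4 := (hz _).2 e4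
  simp only [map_mul, map_sub, map_one] at p1 p2 p4
  have pw : ∀ (x y : Out g ⧸ KK R ph), x * (y - 1) = 0 → ∀ i : ℕ, x * y ^ i = x := by
    intro x y h i
    induction i with
    | zero => simp
    | succ i ih => linear_combination y * ih + h
  have p5 := pw _ _ (show π t * π t * (π t - 1) = 0 by linear_combination -p1)
  have p6 := pw _ _ p2
  have p7 := pw _ _ p4
  have := ph_free hf1 hg1 hc ⟨v, hj.symm⟩
  obtain ⟨H, a, b, w, E, a', M, c1, c2, c3, c4, c5, c6, c7, c8, c9, c10, c11⟩ :=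
    cover_abs f (e + 1) (2 * (e + 1)) (ph := ph) (α := α) (β := β) (ε := t * t) (ω := ω)
      (α' := α') (ω' := t * t * t + (1 - t * t) * xe * α' ^ (e + 1))
      (ph_nzd hf1 hg1 ⟨v, hj.symm⟩) (ph_FM hf1 hg1 hc) e1 e2 (k3 G hGe) e4 (fun x => by
        induction x using out_ind with
        | h0 => exact ⟨0, by simp⟩
        | hadd x y hx hy =>
          obtain ⟨p, hp⟩ := hx
          obtain ⟨q, hq⟩ := hy
          refine ⟨p + q, ?_⟩
          rw [map_add, mul_add, mul_add, add_sub_add_comm]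
          exact add_mem hp hq
        | hm c r i h =>
          refine ⟨C c * X ^ i, (hz _).1 ?_⟩
          have a1 : el g r (X ^ i) h * β ^ i = α ^ i * t ^ r := Subtype.ext (by
            simp only [t, α, β, Subalgebra.coe_mul, Subalgebra.coe_pow, el_val, io, map_pow,
              map_one, map_mul]
            ring)
          have a2 := congrArg π a1
          simp only [map_mul, map_pow, map_sub, aeval_C, aeval_X] at a2 ⊢
          linear_combination π (algebraMap R _ c) * (π t * π t * a2 + π α ^ i * p5 r -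
            π (el g r (X ^ i) h) * p6 i)) (fun x => by
        obtain ⟨c, r, p, h, h', rfl⟩ := out_split hg1 x
        refine ⟨c, el g r _ h' * α', (hz _).1 ?_⟩
        have a1 : el g r p h * α = β * el g r _ h' := Subtype.ext (by
          simp only [α, β, Subalgebra.coe_mul, el_val, io, map_mul]
          ring)
        have a2 := congrArg π a1
        simp only [map_mul, map_sub, map_add, map_one] at a2 ⊢
        linear_combination ((1 - π t * π t) * π α') * a2 - π (el g r p h) * p4) (by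
        refine (hz _).1 ?_
        have a1 : ω * t = β ^ (e + 1) := Subtype.ext (by
          simp only [ω, t, β, Subalgebra.coe_mul, Subalgebra.coe_pow, el_val, io, map_pow, map_one]
          ring)
        have a2 : ω * xe = α ^ (e + 1) := Subtype.ext (by
          simp only [ω, xe, α, Subalgebra.coe_mul, Subalgebra.coe_pow, el_val, io, map_pow,
            map_mul]
          ring)
        have a3 := congrArg π a1
        have a4 := congrArg π a2
        simp only [map_mul, map_sub, map_add, map_one, map_pow] at a3 a4 ⊢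
        linear_combination (π t * π t) * a3 + p6 (e + 1) +
          ((1 - π t * π t) * π α' ^ (e + 1)) * a4 + p7 (e + 1)) (by
        apply Subtype.ext
        have a1 := sum_hom (R := R) (p := f) (n := e + 1) (by omega) (io g X) (io g G * ti g)
        rw [show aeval (io g X) f = io g f by
          rw [io, aeval_algebraMap_apply, aeval_X_left_apply]] at a1
        rw [AddSubmonoidClass.coe_finsetSum]
        simp only [ph, ω, α, β, Subalgebra.coe_mul, Subalgebra.coe_pow, Subalgebra.coe_algebraMap,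
          el_val, pow_one]
        simp only [io, map_mul, map_pow] at a1 ⊢
        simp only [mul_assoc] at a1 ⊢
        rw [a1]
        ring)
  refine ⟨H, a, b, w, E, a', e + 1, M, by omega, c1, c2, c3, c4, c5, c6, c7, c8, c9, c10, ?_,
    fun T _ _ u0 z hu hu0 hzz => ?_⟩
  · have inf : ∀ (T : Type u) [CommRing T] [Algebra R T] (θ : Out g →ₐ[R] T),
        (∀ (p : R[X]) h, p.natDegree ≤ e → θ (el g 1 p h) = 0) →
          θ (algebraMap R _ (H.coeff 0)) = 0 := by
      intro T _ _ θ a0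
      have b1 : θ t = 0 := a0 1 _ (by simp)
      have b2 : θ β = 0 := a0 G _ hGe
      have b4 : θ ph = 0 := a0 f _ (by omega)
      rw [θ.commutes, coeff_zero_eq_aeval_zero']
      refine c11 T θ 0 b4 ?_
      rw [map_mul, b1, b2]
      ring
    have a1 := inf (Out g ⧸ Iinf g hg1 (maximalIdeal R))
      (Ideal.Quotient.mkₐ R (Iinf g hg1 (maximalIdeal R))) fun p h hp =>
        Ideal.Quotient.eq_zero_iff_mem.2 (el_mem_Iinf hg1 _ (by omega) h)
    exact mem_Iinf_C hg1 (Ideal.Quotient.eq_zero_iff_mem.1 a1)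
  · have a1 : aeval u0 g = 1 := by rw [hgd]; simp [hu0]
    have a2 : aeval u0 G = 1 := by rw [hGd]; simp [hu0]
    have a0 : IsUnit (aeval u0 g) := a1 ▸ isUnit_one
    let θ0 : Localization.Away g →ₐ[R] T := IsLocalization.Away.liftAlgHom g (f := aeval u0) a0
    have a3 : ∀ p, θ0 (io g p) = aeval u0 p := fun p => IsLocalization.Away.lift_eq g a0 p
    have a4 : θ0 (ti g) = 1 := by
      have := congrArg θ0 (io_ti g)
      rwa [map_mul, a3, a1, one_mul, map_one] at this
    have a5 : ∀ r p h, θ0.comp (Out g).val (el g r p h) = aeval u0 p := fun r p h => by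
      show θ0 (io g p * ti g ^ r) = _
      rw [map_mul, map_pow, a3, a4, one_pow, mul_one]
    refine c11 T (θ0.comp (Out g).val) z ((a5 _ _ _).trans hu) ?_
    rw [map_mul, a5, a5, a5, map_mul, a2, map_one, aeval_X]
    linear_combination hzz

end Cov

open Cov in
/-- The double cover. -/
theorem cover {R : Type u} [CommRing R] [IsLocalRing R] (f : R[X])
    (hf : f.map (residue R) ≠ 0) :
    ∃ (a b w H : R[X]) (e : ℕ), f.natDegree < e ∧ H.Monic ∧ H.coeff 0 ∈ maximalIdeal R ∧
      IsCoprime w H ∧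
      ∑ i ∈ Finset.range (e + 1), C (f.coeff i) * a ^ i * b ^ (e - i) = H * w ∧ b ∣ H * w ∧
      ∀ (k : Type u) [Field k] (φ : R →+* k), (∀ r ∈ maximalIdeal R, φ r = 0) →
        ∀ f1 : k[X], f1.Monic → f1 ∣ f.map φ →
          DegZero (H.map φ) (aeval (rf (a.map φ) / rf (b.map φ)) f1) := by
  obtain ⟨f0, j, v, h0, hd, hj, hm⟩ := exists_f0 hf
  obtain ⟨H, a, b, w, E, a', e, M, he, c1, c2, c3, c4, c5, c6, c7, c8, c9, c10, c11, c12⟩ :=
    main h0 hd hj hm (Nat.lt_succ_self _)
  have hb : b ∣ H * w := c3 ▸ dvd_hg he a b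
  refine ⟨a, b, w, H, e, he, c1, c11, c2, c3, hb, fun k _ φ hφ f1 hf1 hdv => ?_⟩
  have d5 := c5.map φ hφ
  have d6 := c6.map φ hφ
  have d7 := c7.map φ hφ
  have d8 := c8.map φ hφ
  have d9 := c9.map φ hφ
  have d10 := c10.map φ hφ
  have d4 := Polynomial.map_dvd φ c4
  have db := Polynomial.map_dvd φ hb
  simp only [Polynomial.map_mul, Polynomial.map_sub, Polynomial.map_one, Polynomial.map_pow,
    map_X] at d4 d5 d6 d7 d8 d9 d10 db
  refine p3 (c1.map φ).ne_zero (X_dvd_iff.2 (by rw [coeff_map]; exact hφ _ c11)) d4 d5 d6 d7 d8 d9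
    d10 db (c2.map (mapRingHom φ)) hf1 ?_
  let _ := φ.toAlgebra
  let T := AdjoinRoot (sh f1)
  let z : T := AdjoinRoot.root (sh f1)
  have hz : aeval z (sh f1) = 0 := by rw [AdjoinRoot.aeval_eq, AdjoinRoot.mk_self]
  obtain ⟨s1, s2, hs⟩ : IsCoprime X (sh f1) := cop_X (by rw [sh_eval hf1]; exact one_ne_zero)
  have hs' := congrArg (aeval z) hs
  rw [map_add, map_mul, map_mul, hz, mul_zero, add_zero, aeval_X, map_one] at hs'
  have hu : (z ^ 2 + 1) * aeval z s1 * z = z ^ 2 + 1 := by linear_combination (z ^ 2 + 1) * hs'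
  generalize (z ^ 2 + 1) * aeval z s1 = u0 at hu
  have h1 : aeval u0 f1 = 0 := by
    have a1 := sum_hom (le_refl f1.natDegree) u0 z
    have hz' : aeval z (hg f1 f1.natDegree (X ^ 2 + 1) X) = 0 := hz
    rw [aeval_hg] at hz'
    simp only [map_add, map_pow, aeval_X, map_one] at hz'
    rw [hu, hz'] at a1
    have a2 : IsUnit z := IsUnit.of_mul_eq_one _ ((mul_comm _ _).trans hs')
    exact (a2.pow _).mul_left_eq_zero.1 a1.symm
  have h2 : aeval u0 f = 0 := by
    obtain ⟨r, hr⟩ := hdv
    rw [← aeval_map_algebraMap k u0 f]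
    show aeval u0 (f.map φ) = 0
    rw [hr, map_mul, h1, zero_mul]
  have h3 : aeval u0 f0 = 0 := by
    have a1 : (f - C (v : R) * f0).map φ = 0 := by
      ext n
      rw [coeff_map, coeff_zero]
      exact hφ _ (Ideal.mem_map_C_iff.1 hm n)
    have a2 : aeval u0 (f - C (v : R) * f0) = 0 := by
      rw [← aeval_map_algebraMap k u0]
      show aeval u0 ((f - C (v : R) * f0).map φ) = 0
      rw [a1, map_zero]
    rw [map_sub, h2, zero_sub, neg_eq_zero, map_mul, aeval_C] at a2
    exact (v.isUnit.map (algebraMap R T)).mul_right_eq_zero.1 a2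
  have h4 := c12 T u0 z h2 h3 (by linear_combination -hu)
  rw [← aeval_map_algebraMap k z H, AdjoinRoot.aeval_eq] at h4
  exact AdjoinRoot.mk_eq_zero.1 h4

end Pool.Agent.GF
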