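import Pool.Agent.P.MP_c1f06d_ag.f.Nb

/-! Functions on the complement of a divisor in the projective line. -/

set_option autoImplicit false

open Polynomial IsLocalRing

universe u

namespace Pool.Agent.GF.Cov

variable {R : Type u} [CommRing R]

/-- The localisation map. -/
noncomputable abbrev io (g p : R[X]) : Localization.Away g := algebraMap R[X] _ p

/-- The inverse of `g`. -/
noncomputable abbrev ti (g : R[X]) : Localization.Away g := IsLocalization.Away.invSelf g

theorem io_ti (g : R[X]) : io g g * ti g = 1 := IsLocalization.Away.mul_invSelf g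

theorem io_ti_pow (g : R[X]) (r : ℕ) : io g g ^ r * ti g ^ r = 1 := by
  rw [← mul_pow, io_ti, one_pow]

theorem io_C (g : R[X]) (c : R) : algebraMap R (Localization.Away g) c = io g (C c) :=
  IsScalarTower.algebraMap_apply R R[X] _ c

theorem deg_lift {g p : R[X]} {r : ℕ} (h : p.natDegree ≤ r * g.natDegree) (s : ℕ) :
    (p * g ^ s).natDegree ≤ (r + s) * g.natDegree := by
  refine natDegree_mul_le.trans ?_
  rw [add_mul]
  exact add_le_add h natDegree_pow_le

theorem io_lift (g p : R[X]) (r s : ℕ) : io g p * ti g ^ r = io g (p * g ^ s) * ti g ^ (r + s) := by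
  simp only [io, map_mul, map_pow]
  linear_combination (-(io g p * ti g ^ r)) * io_ti_pow g s

/-- The fractions `p / g ^ r` of degree at most zero. -/
def Out (g : R[X]) : Subalgebra R (Localization.Away g) where
  carrier := {x | ∃ (r : ℕ) (p : R[X]), p.natDegree ≤ r * g.natDegree ∧ x = io g p * ti g ^ r}
  mul_mem' := by
    rintro _ _ ⟨r, p, hp, rfl⟩ ⟨s, q, hq, rfl⟩
    refine ⟨r + s, p * q, natDegree_mul_le.trans (by rw [add_mul]; exact add_le_add hp hq), ?_⟩
    simp only [io, map_mul]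
    ring
  add_mem' := by
    rintro _ _ ⟨r, p, hp, rfl⟩ ⟨s, q, hq, rfl⟩
    refine ⟨r + s, p * g ^ s + q * g ^ r, natDegree_add_le_of_degree_le (deg_lift hp s)
      (add_comm s r ▸ deg_lift hq r), ?_⟩
    rw [io_lift g p r s, io_lift g q s r, add_comm s r]
    simp only [io, map_add]
    ring
  algebraMap_mem' c := ⟨0, C c, by simp, by rw [io_C]; simp⟩

/-- The element `p / g ^ r`. -/
noncomputable def el (g : R[X]) (r : ℕ) (p : R[X]) (h : p.natDegree ≤ r * g.natDegree) : Out g :=
  ⟨io g p * ti g ^ r, r, p, h, rfl⟩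

variable {g : R[X]}

@[simp] theorem el_val (r : ℕ) (p : R[X]) (h : p.natDegree ≤ r * g.natDegree) :
    (el g r p h : Localization.Away g) = io g p * ti g ^ r := rfl

theorem exists_el (a : Out g) : ∃ r p h, a = el g r p h := by
  obtain ⟨_, r, p, h, rfl⟩ := a
  exact ⟨r, p, h, rfl⟩

theorem io_inj (hg : g.Monic) {p q : R[X]} (h : io g p = io g q) : p = q :=
  IsLocalization.injective (Localization.Away g) (M := Submonoid.powers g)
    ((Submonoid.powers_le).2 hg.mem_nonZeroDivisors) h

theorem cross (hg : g.Monic) {p q : R[X]} {r s : ℕ}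
    (h : io g p * ti g ^ r = io g q * ti g ^ s) : p * g ^ s = q * g ^ r := by
  apply io_inj hg
  simp only [io, map_mul, map_pow]
  linear_combination (io g g ^ r * io g g ^ s) * h - (io g p * io g g ^ s) * io_ti_pow g r +
    (io g q * io g g ^ r) * io_ti_pow g s

theorem deg_mon {r : ℕ} (i : Fin (r * g.natDegree + 1)) :
    (X ^ (i : ℕ) : R[X]).natDegree ≤ r * g.natDegree :=
  (natDegree_X_pow_le _).trans (Nat.lt_succ_iff.1 i.2)

theorem el_sum (r : ℕ) (p : R[X]) (h : p.natDegree ≤ r * g.natDegree) :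
    el g r p h = ∑ i : Fin (r * g.natDegree + 1),
      algebraMap R _ (p.coeff i) * el g r (X ^ (i : ℕ)) (deg_mon i) := by
  apply Subtype.ext
  rw [AddSubmonoidClass.coe_finsetSum, el_val]
  conv_lhs => rw [p.as_sum_range_C_mul_X_pow' (Nat.lt_succ_of_le h), Finset.sum_range]
  simp only [io, map_sum, Finset.sum_mul]
  refine Finset.sum_congr rfl fun i _ => ?_
  rw [Subalgebra.coe_mul, Subalgebra.coe_algebraMap, el_val, io_C, map_mul, mul_assoc]

/-- Elements are combinations of monomials. -/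
theorem out_ind {P : Out g → Prop} (h0 : P 0) (hadd : ∀ a b, P a → P b → P (a + b))
    (hm : ∀ (c : R) (r i : ℕ) (h : (X ^ i : R[X]).natDegree ≤ r * g.natDegree),
      P (algebraMap R _ c * el g r (X ^ i) h)) (a : Out g) : P a := by
  obtain ⟨r, p, h, rfl⟩ := exists_el a
  rw [el_sum]
  exact Finset.sum_induction _ P hadd h0 fun i _ => hm _ _ _ _

theorem el_mem_mB [IsLocalRing R] {r : ℕ} {p : R[X]} (h : p.natDegree ≤ r * g.natDegree)
    (hp : p ∈ mB R R[X]) : el g r p h ∈ mB R (Out g) := by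
  rw [el_sum]
  exact Ideal.sum_mem _ fun i _ => Ideal.mul_mem_right _ _
    (Ideal.mem_map_of_mem _ (Ideal.mem_map_C_iff.1 hp i))

/-- An element is a constant plus an element vanishing at infinity. -/
theorem out_split [Nontrivial R] (hg : g.Monic) (a : Out g) :
    ∃ (c : R) (r : ℕ) (p : R[X]) (h : p.natDegree ≤ r * g.natDegree),
      (X * p).natDegree ≤ r * g.natDegree ∧ a = algebraMap R _ c + el g r p h := by
  obtain ⟨r, p, h, rfl⟩ := exists_el a
  have hd : (g ^ r).natDegree = r * g.natDegree := hg.natDegree_pow r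
  have h1 : (p %ₘ g ^ r).degree < (r * g.natDegree : ℕ) := by
    rw [← hd]
    exact (degree_modByMonic_lt p (hg.pow r)).trans_le degree_le_natDegree
  have h2 : (p /ₘ g ^ r).natDegree = 0 := by
    rw [natDegree_divByMonic p (hg.pow r), hd]
    omega
  refine ⟨(p /ₘ g ^ r).coeff 0, r, p %ₘ g ^ r, natDegree_le_iff_degree_le.2 h1.le, ?_, ?_⟩
  · refine natDegree_le_iff_coeff_eq_zero.2 fun N hN => ?_
    obtain ⟨N, rfl⟩ : ∃ N', N = N' + 1 := ⟨N - 1, by omega⟩
    rw [coeff_X_mul]
    exact coeff_eq_zero_of_degree_lt (h1.trans_le (by exact_mod_cast Nat.lt_succ_iff.1 hN))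
  · apply Subtype.ext
    rw [Subalgebra.coe_add, Subalgebra.coe_algebraMap, el_val, el_val, io_C,
      ← eq_C_of_natDegree_eq_zero h2]
    have h3 := congrArg (io g) (modByMonic_add_div p (g ^ r))
    simp only [io, map_add, map_mul, map_pow] at h3 ⊢
    linear_combination (-ti g ^ r) * h3 +
      (algebraMap R[X] (Localization.Away g) (p /ₘ g ^ r)) * io_ti_pow g r

/-- The ideal of the closed point at infinity. -/
def Iinf (g : R[X]) (hg : g.Monic) (m : Ideal R) : Ideal (Out g) where
  carrier := {x | ∃ r p h, x = el g r p h ∧ p.coeff (r * g.natDegree) ∈ m}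
  zero_mem' := ⟨0, 0, by simp, Subtype.ext (by rw [el_val]; simp), by simp⟩
  add_mem' := by
    rintro _ _ ⟨r, p, hp, rfl, h1⟩ ⟨s, q, hq, rfl, h2⟩
    refine ⟨r + s, p * g ^ s + q * g ^ r, natDegree_add_le_of_degree_le (deg_lift hp s)
      (add_comm s r ▸ deg_lift hq r), Subtype.ext ?_, ?_⟩
    · rw [Subalgebra.coe_add, el_val, el_val, el_val, io_lift g p r s, io_lift g q s r,
        add_comm s r]
      simp only [io, map_add]
      ring
    · rw [coeff_add]
      refine m.add_mem ?_ ?_
      · rw [add_mul, coeff_mul_add_eq_of_natDegree_le hp natDegree_pow_le]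
        exact m.mul_mem_right _ h1
      · rw [add_comm r s, add_mul, coeff_mul_add_eq_of_natDegree_le hq natDegree_pow_le]
        exact m.mul_mem_right _ h2
  smul_mem' := by
    rintro a _ ⟨s, q, hq, rfl, h2⟩
    obtain ⟨r, p, hp, rfl⟩ := exists_el a
    refine ⟨r + s, p * q, natDegree_mul_le.trans (by rw [add_mul]; exact add_le_add hp hq),
      Subtype.ext ?_, ?_⟩
    · rw [smul_eq_mul, Subalgebra.coe_mul, el_val, el_val, el_val]
      simp only [io, map_mul]
      ring
    · have _ := hg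
      rw [add_mul, coeff_mul_add_eq_of_natDegree_le hp hq]
      exact m.mul_mem_left _ h2

theorem mem_Iinf_C (hg : g.Monic) {m : Ideal R} {c : R} (h : algebraMap R _ c ∈ Iinf g hg m) :
    c ∈ m := by
  obtain ⟨r, p, hp, h1, h2⟩ := h
  have h3 : io g (C c) * ti g ^ 0 = io g p * ti g ^ r := by
    rw [pow_zero, mul_one, ← io_C]
    exact congrArg Subtype.val h1
  have h4 := cross hg h3
  rw [pow_zero, mul_one] at h4
  rw [← h4, coeff_C_mul, ← hg.natDegree_pow r, (hg.pow r).coeff_natDegree, mul_one] at h2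
  exact h2

theorem el_mem_Iinf (hg : g.Monic) (m : Ideal R) {p : R[X]} (h : p.natDegree < g.natDegree)
    (h' : p.natDegree ≤ 1 * g.natDegree) : el g 1 p h' ∈ Iinf g hg m :=
  ⟨1, p, h', rfl, by rw [one_mul, coeff_eq_zero_of_natDegree_lt h]; exact m.zero_mem⟩

section quot

variable {f : R[X]} (hf : f.natDegree ≤ 1 * g.natDegree)

theorem nzd_of_unit {j : ℕ} (hj : IsUnit (f.coeff j)) : f ∈ nonZeroDivisors R[X] :=
  Polynomial.mem_nonZeroDivisors_iff.2 fun a ha => by
    have := congrArg (fun p => p.coeff j) ha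
    simp only [coeff_smul, smul_eq_mul, coeff_zero] at this
    exact hj.mul_left_eq_zero.1 this

theorem ph_nzd (hg : g.Monic) {j : ℕ} (hj : IsUnit (f.coeff j)) :
    el g 1 f hf ∈ nonZeroDivisors (Out g) := by
  refine mem_nonZeroDivisors_iff_left.2 fun a ha => ?_
  obtain ⟨r, p, hp, rfl⟩ := exists_el a
  have h1 : io g (f * p) * ti g ^ (1 + r) = io g 0 * ti g ^ 0 := by
    have := congrArg Subtype.val ha
    rw [Subalgebra.coe_mul, el_val, el_val] at this
    simp only [io, map_mul, map_zero]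
    rw [zero_mul, ← Subalgebra.coe_zero (Out g), ← this]
    ring
  have h2 := cross hg h1
  rw [pow_zero, mul_one, zero_mul] at h2
  have h3 : p = 0 := mem_nonZeroDivisors_iff_left.1 (nzd_of_unit hj) p h2
  subst h3
  exact Subtype.ext (by simp)

theorem ph_red [Nontrivial R] (hg : g.Monic) (hc : IsCoprime f g) (a : Out g) :
    ∃ p h, el g 1 f hf ∣ a - el g 1 p h := by
  obtain ⟨r, p, hp, rfl⟩ := exists_el a
  induction r generalizing p with
  | zero =>
    exact ⟨p * g ^ 1, deg_lift hp 1, 0, by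
      rw [mul_zero, sub_eq_zero]
      exact Subtype.ext (io_lift g p 0 1)⟩
  | succ r ih =>
    rcases Nat.eq_zero_or_pos r with rfl | hr
    · exact ⟨p, hp, by simp⟩
    obtain ⟨s, s', hs⟩ := hc
    have h1 : ((p * s) %ₘ g).natDegree ≤ g.natDegree :=
      natDegree_le_natDegree (degree_modByMonic_lt _ hg).le
    have h2 : p - f * ((p * s) %ₘ g) = g * (p * s' + f * ((p * s) /ₘ g)) := by
      linear_combination (-p) * hs - f * modByMonic_add_div (p * s) g
    have hr' : g.natDegree ≤ r * g.natDegree := Nat.le_mul_of_pos_left _ hr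
    have h3 : (p * s' + f * ((p * s) /ₘ g)).natDegree ≤ r * g.natDegree := by
      by_cases h0 : p * s' + f * ((p * s) /ₘ g) = 0
      · rw [h0]
        simp
      have h4 := hg.natDegree_mul' h0
      rw [← h2] at h4
      have h5 : (p - f * ((p * s) %ₘ g)).natDegree ≤ (r + 1) * g.natDegree :=
        (natDegree_sub_le _ _).trans (max_le hp (natDegree_mul_le.trans (by
          rw [add_mul]
          omega)))
      rw [add_mul] at h5
      omega
    obtain ⟨p', h', hd⟩ := ih _ h3
    refine ⟨p', h', ?_⟩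
    have h6 : el g (r + 1) p hp = el g r _ h3 + el g 1 f hf * el g r _ (h1.trans hr') := by
      apply Subtype.ext
      rw [Subalgebra.coe_add, Subalgebra.coe_mul, el_val, el_val, el_val, el_val]
      have h7 := congrArg (io g) h2
      simp only [io, map_sub, map_mul] at h7 ⊢
      linear_combination (ti g ^ (r + 1)) * h7 +
        (io g (p * s' + f * ((p * s) /ₘ g)) * ti g ^ r) * io_ti g
    rw [h6, add_sub_right_comm]
    exact dvd_add hd (Dvd.intro _ rfl)

theorem ph_ker [Nontrivial R] (hg : g.Monic) (hc : IsCoprime f g) {j : ℕ}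
    (hj : IsUnit (f.coeff j)) {p : R[X]} (hp : p.natDegree ≤ 1 * g.natDegree)
    (h : el g 1 f hf ∣ el g 1 p hp) : ∃ c : R, p = c • f := by
  obtain ⟨a, ha⟩ := h
  obtain ⟨r, q, hq, rfl⟩ := exists_el a
  have h1 : io g p * ti g ^ 1 = io g (f * q) * ti g ^ (r + 1) := by
    have := congrArg Subtype.val ha
    rw [Subalgebra.coe_mul, el_val, el_val, el_val] at this
    rw [this]
    simp only [io, map_mul]
    ring
  have h2 : p * g ^ r = f * q := hg.isRegular.right (by
    have := cross hg h1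
    show _ * g = _ * g
    linear_combination this)
  obtain ⟨p', rfl⟩ : f ∣ p := (hc.pow_right (n := r)).dvd_of_dvd_mul_right ⟨q, h2⟩
  have h3 : g ^ r * p' - q = 0 := mem_nonZeroDivisors_iff_left.1 (nzd_of_unit hj) _
    (by linear_combination h2)
  by_cases h0 : p' = 0
  · exact ⟨0, by simp [h0]⟩
  have h4 := (hg.pow r).natDegree_mul' h0
  rw [sub_eq_zero.1 h3, hg.natDegree_pow] at h4
  have h5 : p'.natDegree = 0 := by omega
  exact ⟨p'.coeff 0, by rw [smul_eq_C_mul, ← eq_C_of_natDegree_eq_zero h5, mul_comm]⟩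

theorem deg_of_mem (p : degreeLT R (g.natDegree + 1)) : (p : R[X]).natDegree ≤ 1 * g.natDegree := by
  rw [one_mul]
  refine natDegree_le_iff_coeff_eq_zero.2 fun N hN => coeff_eq_zero_of_degree_lt ?_
  exact (mem_degreeLT.1 p.2).trans_le (by exact_mod_cast hN)

theorem mem_of_deg {p : R[X]} (h : p.natDegree ≤ 1 * g.natDegree) :
    p ∈ degreeLT R (g.natDegree + 1) :=
  mem_degreeLT.2 (degree_le_natDegree.trans_lt (by
    rw [one_mul] at h
    exact_mod_cast Nat.lt_succ_of_le h))

variable (g) in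
/-- The elements of level one. -/
noncomputable def lv1 : degreeLT R (g.natDegree + 1) →ₗ[R] Out g where
  toFun p := el g 1 p (deg_of_mem p)
  map_add' p q := Subtype.ext (by simp [io, add_mul])
  map_smul' c p := Subtype.ext (by
    rw [el_val, RingHom.id_apply, Subalgebra.coe_smul, el_val, Algebra.smul_def c, io_C,
      Submodule.coe_smul, smul_eq_C_mul]
    simp only [io, map_mul]
    ring)

theorem ph_FM [Nontrivial R] (hg : g.Monic) (hc : IsCoprime f g) : FM R (el g 1 f hf) := by
  have : Module.Finite R (degreeLT R (g.natDegree + 1)) :=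
    Module.Finite.equiv (degreeLTEquiv R _).symm
  refine ⟨LinearMap.range (lv1 g), Submodule.fg_range _, fun a => ?_⟩
  obtain ⟨p, h, hd⟩ := ph_red hf hg hc a
  exact ⟨_, ⟨⟨p, mem_of_deg h⟩, rfl⟩, hd⟩

theorem ph_free [IsLocalRing R] (hg : g.Monic) (hc : IsCoprime f g) {j : ℕ}
    (hj : IsUnit (f.coeff j)) : Module.Free R (Out g ⧸ Ideal.span {el g 1 f hf}) := by
  have := (ph_FM hf hg hc).finite
  have : Module.Free R (degreeLT R (g.natDegree + 1)) :=
    Module.Free.of_equiv (degreeLTEquiv R _).symm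
  obtain ⟨v, hv⟩ := hj
  let π := (Ideal.Quotient.mkₐ R (Ideal.span {el g 1 f hf})).toLinearMap ∘ₗ lv1 g
  have hπ : Function.Surjective π := fun x => by
    obtain ⟨a, rfl⟩ := Ideal.Quotient.mk_surjective x
    obtain ⟨p, h, hd⟩ := ph_red hf hg hc a
    exact ⟨⟨p, mem_of_deg h⟩, (Ideal.Quotient.eq.2 (Ideal.mem_span_singleton.2 hd)).symm⟩
  let F : degreeLT R (g.natDegree + 1) := ⟨f, mem_of_deg hf⟩
  let ρ : degreeLT R (g.natDegree + 1) →ₗ[R] degreeLT R (g.natDegree + 1) :=
    LinearMap.id - LinearMap.smulRight (lcoeff R j ∘ₗ Submodule.subtype _) (((v⁻¹ : Rˣ) : R) • F)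
  have hρ : ∀ p, ρ p = p - (p : R[X]).coeff j • ((v⁻¹ : Rˣ) : R) • F := fun p => rfl
  have hker : LinearMap.ker π ≤ LinearMap.ker ρ := fun p hp => by
    obtain ⟨c, hc'⟩ := ph_ker hf hg hc ⟨v, hv⟩ (deg_of_mem p)
      (Ideal.mem_span_singleton.1 (Ideal.Quotient.eq_zero_iff_mem.1 hp))
    rw [LinearMap.mem_ker, hρ, sub_eq_zero]
    apply Subtype.ext
    rw [Submodule.coe_smul, Submodule.coe_smul, smul_smul, hc', coeff_smul, ← hv, smul_eq_mul,
      mul_assoc, Units.mul_inv, mul_one]
  have hF : π F = 0 := Ideal.Quotient.eq_zero_iff_mem.2 (Ideal.mem_span_singleton_self _)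
  let σ := (LinearMap.ker π).liftQ ρ hker ∘ₗ (π.quotKerEquivOfSurjective hπ).symm.toLinearMap
  have : Module.Flat R (Out g ⧸ Ideal.span {el g 1 f hf}) :=
    Module.Flat.of_retract σ π (by
      refine LinearMap.ext fun x => ?_
      obtain ⟨p, rfl⟩ := hπ x
      have e : (π.quotKerEquivOfSurjective hπ).symm (π p) = Submodule.Quotient.mk p := by
        rw [LinearEquiv.symm_apply_eq]
        rfl
      show π ((LinearMap.ker π).liftQ ρ hker ((π.quotKerEquivOfSurjective hπ).symm (π p))) = π p
      rw [e, Submodule.liftQ_apply, hρ, map_sub, map_smul, map_smul, hF, smul_zero, smul_zero,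
        sub_zero])
  exact Module.free_of_flat_of_isLocalRing

end quot

end Pool.Agent.GF.Cov
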