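import Pool.Agent.P.MP_c1f06d_ag.f.Rat

/-! Commutative algebra for the final assembly. -/

set_option autoImplicit false

open Polynomial IsLocalRing

universe u

namespace Pool.Agent.GR.DC

open KL

variable {R : Type u} [CommRing R]

theorem exists_psi [Nontrivial R] {y : R[X]} (hy : y.Monic) (h0 : 0 < y.natDegree) {D : ℕ}
    (hD : 2 ≤ D) : ∃ ψ : R[X], ψ.Monic ∧ ψ.natDegree = D * y.natDegree ∧ ψ.coeff 0 = 0 ∧
      y ∣ ψ - X := by
  obtain ⟨c, rfl⟩ : ∃ c, D = c + 2 := ⟨D - 2, by omega⟩
  have hm : (X ^ ((c + 1) * y.natDegree) * y).Monic := (monic_X_pow _).mul hy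
  have hd : (X ^ ((c + 1) * y.natDegree) * y).natDegree = (c + 2) * y.natDegree := by
    rw [(monic_X_pow _).natDegree_mul hy, natDegree_X_pow]
    ring
  have hl : (X : R[X]).natDegree < (X ^ ((c + 1) * y.natDegree) * y).natDegree := by
    rw [hd, natDegree_X]
    nlinarith
  refine ⟨X ^ ((c + 1) * y.natDegree) * y + X, hm.add_of_left (degree_lt_degree hl),
    (natDegree_add_eq_left_of_natDegree_lt hl).trans hd, ?_, by simp⟩
  have : (c + 1) * y.natDegree ≠ 0 := by positivity
  simp [coeff_X_pow, this.symm]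

theorem coprime_comp {y ψ H : R[X]} (h : y ∣ ψ - X) (hc : IsCoprime y H) :
    IsCoprime (H.comp ψ) y := by
  have h1 : ψ - X ∣ H.comp ψ - H := by
    have := sub_dvd_eval_sub ψ X (H.map C)
    rwa [eval_map, eval_map, ← comp, ← comp, comp_X] at this
  obtain ⟨c, hc'⟩ := h.trans h1
  rw [show H.comp ψ = H + y * c by rw [← hc']; ring]
  exact hc.symm.add_mul_left_left c

theorem exists_theta {L : Type u} [CommRing L] [Algebra R L] {f a b w H : R[X]} {e : ℕ}
    (he : f.natDegree < e)
    (hs : ∑ i ∈ Finset.range (e + 1), C (f.coeff i) * a ^ i * b ^ (e - i) = H * w) (t : L)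
    (hH : IsUnit (aeval t H)) (hw : IsUnit (aeval t w)) :
    IsUnit (aeval t b) ∧ ∃ θ : Localization.Away f →ₐ[R] L,
      θ (algebraMap R[X] _ X) * aeval t b = aeval t a := by
  have h1 := congrArg (aeval t) hs
  simp only [map_sum, map_mul, map_pow, aeval_C] at h1
  have hu := hH.mul hw
  rw [← h1] at hu
  have hb : IsUnit (aeval t b) := by
    refine isUnit_of_dvd_unit (Finset.dvd_sum fun i hi => ?_) hu
    by_cases h : i = e
    · rw [h, coeff_eq_zero_of_natDegree_lt he]
      simp
    · exact (dvd_pow_self _ (by have := Finset.mem_range.1 hi; omega)).mul_left _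
  obtain ⟨b', hb'⟩ := hb.exists_right_inv
  have h2 : aeval (aeval t a * b') f * aeval t b ^ e =
      ∑ i ∈ Finset.range (e + 1), algebraMap R L (f.coeff i) * aeval t a ^ i *
        aeval t b ^ (e - i) := by
    rw [aeval_eq_sum_range' (n := e + 1) (by omega), Finset.sum_mul]
    refine Finset.sum_congr rfl fun i hi => ?_
    obtain ⟨j, rfl⟩ := Nat.exists_eq_add_of_le (Nat.lt_succ_iff.1 (Finset.mem_range.1 hi))
    have : (aeval t b * b') ^ i = 1 := by rw [hb', one_pow]
    rw [Algebra.smul_def, Nat.add_sub_cancel_left, mul_pow, pow_add]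
    rw [mul_pow] at this
    linear_combination algebraMap R L (f.coeff i) * aeval t a ^ i * aeval t b ^ j * this
  rw [← h2] at hu
  refine ⟨hb, IsLocalization.Away.liftAlgHom f (f := aeval (aeval t a * b'))
    (isUnit_of_mul_isUnit_left hu), ?_⟩
  rw [IsLocalization.Away.liftAlgHom_apply, IsLocalization.Away.lift_eq]
  simp only [RingHom.coe_coe, AlgHom.toRingHom_eq_coe, aeval_X]
  rw [mul_assoc, mul_comm b', hb', mul_one]

theorem away_apply {L : Type u} [CommRing L] [Algebra R L] {f : R[X]}
    (θ : Localization.Away f →ₐ[R] L) (p : R[X]) :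
    θ (algebraMap R[X] _ p) = aeval (θ (algebraMap R[X] _ X)) p := by
  have : θ.comp (IsScalarTower.toAlgHom R R[X] _) = aeval (θ (algebraMap R[X] _ X)) := by
    ext
    rw [aeval_X]
    rfl
  exact DFunLike.congr_fun this p

theorem away_ext {L : Type u} [CommRing L] {f : R[X]} {θ θ' : Localization.Away f →+* L}
    (h : ∀ p, θ (algebraMap R[X] _ p) = θ' (algebraMap R[X] _ p)) : θ = θ' :=
  IsLocalization.ringHom_ext (Submonoid.powers f) (RingHom.ext h)

theorem exists_pt {L : Type u} [CommRing L] [Algebra R L] {f : R[X]} {x : L}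
    (h : IsUnit (aeval x f)) :
    ∃ θ : Localization.Away f →ₐ[R] L, ∀ p, θ (algebraMap R[X] _ p) = aeval x p :=
  ⟨IsLocalization.Away.liftAlgHom f (f := aeval x) h, fun p => by
    rw [IsLocalization.Away.liftAlgHom_apply, IsLocalization.Away.lift_eq]; rfl⟩

theorem rat_ext {k L : Type u} [Field k] [CommRing L] {B B' : RatFunc k →+* L}
    (h : ∀ p, B (rf p) = B' (rf p)) : B = B' :=
  IsLocalization.ringHom_ext (nonZeroDivisors k[X]) (RingHom.ext h)

theorem aeval_rf {k : Type u} [Field k] [Algebra R k] (q : k[X]) (p : R[X]) :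
    aeval (rf q) p = rf ((p.map (algebraMap R k)).comp q) := by
  rw [rf, aeval_algebraMap_apply, comp_eq_aeval, aeval_map_algebraMap]

theorem exists_A {k : Type u} [Field k] [Algebra R k] {f : R[X]} (hf : f.map (algebraMap R k) ≠ 0)
    {v : RatFunc k} (hv : IsUnit (aeval v f)) :
    ∃ (A : Type u) (_ : CommRing A) (_ : Algebra k[X] A)
      (_ : IsLocalization.Away (f.map (algebraMap R k)) A) (ev ι : A →+* RatFunc k)
      (σ : Localization.Away f →+* A), (∀ p, ev (algebraMap k[X] A p) = aeval v p) ∧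
        (∀ p, ι (algebraMap k[X] A p) = rf p) ∧
        ∀ p, σ (algebraMap R[X] _ p) = algebraMap k[X] A (p.map (algebraMap R k)) :=
  ⟨Localization.Away (f.map (algebraMap R k)), inferInstance, inferInstance, inferInstance,
    IsLocalization.Away.lift (f.map (algebraMap R k)) (g := (aeval v : k[X] →ₐ[k] _))
      (by rwa [RingHom.coe_coe, aeval_map_algebraMap]),
    IsLocalization.Away.lift (f.map (algebraMap R k)) (g := algebraMap k[X] (RatFunc k))
      (rf_ne hf).isUnit,
    IsLocalization.Away.lift f (g := (algebraMap k[X] _).comp (mapRingHom (algebraMap R k)))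
      (IsLocalization.Away.algebraMap_isUnit (f.map (algebraMap R k))),
    fun p => IsLocalization.Away.lift_eq _ _ p, fun p => IsLocalization.Away.lift_eq _ _ p,
    fun p => IsLocalization.Away.lift_eq _ _ p⟩

variable [IsLocalRing R]

theorem pos_of_coeff {c : R[X]} (hm : c.Monic) (hc : c.coeff 0 ∈ maximalIdeal R) :
    0 < c.natDegree := by
  by_contra h
  rw [hm.natDegree_eq_zero.1 (by omega), coeff_one_zero] at hc
  exact (maximalIdeal.isMaximal R).ne_top ((Ideal.eq_top_iff_one _).2 hc)

theorem not_unit {c : R[X]} (hm : c.Monic) (hc : c.coeff 0 ∈ maximalIdeal R) :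
    ¬IsUnit (c.map (residue R)) := fun h => by
  have := natDegree_eq_zero_of_isUnit h
  rw [hm.natDegree_map] at this
  exact (pos_of_coeff hm hc).ne' this

end Pool.Agent.GR.DC
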