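import Pool.Agent.P.MP_c1f06d_ag.f.Const

open Matrix Polynomial IsLocalRing
open scoped TensorProduct

universe u

namespace Pool.Agent.GR.HS

variable {k : Type u} [Field k] {n : ℕ} (H : HS k n)

/-- Descent from an open part of the affine line when the residue field is finite. -/
def DCoreP : Prop :=
  ∀ (R S : Type u) [CommRing R] [IsDomain R] [IsLocalRing R] [Finite (ResidueField R)]
    [Algebra k R] [CommRing S] [Algebra R S] [Algebra k S] [IsScalarTower k R S] [Module.Flat R S]
    (x1 x2 : H.B →ₐ[k] S) (f : R[X]), f.map (residue R) ≠ 0 →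
    ∀ τ : GL (Fin n) (Localization.Away f), H.Fr R x1 x2 τ →
    ∀ (O : Type u) [CommRing O] [Algebra R O] [Algebra k O] [IsScalarTower k R O]
      [Module.Finite R O] [Module.Free R O] [Nontrivial O] [Algebra.Etale R O],
      IsReduced (ResidueField R ⊗[R] O) → ∀ x0 : O, IsUnit (aeval x0 f) → ∀ γ : GL (Fin n) O,
      (∀ (T : Type u) [CommRing T] [Algebra R T] [Algebra k T] [IsScalarTower k R T]
        (i : O →ₐ[R] T) (g : GL (Fin n) T),
          H.Fr R x2 x2 g ↔ (gm i γ)⁻¹ * g * gm i γ ∈ H.G T) →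
      ∀ H1 : HS (ResidueField R) n,
      (∀ (T : Type u) [CommRing T] [Algebra R T] [Algebra (ResidueField R) T]
        [IsScalarTower R (ResidueField R) T] (g : GL (Fin n) T),
          g ∈ H1.G T ↔ H.Fr R x2 x2 g) →
      ∃ g : GL (Fin n) R, H.Fr R x1 x2 g

end Pool.Agent.GR.HS
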