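import Pool.Agent.P.MP_c1f06d_ag.f.DCore
import Pool.Agent.P.MP_c1f06d_ag.f.DStmt

set_option autoImplicit false

open Matrix

universe u

namespace Pool.Agent.GR.HS

variable {k : Type u} [Field k] {n r : ℕ} (H : HS k n) (χ : Fin n → Fin r → ℤ)

theorem frame_of_tor (hT : H.Tor χ (eps k χ)) (hs : Submodule.span ℤ (Set.range χ) = ⊤)
    (Ω : Type u) [Field Ω] [Algebra k Ω] : H.Frame χ (H.pt Ω) := by
  have h1 := hT.map (Algebra.ofId k Ω)
  have h2 : (fun x => (eps k χ x).map (Algebra.ofId k Ω)) = fe (1 : GL (Fin n) Ω) χ := by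
    funext x
    unfold fe eps
    rw [diagonal_map (map_zero _), inv_one, Units.val_one, Matrix.one_mul, Matrix.mul_one]
    congr 1
    funext i
    split_ifs
    exacts [map_one _, map_zero _]
  rw [h2] at h1
  have h3 := h1.frame hs
  rwa [inv_one, H.act_one] at h3

theorem dcoreP (hT : H.Tor χ (eps k χ)) (hs : Submodule.span ℤ (Set.range χ) = ⊤)
    (hp : ∀ (K : Type u) [Field K] [Algebra k K], (H.van K).IsPrime) : H.DCoreP := by
  intro R S _ _ _ _ _ _ _ _ _ _ x1 x2 f hf τ hτ O _ _ _ _ _ _ _ _ hred x0 hx0 γ hγ H1 hG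
  exact dcore H χ (H.frame_of_tor χ hT hs) hp R S x1 x2 f hf τ hτ O hred x0 hx0 γ hγ H1
    fun T _ _ _ _ g => hG T g

end Pool.Agent.GR.HS
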