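import Pool.Agent.P.MP_c1f06d_ag.r.Inf
import Pool.Agent.P.MP_c1f06d_ag.r.CL

/-! Specialising the universal point of a torus, and attraction with bounded entries. -/

set_option autoImplicit false

open Matrix

universe u

namespace Pool.Agent.GF

open Pool.Agent.GR

section spec

variable {k : Type u} [Field k] {n : ℕ} {A A' : Type u} [CommRing A] [Algebra k A] [CommRing A']
  [Algebra k A']

/-- The map `A[ℤ] → A'` with `u ↦ t`. -/
noncomputable def spec (f : A →ₐ[k] A') (t : A'ˣ) : GA A ℤ →ₐ[k] A' :=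
  AddMonoidAlgebra.liftNCAlgHom f ((Units.coeHom A').comp (zpowersHom A'ˣ t))
    fun _ _ => Commute.all _ _

theorem spec_single (f : A →ₐ[k] A') (t : A'ˣ) (δ : ℤ) (a : A) :
    spec f t (AddMonoidAlgebra.single δ a) = f a * ((t ^ δ : A'ˣ) : A') := by
  rw [spec, AddMonoidAlgebra.coe_liftNCAlgHom]
  exact AddMonoidAlgebra.liftNC_single _ _ _ _

theorem spec_const (f : A →ₐ[k] A') (t : A'ˣ) :
    (spec f t).comp (IsScalarTower.toAlgHom k A (GA A ℤ)) = f := by
  ext a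
  show spec f t (AddMonoidAlgebra.single 0 a) = f a
  rw [spec_single, zpow_zero, Units.val_one, mul_one]

theorem gm_spec_rho (f : A →ₐ[k] A') (t : A'ˣ) (c : Fin n → ℤ) :
    gm (spec f t) (rho A c) = dgU fun i => t ^ c i := by
  refine Units.ext (Matrix.ext fun i j => ?_)
  rw [gm_apply]
  show spec f t (diagonal (fun i => AddMonoidAlgebra.single (c i) (1 : A)) i j) =
    diagonal (fun i => ((t ^ c i : A'ˣ) : A')) i j
  by_cases h : i = j
  · subst h
    rw [diagonal_apply_eq, diagonal_apply_eq, spec_single, map_one, one_mul]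
  · rw [diagonal_apply_ne _ h, diagonal_apply_ne _ h, map_zero]

theorem gm_dgU (f : A →ₐ[k] A') (t : Fin n → Aˣ) :
    gm f (dgU t) = dgU fun i => Units.map (f : A →* A') (t i) := by
  refine Units.ext (Matrix.ext fun i j => ?_)
  rw [gm_apply]
  show f (diagonal (fun i => (t i : A)) i j) = diagonal (fun i => f (t i)) i j
  by_cases h : i = j
  · subst h
    rw [diagonal_apply_eq, diagonal_apply_eq]
  · rw [diagonal_apply_ne _ h, diagonal_apply_ne _ h, map_zero]

theorem dgU_mul (t t' : Fin n → Aˣ) : dgU t * dgU t' = dgU fun i => t i * t' i :=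
  Units.ext (by
    show diagonal _ * diagonal _ = diagonal _
    rw [diagonal_mul_diagonal]
    rfl)

variable (H : HS k n)

theorem spec_orb (f : A →ₐ[k] A') (t : A'ˣ) (c : Fin n → ℤ) (y : H.B →ₐ[k] A) :
    (spec f t).comp (H.orb c y) = H.act (dgU fun i => t ^ c i) (f.comp y) := by
  rw [HS.orb, H.act_nat, gm_spec_rho, ← AlgHom.comp_assoc, spec_const]

theorem act_of_fixed (f : A →ₐ[k] A') (t : A'ˣ) {c : Fin n → ℤ} {y : H.B →ₐ[k] A}
    (h : H.Fixed c y) : H.act (dgU fun i => t ^ c i) (f.comp y) = f.comp y := by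
  rw [← spec_orb, h, ← AlgHom.comp_assoc, spec_const]

theorem cf_dgU (t : Aˣ) (c : Fin n → ℤ) (y : H.B →ₐ[k] A) (δ : ℤ) (b : H.B) :
    H.cf c (H.act (dgU fun i => t ^ c i) y) δ b = ((t ^ δ : Aˣ) : A) * H.cf c y δ b := by
  let ι := IsScalarTower.toAlgHom k A (GA A ℤ)
  let τ : (GA A ℤ)ˣ := uu A (1 : ℤ) * Units.map (ι : A →* GA A ℤ) t
  have hu : ∀ m : ℤ, uu A (1 : ℤ) ^ m = uu A m := by
    intro m
    let φ : Multiplicative ℤ →* (GA A ℤ)ˣ := MonoidHom.mk' (fun x => uu A x.toAdd) fun x x' =>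
      Units.ext (by
        show (AddMonoidAlgebra.single (x.toAdd + x'.toAdd) 1 : GA A ℤ) =
          AddMonoidAlgebra.single x.toAdd 1 * AddMonoidAlgebra.single x'.toAdd 1
        rw [AddMonoidAlgebra.single_mul_single, one_mul])
    have := map_zpow φ (Multiplicative.ofAdd 1) m
    rw [← ofAdd_zsmul, smul_eq_mul, mul_one] at this
    exact this.symm
  have hτ : ∀ m : ℤ, τ ^ m = uu A m * Units.map (ι : A →* GA A ℤ) (t ^ m) := by
    intro m
    rw [mul_zpow, hu, map_zpow]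
  have e : H.orb c (H.act (dgU fun i => t ^ c i) y) = (spec ι τ).comp (H.orb c y) := by
    rw [spec_orb, HS.orb, H.act_nat, ← H.act_mul, gm_dgU, rho, dgU_mul]
    simp only [hτ]
    rfl
  have e2 : ∀ φ : GA A ℤ, (spec ι τ φ).coeff δ = ((t ^ δ : Aˣ) : A) * φ.coeff δ := by
    intro φ
    induction φ using AddMonoidAlgebra.induction_linear with
    | zero => simp
    | add a b ha hb => simp only [map_add, AddMonoidAlgebra.coeff_add, Finsupp.add_apply, ha, hb,
        mul_add]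
    | single m a =>
      rw [spec_single, hτ]
      show (AddMonoidAlgebra.single 0 a * (AddMonoidAlgebra.single m 1 *
        AddMonoidAlgebra.single 0 ((t ^ m : Aˣ) : A)) : GA A ℤ).coeff δ = _
      rw [AddMonoidAlgebra.single_mul_single, AddMonoidAlgebra.single_mul_single]
      simp only [AddMonoidAlgebra.coeff_single, zero_add, add_zero, one_mul, Finsupp.single_apply]
      split_ifs with h
      · rw [h, mul_comm]
      · rw [mul_zero]
  rw [HS.cf, e, AlgHom.comp_apply, e2, HS.cf]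

theorem fixed_map (f : A →ₐ[k] A') {c : Fin n → ℤ} {y : H.B →ₐ[k] A} (h : H.Fixed c y) :
    H.Fixed c (f.comp y) :=
  (H.fixed_iff _ _).2 fun δ hδ b => by rw [H.cf_nat, (H.fixed_iff _ _).1 h δ hδ b, map_zero]

end spec

section attr

variable {k : Type u} [Field k] {n : ℕ} {A : Type u} [CommRing A] [Algebra k A] (H : HS k n)
  {Γ : Type} [AddCommGroup Γ]

theorem cf_zero_of_fixed {c : Fin n → Γ} {y : H.B →ₐ[k] A} (h : H.Fixed c y) (b : H.B) :
    H.cf c y 0 b = y b := by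
  rw [HS.cf, h]
  show (AddMonoidAlgebra.single 0 (y b) : GA A Γ).coeff 0 = y b
  simp

/-- The part of a graded family in weights at least `j`. -/
def cut (w : Γ →+ ℤ) (S : Γ → Submodule k A) (j : ℕ) (δ : Γ) : Submodule k A :=
  if (j : ℤ) ≤ w δ then S δ else ⊥

theorem mem_cut {w : Γ →+ ℤ} {S : Γ → Submodule k A} {j : ℕ} {δ : Γ} {x : A} :
    x ∈ cut w S j δ ↔ x ∈ S δ ∧ (w δ < j → x = 0) := by
  unfold cut
  split_ifs with h
  · exact ⟨fun hx => ⟨hx, fun h' => absurd h (not_le.2 h')⟩, fun hx => hx.1⟩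
  · rw [Submodule.mem_bot]
    exact ⟨fun hx => ⟨hx ▸ (S δ).zero_mem, fun _ => hx⟩, fun hx => hx.2 (not_le.1 h)⟩

/-- Attraction with entries in graded families `J ≤ S` that vanish in weights `≤ 0` outside
degree zero. -/
theorem attr_sub (w : Γ →+ ℤ) (S J : Γ → Submodule k A) (le : ∀ δ, J δ ≤ S δ)
    (one : (1 : A) ∈ S 0) (mul : ∀ δ δ' x y, x ∈ S δ → y ∈ S δ' → x * y ∈ S (δ + δ'))
    (mulJ : ∀ δ δ' x y, x ∈ S δ → y ∈ J δ' → x * y ∈ J (δ + δ'))
    (neg : ∀ δ, δ ≠ 0 → w δ ≤ 0 → ∀ x ∈ S δ, x = 0) (c : Fin n → Γ) (y : H.B →ₐ[k] A)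
    (hy : ∀ δ b, H.cf c y δ b ∈ S δ) (hJ : ∀ δ, δ ≠ 0 → ∀ b, H.cf c y δ b ∈ J δ) :
    ∃ p : GL (Fin n) A, (∀ i j, ((p : Mat n A) - 1) i j ∈ cut w J 1 (c i - c j)) ∧
      (∀ i j, (((p⁻¹ : GL (Fin n) A) : Mat n A) - 1) i j ∈ cut w J 1 (c i - c j)) ∧
      H.Fixed c (H.act p y) ∧ ∀ b, H.act p y b ∈ S 0 := by
  have ai : ∀ (j : ℕ) δ δ' x y, x ∈ S δ → y ∈ cut w J j δ' → x * y ∈ cut w J j (δ + δ') := by
    intro j δ δ' x y hx hy
    rw [mem_cut] at hy ⊢
    refine ⟨mulJ _ _ _ _ hx hy.1, fun h => ?_⟩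
    rw [map_add] at h
    by_cases h0 : δ = 0
    · rw [h0, map_zero, zero_add] at h
      rw [hy.2 h, mul_zero]
    by_cases hδ : w δ ≤ 0
    · rw [neg δ h0 hδ x hx, zero_mul]
    · rw [hy.2 (by omega), mul_zero]
  have mono : ∀ (j j' : ℕ), j ≤ j' → ∀ δ, cut w J j' δ ≤ cut w J j δ := by
    intro j j' hj δ x hx
    rw [mem_cut] at hx ⊢
    exact ⟨hx.1, fun h => hx.2 (by omega)⟩
  have g3 : ∀ j : ℕ, Gr3 S (cut w J (j + 1)) (cut w J (j + 2)) := by
    intro j
    refine ⟨fun δ x hx => le δ (mem_cut.1 hx).1, mono _ _ (by omega), one, mul, ai _, ai _, ?_, ?_⟩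
    · intro δ δ' x y hx hy
      rw [mem_cut] at hx hy ⊢
      refine ⟨mulJ _ _ _ _ (le _ hx.1) hy.1, fun h => ?_⟩
      rw [map_add] at h
      push_cast at h hx hy
      by_cases hδ : w δ < j + 1
      · rw [hx.2 hδ, zero_mul]
      · rw [hy.2 (by omega), mul_zero]
    · intro x hx
      refine ⟨1, one, ?_⟩
      rw [(mem_cut.1 hx).2 (by rw [map_zero]; push_cast; omega), add_zero, one_mul]
  have prod : ∀ p q : Mat n A, (∀ i j, (p - 1) i j ∈ cut w J 1 (c i - c j)) →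
      (∀ i j, (q - 1) i j ∈ cut w J 1 (c i - c j)) →
      ∀ i j, (p * q - 1) i j ∈ cut w J 1 (c i - c j) := by
    intro p q hp hq i l
    have e : p * q - 1 = (p - 1) * (q - 1) + (p - 1) + (q - 1) := by noncomm_ring
    rw [e, Matrix.add_apply, Matrix.add_apply, mul_apply]
    refine add_mem (add_mem (Submodule.sum_mem _ fun s _ => ?_) (hp i l)) (hq i l)
    have e : c i - c l = c i - c s + (c s - c l) := by abel
    rw [e]
    exact ai _ _ _ _ _ (le _ (mem_cut.1 (hp i s)).1) (hq s l)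
  have step : ∀ j : ℕ, ∃ p : GL (Fin n) A,
      (∀ i j, ((p : Mat n A) - 1) i j ∈ cut w J 1 (c i - c j)) ∧
      (∀ i j, (((p⁻¹ : GL (Fin n) A) : Mat n A) - 1) i j ∈ cut w J 1 (c i - c j)) ∧
      (∀ δ b, H.cf c (H.act p y) δ b ∈ S δ) ∧
      ∀ δ, δ ≠ 0 → ∀ b, H.cf c (H.act p y) δ b ∈ cut w J (j + 1) δ := by
    intro j
    induction j with
    | zero =>
      refine ⟨1, fun i j => by simp, fun i j => by simp, by simpa only [H.act_one] using hy,
        fun δ hδ b => ?_⟩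
      rw [H.act_one, mem_cut]
      exact ⟨hJ δ hδ b, fun h => neg δ hδ (by push_cast at h; omega) _ (hy δ b)⟩
    | succ j ih =>
      obtain ⟨p, hp, hp', ha, hi⟩ := ih
      obtain ⟨q, hq, hq', ha', hi'⟩ := H.cl (g3 j) c (H.act p y) ha hi
      refine ⟨q * p, ?_, ?_, by simpa only [H.act_mul] using ha',
        by simpa only [H.act_mul] using hi'⟩
      · exact prod _ _ (fun i l => mono _ _ (by omega) _ (hq i l)) hp
      · rw [_root_.mul_inv_rev]
        exact prod _ _ hp' fun i l => mono _ _ (by omega) _ (hq' i l)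
  obtain ⟨s, hs⟩ := (Algebra.FiniteType.out : (⊤ : Subalgebra k H.B).FG)
  obtain ⟨N, hN⟩ : ∃ N : ℕ, ∀ b ∈ s, ∀ δ, (N : ℤ) ≤ w δ →
      H.cf c (AlgHom.id k H.B) δ b = 0 := by
    classical
    obtain ⟨N, hN⟩ := ((s.biUnion fun b =>
      (H.orb c (AlgHom.id k H.B) b).coeff.support).image w).bddAbove
    refine ⟨N.toNat + 1, fun b hb δ hδ => ?_⟩
    by_contra hne
    have : w δ ≤ N := hN (Finset.mem_coe.2 (Finset.mem_image_of_mem w
      (Finset.mem_biUnion.2 ⟨b, hb, Finsupp.mem_support_iff.2 hne⟩)))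
    push_cast at hδ
    omega
  obtain ⟨p, hp, hp', ha, hi⟩ := step N
  have hfix : H.Fixed c (H.act p y) := by
    rw [H.fixed_iff]
    refine (H.gen (A := S) (I := fun _ => ⊥) one mul ?_ c _ hs (fun b _ δ => ha δ b) ?_).2
    · intro δ δ' x y _ hy
      rw [Submodule.mem_bot] at hy ⊢
      rw [hy, mul_zero]
    · intro b hb δ hδ
      rw [Submodule.mem_bot]
      by_cases h : (N : ℤ) ≤ w δ
      · rw [H.cf_eq, hN b hb δ h, map_zero]
      · exact (mem_cut.1 (hi δ hδ b)).2 (by push_cast; omega)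
  exact ⟨p, hp, hp', hfix, fun b => cf_zero_of_fixed H hfix b ▸ ha 0 b⟩

end attr

end Pool.Agent.GF
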