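import Pool.Agent.P.MP_c1f06d_ag.r.Attr
import Pool.Agent.P.MP_c1f06d_ag.r.LU
import Pool.Agent.P.MP_c1f06d_ag.r.Lang

/-! The subgroup generated by two opposite unipotent subgroups. -/

set_option autoImplicit false

open Matrix

universe u

namespace Pool.Agent.GR

section mat

variable {n : ℕ} {A A' : Type u} [CommRing A] [CommRing A']

theorem InU.map {a : Fin n → ℤ} {M : Mat n A} (h : InU a M) (f : A →+* A') :
    InU a (M.map f) := by
  rw [inU_iff] at h ⊢
  intro i j e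
  have := congrArg f (h i j e)
  rw [map_zero, Matrix.sub_apply, map_sub] at this
  rw [Matrix.sub_apply, map_apply, ← this]
  congr 1
  by_cases hij : i = j <;> simp [hij, one_apply]

theorem InU.conj {a : Fin n → ℤ} {l : GL (Fin n) A} (hl : InL a (l : Mat n A)) {M : Mat n A}
    (h : InU a M) : InU a ((l : Mat n A) * M * ((l⁻¹ : GL (Fin n) A) : Mat n A)) := by
  refine ⟨(hl.inP.mul h.1).mul hl.inv.inP, ?_⟩
  rw [(hl.inP.mul h.1).lv_mul hl.inv.inP, hl.inP.lv_mul h.1, h.2, mul_one, hl.lv_eq,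
    hl.inv.lv_eq, Units.mul_inv]

theorem InL.neg {a : Fin n → ℤ} {M : Mat n A} (h : InL a M) : InL (-a) M :=
  fun i j e => h i j fun e' => e (by simp [e'])

/-- The unipotent matrix with given free entries. -/
def umat (a : Fin n → ℤ) (v : Fin n × Fin n → A) : Mat n A :=
  of fun i j => if a j < a i then v (i, j) else (1 : Mat n A) i j

theorem inU_umat (a : Fin n → ℤ) (v : Fin n × Fin n → A) : InU a (umat a v) :=
  inU_iff.2 fun i j e => by simp [umat, not_lt.2 e]

theorem umat_map (a : Fin n → ℤ) (v : Fin n × Fin n → A) (f : A →+* A') :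
    (umat a v).map f = umat a fun p => f (v p) := by
  ext i j
  simp only [umat, map_apply, of_apply, one_apply]
  split_ifs <;> simp

theorem InU.umat_eq {a : Fin n → ℤ} {M : Mat n A} (h : InU a M) :
    umat a (fun p => M p.1 p.2) = M := by
  ext i j
  simp only [umat, of_apply]
  split_ifs with e
  · rfl
  · exact (sub_eq_zero.1 (inU_iff.1 h i j (not_lt.1 e))).symm

theorem De_cases (a : Fin n → ℤ) (m : ℤ) :
    (∀ M : Mat n A, De a m M = 1) ∨ ∃ i, ∀ M : Mat n A, De a m M = De a (a i) M := by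
  by_cases h : ∃ i, m ≤ a i
  · obtain ⟨i, hi, hmin⟩ := Finset.exists_min_image (Finset.univ.filter fun i => m ≤ a i) a
      (by obtain ⟨i, hi⟩ := h; exact ⟨i, by simp [hi]⟩)
    simp only [Finset.mem_filter, Finset.mem_univ, true_and] at hi hmin
    refine Or.inr ⟨i, fun M => ?_⟩
    have : Ege A a m = Ege A a (a i) := by
      unfold Ege
      congr 1
      funext j
      by_cases e : m ≤ a j
      · simp [e, hmin j e]
      · have : ¬ a i ≤ a j := fun e' => e (hi.trans e')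
        simp [e, this]
    rw [De, De, crn, crn, this]
  · push Not at h
    refine Or.inl fun M => ?_
    have : Ege A a m = 0 := by
      ext i j
      simp [Ege, diagonal_apply, not_le.2 (h i)]
    simp [De, crn, this]

theorem dgU_comm {ι : Type} {c : Fin n → ι} (d : Fin n → Aˣ) (hd : ∀ i j, c i = c j → d i = d j)
    {l : GL (Fin n) A} (hl : InL c (l : Mat n A)) : l * dgU d = dgU d * l := by
  ext i j
  show ((l : Mat n A) * diagonal fun i => (d i : A)) i j =
    ((diagonal fun i => (d i : A)) * (l : Mat n A)) i j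
  rw [mul_diagonal, diagonal_mul]
  by_cases e : c i = c j
  · rw [hd i j e, mul_comm]
  · rw [hl i j e, mul_zero, zero_mul]

end mat

namespace HS

variable {k : Type u} [Field k] {n : ℕ} (H : HS k n) {A A' : Type u} [CommRing A] [Algebra k A]
  [CommRing A'] [Algebra k A']

theorem Fixed.pt {H : HS k n} {Γ : Type} [AddCommGroup Γ] {c : Fin n → Γ}
    (hy : H.Fixed c (H.pt k)) (A : Type u) [CommRing A] [Algebra k A] : H.Fixed c (H.pt A) := by
  have := hy.comp (Algebra.ofId k A)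
  rwa [show (Algebra.ofId k A).comp (H.pt k) = H.pt A from AlgHom.ext fun _ => rfl] at this

theorem Fixed.neg {H : HS k n} {Γ : Type} [AddCommGroup Γ] {c : Fin n → Γ} {y : H.B →ₐ[k] A}
    (hy : H.Fixed c y) : H.Fixed (-c) y := by
  have h : H.act (rho A c) ((IsScalarTower.toAlgHom k A (GA A Γ)).comp y) =
    (IsScalarTower.toAlgHom k A (GA A Γ)).comp y := hy
  show H.act (rho A (-c)) _ = _
  rw [rho_neg]
  conv_lhs => rw [← h, ← H.act_mul, inv_mul_cancel, H.act_one]

/-- Attraction to a fixed point, with control modulo an ideal. -/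
theorem attrJ (a : Fin n → ℤ) (J : Ideal A) (y : H.B →ₐ[k] A)
    (h1 : ∀ δ, δ < 0 → ∀ b, H.cf a y δ b = 0) (h2 : ∀ δ, 0 < δ → ∀ b, H.cf a y δ b ∈ J) :
    ∃ p : GL (Fin n) A, InU a (p : Mat n A) ∧ (∀ i j, ((p : Mat n A) - 1) i j ∈ J) ∧
      H.Fixed a (H.act p y) := by
  let S : ℤ → Submodule k A := fun δ => if 0 ≤ δ then ⊤ else ⊥
  let I : ℕ → ℤ → Submodule k A := fun j δ => if (j : ℤ) < δ then J.restrictScalars k else ⊥
  have mS : ∀ δ x, x ∈ S δ ↔ (δ < 0 → x = 0) := by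
    intro δ x
    by_cases h : 0 ≤ δ
    · simp [S, h]
    · simp [S, h, not_le.1 h]
  have mI : ∀ j δ x, x ∈ I j δ ↔ x ∈ J ∧ (δ ≤ j → x = 0) := by
    intro j δ x
    by_cases h : (j : ℤ) < δ
    · simp [I, h]
    · simp only [I, h, if_false, Submodule.mem_bot, not_lt.1 h, forall_const]
      exact ⟨fun e => ⟨e ▸ J.zero_mem, e⟩, fun e => e.2⟩
  have ai : ∀ (j : ℕ) δ δ' x y, x ∈ S δ → y ∈ I j δ' → x * y ∈ I j (δ + δ') := by
    intro j δ δ' x y hx hy
    rw [mS] at hx
    rw [mI] at hy ⊢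
    refine ⟨J.mul_mem_left _ hy.1, fun h => ?_⟩
    by_cases e : δ < 0
    · rw [hx e, zero_mul]
    · rw [hy.2 (by omega), mul_zero]
  have g3 : ∀ j, Gr3 S (I j) (I (j + 1)) := fun j =>
    { le1 := fun δ x hx => (mS δ x).2 fun h => ((mI j δ x).1 hx).2 (by omega)
      le2 := fun δ x hx => (mI j δ x).2 ⟨((mI _ δ x).1 hx).1,
        fun h => ((mI _ δ x).1 hx).2 (by push_cast; omega)⟩
      one := (mS 0 1).2 fun h => absurd h (lt_irrefl _)
      aa := by
        intro δ δ' x y hx hy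
        rw [mS] at hx hy ⊢
        intro h
        by_cases e : δ < 0
        · rw [hx e, zero_mul]
        · rw [hy (by omega), mul_zero]
      ai := ai j
      ai' := ai (j + 1)
      ii := by
        intro δ δ' x y hx hy
        rw [mI] at hx hy ⊢
        refine ⟨J.mul_mem_left _ hy.1, fun h => ?_⟩
        by_cases e : δ ≤ j
        · rw [hx.2 e, zero_mul]
        · rw [hy.2 (by push_cast at h; omega), mul_zero]
      inv := by
        intro x hx
        rw [((mI j 0 x).1 hx).2 (by omega)]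
        exact ⟨1, (mS 0 1).2 fun h => absurd h (lt_irrefl _), by simp⟩ }
  have key : ∀ j : ℕ, ∃ p : GL (Fin n) A, InU a (p : Mat n A) ∧
      (∀ i l, ((p : Mat n A) - 1) i l ∈ J) ∧ (∀ δ b, H.cf a (H.act p y) δ b ∈ S δ) ∧
      ∀ δ, δ ≠ 0 → ∀ b, H.cf a (H.act p y) δ b ∈ I j δ := by
    intro j
    induction j with
    | zero =>
      refine ⟨1, InU.one a, fun i l => by simp, ?_, ?_⟩
      · intro δ b
        rw [H.act_one]
        exact (mS _ _).2 fun h => h1 δ h b
      · intro δ hδ b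
        rw [H.act_one, mI]
        rcases lt_or_gt_of_ne hδ with e | e
        · rw [h1 δ e b]; exact ⟨J.zero_mem, fun _ => rfl⟩
        · exact ⟨h2 δ e b, fun h => by omega⟩
    | succ j ih =>
      obtain ⟨p, p1, p2, p3, p4⟩ := ih
      obtain ⟨q, q1, -, q3, q4⟩ := H.cl (g3 j) a (H.act p y) p3 p4
      rw [← H.act_mul] at q3 q4
      refine ⟨q * p, InU.mul (inU_iff.2 fun i l e => ((mI _ _ _).1 (q1 i l)).2 (by omega)) p1,
        fun i l => ?_, q3, q4⟩
      have e : ((q * p : GL (Fin n) A) : Mat n A) - 1 =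
          ((q : Mat n A) - 1) * (p : Mat n A) + ((p : Mat n A) - 1) := by
        rw [Units.val_mul, sub_mul, one_mul]; abel
      rw [e, Matrix.add_apply, mul_apply]
      exact J.add_mem (J.sum_mem fun m _ => J.mul_mem_right _ ((mI _ _ _).1 (q1 i m)).1) (p2 i l)
  obtain ⟨s, hs⟩ := H.ft.out
  obtain ⟨N, hN⟩ : ∃ N : ℕ, ∀ b ∈ s, ∀ δ : ℤ, (N : ℤ) < δ →
      H.cf a (AlgHom.id k H.B) δ b = 0 := by
    classical
    obtain ⟨B, hB⟩ := (s.biUnion fun b => (H.orb a (AlgHom.id k H.B) b).coeff.support).bddAbove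
    refine ⟨B.toNat, fun b hb δ hδ => ?_⟩
    by_contra h
    have := hB (Finset.mem_coe.2 (Finset.mem_biUnion.2 ⟨b, hb, Finsupp.mem_support_iff.2 h⟩))
    omega
  obtain ⟨p, p1, p2, -, p4⟩ := key N
  refine ⟨p, p1, p2, (H.fixed_iff a _).2 ?_⟩
  refine (H.gen (A := fun _ => ⊤) (I := fun _ => ⊥) Submodule.mem_top
    (fun _ _ _ _ _ _ => Submodule.mem_top) ?_ a (H.act p y) hs
    (fun _ _ _ => Submodule.mem_top) ?_).2
  · intro δ δ' x y _ hy
    rw [Submodule.mem_bot] at hy ⊢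
    rw [hy, mul_zero]
  · intro b hb δ hδ
    rw [Submodule.mem_bot]
    by_cases e : δ ≤ N
    · exact ((mI _ _ _).1 (p4 δ hδ b)).2 e
    · rw [cf_eq, hN b hb δ (not_le.1 e), map_zero]

/-- A unipotent matrix that fixes `y` modulo `J` is congruent to one that fixes `y`. -/
theorem ucorr (a : Fin n → ℤ) (J : Ideal A) {y : H.B →ₐ[k] A} (hy : H.Fixed a y)
    (v : GL (Fin n) A) (hv : InU a (v : Mat n A)) (hJ : ∀ b, H.act v y b - y b ∈ J) :
    ∃ u ∈ H.St y, InU a (u : Mat n A) ∧ ∀ i j, (u : Mat n A) i j - (v : Mat n A) i j ∈ J := by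
  have e : (Ideal.Quotient.mkₐ k J).comp (H.act v y) = (Ideal.Quotient.mkₐ k J).comp y :=
    AlgHom.ext fun b => Ideal.Quotient.eq.2 (hJ b)
  obtain ⟨p, p1, p2, p3⟩ := H.attrJ a J (H.act v y) (H.half_pos a hy v hv.1).1 (by
    intro δ hδ b
    have h1 := (H.fixed_iff a _).1 (hy.comp (Ideal.Quotient.mkₐ k J)) δ hδ.ne' b
    rw [← e, cf_nat] at h1
    exact Ideal.Quotient.eq_zero_iff_mem.1 h1)
  rw [← H.act_mul] at p3
  have hu : InU a ((p * v : GL (Fin n) A) : Mat n A) := p1.mul hv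
  obtain ⟨-, l, h3, h4⟩ := H.half_pos a hy (p * v) hu.1
  rw [hu.2] at h3
  have hl : l = 1 := Units.ext h3
  refine ⟨p * v, AlgHom.ext fun b => ?_, hu, fun i j => ?_⟩
  · rw [← p3.cf_zero, ← h4, hl, H.act_one]
  · have e2 : ((p * v : GL (Fin n) A) : Mat n A) - (v : Mat n A) =
        ((p : Mat n A) - 1) * (v : Mat n A) := by rw [Units.val_mul, sub_mul, one_mul]
    rw [← Matrix.sub_apply, e2, mul_apply]
    exact J.sum_mem fun m _ => J.mul_mem_right _ (p2 i m)

/-- ULIFT. -/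
theorem ulift (a : Fin n → ℤ) (f : A →ₐ[k] A') (hf : Function.Surjective f) {y : H.B →ₐ[k] A}
    (hy : H.Fixed a y) {u' : GL (Fin n) A'} (h1 : u' ∈ H.St (f.comp y))
    (h2 : InU a (u' : Mat n A')) : ∃ u ∈ H.St y, InU a (u : Mat n A) ∧ gm f u = u' := by
  choose s hs using hf
  obtain ⟨v, hv⟩ := (inU_umat a fun p => s ((u' : Mat n A') p.1 p.2)).isUnit
  have e : gm f v = u' := by
    refine Units.ext ?_
    show (v : Mat n A).map (f : A →+* A') = _
    rw [hv, umat_map]
    simp only [RingHom.coe_coe, hs]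
    exact h2.umat_eq
  obtain ⟨u, u1, u2, u3⟩ := H.ucorr a (RingHom.ker f) hy v (hv ▸ inU_umat a _) (by
    intro b
    have h3 : H.act u' (f.comp y) = f.comp y := h1
    have h4 := DFunLike.congr_fun (H.act_nat f v y) b
    rw [e, h3] at h4
    rw [RingHom.mem_ker, map_sub]
    exact sub_eq_zero.2 h4)
  refine ⟨u, u1, u2, ?_⟩
  rw [← e]
  ext i j
  have := u3 i j
  rw [RingHom.mem_ker, map_sub, sub_eq_zero] at this
  exact this

/-- RET: a polynomial retraction onto the unipotent subgroup. -/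
theorem ret (a : Fin n → ℤ) (ha : H.Fixed a (H.pt k)) (K : Type u) [CommRing K] [Algebra k K] :
    ∃ r ∈ H.G (MvPolynomial (Fin n × Fin n) K), InU a (r : Mat n (MvPolynomial (Fin n × Fin n) K)) ∧
      ∀ (A : Type u) [CommRing A] [Algebra k A] [Algebra K A] [IsScalarTower k K A],
        ∀ u ∈ H.G A, InU a (u : Mat n A) →
          gm (MvPolynomial.aeval (R := K) fun p : Fin n × Fin n => (u : Mat n A) p.1 p.2) r = u := by
  obtain ⟨v, hv⟩ := (inU_umat a (MvPolynomial.X (R := K) (σ := Fin n × Fin n))).isUnit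
  obtain ⟨r, r1, r2, r3⟩ := H.ucorr a
    (Ideal.span (Set.range fun b => H.act v (H.pt _) b - H.pt _ b)) (ha.pt _) v
    (hv ▸ inU_umat a _) fun b => Ideal.subset_span ⟨b, rfl⟩
  refine ⟨r, r1, r2, fun A _ _ _ _ u hu hU => ?_⟩
  set φ := MvPolynomial.aeval (R := K) fun p : Fin n × Fin n => (u : Mat n A) p.1 p.2 with hφ
  have e : gm φ v = u := by
    refine Units.ext ?_
    show (v : Mat n _).map (φ : MvPolynomial (Fin n × Fin n) K →+* A) = _
    rw [hv, umat_map]
    simp only [RingHom.coe_coe, hφ, MvPolynomial.aeval_X]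
    exact hU.umat_eq
  have hk : Ideal.span (Set.range fun b => H.act v (H.pt _) b - H.pt _ b) ≤ RingHom.ker φ := by
    rw [Ideal.span_le]
    rintro _ ⟨b, rfl⟩
    have h1 : (φ.restrictScalars k).comp (H.pt _) = H.pt A := by
      ext b; simp [HS.pt, ← IsScalarTower.algebraMap_apply]
    have h2 := H.act_nat (φ.restrictScalars k) v (H.pt _)
    have h3 : H.act u (H.pt A) = H.pt A := hu
    rw [h1, show gm (φ.restrictScalars k) v = u from e, h3, ← h1] at h2
    show φ _ = 0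
    rw [map_sub]
    exact sub_eq_zero.2 (DFunLike.congr_fun h2 b)
  rw [← e]
  ext i j
  have := hk (r3 i j)
  rw [RingHom.mem_ker, map_sub, sub_eq_zero] at this
  exact this

/-- F1: every point can be moved into the big cell by a unipotent element. -/
theorem exists_big (a : Fin n → ℤ) (ha : H.Fixed a (H.pt k)) (K : Type u) [Field K] [Algebra k K]
    [Infinite K] (hp : (H.van K).IsPrime) {g : GL (Fin n) K} (hg : g ∈ H.G K) :
    ∃ u ∈ H.G K, InU a (u : Mat n K) ∧ ∀ m, De a m ((u * g : GL (Fin n) K) : Mat n K) ≠ 0 := by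
  obtain ⟨r, r1, r2, r3⟩ := H.ret a ha K
  let L := FractionRing (H.OG K)
  let ι : H.OG K →ₐ[K] L := IsScalarTower.toAlgHom K (H.OG K) L
  have hι : Function.Injective ι := IsFractionRing.injective (H.OG K) L
  have nz : ∀ g ∈ H.G K, ∀ m,
      De a m ((gm ι (LG.uG H K) * gm (Algebra.ofId K L) g : GL (Fin n) L) : Mat n L) ≠ 0 := by
    intro g hg m h
    have e1 : gm ι (LG.uG H K) * gm (Algebra.ofId K L) g =
        gm ι (LG.uG H K * gm (Algebra.ofId K (H.OG K)) g) := by
      rw [map_mul]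
      congr 1
    have e2 := De_map (ι : H.OG K →+* L) a m
      ((LG.uG H K * gm (Algebra.ofId K (H.OG K)) g : GL (Fin n) _) : Mat n _)
    rw [e1] at h
    have h0 := hι ((e2.symm.trans h).trans (map_zero ι).symm)
    let ψ := LG.evG H K ((H.G K).inv_mem hg)
    have e3 : gm ψ (LG.uG H K * gm (Algebra.ofId K (H.OG K)) g) = 1 := by
      rw [map_mul, LG.gm_evG_uG]
      have : gm ψ (gm (Algebra.ofId K (H.OG K)) g) = g := by
        ext i j
        exact ψ.commutes _
      rw [this, inv_mul_cancel]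
    have e4 := De_map (ψ : H.OG K →+* K) a m
      ((LG.uG H K * gm (Algebra.ofId K (H.OG K)) g : GL (Fin n) _) : Mat n _)
    rw [h0, map_zero] at e4
    have e5 : De a m ((1 : GL (Fin n) K) : Mat n K) = 0 := by rw [← e3]; exact e4
    rw [Units.val_one, De_one] at e5
    exact one_ne_zero e5
  obtain ⟨um, -, l, -, up, hup, e, h1, h2, h3⟩ := H.lu a (ha.pt L) (LG.gm_uG_mem H K ι)
    fun m => isUnit_iff_ne_zero.2 (by simpa using nz 1 (H.G K).one_mem m)
  let F : ℤ → MvPolynomial (Fin n × Fin n) K := fun m =>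
    De a m ((r * gm (Algebra.ofId K _) g : GL (Fin n) _) : Mat n _)
  have hF : ∀ (A : Type u) [CommRing A] [Algebra K A] (φ : MvPolynomial (Fin n × Fin n) K →ₐ[K] A)
      (m : ℤ), φ (F m) =
        De a m ((gm φ r * gm (Algebra.ofId K A) g : GL (Fin n) A) : Mat n A) := by
    intro A _ _ φ m
    have e1 : gm φ r * gm (Algebra.ofId K A) g = gm φ (r * gm (Algebra.ofId K _) g) := by
      rw [map_mul]
      congr 1
      ext i j
      exact (φ.commutes _).symm
    rw [e1]
    exact (De_map (φ : MvPolynomial (Fin n × Fin n) K →+* A) a m _).symm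
  have hF0 : ∀ m, F m ≠ 0 := by
    intro m h
    have h4 := hF L (MvPolynomial.aeval fun p : Fin n × Fin n => (up : Mat n L) p.1 p.2) m
    rw [h, map_zero, r3 L up hup h3] at h4
    refine nz g hg m ?_
    rw [e, mul_assoc, Units.val_mul, Units.val_mul, mul_assoc, De_mul_left h1.1,
      De_mul_left h2.inP', ← h4, mul_zero, mul_zero]
  obtain ⟨v, hv⟩ : ∃ v, MvPolynomial.eval v (∏ i, F (a i)) ≠ 0 := by
    by_contra h
    push Not at h
    exact Finset.prod_ne_zero_iff.2 (fun i _ => hF0 (a i))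
      (MvPolynomial.funext fun v => by rw [h v, map_zero])
  refine ⟨gm (MvPolynomial.aeval (R := K) v) r,
    LG.gm_mem H ((MvPolynomial.aeval (R := K) v).restrictScalars k) r1, r2.map _, fun m => ?_⟩
  rcases De_cases (A := K) a m with h | ⟨i, h⟩
  · rw [h]; exact one_ne_zero
  · have h5 := hF K (MvPolynomial.aeval v) (a i)
    have h6 : gm (Algebra.ofId K K) g = g := Units.ext rfl
    rw [h6] at h5
    rw [h, ← h5]
    rw [map_prod, Finset.prod_ne_zero_iff] at hv
    exact hv i (Finset.mem_univ i)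

/-- The group generated by the two opposite unipotent subgroups. -/
def Gp (a : Fin n → ℤ) (A : Type u) [CommRing A] [Algebra k A] : Subgroup (GL (Fin n) A) :=
  Subgroup.closure {u | u ∈ H.G A ∧ (InU a (u : Mat n A) ∨ InU (-a) (u : Mat n A))}

theorem Gp_le (a : Fin n → ℤ) : H.Gp a A ≤ H.G A := (Subgroup.closure_le _).2 fun _ h => h.1

theorem Gp_conj_levi (a : Fin n → ℤ) {l w : GL (Fin n) A} (hl : l ∈ H.G A)
    (hL : InL a (l : Mat n A)) (hw : w ∈ H.Gp a A) : l * w * l⁻¹ ∈ H.Gp a A := by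
  have : H.Gp a A ≤ (H.Gp a A).comap (MulAut.conj l).toMonoidHom := by
    refine (Subgroup.closure_le _).2 fun u hu => Subgroup.subset_closure ⟨?_, ?_⟩
    · exact (H.G A).mul_mem ((H.G A).mul_mem hl hu.1) ((H.G A).inv_mem hl)
    · exact hu.2.imp (InU.conj hL) (InU.conj hL.neg)
  exact this hw

theorem Gp_map (a : Fin n → ℤ) (f : A →ₐ[k] A') {w : GL (Fin n) A} (hw : w ∈ H.Gp a A) :
    gm f w ∈ H.Gp a A' := by
  have : H.Gp a A ≤ (H.Gp a A').comap (gm f) :=
    (Subgroup.closure_le _).2 fun u hu => Subgroup.subset_closure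
      ⟨LG.gm_mem H f hu.1, hu.2.imp (fun h => h.map _) fun h => h.map _⟩
  exact this hw

section field

variable (a : Fin n → ℤ) (ha : H.Fixed a (H.pt k)) (K : Type u) [Field K] [Algebra k K]
  [Infinite K] (hp : (H.van K).IsPrime)

include ha hp

theorem exists_Gp_mul {g : GL (Fin n) K} (hg : g ∈ H.G K) :
    ∃ w ∈ H.Gp a K, ∃ l ∈ H.G K, InL a (l : Mat n K) ∧ g = w * l := by
  obtain ⟨u, u1, u2, u3⟩ := H.exists_big a ha K hp hg
  obtain ⟨um, m1, l, l1, up, p1, e, h1, h2, h3⟩ := H.lu a (ha.pt K) ((H.G K).mul_mem u1 hg)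
    fun m => (u3 m).isUnit
  refine ⟨u⁻¹ * um * (l * up * l⁻¹), ?_, l, l1, h2, ?_⟩
  · exact (H.Gp a K).mul_mem ((H.Gp a K).mul_mem
      ((H.Gp a K).inv_mem (Subgroup.subset_closure ⟨u1, Or.inl u2⟩))
      (Subgroup.subset_closure ⟨m1, Or.inr h1⟩))
      (H.Gp_conj_levi a l1 h2 (Subgroup.subset_closure ⟨p1, Or.inl h3⟩))
  · rw [← inv_mul_cancel_left u g, e]
    group

/-- GP: normality. -/
theorem Gp_conj {g w : GL (Fin n) K} (hg : g ∈ H.G K) (hw : w ∈ H.Gp a K) :
    g * w * g⁻¹ ∈ H.Gp a K := by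
  obtain ⟨w', w1, l, l1, l2, rfl⟩ := H.exists_Gp_mul a ha K hp hg
  have e : w' * l * w * (w' * l)⁻¹ = w' * (l * w * l⁻¹) * w'⁻¹ := by group
  rw [e]
  exact (H.Gp a K).mul_mem ((H.Gp a K).mul_mem w1 (H.Gp_conj_levi a l1 l2 hw))
    ((H.Gp a K).inv_mem w1)

/-- GP: a diagonal point that is constant on the weight spaces is central modulo `Gp`. -/
theorem Gp_comm (d : Fin n → Kˣ) (hd : ∀ i j, a i = a j → d i = d j) (ht : dgU d ∈ H.G K)
    {g : GL (Fin n) K} (hg : g ∈ H.G K) : g * dgU d * g⁻¹ * (dgU d)⁻¹ ∈ H.Gp a K := by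
  obtain ⟨w, w1, l, -, l2, rfl⟩ := H.exists_Gp_mul a ha K hp hg
  have e : w * l * dgU d * (w * l)⁻¹ * (dgU d)⁻¹ = w * (dgU d * w⁻¹ * (dgU d)⁻¹) := by
    rw [mul_assoc w l, dgU_comm d hd l2]
    group
  rw [e]
  exact (H.Gp a K).mul_mem w1 (H.Gp_conj a ha K hp ht ((H.Gp a K).inv_mem w1))

end field

/-- Points of `Gp` lift along jointly surjective maps. -/
theorem Gp_lift (a : Fin n → ℤ) (ha : H.Fixed a (H.pt k)) {ι : Type*} [Finite ι]
    (K : ι → Type u) [∀ z, CommRing (K z)] [∀ z, Algebra k (K z)] (ρ : ∀ z, A →ₐ[k] K z)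
    (hρ : ∀ x : ∀ z, K z, ∃ s, ∀ z, ρ z s = x z) (w : ∀ z, GL (Fin n) (K z))
    (hw : ∀ z, w z ∈ H.Gp a (K z)) : ∃ η ∈ H.Gp a A, ∀ z, gm (ρ z) η = w z := by
  classical
  have key : ∀ b : Fin n → ℤ, H.Fixed b (H.pt k) → ∀ u : ∀ z, GL (Fin n) (K z),
      (∀ z, u z ∈ H.G (K z) ∧ InU b (u z : Mat n (K z))) →
      ∃ η ∈ H.G A, InU b (η : Mat n A) ∧ ∀ z, gm (ρ z) η = u z := by
    intro b hb u hu
    obtain ⟨r, r1, r2, r3⟩ := H.ret b hb k
    choose s hs using fun p : Fin n × Fin n => hρ fun z => (u z : Mat n (K z)) p.1 p.2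
    refine ⟨gm (MvPolynomial.aeval s) r, LG.gm_mem H _ r1, r2.map _, fun z => ?_⟩
    rw [← r3 (K z) (u z) (hu z).1 (hu z).2]
    have : (ρ z).comp (MvPolynomial.aeval s) = MvPolynomial.aeval
        fun p : Fin n × Fin n => (u z : Mat n (K z)) p.1 p.2 := by
      ext p; simp [hs]
    rw [← this]
    exact Units.ext rfl
  let S : Subgroup (∀ z, GL (Fin n) (K z)) := (H.Gp a A).map (MonoidHom.pi fun z => gm (ρ z))
  have hS : w ∈ S := by
    refine Subgroup.pi_mem_of_mulSingle_mem w fun z => ?_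
    have : H.Gp a (K z) ≤ S.comap (MonoidHom.mulSingle (fun z => GL (Fin n) (K z)) z) := by
      refine (Subgroup.closure_le _).2 fun u hu => ?_
      have hb : ∀ b : Fin n → ℤ, InU b (u : Mat n (K z)) → ∀ z',
          Pi.mulSingle (M := fun z => GL (Fin n) (K z)) z u z' ∈ H.G (K z') ∧
          InU b ((Pi.mulSingle (M := fun z => GL (Fin n) (K z)) z u z' : GL (Fin n) (K z')) :
            Mat n (K z')) := by
        intro b hb z'
        by_cases e : z' = z
        · subst e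
          rw [Pi.mulSingle_eq_same]
          exact ⟨hu.1, hb⟩
        · rw [Pi.mulSingle_eq_of_ne e]
          exact ⟨(H.G _).one_mem, InU.one b⟩
      rcases hu.2 with h | h
      · obtain ⟨η, η1, η2, η3⟩ := key a ha _ (hb a h)
        exact ⟨η, Subgroup.subset_closure ⟨η1, Or.inl η2⟩, funext η3⟩
      · obtain ⟨η, η1, η2, η3⟩ := key (-a) ha.neg _ (hb (-a) h)
        exact ⟨η, Subgroup.subset_closure ⟨η1, Or.inr η2⟩, funext η3⟩
    exact this (hw z)
  obtain ⟨η, η1, η2⟩ := hS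
  exact ⟨η, η1, fun z => congrFun η2 z⟩

end HS

end Pool.Agent.GR
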