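import Pool.Agent.P.MP_c1f06d_ag.r.Weyl

open Matrix

universe u

namespace Pool.Agent.GR.HS

variable {k : Type u} [Field k] {n r : ℕ} {H : HS k n} {Ω : Type u} [Field Ω] [Algebra k Ω]
  {χ : Fin n → Fin r → ℤ} {y : H.B →ₐ[k] Ω}

/-- WK: the conjugates of a cocharacter under the Weyl group add up to a central one. -/
theorem Frame.wk (F : H.Frame χ y) (a₀ : (Fin r → ℤ) →+ ℤ) :
    ∃ (d : ℕ) (nj : Fin d → GL (Fin n) Ω) (aj : Fin d → Fin n → ℤ), d ∣ (XX χ).card.factorial ∧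
      (∀ j, nj j ∈ H.St y) ∧
      (∀ j (s : Ωˣ), nj j * dgU (fun i => s ^ a₀ (χ i)) * (nj j)⁻¹ = dgU fun i => s ^ aj j i) ∧
      ∀ x ∈ H.St y, InL (∑ j, aj j) (x : Mat n Ω) := by
  classical
  let ε := (Fintype.equivFin (H.WG χ y)).symm
  choose g hg h using fun σ : H.WG χ y => σ.2
  choose a' ha' using fun σ : H.WG χ y => F.wg_add σ.2 a₀
  have hν : ∀ x : XX χ, (∑ σ, a' σ) x = ∑ σ : H.WG χ y, a₀ (σ.1 x) := fun x => by
    simp [ha']
  refine ⟨_, fun j => g (ε j), fun j i => a' (ε j) (χ i), ?_, fun j => hg _, fun j s => ?_,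
    fun x hx => ?_⟩
  · have := Subgroup.card_subgroup_dvd_card (H.WG χ y)
    rwa [Nat.card_eq_fintype_card, Nat.card_eq_fintype_card, Fintype.card_perm,
      Fintype.card_coe] at this
  · have hi : Intw (fun i => a' (ε j) (χ i)) (fun l => a₀ (χ l)) (g (ε j) : Mat n Ω) :=
      fun i l e => by
        have h1 := congrFun (congrFun (h (ε j) ⟨χ i, chi_XX χ i⟩) i) l
        have h2 : χ l ≠ (ε j).1 ⟨χ i, chi_XX χ i⟩ := fun e' =>
          e ((ha' (ε j) ⟨χ i, chi_XX χ i⟩).trans (congrArg a₀ e').symm)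
        simpa [eps, diagonal_mul, mul_diagonal, h2] using h1
    rw [mul_inv_eq_iff_eq_mul]
    exact Units.ext (hi.diag_mul fun m => ((s ^ m : Ωˣ) : Ω)).symm
  · have e : (∑ j, fun i => a' (ε j) (χ i)) = fun i => (∑ σ, a' σ) (χ i) := by
      funext i
      rw [Finset.sum_apply, ε.sum_comp fun σ => a' σ (χ i)]
      simp
    rw [e]
    exact F.wg_central (fun τ hτ x => by
      rw [hν, hν]
      exact Equiv.sum_comp (Equiv.mulRight (⟨τ, hτ⟩ : H.WG χ y))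
        fun σ : H.WG χ y => a₀ (σ.1 x)) hx

/-- CONJ for the values of a cocharacter. -/
theorem Frame.conj_val (F : H.Frame χ y) {a : Fin n → ℤ} {β : GL (Fin n) Ω}
    (hβ : H.Fixed a (H.act β⁻¹ y)) : ∃ a₀ : (Fin r → ℤ) →+ ℤ, ∃ g ∈ H.St y, ∀ s : Ωˣ,
      β * dgU (fun i => s ^ a i) * β⁻¹ = g⁻¹ * dgU (fun i => s ^ a₀ (χ i)) * g := by
  obtain ⟨a₀, g, hg, -, hi⟩ := F.conj (fixed_zero (Γ := ℤ) _) hβ fun _ _ h => absurd rfl h
  refine ⟨a₀, g, hg, fun s => ?_⟩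
  have h : dgU (fun i => s ^ a₀ (χ i)) * (g * β) = g * β * dgU fun i => s ^ a i :=
    Units.ext (hi.diag_mul fun m => ((s ^ m : Ωˣ) : Ω))
  calc β * dgU (fun i => s ^ a i) * β⁻¹ = g⁻¹ * (g * β * dgU fun i => s ^ a i) * β⁻¹ := by group
    _ = _ := by
      rw [← h]
      group

end Pool.Agent.GR.HS
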