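import Pool.Agent.P.MP_c1f06d_ag.f.Kill
import Pool.Agent.P.MP_c1f06d_ag.f.WK
import Pool.Agent.P.MP_c1f06d_ag.f.Gplus
import Pool.Agent.P.MP_c1f06d_ag.f.GHb

/-! The closed fibre: pull back, base change, and the modification along `y`. -/

set_option autoImplicit false

open Matrix Polynomial

universe u

namespace Pool.Agent.GR.KL

variable {n : ℕ}

section ingl

variable {R A : Type u} [CommRing R] [CommRing A] [Algebra R A] {S : Subalgebra R A}

theorem InGL.inv {g : GL (Fin n) A} (h : InGL S g) : InGL S g⁻¹ := ⟨h.2, h.1⟩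

theorem InGL.mul {g g' : GL (Fin n) A} (h : InGL S g) (h' : InGL S g') : InGL S (g * g') := by
  refine ⟨fun i j => ?_, fun i j => ?_⟩
  · rw [Units.val_mul, mul_apply]
    exact S.sum_mem fun l _ => S.mul_mem (h.1 _ _) (h'.1 _ _)
  · rw [_root_.mul_inv_rev, Units.val_mul, mul_apply]
    exact S.sum_mem fun l _ => S.mul_mem (h'.2 _ _) (h.2 _ _)

theorem InGL.mono {S' : Subalgebra R A} (hS : S ≤ S') {g : GL (Fin n) A} (h : InGL S g) :
    InGL S' g := ⟨fun i j => hS (h.1 i j), fun i j => hS (h.2 i j)⟩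

theorem inGL_const (S : Subalgebra R A) (g : GL (Fin n) R) :
    InGL S (GeneralLinearGroup.map (algebraMap R A) g) :=
  ⟨fun _ _ => S.algebraMap_mem _, fun _ _ => S.algebraMap_mem _⟩

theorem InGL.map {R' A' : Type u} [CommRing R'] [CommRing A'] [Algebra R' A']
    {S' : Subalgebra R' A'} (F : A →+* A') (hF : ∀ x ∈ S, F x ∈ S') {g : GL (Fin n) A}
    (h : InGL S g) : InGL S' (GeneralLinearGroup.map F g) :=
  ⟨fun i j => hF _ (h.1 i j), fun i j => hF _ (h.2 i j)⟩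

theorem inGL_rv (a : Fin n → ℤ) {s : Aˣ} (h1 : (s : A) ∈ S) (h2 : ((s⁻¹ : Aˣ) : A) ∈ S) :
    InGL S (rv a s) := by
  have h : ∀ m : ℤ, ((s ^ m : Aˣ) : A) ∈ S := fun m => by
    obtain ⟨N, rfl | rfl⟩ := m.eq_nat_or_neg
    · rw [zpow_natCast, Units.val_pow_eq_pow_val]
      exact S.pow_mem h1 N
    · rw [_root_.zpow_neg, zpow_natCast, ← inv_pow, Units.val_pow_eq_pow_val]
      exact S.pow_mem h2 N
  refine ⟨fun i j => ?_, fun i j => ?_⟩
  · show diagonal (fun i => ((s ^ a i : Aˣ) : A)) i j ∈ S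
    rw [diagonal_apply]
    split_ifs
    exacts [h _, S.zero_mem]
  · show diagonal (fun i => (((s ^ a i)⁻¹ : Aˣ) : A)) i j ∈ S
    rw [diagonal_apply, ← _root_.zpow_neg]
    split_ifs
    exacts [h _, S.zero_mem]

theorem rv_mul (a : Fin n → ℤ) (s t : Aˣ) : rv a (s * t) = rv a s * rv a t := by
  ext1
  rw [Units.val_mul, rv_val, rv_val, rv_val, diagonal_mul_diagonal]
  simp [mul_zpow]

theorem map_rv {A' : Type u} [CommRing A'] (F : A →+* A') (a : Fin n → ℤ) (s : Aˣ) :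
    GeneralLinearGroup.map F (rv a s) = rv a (Units.map (F : A →* A') s) := by
  ext1
  show (diagonal fun i => ((s ^ a i : Aˣ) : A)).map F = _
  rw [diagonal_map (map_zero F), rv_val]
  congr 1
  funext i
  rw [← map_zpow]
  rfl

end ingl

section lf

variable {κ k : Type u} [Field κ] [Field k] [Algebra κ k]

/-- The map of rational function fields induced by an injective map of polynomial rings. -/
noncomputable def lf (F : κ[X] →ₐ[κ] k[X]) (hF : Function.Injective F) :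
    RatFunc κ →ₐ[κ] RatFunc k :=
  IsFractionRing.liftAlgHom (g := (IsScalarTower.toAlgHom κ k[X] (RatFunc k)).comp F)
    ((RatFunc.algebraMap_injective k).comp hF)

variable {F : κ[X] →ₐ[κ] k[X]} {hF : Function.Injective F}

theorem lf_rf (p : κ[X]) : lf F hF (rf p) = rf (F p) :=
  IsFractionRing.lift_algebraMap (g := ((IsScalarTower.toAlgHom κ k[X] (RatFunc k)).comp F :
    κ[X] →+* RatFunc k)) ((RatFunc.algebraMap_injective k).comp hF) p

theorem lf_PP {h : κ[X]} {x : RatFunc κ} (hx : x ∈ PP h) : lf F hF x ∈ PP (F h) := by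
  obtain ⟨N, p, e⟩ := mem_PP.1 hx
  exact mem_PP.2 ⟨N, F p, by rw [← map_pow, ← lf_rf (hF := hF), ← map_mul, e, lf_rf]⟩

theorem lf_OL {h : κ[X]} {x : RatFunc κ} (hx : x ∈ OL h) : lf F hF x ∈ OL (F h) := by
  obtain ⟨w, p, hw, e⟩ := mem_OL.1 hx
  exact mem_OL.2 ⟨F w, F p, hw.map (F : κ[X] →+* k[X]), by
    rw [← lf_rf (hF := hF), ← map_mul, e, lf_rf]⟩

theorem lf_OI {c : ℕ} (hc : ∀ p, (F p).natDegree = p.natDegree * c) {x : RatFunc κ}
    (hx : x ∈ OI κ) : lf F hF x ∈ OI k := by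
  obtain ⟨p, q, hq, hd, e⟩ := hx
  exact ⟨F p, F q, fun h => hq (hF (h.trans (map_zero F).symm)), by
    rw [hc, hc]; exact Nat.mul_le_mul_right c hd, by rw [← lf_rf (hF := hF), ← map_mul, e, lf_rf]⟩

theorem comp_inj {ψ : κ[X]} (hψ : 0 < ψ.natDegree) :
    Function.Injective (aeval ψ : κ[X] →ₐ[κ] κ[X]) := by
  refine (injective_iff_map_eq_zero _).2 fun p hp => ?_
  rw [← comp_eq_aeval] at hp
  rcases comp_eq_zero_iff.1 hp with h | ⟨-, h⟩
  · exact h
  · rw [h, natDegree_C] at hψ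
    exact absurd hψ (lt_irrefl 0)

/-- Pull back along `X ↦ ψ`. -/
noncomputable def pb (ψ : κ[X]) (hψ : 0 < ψ.natDegree) : RatFunc κ →ₐ[κ] RatFunc κ :=
  lf (aeval ψ) (comp_inj hψ)

theorem pb_rf (ψ : κ[X]) (hψ : 0 < ψ.natDegree) (p : κ[X]) : pb ψ hψ (rf p) = rf (p.comp ψ) := by
  rw [pb, lf_rf, comp_eq_aeval]

variable (κ k) in
/-- Extension of the constants. -/
noncomputable def bc : RatFunc κ →ₐ[κ] RatFunc k :=
  lf (mapAlgHom (Algebra.ofId κ k)) (map_injective _ (algebraMap κ k).injective)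

theorem bc_rf (p : κ[X]) : bc κ k (rf p) = rf (p.map (algebraMap κ k)) := lf_rf p

end lf

section pull

variable {κ : Type u} [Field κ]

/-- A nonzero polynomial as a unit. -/
noncomputable def ru (p : κ[X]) (hp : p ≠ 0) : (RatFunc κ)ˣ := Units.mk0 (rf p) (rf_ne hp)

/-- The value of the cocharacter in the frame `β`. -/
noncomputable def lam {K : Type u} [CommRing K] [Algebra κ K] (β : GL (Fin n) κ) (a : Fin n → ℤ)
    (s : Kˣ) : GL (Fin n) K :=
  GeneralLinearGroup.map (algebraMap κ K) β * rv a s * (GeneralLinearGroup.map (algebraMap κ K) β)⁻¹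

theorem lam_mul {K : Type u} [CommRing K] [Algebra κ K] (β : GL (Fin n) κ) (a : Fin n → ℤ)
    (s t : Kˣ) : lam β a (s * t) = lam β a s * lam β a t := by
  simp only [lam, rv_mul, mul_assoc, inv_mul_cancel_left]

theorem inGL_lam {K : Type u} [CommRing K] [Algebra κ K] {S : Subalgebra κ K} (β : GL (Fin n) κ)
    (a : Fin n → ℤ) {s : Kˣ} (h1 : (s : K) ∈ S) (h2 : ((s⁻¹ : Kˣ) : K) ∈ S) :
    InGL S (lam β a s) :=
  ((inGL_const S β).mul (inGL_rv a h1 h2)).mul (inGL_const S β).inv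

theorem gm_lam {K K' : Type u} [CommRing K] [Algebra κ K] [CommRing K'] [Algebra κ K']
    (F : K →ₐ[κ] K') (β : GL (Fin n) κ) (a : Fin n → ℤ) (s : Kˣ) :
    gm F (lam β a s) = lam β a (Units.map (F : K →* K') s) := by
  have e : gm F (GeneralLinearGroup.map (algebraMap κ K) β) =
      GeneralLinearGroup.map (algebraMap κ K') β :=
    Units.ext (Matrix.ext fun i j => F.commutes _)
  rw [lam, map_mul, map_mul, map_inv, e, lam]
  exact congrArg (fun t => _ * t * _) (map_rv (F : K →+* K') a s)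

theorem rf_mem_fr (M : Submonoid κ[X]) (p : κ[X]) : rf p ∈ fr M :=
  ⟨1, M.one_mem, p, by rw [rf, rf, map_one, mul_one]⟩

theorem inv_mem_fr {M : Submonoid κ[X]} {p w : κ[X]} (hp : p ≠ 0) (hw : w ∈ M) (h : p ∣ w) :
    (rf p)⁻¹ ∈ fr M := by
  obtain ⟨c, rfl⟩ := h
  exact ⟨_, hw, c, by rw [rf, rf, map_mul, inv_mul_cancel_left₀ (rf_ne hp)]⟩

theorem PP_le_PP (h y : κ[X]) : PP h ≤ PP (h * y) := fun x hx => by
  obtain ⟨N, p, e⟩ := mem_PP.1 hx
  exact mem_PP.2 ⟨N, p * y ^ N, by rw [mul_pow, rf, rf, map_mul, map_mul, ← mul_assoc, e]⟩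

theorem PP_le_OL {h y : κ[X]} (hc : IsCoprime h y) : PP h ≤ OL y := fun x hx => by
  obtain ⟨N, p, e⟩ := mem_PP.1 hx
  exact mem_OL.2 ⟨_, p, hc.pow_left, e⟩

/-- The pulled back bundle, modified along `y`. -/
theorem pull {H y ψ : κ[X]} (hy : y ≠ 0) (hψ : 0 < ψ.natDegree) {D : ℕ}
    (hD : ψ.natDegree = D * y.natDegree) (hc : IsCoprime (H.comp ψ) y)
    (φ g1 : GL (Fin n) (RatFunc κ)) (β : GL (Fin n) κ) (a : Fin n → ℤ) (hP : InGL (PP H) g1)
    (hO : InGL (OL H) (φ⁻¹ * g1)) (hI : InGL (OI κ) (g1 * (lam β a (XU κ))⁻¹))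
    (g2 : GL (Fin n) (RatFunc κ)) (hg2 : g2 = gm (pb ψ hψ) g1 * (lam β a (ru y hy ^ D))⁻¹) :
    InGL (PP (H.comp ψ * y)) g2 ∧ InGL (OI κ) g2 ∧
      InGL (OL (H.comp ψ)) ((gm (pb ψ hψ) φ)⁻¹ * g2) ∧
      InGL (OL y) ((g2 * (gm (pb ψ hψ) g1)⁻¹)⁻¹ * g2) := by
  have p1 : InGL (PP (H.comp ψ)) (gm (pb ψ hψ) g1) :=
    hP.map _ fun x hx => comp_eq_aeval (p := H) (q := ψ) ▸ lf_PP (hF := comp_inj hψ) hx
  have p2 : InGL (OL (H.comp ψ)) (gm (pb ψ hψ) (φ⁻¹ * g1)) :=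
    hO.map _ fun x hx => comp_eq_aeval (p := H) (q := ψ) ▸ lf_OL (hF := comp_inj hψ) hx
  have p3 : InGL (OI κ) (gm (pb ψ hψ) (g1 * (lam β a (XU κ))⁻¹)) :=
    hI.map _ fun x hx => lf_OI (hF := comp_inj hψ) (c := ψ.natDegree)
      (fun p => by rw [← comp_eq_aeval, natDegree_comp]) hx
  have l1 : ∀ M : Submonoid κ[X], (∃ w ∈ M, y ∣ w) → InGL (fr M) (lam β a (ru y hy ^ D)) := by
    rintro M ⟨w, hw, h⟩
    refine inGL_lam β a ?_ ?_
    · rw [Units.val_pow_eq_pow_val]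
      exact (fr M).pow_mem (rf_mem_fr M y) D
    · rw [← inv_pow, Units.val_pow_eq_pow_val]
      exact (fr M).pow_mem (inv_mem_fr hy hw h) D
  have hψ0 : ψ ≠ 0 := fun e => by simp [e] at hψ
  refine ⟨?_, ?_, ?_, ?_⟩
  · rw [hg2]
    exact (p1.mono (PP_le_PP _ y)).mul (l1 _ ⟨_, Submonoid.mem_powers _, dvd_mul_left _ _⟩).inv
  · have e1 : Units.map (pb ψ hψ : RatFunc κ →* RatFunc κ) (XU κ) = ru ψ hψ0 := by
      ext1
      show pb ψ hψ RatFunc.X = rf ψ
      rw [← RatFunc.algebraMap_X, pb_rf, X_comp]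
    rw [map_mul, map_inv, gm_lam, e1] at p3
    have e2 : g2 = gm (pb ψ hψ) g1 * (lam β a (ru ψ hψ0))⁻¹ *
        lam β a (ru ψ hψ0 * (ru y hy ^ D)⁻¹) := by
      have : lam β a (ru ψ hψ0) =
          lam β a (ru ψ hψ0 * (ru y hy ^ D)⁻¹) * lam β a (ru y hy ^ D) := by
        rw [← lam_mul, inv_mul_cancel_right]
      rw [hg2, this, _root_.mul_inv_rev, mul_assoc, mul_assoc, inv_mul_cancel, mul_one]
    have e3 : ((ru ψ hψ0 * (ru y hy ^ D)⁻¹ : (RatFunc κ)ˣ) : RatFunc κ).intDegree = 0 := by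
      rw [intDegree_of_eq (Units.ne_zero _) (p := ψ) (pow_ne_zero D hy) (by
        rw [rf, map_pow]
        exact congrArg Units.val (inv_mul_cancel_right (ru ψ hψ0) (ru y hy ^ D))),
        natDegree_pow, hD, sub_self]
    rw [e2]
    refine p3.mul (inGL_lam β a (mem_OI_iff.2 e3.le) (mem_OI_iff.2 ?_))
    rw [Units.val_inv_eq_inv_val, RatFunc.intDegree_inv, e3, neg_zero]
  · rw [hg2, ← mul_assoc, ← map_inv, ← map_mul]
    exact p2.mul (l1 _ ⟨y, hc.symm, dvd_rfl⟩).inv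
  · have e : (g2 * (gm (pb ψ hψ) g1)⁻¹)⁻¹ * g2 = gm (pb ψ hψ) g1 := by group
    rw [e]
    exact p1.mono (PP_le_OL hc)

end pull

theorem fixed_iff_mem {k A : Type u} [Field k] [CommRing A] [Algebra k A] (H : HS k n)
    (a : Fin n → ℤ) (β : GL (Fin n) A) : H.Fixed a (H.act β⁻¹ (H.pt A)) ↔
      GeneralLinearGroup.map (algebraMap A (GA A ℤ)) β * rho A a *
        (GeneralLinearGroup.map (algebraMap A (GA A ℤ)) β)⁻¹ ∈ H.G (GA A ℤ) := by
  rw [← HS.mem_St_frame, HS.mem_St]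
  unfold HS.Fixed HS.orb
  rw [H.act_nat, HS.pt_map, map_inv]
  rfl

/-- The modification lies in the group generated by the unipotent subgroups. -/
theorem eta_mem {k0 κ k : Type u} [Field k0] [Field κ] [Field k] [Algebra k0 k] [Algebra κ k]
    {r : ℕ} (H0 : HS k0 n) (H1 : HS κ n) {χ : Fin n → Fin r → ℤ} {μ : Fin n → ℤ}
    (hμ : H0.Fixed μ (H0.pt k0)) (hμχ : ∀ i j, μ i = μ j → χ i = χ j)
    (F : H0.Frame χ (H0.pt (RatFunc k))) (hp : (H0.van (RatFunc k)).IsPrime) (γ : GL (Fin n) k)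
    (link : ∀ (T : Type u) [CommRing T] [Algebra k T] [Algebra k0 T] [IsScalarTower k0 k T]
      [Algebra κ T] [IsScalarTower κ k T] (g : GL (Fin n) T), g ∈ H1.G T ↔
        (GeneralLinearGroup.map (algebraMap k T) γ)⁻¹ * g *
          GeneralLinearGroup.map (algebraMap k T) γ ∈ H0.G T)
    {f : k[X]} {H : κ[X]} (hH : ¬IsUnit H) (hf : f ≠ 0) {u0 : RatFunc k}
    (h3 : ∀ f1 : k[X], f1.Monic → f1 ∣ f → DegZero (H.map (algebraMap κ k)) (aeval u0 f1))
    {A : Type u} [CommRing A] [Algebra k[X] A] [IsLocalization.Away f A] (ev ι : A →+* RatFunc k)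
    (hev : ∀ p, ev (algebraMap k[X] A p) = aeval u0 p) (hι : ∀ p, ι (algebraMap k[X] A p) = rf p)
    (τ : GL (Fin n) A) (e : GL (Fin n) k)
    (hτ : GeneralLinearGroup.map ι τ * (GeneralLinearGroup.map (algebraMap k (RatFunc k)) e)⁻¹ ∈
      H1.G (RatFunc k))
    (φ g1 : GL (Fin n) (RatFunc κ)) (hφ : GeneralLinearGroup.map ev τ = gm (bc κ k) φ)
    (β : GL (Fin n) κ) (a : Fin n → ℤ) (hβ : H1.Fixed a (H1.act β⁻¹ (H1.pt κ)))
    (hg1 : g1 ∈ H1.G (RatFunc κ)) (hP : InGL (PP H) g1) (hO : InGL (OL H) (φ⁻¹ * g1))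
    (hI : InGL (OI κ) (g1 * (lam β a (XU κ))⁻¹)) {D : ℕ} (hD : (XX χ).card.factorial ∣ D)
    (k1 : GL (Fin n) (RatFunc κ)) (hk1 : k1 ∈ H1.G (RatFunc κ)) (s : (RatFunc κ)ˣ) :
    (GeneralLinearGroup.map (algebraMap k (RatFunc k)) γ)⁻¹ *
      gm (bc κ k) (k1 * (lam β a (s ^ D))⁻¹ * k1⁻¹) *
        GeneralLinearGroup.map (algebraMap k (RatFunc k)) γ ∈ H0.Gp μ (RatFunc k) := by
  have : Infinite (RatFunc k) := Infinite.of_injective _ (RatFunc.algebraMap_injective k)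
  set c := GeneralLinearGroup.map (algebraMap k (RatFunc k)) γ with hc
  set b := GeneralLinearGroup.map (algebraMap κ (RatFunc k)) β with hb
  have f1 : H1.Fixed a (H1.act b⁻¹ (H1.pt (RatFunc k))) := by
    have := hβ.comp (Algebra.ofId κ (RatFunc k))
    rwa [H1.act_nat, HS.pt_map, map_inv] at this
  have f2 : H0.Fixed a (H0.act (c⁻¹ * b)⁻¹ (H0.pt (RatFunc k))) := by
    have h := (link _ _).1 ((fixed_iff_mem H1 a b).1 f1)
    have e1 : GeneralLinearGroup.map (algebraMap k (GA (RatFunc k) ℤ)) γ =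
        GeneralLinearGroup.map (algebraMap (RatFunc k) (GA (RatFunc k) ℤ)) c :=
      Units.ext (Matrix.ext fun i j => IsScalarTower.algebraMap_apply k (RatFunc k) _ _)
    rw [fixed_iff_mem, map_mul, map_inv, ← e1]
    simpa only [_root_.mul_inv_rev, inv_inv, mul_assoc] using h
  obtain ⟨a0, g, hg, e2⟩ := F.conj_val f2
  obtain ⟨d, nj, aj, hd, hn, hj, hL⟩ := F.wk a0
  have ht : ∀ s : (RatFunc k)ˣ, rv (fun i => a0 (χ i)) s ∈ H0.G (RatFunc k) := fun s =>
    GF.act_of_fixed H0 (AlgHom.id k0 _) s (F.fix.push a0)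
  have e3 : ∀ s : (RatFunc k)ˣ, g⁻¹ * rv (fun i => a0 (χ i)) s * g = c⁻¹ * lam β a s * c :=
    fun s => by
      rw [lam, ← hb, rv, rv, ← e2 s]
      simp only [_root_.mul_inv_rev, inv_inv, mul_assoc]
  let C' : k →+* A := (algebraMap k[X] A).comp C
  have m1 : ∀ x : GL (Fin n) k, GeneralLinearGroup.map ι (GeneralLinearGroup.map C' x) =
      GeneralLinearGroup.map (algebraMap k (RatFunc k)) x := fun x =>
    Units.ext (Matrix.ext fun i j => (hι _).trans (rf_C _).symm)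
  have m2 : ∀ x : GL (Fin n) k, GeneralLinearGroup.map ev (GeneralLinearGroup.map C' x) =
      GeneralLinearGroup.map (algebraMap k (RatFunc k)) x := fun x =>
    Units.ext (Matrix.ext fun i j => (hev _).trans (aeval_C _ _))
  have inj : Function.Injective ι := (injective_iff_map_eq_zero _).2 fun z hz => by
    obtain ⟨N, p, e⟩ := IsLocalization.Away.surj f z
    have h1 : p = 0 := rf_inj (by rw [← hι, ← e, map_mul, hz, zero_mul, rf, map_zero])
    rw [h1, map_zero] at e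
    exact ((IsLocalization.Away.algebraMap_isUnit (S := A) f).pow N).mul_left_eq_zero.1 e
  have hH' : ¬IsUnit (H.map (algebraMap κ k)) := fun h => hH ((isUnit_map _).1 h)
  have tr : ∀ x ∈ H1.G (RatFunc κ), c⁻¹ * gm (bc κ k) x * c ∈ H0.G (RatFunc k) := fun x hx =>
    (link _ _).1 (H1.G_map _ hx)
  have cc : ∀ S : Subalgebra k (RatFunc k), InGL S c := fun S => inGL_const S γ
  have inj2 := map_injective _ (algebraMap κ k).injective
  have bP : InGL (PP (H.map (algebraMap κ k))) (gm (bc κ k) g1) :=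
    hP.map (bc κ k : RatFunc κ →+* RatFunc k) fun x hx => lf_PP (hF := inj2) hx
  have bO : InGL (OL (H.map (algebraMap κ k))) (gm (bc κ k) (φ⁻¹ * g1)) :=
    hO.map (bc κ k : RatFunc κ →+* RatFunc k) fun x hx => lf_OL (hF := inj2) hx
  have bI : InGL (OI k) (gm (bc κ k) (g1 * (lam β a (XU κ))⁻¹)) :=
    hI.map (bc κ k : RatFunc κ →+* RatFunc k) fun x hx => lf_OI (hF := inj2) (c := 1)
      (fun p => by rw [mul_one]; exact natDegree_map _) hx
  have e4 : (GeneralLinearGroup.map ev ((GeneralLinearGroup.map C' γ)⁻¹ *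
      (τ * (GeneralLinearGroup.map C' e)⁻¹) * GeneralLinearGroup.map C' γ))⁻¹ *
        (c⁻¹ * gm (bc κ k) g1 * c) = c⁻¹ * GeneralLinearGroup.map (algebraMap k (RatFunc k)) e *
          gm (bc κ k) (φ⁻¹ * g1) * c := by
    rw [map_mul, map_mul, map_mul, map_inv, map_inv, m2, m2, hφ, map_mul, map_inv, ← hc]
    simp only [_root_.mul_inv_rev, inv_inv, mul_assoc, mul_inv_cancel_left]
  have e5 : Units.map (bc κ k : RatFunc κ →* RatFunc k) (XU κ) = XU k := by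
    ext1
    show bc κ k RatFunc.X = RatFunc.X
    rw [← RatFunc.algebraMap_X, bc_rf, map_X, rf, RatFunc.algebraMap_X]
  have e6 : c⁻¹ * gm (bc κ k) g1 * c * (g⁻¹ * rv (fun i => a0 (χ i)) (XU k) * g)⁻¹ =
      c⁻¹ * gm (bc κ k) (g1 * (lam β a (XU κ))⁻¹) * c := by
    rw [e3, map_mul, map_inv, gm_lam, e5]
    simp only [_root_.mul_inv_rev, inv_inv, mul_assoc, mul_inv_cancel_left]
  have hcm : ∀ s : (RatFunc k)ˣ, ∀ g ∈ H0.G (RatFunc k), g * rv (fun i => a0 (χ i)) s * g⁻¹ *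
      (rv (fun i => a0 (χ i)) s)⁻¹ ∈ H0.Gp μ (RatFunc k) := fun s g hg => by
    have h := ht s
    rw [rv] at h ⊢
    exact H0.Gp_comm μ hμ _ hp _ (fun i j h => by rw [hμχ i j h]) h hg
  have key := kill hH' hf h3 ev hev ι inj (H0.G (RatFunc k)) (H0.Gp μ (RatFunc k))
    (fun g hg x hx => H0.Gp_conj μ hμ _ hp hg hx) (fun i => a0 (χ i)) ht hcm hd nj hn aj
    (fun j s => by rw [rv, rv]; exact hj j s) hL ((GeneralLinearGroup.map C' γ)⁻¹ *
      (τ * (GeneralLinearGroup.map C' e)⁻¹) * GeneralLinearGroup.map C' γ)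
    (by rw [map_mul, map_mul, map_mul, map_inv, map_inv, m1, m1]; exact (link _ _).1 hτ)
    g (c⁻¹ * gm (bc κ k) g1 * c) hg (tr _ hg1) (((cc _).inv.mul bP).mul (cc _))
    (by rw [e4]; exact (((cc _).inv.mul (inGL_const _ e)).mul bO).mul (cc _))
    (by rw [e6]; exact ((cc _).inv.mul bI).mul (cc _))
  obtain ⟨m, rfl⟩ := hD
  have h6 := H0.Gp_conj μ hμ _ hp (tr _ hk1)
    ((H0.Gp μ (RatFunc k)).inv_mem (key (Units.map (bc κ k : RatFunc κ →* RatFunc k) s ^ m)))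
  rw [e3, ← pow_mul, mul_comm m] at h6
  rw [map_mul, map_mul, map_inv, map_inv, gm_lam, map_pow]
  simpa only [_root_.mul_inv_rev, inv_inv, mul_assoc, mul_inv_cancel_left] using h6

end Pool.Agent.GR.KL
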