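import Mathlib

/-! Subrings of the field of rational functions, and functions of degree zero along `h`. -/

set_option autoImplicit false

open Polynomial

universe u

namespace Pool.Agent.GR.KL

variable {k : Type u} [Field k]

/-- A polynomial as a rational function. -/
noncomputable abbrev rf (p : k[X]) : RatFunc k := algebraMap k[X] (RatFunc k) p

theorem rf_inj {p q : k[X]} (h : rf p = rf q) : p = q := RatFunc.algebraMap_injective k h

theorem rf_ne {p : k[X]} (h : p ≠ 0) : rf p ≠ 0 := fun e => h (rf_inj (e.trans (map_zero _).symm))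

theorem rf_C (c : k) : algebraMap k (RatFunc k) c = rf (C c) :=
  IsScalarTower.algebraMap_apply k k[X] (RatFunc k) c

/-- Fractions with denominator in the submonoid `M`. -/
def fr (M : Submonoid k[X]) : Subalgebra k (RatFunc k) where
  carrier := {x | ∃ w ∈ M, ∃ p : k[X], x * rf w = rf p}
  mul_mem' := by
    rintro x y ⟨w, hw, p, hp⟩ ⟨w', hw', p', hp'⟩
    exact ⟨w * w', M.mul_mem hw hw', p * p', by
      simp only [rf, map_mul] at *; rw [← hp, ← hp']; ring⟩
  add_mem' := by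
    rintro x y ⟨w, hw, p, hp⟩ ⟨w', hw', p', hp'⟩
    exact ⟨w * w', M.mul_mem hw hw', p * w' + p' * w, by
      simp only [rf, map_mul, map_add] at *; rw [← hp, ← hp']; ring⟩
  algebraMap_mem' c := ⟨1, M.one_mem, C c, by rw [rf_C]; simp⟩

/-- Denominator a power of `h`. -/
noncomputable def PP (h : k[X]) : Subalgebra k (RatFunc k) := fr (Submonoid.powers h)

/-- Denominator coprime to `h`. -/
noncomputable def OL (h : k[X]) : Subalgebra k (RatFunc k) :=
  fr { carrier := {f | IsCoprime f h}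
       one_mem' := isCoprime_one_left
       mul_mem' := fun ha hb => IsCoprime.mul_left ha hb }

theorem mem_PP {h : k[X]} {x : RatFunc k} :
    x ∈ PP h ↔ ∃ (N : ℕ) (p : k[X]), x * rf (h ^ N) = rf p :=
  ⟨fun ⟨_, ⟨N, hN⟩, p, hp⟩ => ⟨N, p, by rw [← hN] at hp; exact hp⟩,
    fun ⟨N, p, hp⟩ => ⟨_, ⟨N, rfl⟩, p, hp⟩⟩

theorem mem_OL {h : k[X]} {x : RatFunc k} :
    x ∈ OL h ↔ ∃ w p : k[X], IsCoprime w h ∧ x * rf w = rf p :=
  ⟨fun ⟨w, hw, p, hp⟩ => ⟨w, p, hw, hp⟩, fun ⟨w, p, hw, hp⟩ => ⟨w, hw, p, hp⟩⟩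

variable (k) in
/-- Degree at most zero. -/
def OI : Subalgebra k (RatFunc k) where
  carrier := {x | ∃ p q : k[X], q ≠ 0 ∧ p.natDegree ≤ q.natDegree ∧ x * rf q = rf p}
  mul_mem' := by
    rintro x y ⟨p, q, hq, hd, hp⟩ ⟨p', q', hq', hd', hp'⟩
    refine ⟨p * p', q * q', mul_ne_zero hq hq', ?_, by
      simp only [rf, map_mul] at *; rw [← hp, ← hp']; ring⟩
    rw [natDegree_mul hq hq']
    exact natDegree_mul_le.trans (add_le_add hd hd')
  add_mem' := by
    rintro x y ⟨p, q, hq, hd, hp⟩ ⟨p', q', hq', hd', hp'⟩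
    refine ⟨p * q' + p' * q, q * q', mul_ne_zero hq hq', ?_, by
      simp only [rf, map_mul, map_add] at *; rw [← hp, ← hp']; ring⟩
    rw [natDegree_mul hq hq']
    refine (natDegree_add_le _ _).trans (max_le ?_ ?_)
    · exact natDegree_mul_le.trans (by omega)
    · exact natDegree_mul_le.trans (by omega)
  algebraMap_mem' c := ⟨C c, 1, one_ne_zero, by simp, by rw [rf_C]; simp⟩

theorem mem_OI {x : RatFunc k} : x ∈ OI k ↔
    ∃ p q : k[X], q ≠ 0 ∧ p.natDegree ≤ q.natDegree ∧ x * rf q = rf p := Iff.rfl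

theorem intDegree_of_eq {x : RatFunc k} (hx : x ≠ 0) {p q : k[X]} (hq : q ≠ 0)
    (h : x * rf q = rf p) : x.intDegree = (p.natDegree : ℤ) - q.natDegree := by
  have := RatFunc.intDegree_mul hx (rf_ne hq)
  rw [h, RatFunc.intDegree_polynomial, RatFunc.intDegree_polynomial] at this
  omega

theorem mem_OI_iff {x : RatFunc k} : x ∈ OI k ↔ x.intDegree ≤ 0 := by
  by_cases hx : x = 0
  · subst hx
    simp [(OI k).zero_mem]
  refine ⟨fun ⟨p, q, hq, hd, hp⟩ => by rw [intDegree_of_eq hx hq hp]; omega, fun h => ?_⟩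
  refine ⟨x.num, x.denom, x.denom_ne_zero, by rw [RatFunc.intDegree] at h; omega, ?_⟩
  rw [← eq_div_iff (rf_ne x.denom_ne_zero), RatFunc.num_div_denom]

theorem intDegree_of_OI {x : RatFunc k} (h : x ∈ OI k) (h' : x⁻¹ ∈ OI k) : x.intDegree = 0 := by
  rw [mem_OI_iff] at h h'
  rw [RatFunc.intDegree_inv] at h'
  omega

/-- The zeros and the poles of `x` along `h` have the same degree. -/
def DegZero (h : k[X]) (x : RatFunc k) : Prop :=
  ∃ A B w1 w2 : k[X], A.Monic ∧ B.Monic ∧ A.natDegree = B.natDegree ∧ (∃ N, A ∣ h ^ N) ∧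
    (∃ N, B ∣ h ^ N) ∧ IsCoprime w1 h ∧ IsCoprime w2 h ∧ x * rf (B * w2) = rf (A * w1)

variable {h : k[X]} {x y : RatFunc k}

theorem ne_of_coprime (hh : ¬IsUnit h) {w : k[X]} (hw : IsCoprime w h) : w ≠ 0 := by
  rintro rfl
  exact hh (isCoprime_zero_left.1 hw)

theorem DegZero.ne (hh : ¬IsUnit h) (hx : DegZero h x) : x ≠ 0 := by
  obtain ⟨A, B, w1, w2, hA, -, -, -, -, h1, -, e⟩ := hx
  rintro rfl
  exact rf_ne (mul_ne_zero hA.ne_zero (ne_of_coprime hh h1)) (by rw [← e, zero_mul])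

theorem DegZero.mul (hx : DegZero h x) (hy : DegZero h y) : DegZero h (x * y) := by
  obtain ⟨A, B, w1, w2, hA, hB, hd, ⟨N, a1⟩, ⟨M, b1⟩, h1, h2, e⟩ := hx
  obtain ⟨A', B', w1', w2', hA', hB', hd', ⟨N', a1'⟩, ⟨M', b1'⟩, h1', h2', e'⟩ := hy
  refine ⟨A * A', B * B', w1 * w1', w2 * w2', hA.mul hA', hB.mul hB', ?_,
    ⟨N + N', pow_add h N N' ▸ mul_dvd_mul a1 a1'⟩, ⟨M + M', pow_add h M M' ▸ mul_dvd_mul b1 b1'⟩,
    h1.mul_left h1', h2.mul_left h2', ?_⟩
  · rw [hA.natDegree_mul hA', hB.natDegree_mul hB', hd, hd']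
  · simp only [rf, map_mul] at *
    linear_combination (y * algebraMap k[X] (RatFunc k) B' * algebraMap k[X] (RatFunc k) w2') * e +
      (algebraMap k[X] (RatFunc k) A * algebraMap k[X] (RatFunc k) w1) * e'

theorem DegZero.inv (hh : ¬IsUnit h) (hx : DegZero h x) : DegZero h x⁻¹ := by
  have h0 := hx.ne hh
  obtain ⟨A, B, w1, w2, hA, hB, hd, a1, b1, h1, h2, e⟩ := hx
  exact ⟨B, A, w2, w1, hB, hA, hd.symm, b1, a1, h2, h1, by rw [← e, inv_mul_cancel_left₀ h0]⟩

theorem degZero_of_coprime {w1 w2 : k[X]} (h1 : IsCoprime w1 h) (h2 : IsCoprime w2 h)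
    (e : x * rf w2 = rf w1) : DegZero h x :=
  ⟨1, 1, w1, w2, monic_one, monic_one, rfl, ⟨0, one_dvd _⟩, ⟨0, one_dvd _⟩, h1, h2, by
    rw [one_mul, one_mul, e]⟩

theorem degZero_one : DegZero h 1 :=
  degZero_of_coprime isCoprime_one_left isCoprime_one_left (one_mul _)

theorem DegZero.pow (hx : DegZero h x) (N : ℕ) : DegZero h (x ^ N) := by
  induction N with
  | zero => rw [pow_zero]; exact degZero_one
  | succ N ih => rw [pow_succ]; exact ih.mul hx

theorem degZero_const {c : k} (hc : c ≠ 0) : DegZero h (algebraMap k (RatFunc k) c) :=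
  degZero_of_coprime (w1 := C c) ⟨C c⁻¹, 0, by rw [← C_mul, inv_mul_cancel₀ hc]; simp⟩ isCoprime_one_left
    (by rw [rf_C]; simp)

theorem degZero_of_OL (h0 : x ≠ 0) (h1 : x ∈ OL h) (h2 : x⁻¹ ∈ OL h) : DegZero h x := by
  obtain ⟨w, p, hw, e⟩ := mem_OL.1 h1
  obtain ⟨w', p', hw', e'⟩ := mem_OL.1 h2
  have e3 : p * p' = w * w' := rf_inj (by
    simp only [rf, map_mul] at *
    rw [← e, ← e']
    field_simp)
  exact degZero_of_coprime ((e3 ▸ hw.mul_left hw' : IsCoprime (p * p') h).of_mul_left_left) hw e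

theorem DegZero.intDegree (hh : ¬IsUnit h) (hx : DegZero h x) (h1 : x ∈ PP h) (h2 : x⁻¹ ∈ PP h) :
    x.intDegree = 0 := by
  have h0 := hx.ne hh
  obtain ⟨A, B, w1, w2, hA, hB, hd, ⟨a, a1⟩, ⟨b, b1⟩, c1, c2, e⟩ := hx
  obtain ⟨N, p, e1⟩ := mem_PP.1 h1
  obtain ⟨N', p', e2⟩ := mem_PP.1 h2
  have e3 : p * p' = h ^ (N + N') := rf_inj (by
    simp only [rf, map_mul, pow_add] at *
    rw [← e1, ← e2]
    field_simp)
  have e4 : p * B * w2 = A * h ^ N * w1 := rf_inj (by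
    simp only [rf, map_mul] at *
    linear_combination (algebraMap k[X] (RatFunc k) (h ^ N)) * e -
      (algebraMap k[X] (RatFunc k) B * algebraMap k[X] (RatFunc k) w2) * e1)
  have d1 : w1 ∣ w2 := by
    refine IsCoprime.dvd_of_dvd_mul_left (y := p * B) (IsCoprime.mul_right ?_ ?_) ⟨A * h ^ N, ?_⟩
    · exact (c1.pow_right (n := N + N')).of_isCoprime_of_dvd_right ⟨p', e3.symm⟩
    · exact (c1.pow_right (n := b)).of_isCoprime_of_dvd_right b1
    · rw [e4]; ring
  have d2 : w2 ∣ w1 := by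
    refine IsCoprime.dvd_of_dvd_mul_left (y := A * h ^ N) (IsCoprime.mul_right ?_ c2.pow_right)
      ⟨p * B, ?_⟩
    · exact (c2.pow_right (n := a)).of_isCoprime_of_dvd_right a1
    · rw [← e4]; ring
  have n1 := ne_of_coprime hh c1
  have n2 := ne_of_coprime hh c2
  have := le_antisymm (natDegree_le_of_dvd d1 n2) (natDegree_le_of_dvd d2 n1)
  rw [intDegree_of_eq h0 (mul_ne_zero hB.ne_zero n2) e, natDegree_mul hA.ne_zero n1,
    natDegree_mul hB.ne_zero n2]
  omega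

theorem degZero_aeval {f : k[X]} {u0 : RatFunc k}
    (h3 : ∀ f1 : k[X], f1.Monic → f1 ∣ f → DegZero h (aeval u0 f1)) (N : ℕ) :
    ∀ p : k[X], p ≠ 0 → p ∣ f ^ N → DegZero h (aeval u0 p) := by
  intro p
  induction p using UniqueFactorizationMonoid.induction_on_prime with
  | h₁ => exact fun h0 => (h0 rfl).elim
  | h₂ p hp =>
    obtain ⟨c, hc, rfl⟩ := isUnit_iff.1 hp
    intro _ _
    rw [aeval_C]
    exact degZero_const hc.ne_zero
  | h₃ p q hp hq ih =>
    intro _ hd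
    rw [map_mul]
    refine DegZero.mul ?_ (ih hp ((dvd_mul_left p q).trans hd))
    have h1 : q ∣ f := hq.dvd_of_dvd_pow ((dvd_mul_right q p).trans hd)
    have h2 := leadingCoeff_ne_zero.2 hq.ne_zero
    have e : q = C q.leadingCoeff * (q * C q.leadingCoeff⁻¹) := by
      rw [mul_left_comm, ← C_mul, mul_inv_cancel₀ h2, C_1, mul_one]
    rw [e, map_mul, aeval_C]
    refine (degZero_const h2).mul (h3 _ (monic_mul_leadingCoeff_inv hq.ne_zero) ?_)
    exact (Dvd.intro_left _ e.symm).trans h1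

/-- Units of `k[u]_f` have degree zero along `h` after the substitution `u ↦ u0`. -/
theorem degZero_unit (hh : ¬IsUnit h) {f : k[X]} (hf : f ≠ 0) {u0 : RatFunc k}
    (h3 : ∀ f1 : k[X], f1.Monic → f1 ∣ f → DegZero h (aeval u0 f1)) {A : Type u} [CommRing A]
    [Algebra k[X] A] [IsLocalization.Away f A] (ev : A →+* RatFunc k)
    (hev : ∀ p, ev (algebraMap k[X] A p) = aeval u0 p) {z z' : A} (hz : z * z' = 1) :
    DegZero h (ev z) := by
  obtain ⟨N, p, e⟩ := IsLocalization.Away.surj f z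
  obtain ⟨N', p', e'⟩ := IsLocalization.Away.surj f z'
  have inj : Function.Injective (algebraMap k[X] A) :=
    IsLocalization.injective A (powers_le_nonZeroDivisors_of_noZeroDivisors hf)
  have e3 : p * p' = f ^ (N + N') := inj (by
    rw [map_mul, ← e, ← e', map_pow, pow_add]
    linear_combination (algebraMap k[X] A f ^ N * algebraMap k[X] A f ^ N') * hz)
  have hp : p ≠ 0 := left_ne_zero_of_mul (e3 ▸ pow_ne_zero _ hf)
  have d1 := degZero_aeval h3 (N + N') p hp ⟨p', e3.symm⟩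
  have d2 := degZero_aeval h3 N (f ^ N) (pow_ne_zero _ hf) dvd_rfl
  have e4 : ev z = aeval u0 p * (aeval u0 (f ^ N))⁻¹ := by
    rw [eq_mul_inv_iff_mul_eq₀ (d2.ne hh), ← hev, ← hev, ← map_mul, map_pow, e]
  rw [e4]
  exact d1.mul (d2.inv hh)

end Pool.Agent.GR.KL
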