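import Pool.Agent.P.MP_c1f06d_ag.f.KillA
import Pool.Agent.P.MP_c1f06d_ag.f.Rat

/-! The type of the bundle on the closed fibre is killed by a fixed power. -/

set_option autoImplicit false

open Matrix Polynomial

universe u

namespace Pool.Agent.GR.KL

variable {n : ℕ} {k : Type u} [Field k]

/-- The matrix and its inverse have entries in `S`. -/
def InGL {R A : Type u} [CommRing R] [CommRing A] [Algebra R A] (S : Subalgebra R A)
    (g : GL (Fin n) A) : Prop :=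
  (∀ i j, (g : Mat n A) i j ∈ S) ∧ ∀ i j, ((g⁻¹ : GL (Fin n) A) : Mat n A) i j ∈ S

theorem InGL.ch {ν : Fin n → ℤ} (m : ℤ) {S : Subalgebra k (RatFunc k)}
    {g : GL (Fin n) (RatFunc k)} (hg : InL ν (g : Mat n (RatFunc k))) (h : InGL S g) :
    ch ν m (g : Mat n (RatFunc k)) ∈ S ∧ (ch ν m (g : Mat n (RatFunc k)))⁻¹ ∈ S :=
  ⟨ch_mem S.toSubring ν m h.1, ch_inv m hg ▸ ch_mem S.toSubring ν m h.2⟩

/-- The variable as a unit. -/
noncomputable def XU (k : Type u) [Field k] : (RatFunc k)ˣ := Units.mk0 RatFunc.X RatFunc.X_ne_zero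

theorem intDegree_zpow (m : ℤ) : ((RatFunc.X : RatFunc k) ^ m).intDegree = m := by
  have h : ∀ N : ℕ, ((RatFunc.X : RatFunc k) ^ N).intDegree = N := fun N => by
    rw [← RatFunc.algebraMap_X, ← map_pow, RatFunc.intDegree_polynomial, natDegree_X_pow]
  obtain ⟨N, rfl | rfl⟩ := m.eq_nat_or_neg
  · rw [zpow_natCast, h]
  · rw [_root_.zpow_neg, zpow_natCast, RatFunc.intDegree_inv, h]

/-- The block determinants of a point over `k[u]_f` have degree zero after the substitution. -/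
theorem degZero_ch {h f : k[X]} (hh : ¬IsUnit h) (hf : f ≠ 0) {u0 : RatFunc k}
    (h3 : ∀ f1 : k[X], f1.Monic → f1 ∣ f → DegZero h (aeval u0 f1)) {A : Type u} [CommRing A]
    [Algebra k[X] A] [IsLocalization.Away f A] (ev : A →+* RatFunc k)
    (hev : ∀ p, ev (algebraMap k[X] A p) = aeval u0 p) (ι : A →+* RatFunc k)
    (hι : Function.Injective ι) {ν : Fin n → ℤ} (γ : GL (Fin n) A)
    (hγ : InL ν (GeneralLinearGroup.map ι γ : Mat n (RatFunc k))) (m : ℤ) :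
    InL ν (GeneralLinearGroup.map ev γ : Mat n (RatFunc k)) ∧
      DegZero h (ch ν m (GeneralLinearGroup.map ev γ : Mat n (RatFunc k))) := by
  have h1 : InL ν (γ : Mat n A) := fun i j hij => hι ((hγ i j hij).trans (map_zero ι).symm)
  refine ⟨fun i j hij => ?_, ?_⟩
  · show ev ((γ : Mat n A) i j) = 0
    rw [h1 i j hij, map_zero]
  · have e : (GeneralLinearGroup.map ev γ : Mat n (RatFunc k)) = (γ : Mat n A).map ev := rfl
    rw [e, ch_map]
    exact degZero_unit hh hf h3 ev hev (ch_mul_inv m h1)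

/-- The central cocharacter vanishes. -/
theorem nu_zero {h : k[X]} (hh : ¬IsUnit h) {d : ℕ} (a : Fin n → ℤ) (aj : Fin d → Fin n → ℤ)
    (g g1 γ : GL (Fin n) (RatFunc k)) (nj : Fin d → GL (Fin n) (RatFunc k))
    (hg : InL (∑ j, aj j) (g : Mat n (RatFunc k)))
    (hg1 : InL (∑ j, aj j) (g1 : Mat n (RatFunc k)))
    (hγ : InL (∑ j, aj j) (γ : Mat n (RatFunc k)))
    (hn : ∀ j, InL (∑ j, aj j) (nj j : Mat n (RatFunc k)))
    (hj : ∀ j, nj j * rv a (XU k) * (nj j)⁻¹ = rv (aj j) (XU k))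
    (hdz : ∀ m, DegZero h (ch (∑ j, aj j) m (γ : Mat n (RatFunc k))))
    (hP : InGL (PP h) g1) (hO : InGL (OL h) (γ⁻¹ * g1))
    (hI : InGL (OI k) (g1 * (g⁻¹ * rv a (XU k) * g)⁻¹)) : ∑ j, aj j = 0 := by
  refine eq_zero_of_blocks aj fun j m => ?_
  set ν := ∑ j, aj j
  have l1 : InL ν ((γ⁻¹ * g1 : GL (Fin n) (RatFunc k)) : Mat n (RatFunc k)) := hγ.inv.mul hg1
  have l2 : InL ν ((g⁻¹ * rv a (XU k) * g : GL (Fin n) (RatFunc k)) : Mat n (RatFunc k)) :=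
    (hg.inv.mul (inL_rv ν a _)).mul hg
  have l3 : InL ν ((g1 * (g⁻¹ * rv a (XU k) * g)⁻¹ : GL (Fin n) (RatFunc k)) :
      Mat n (RatFunc k)) := hg1.mul l2.inv
  have d1 : DegZero h (ch ν m (g1 : Mat n (RatFunc k))) := by
    have e : g1 = γ * (γ⁻¹ * g1) := by group
    rw [e, Units.val_mul, ch_mul m hγ]
    exact (hdz m).mul (degZero_of_OL (ch_ne m l1) (hO.ch m l1).1 (hO.ch m l1).2)
  have d2 := d1.intDegree hh (hP.ch m hg1).1 (hP.ch m hg1).2
  have d3 := intDegree_of_OI (hI.ch m l3).1 (hI.ch m l3).2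
  have e : g1 = g1 * (g⁻¹ * rv a (XU k) * g)⁻¹ * (g⁻¹ * rv a (XU k) * g) := by group
  rw [e, Units.val_mul, ch_mul m l3, RatFunc.intDegree_mul (ch_ne m l3) (ch_ne m l2), d3,
    zero_add] at d2
  have e2 : ch ν m ((g⁻¹ * rv a (XU k) * g : GL (Fin n) (RatFunc k)) : Mat n (RatFunc k)) =
      ch ν m (rv (aj j) (XU k) : Mat n (RatFunc k)) := by
    rw [← hj j, ch_conj m (hn j) (inL_rv ν a _)]
    exact ch_conj (g := g⁻¹) m hg.inv (inL_rv ν a _)
  rw [e2, ch_rv] at d2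
  exact (intDegree_zpow _).symm.trans d2

/-- KILL. -/
theorem kill {h f : k[X]} (hh : ¬IsUnit h) (hf : f ≠ 0) {u0 : RatFunc k}
    (h3 : ∀ f1 : k[X], f1.Monic → f1 ∣ f → DegZero h (aeval u0 f1)) {A : Type u} [CommRing A]
    [Algebra k[X] A] [IsLocalization.Away f A] (ev : A →+* RatFunc k)
    (hev : ∀ p, ev (algebraMap k[X] A p) = aeval u0 p) (ι : A →+* RatFunc k)
    (hι : Function.Injective ι) (G Gp : Subgroup (GL (Fin n) (RatFunc k)))
    (hN : ∀ g ∈ G, ∀ x ∈ Gp, g * x * g⁻¹ ∈ Gp) (a : Fin n → ℤ) (ht : ∀ s, rv a s ∈ G)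
    (hc : ∀ s, ∀ g ∈ G, g * rv a s * g⁻¹ * (rv a s)⁻¹ ∈ Gp) {d D0 : ℕ} (hd : d ∣ D0)
    (nj : Fin d → GL (Fin n) (RatFunc k)) (hn : ∀ j, nj j ∈ G) (aj : Fin d → Fin n → ℤ)
    (hj : ∀ j s, nj j * rv a s * (nj j)⁻¹ = rv (aj j) s)
    (hL : ∀ x ∈ G, InL (∑ j, aj j) (x : Mat n (RatFunc k)))
    (γ0 : GL (Fin n) A) (hγ0 : GeneralLinearGroup.map ι γ0 ∈ G)
    (g g1 : GL (Fin n) (RatFunc k)) (hg : g ∈ G) (hg1 : g1 ∈ G) (hP : InGL (PP h) g1)
    (hO : InGL (OL h) ((GeneralLinearGroup.map ev γ0)⁻¹ * g1))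
    (hI : InGL (OI k) (g1 * (g⁻¹ * rv a (XU k) * g)⁻¹)) (s : (RatFunc k)ˣ) :
    g⁻¹ * rv a (s ^ D0) * g ∈ Gp := by
  have h1 := degZero_ch hh hf h3 ev hev ι hι γ0 (hL _ hγ0)
  have h0 := nu_zero hh a aj g g1 _ nj (hL _ hg) (hL _ hg1) (h1 0).1 (fun j => hL _ (hn j))
    (fun j => hj j _) (fun m => (h1 m).2) hP hO hI
  obtain ⟨c, rfl⟩ := hd
  have h2 := Gp.pow_mem (pow_mem G Gp hN a s (ht s) (hc s) nj hn aj (fun j => hj j s) h0) c
  have e : ∀ N : ℕ, rv a (s ^ N) = rv a s ^ N := fun N => by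
    induction N with
    | zero =>
      ext1
      rw [rv_val]
      simp
    | succ N ih =>
      rw [pow_succ, pow_succ, ← ih]
      ext1
      rw [Units.val_mul, rv_val, rv_val, rv_val, diagonal_mul_diagonal]
      simp [mul_zpow]
  rw [e, pow_mul]
  exact hN _ (G.inv_mem hg) _ h2

end Pool.Agent.GR.KL
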