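import Pool.Agent.P.MP_c1f06d_ag.f.GHa
import Pool.Agent.P.MP_c1f06d_ag.f.GHb
import Pool.Agent.P.MP_c1f06d_ag.f.Kill

/-! Generically trivial torsors on the projective line over a field. -/

set_option autoImplicit false

open Matrix Polynomial

universe u

namespace Pool.Agent.GF

open Pool.Agent.GR Pool.Agent.GR.KL

variable {k : Type u} [Field k] {n : ℕ}

section ingl

variable {A : Type u} [CommRing A] [Algebra k A] {S : Subalgebra k A}

theorem inGL_mul {g g' : GL (Fin n) A} (h : InGL S g) (h' : InGL S g') : InGL S (g * g') := by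
  refine ⟨fun i j => ?_, fun i j => ?_⟩
  · rw [Units.val_mul, mul_apply]
    exact S.sum_mem fun l _ => S.mul_mem (h.1 _ _) (h'.1 _ _)
  · rw [_root_.mul_inv_rev, Units.val_mul, mul_apply]
    exact S.sum_mem fun l _ => S.mul_mem (h'.2 _ _) (h.2 _ _)

theorem inGL_inv {g : GL (Fin n) A} (h : InGL S g) : InGL S g⁻¹ := ⟨h.2, h.1⟩

theorem inGL_const (β : GL (Fin n) k) : InGL S (gm (Algebra.ofId k A) β) :=
  ⟨fun _ _ => S.algebraMap_mem _, fun _ _ => S.algebraMap_mem _⟩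

theorem inGL_val (g : GL (Fin n) S) : InGL S (gm S.val g) :=
  ⟨fun i j => ((g : Mat n S) i j).2, fun i j => (((g⁻¹ : GL (Fin n) S) : Mat n S) i j).2⟩

end ingl

/-- The ring `OL h` as an algebra over the polynomial ring. -/
noncomputable def OLx (h : k[X]) : Subalgebra k[X] (RatFunc k) :=
  { (OL h).toSubsemiring with
    algebraMap_mem' := fun p => mem_OL.2 ⟨1, p, isCoprime_one_left, by simp⟩ }

theorem mem_OLx {h : k[X]} {x : RatFunc k} : x ∈ OLx h ↔ x ∈ OL h := Iff.rfl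

theorem dvd_pow_mul_coprime (h : k[X]) (q : k[X]) (hq : q ≠ 0) :
    ∃ (r : ℕ) (w : k[X]), IsCoprime w h ∧ q ∣ h ^ r * w := by
  induction q using UniqueFactorizationMonoid.induction_on_prime with
  | h₁ => exact (hq rfl).elim
  | h₂ q hu => exact ⟨0, 1, isCoprime_one_left, hu.dvd⟩
  | h₃ q p hq0 hp ih =>
    obtain ⟨r, w, hw, hd⟩ := ih hq0
    by_cases h1 : p ∣ h
    · exact ⟨r + 1, w, hw, by rw [pow_succ', mul_assoc]; exact mul_dvd_mul h1 hd⟩
    · exact ⟨r, p * w, (hp.irreducible.coprime_iff_not_dvd.2 h1).mul_left hw, by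
        rw [mul_left_comm]; exact mul_dvd_mul_left p hd⟩

theorem exists_pow_mul_mem (h : k[X]) (x : RatFunc k) :
    ∃ r : ℕ, ∀ r', r ≤ r' → rf (h ^ r') * x ∈ OL h := by
  obtain ⟨r, w, hw, a, ha⟩ := dvd_pow_mul_coprime h x.denom x.denom_ne_zero
  refine ⟨r, fun r' hr => ?_⟩
  obtain ⟨s, rfl⟩ := Nat.exists_eq_add_of_le hr
  refine mem_OL.2 ⟨w, h ^ s * a * x.num, hw, ?_⟩
  have e : x * rf x.denom = rf x.num := by
    rw [← eq_div_iff (rf_ne x.denom_ne_zero), RatFunc.num_div_denom]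
  have e2 := congrArg rf ha
  simp only [rf, map_mul, pow_add] at *
  rw [← e]
  linear_combination (algebraMap k[X] (RatFunc k) (h ^ s) * x) * e2

theorem olx_apx (h : k[X]) (b : OLx h) :
    ∃ f, algebraMap k[X] (OLx h) h ∣ b - algebraMap k[X] (OLx h) f := by
  obtain ⟨w, p, ⟨s, t, hw⟩, e⟩ := mem_OL.1 (mem_OLx.1 b.2)
  refine ⟨s * p, algebraMap k[X] (OLx h) t * b, Subtype.ext ?_⟩
  have e2 := congrArg rf hw
  show (b : RatFunc k) - rf (s * p) = rf h * (rf t * b)
  simp only [rf, map_mul, map_add, map_one] at *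
  rw [← e]
  linear_combination (-(b : RatFunc k)) * e2

theorem poly_of_PP_OL {h : k[X]} {x : RatFunc k} (h1 : x ∈ PP h) (h2 : x ∈ OL h) :
    ∃ p, rf p = x := by
  obtain ⟨N, p, e⟩ := mem_PP.1 h1
  obtain ⟨w, q, hw, e'⟩ := mem_OL.1 h2
  obtain ⟨s, t, hst⟩ := hw.pow_right (n := N)
  refine ⟨s * q + t * p, ?_⟩
  have e2 := congrArg rf hst
  simp only [rf, map_mul, map_add, map_one] at *
  rw [← e, ← e']
  linear_combination x * e2

variable (k) in
/-- The functions that vanish at infinity. -/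
def mI : Ideal (OI k) where
  carrier := {x | (x : RatFunc k) = 0 ∨ (x : RatFunc k).intDegree < 0}
  zero_mem' := Or.inl rfl
  add_mem' := by
    intro x y hx hy
    by_cases h0 : (x : RatFunc k) + y = 0
    · exact Or.inl h0
    rcases hy with hy | hy
    · rcases hx with hx | hx
      · exact Or.inl (by rw [Subalgebra.coe_add, hx, hy, add_zero])
      · exact Or.inr (by rwa [Subalgebra.coe_add, hy, add_zero])
    rcases hx with hx | hx
    · exact Or.inr (by rwa [Subalgebra.coe_add, hx, zero_add])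
    have hy0 : (y : RatFunc k) ≠ 0 := fun e => by simp [e] at hy
    exact Or.inr ((RatFunc.intDegree_add_le hy0 h0).trans_lt (max_lt hx hy))
  smul_mem' := by
    intro c x hx
    by_cases h0 : (c : RatFunc k) * x = 0
    · exact Or.inl h0
    refine Or.inr ?_
    have h1 := RatFunc.intDegree_mul (left_ne_zero_of_mul h0) (right_ne_zero_of_mul h0)
    have h2 := mem_OI_iff.1 c.2
    have h3 := hx.resolve_left (right_ne_zero_of_mul h0)
    show ((c : RatFunc k) * x).intDegree < 0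
    omega

theorem isUnit_of_notMem_mI {x : OI k} (h : x ∉ mI k) : IsUnit x := by
  have h0 : (x : RatFunc k) ≠ 0 := fun e => h (Or.inl e)
  have h1 : ¬(x : RatFunc k).intDegree < 0 := fun e => h (Or.inr e)
  refine IsUnit.of_mul_eq_one ⟨(x : RatFunc k)⁻¹, mem_OI_iff.2 ?_⟩ (Subtype.ext (mul_inv_cancel₀ h0))
  rw [RatFunc.intDegree_inv]
  omega

instance : Nontrivial (OI k ⧸ mI k) :=
  Ideal.Quotient.nontrivial_iff.2 ((Ideal.ne_top_iff_one _).2 fun h => by
    rcases h with h | h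
    · exact one_ne_zero h
    · simp at h)

/-- A column reduced matrix is a unit at infinity times a diagonal matrix of powers. -/
theorem exists_inf {h : k[X]} (hh : h.Monic) {r : ℕ} {S : Mat n k[X]} {d : Fin n → ℕ}
    (hd : ∀ i j, (S i j).natDegree ≤ d j) (c : GL (Fin n) k) (hc : (c : Mat n k) = lead S d)
    (g : GL (Fin n) (RatFunc k)) (hg : rf (h ^ r) • (g : Mat n (RatFunc k)) = S.map rf) :
    ∃ K : GL (Fin n) (OI k),
      gm (OI k).val K * rv (fun j => (d j : ℤ) - r * h.natDegree) (XU k) = g ∧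
      gm (Ideal.Quotient.mkₐ k (mI k)) K = gm (Algebra.ofId k _) c := by
  set m : Fin n → ℤ := fun j => (d j : ℤ) - r * h.natDegree with hm
  let kk : GL (Fin n) (RatFunc k) := g * (rv m (XU k))⁻¹
  have hX : (RatFunc.X : RatFunc k) ≠ 0 := RatFunc.X_ne_zero
  have key : ∀ i j, (kk : Mat n (RatFunc k)) i j - algebraMap k _ ((c : Mat n k) i j) = 0 ∨
      ((kk : Mat n (RatFunc k)) i j - algebraMap k _ ((c : Mat n k) i j)).intDegree < 0 := by
    intro i j
    have e1 : (kk : Mat n (RatFunc k)) i j = (g : Mat n (RatFunc k)) i j * (RatFunc.X ^ m j)⁻¹ := by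
      show ((g : Mat n (RatFunc k)) * diagonal fun i => (((XU k ^ m i)⁻¹ : (RatFunc k)ˣ) :
        RatFunc k)) i j = _
      rw [mul_diagonal, Units.val_inv_eq_inv_val, Units.val_zpow_eq_zpow_val]
      rfl
    have e2 : rf (h ^ r) * (g : Mat n (RatFunc k)) i j = rf (S i j) := congrFun (congrFun hg i) j
    have hq : (h ^ r * X ^ d j).Monic := (hh.pow r).mul (monic_X_pow _)
    have hdq : (h ^ r * X ^ d j).natDegree = d j + r * h.natDegree := by
      rw [(hh.pow r).natDegree_mul (monic_X_pow _), hh.natDegree_pow, natDegree_X_pow, add_comm]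
    have e3 : ((kk : Mat n (RatFunc k)) i j - algebraMap k _ ((c : Mat n k) i j)) *
        rf (h ^ r * X ^ d j) =
        rf (S i j * X ^ (r * h.natDegree) - C ((c : Mat n k) i j) * (h ^ r * X ^ d j)) := by
      have e4 : (RatFunc.X : RatFunc k) ^ m j = RatFunc.X ^ d j / RatFunc.X ^ (r * h.natDegree) := by
        rw [hm, zpow_sub₀ hX, zpow_natCast, ← Nat.cast_mul, zpow_natCast]
      rw [e1, e4, rf_C]
      simp only [rf, map_mul, map_sub, map_pow, RatFunc.algebraMap_X] at e2 ⊢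
      rw [← e2]
      field_simp
    by_cases h0 : (kk : Mat n (RatFunc k)) i j - algebraMap k _ ((c : Mat n k) i j) = 0
    · exact Or.inl h0
    refine Or.inr ?_
    rw [intDegree_of_eq h0 hq.ne_zero e3, hdq, sub_neg, Nat.cast_lt]
    have hp0 : S i j * X ^ (r * h.natDegree) - C ((c : Mat n k) i j) * (h ^ r * X ^ d j) ≠ 0 := by
      intro e
      rw [e] at e3
      exact mul_ne_zero h0 (rf_ne hq.ne_zero) (e3.trans (map_zero _))
    rw [natDegree_lt_iff_degree_lt hp0, degree_lt_iff_coeff_zero]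
    intro e he
    rw [coeff_sub, coeff_C_mul]
    rcases he.eq_or_lt with he | he
    · rw [← he, coeff_mul_X_pow, ← hdq, hq.coeff_natDegree, mul_one, hc]
      exact sub_self _
    · rw [coeff_eq_zero_of_natDegree_lt (hdq.trans_lt he), mul_zero, sub_zero]
      refine coeff_eq_zero_of_natDegree_lt (natDegree_mul_le.trans_lt ?_)
      have := hd i j
      rw [natDegree_X_pow]
      omega
  have h1 : ∀ i j, (kk : Mat n (RatFunc k)) i j - algebraMap k _ ((c : Mat n k) i j) ∈ OI k := by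
    intro i j
    rcases key i j with e | e
    · rw [e]; exact zero_mem _
    · exact mem_OI_iff.2 e.le
  have h2 : ∀ i j, (kk : Mat n (RatFunc k)) i j ∈ OI k := fun i j => by
    simpa using (OI k).add_mem (h1 i j) ((OI k).algebraMap_mem ((c : Mat n k) i j))
  let K0 : Mat n (OI k) := of fun i j => ⟨_, h2 i j⟩
  have e5 : K0.map (Ideal.Quotient.mkₐ k (mI k)) = (c : Mat n k).map (Algebra.ofId k _) := by
    ext i j
    rw [map_apply, map_apply, Algebra.ofId_apply, ← (Ideal.Quotient.mkₐ k (mI k)).commutes]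
    exact Ideal.Quotient.eq.2 (key i j)
  have h3 : IsUnit K0.det := by
    refine isUnit_of_notMem_mI fun e => ?_
    have e6 : Ideal.Quotient.mkₐ k (mI k) K0.det = 0 := Ideal.Quotient.eq_zero_iff_mem.2 e
    rw [AlgHom.map_det, AlgHom.mapMatrix_apply, e5, ← AlgHom.mapMatrix_apply, ← AlgHom.map_det] at e6
    exact (((isUnit_iff_isUnit_det _).1 c.isUnit).map (Algebra.ofId k (OI k ⧸ mI k))).ne_zero e6
  obtain ⟨K, hK⟩ := (isUnit_iff_isUnit_det _).2 h3
  refine ⟨K, ?_, Units.ext ?_⟩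
  · have : gm (OI k).val K = kk := Units.ext (by rw [gm_val, hK]; rfl)
    rw [this, inv_mul_cancel_right]
  · rw [gm_val, hK, e5, gm_val]

variable (k) in
/-- Polynomials of degree at most `-δ`. -/
def dle (δ : ℤ) : Submodule k k[X] where
  carrier := {p | ∀ e : ℕ, -δ < e → p.coeff e = 0}
  zero_mem' := fun _ _ => coeff_zero _
  add_mem' := fun ha hb e he => by rw [coeff_add, ha e he, hb e he, add_zero]
  smul_mem' := fun c _ ha e he => by rw [coeff_smul, ha e he, smul_zero]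

theorem dle_mul (δ δ' : ℤ) (x y : k[X]) (hx : x ∈ dle k δ) (hy : y ∈ dle k δ') :
    x * y ∈ dle k (δ + δ') := by
  intro e he
  rw [coeff_mul]
  refine Finset.sum_eq_zero fun p hp => ?_
  have := Finset.HasAntidiagonal.mem_antidiagonal.1 hp
  by_cases h : -δ < p.1
  · rw [hx _ h, zero_mul]
  · rw [hy _ (by omega), mul_zero]

theorem natDegree_of_dle {δ : ℤ} {x : k[X]} (hx : x ∈ dle k δ) (h0 : x ≠ 0) :
    (x.natDegree : ℤ) ≤ -δ :=
  not_lt.1 fun h => leadingCoeff_ne_zero.2 h0 (hx _ h)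

theorem dle_of_OI {δ : ℤ} {x : k[X]} (h : RatFunc.X ^ δ * rf x ∈ OI k) : x ∈ dle k δ := by
  intro e he
  by_cases h0 : x = 0
  · rw [h0, coeff_zero]
  rw [mem_OI_iff, RatFunc.intDegree_mul (zpow_ne_zero _ RatFunc.X_ne_zero) (rf_ne h0),
    intDegree_zpow, RatFunc.intDegree_polynomial] at h
  exact coeff_eq_zero_of_natDegree_lt (by omega)

/-- The lattice of `φ` along `h`. -/
theorem exists_frame {h : k[X]} (hh : h.Monic) (φ : GL (Fin n) (RatFunc k)) :
    ∃ (r : ℕ) (N : Submodule k[X] (Fin n → k[X])), (∃ S d, MinAdm N S d) ∧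
      ∀ S d, MinAdm N S d → ∃ g : GL (Fin n) (RatFunc k),
        rf (h ^ r) • (g : Mat n (RatFunc k)) = S.map rf ∧ InGL (PP h) g ∧
          InGL (OL h) (φ⁻¹ * g) := by
  choose r1 hr1 using fun p : Fin n × Fin n =>
    exists_pow_mul_mem h ((φ : Mat n (RatFunc k)) p.1 p.2)
  choose r2 hr2 using fun p : Fin n × Fin n =>
    exists_pow_mul_mem h (((φ⁻¹ : GL (Fin n) _) : Mat n _) p.1 p.2)
  set r := Finset.univ.sup r1 + Finset.univ.sup r2 with hr
  let Ψ : Mat n (OLx h) := of fun i j => ⟨_, hr1 (i, j) r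
    ((Finset.le_sup (f := r1) (Finset.mem_univ _)).trans (Nat.le_add_right _ _))⟩
  let Ψ' : Mat n (OLx h) := of fun i j => ⟨_, hr2 (i, j) r
    ((Finset.le_sup (f := r2) (Finset.mem_univ _)).trans (Nat.le_add_left _ _))⟩
  have eΨ : Ψ.map (OLx h).val = rf (h ^ r) • (φ : Mat n _) := rfl
  have eΨ' : Ψ'.map (OLx h).val = rf (h ^ r) • ((φ⁻¹ : GL (Fin n) _) : Mat n _) := rfl
  have inj : ∀ M M' : Mat n (OLx h), M.map (OLx h).val = M'.map (OLx h).val → M = M' :=
    fun M M' e => Matrix.ext fun i j => Subtype.ext (congrFun (congrFun e i) j)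
  have eP : (algebraMap k[X] (OLx h) (h ^ (r + r)) • (1 : Mat n (OLx h))).map (OLx h).val =
      (rf (h ^ r) * rf (h ^ r)) • (1 : Mat n (RatFunc k)) := by
    rw [Matrix.map_smul' _ _ _ (map_mul _), Matrix.map_one _ (map_zero _) (map_one _),
      AlgHom.commutes, pow_add, map_mul]
  have h1 : Ψ * Ψ' = algebraMap k[X] (OLx h) (h ^ (r + r)) • (1 : Mat n (OLx h)) := inj _ _ (by
    rw [Matrix.map_mul, eΨ, eΨ', eP, smul_mul_smul_comm, Units.mul_inv])
  have h2 : Ψ' * Ψ = algebraMap k[X] (OLx h) (h ^ (r + r)) • (1 : Mat n (OLx h)) := inj _ _ (by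
    rw [Matrix.map_mul, eΨ, eΨ', eP, smul_mul_smul_comm, Units.inv_mul])
  have hP : h ^ (r + r) ≠ 0 := pow_ne_zero _ hh.ne_zero
  have hr0 : rf (h ^ r) ≠ 0 := rf_ne (pow_ne_zero _ hh.ne_zero)
  have hreg : IsLeftRegular (algebraMap k[X] (OLx h) (h ^ (r + r))) :=
    (IsRegular.of_ne_zero fun e => rf_ne hP (congrArg Subtype.val e)).left
  refine ⟨r, lat Ψ, exists_minAdm (lat_adm hP h1), fun S d hS => ?_⟩
  obtain ⟨⟨S', hS'⟩, k1, hk1⟩ := hS.basis hP hreg (surj_pow (olx_apx h) _) h1 h2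
  have e1 : rf (h ^ r) • ((φ * gm (OLx h).val k1 : GL (Fin n) _) : Mat n (RatFunc k)) =
      S.map rf := by
    rw [Units.val_mul, ← smul_mul_assoc, ← eΨ, gm_val, ← Matrix.map_mul, hk1]
    rfl
  refine ⟨φ * gm (OLx h).val k1, e1, ⟨fun i j => ?_, fun i j => ?_⟩, ?_⟩
  · exact mem_PP.2 ⟨r, S i j, (mul_comm _ _).trans (congrFun (congrFun e1 i) j)⟩
  · have e2 : rf (h ^ r) • (((φ * gm (OLx h).val k1)⁻¹ : GL (Fin n) _) : Mat n (RatFunc k)) =
        S'.map rf := by
      have e3 : S.map rf * S'.map rf = (rf (h ^ r) * rf (h ^ r)) • (1 : Mat n (RatFunc k)) := by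
        rw [← Matrix.map_mul (f := algebraMap k[X] (RatFunc k)), hS',
          Matrix.map_smul' _ _ _ (map_mul _), Matrix.map_one _ (map_zero _) (map_one _),
          pow_add, map_mul]
      rw [← e1, smul_mul_assoc, mul_smul] at e3
      have e4 := smul_right_injective _ hr0 e3
      rw [← Units.inv_mul_cancel_left (φ * gm (OLx h).val k1) (S'.map rf), e4, mul_smul_comm,
        mul_one]
    exact mem_PP.2 ⟨r, S' i j, (mul_comm _ _).trans (congrFun (congrFun e2 i) j)⟩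
  · rw [inv_mul_cancel_left]
    exact ⟨fun i j => ((k1 : Mat n (OLx h)) i j).2,
      fun i j => (((k1⁻¹ : GL (Fin n) (OLx h)) : Mat n (OLx h)) i j).2⟩

theorem MinAdm.mul_dle {N : Submodule k[X] (Fin n → k[X])} {S : Mat n k[X]} {d : Fin n → ℕ}
    (hS : MinAdm N S d) (q : GL (Fin n) k[X])
    (hq : ∀ i j, (q : Mat n k[X]) i j ∈ dle k ((d i : ℤ) - d j)) :
    MinAdm N (S * (q : Mat n k[X])) d := by
  refine hS.of_adm ⟨fun j => hS.toAdm.mulVec_mem fun i => (q : Mat n k[X]) i j, ?_, fun i j => ?_⟩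
  · rw [det_mul]
    exact mul_ne_zero hS.det ((isUnit_iff_isUnit_det _).1 q.isUnit).ne_zero
  · rw [mul_apply]
    refine natDegree_sum_le_of_forall_le _ _ fun l _ => ?_
    by_cases h0 : (q : Mat n k[X]) l j = 0
    · rw [h0, mul_zero, natDegree_zero]; exact Nat.zero_le _
    · have h3 := natDegree_of_dle (hq l j) h0
      have h4 := hS.deg i l
      exact natDegree_mul_le.trans (by omega)

/-- GH. -/
theorem gh' (H : HS k n) {h : k[X]} (hh : h.Monic) (y : H.B →ₐ[k] RatFunc k)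
    (hy : ∀ b, y b ∈ OL h) (φ : GL (Fin n) (RatFunc k)) (hφ : H.act φ y = H.pt (RatFunc k)) :
    ∃ (g1 : GL (Fin n) (RatFunc k)) (β : GL (Fin n) k) (a : Fin n → ℤ),
      g1 ∈ H.G (RatFunc k) ∧ H.Fixed a (H.act β⁻¹ (H.pt k)) ∧ InGL (PP h) g1 ∧
      InGL (OL h) (φ⁻¹ * g1) ∧
      InGL (OI k) (g1 * (gm (Algebra.ofId k _) β * rv a (XU k) * (gm (Algebra.ofId k _) β)⁻¹)⁻¹) := by
  obtain ⟨r, N, ⟨S, d, hS⟩, frame⟩ := exists_frame hh φ
  have hr0 : rf (h ^ r) ≠ 0 := rf_ne (pow_ne_zero _ hh.ne_zero)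
  obtain ⟨g, hg, hgP, hgO⟩ := frame S d hS
  set m : Fin n → ℤ := fun j => (d j : ℤ) - r * h.natDegree with hm
  let ι := IsScalarTower.toAlgHom k k[X] (RatFunc k)
  have hpt : ∀ (T : Subalgebra k (RatFunc k)) b, H.pt (RatFunc k) b ∈ T := fun T b =>
    T.algebraMap_mem _
  obtain ⟨yA, hyA⟩ : ∃ yA : H.B →ₐ[k] k[X], ι.comp yA = H.act g⁻¹ (H.pt _) := by
    have hv : ∀ b, H.act g⁻¹ (H.pt _) b ∈ ι.range := fun b => by
      refine poly_of_PP_OL (H.act_sub _ _ hgP.2 hgP.1 _ (hpt _) b) ?_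
      have : H.act g⁻¹ (H.pt _) = H.act (φ⁻¹ * g)⁻¹ y := by
        rw [_root_.mul_inv_rev, inv_inv, H.act_mul, hφ]
      rw [this]
      exact H.act_sub _ _ hgO.2 hgO.1 _ hy b
    let e := AlgEquiv.ofInjective ι (RatFunc.algebraMap_injective k)
    refine ⟨e.symm.toAlgHom.comp ((H.act g⁻¹ (H.pt _)).codRestrict _ hv), AlgHom.ext fun b => ?_⟩
    exact congrArg Subtype.val (e.apply_symm_apply ⟨_, hv b⟩)
  obtain ⟨K, hK, -⟩ := exists_inf hh hS.deg (GeneralLinearGroup.mkOfDetNeZero _ hS.lead_det) rfl g hg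
  have hdeg : ∀ δ b, H.cf m yA δ b ∈ dle k δ := by
    intro δ b
    have e1 : H.act (rv m (XU k)) (ι.comp yA) = H.act (gm (OI k).val K)⁻¹ (H.pt _) := by
      rw [hyA, ← H.act_mul, ← hK, _root_.mul_inv_rev, mul_inv_cancel_left]
    have e2 := cf_dgU H (XU k) m (ι.comp yA) δ b
    rw [← rv, e1, H.cf_eq, H.cf_nat, Units.val_zpow_eq_zpow_val] at e2
    refine dle_of_OI ?_
    have h3 := H.act_sub (OI k) (gm (OI k).val K)⁻¹ (inGL_val K).2 (inGL_val K).1 _ (hpt _)
      (H.cf m (AlgHom.id k H.B) δ b)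
    rw [e2] at h3
    exact h3
  have one : (1 : k[X]) ∈ dle k 0 := fun e he => by
    rw [coeff_one, if_neg (by omega)]
  obtain ⟨p, -, hp, hfix, hval⟩ := attr_sub H (-AddMonoidHom.id ℤ) (dle k) (dle k)
    (fun _ => le_rfl) one dle_mul dle_mul
    (fun δ h0 hδ x hx => Polynomial.ext fun e => hx e (by simp at hδ; omega)) m yA hdeg
    fun δ _ b => hdeg δ b
  have hq : ∀ i j, ((p⁻¹ : GL (Fin n) _) : Mat n k[X]) i j ∈ dle k (m i - m j) := by
    intro i j
    have h1 : (1 : Mat n k[X]) i j ∈ dle k (m i - m j) := by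
      by_cases e : i = j
      · subst e; rw [one_apply_eq, sub_self]; exact one
      · rw [one_apply_ne e]; exact zero_mem _
    simpa using add_mem (mem_cut.1 (hp i j)).1 h1
  have hS1 := hS.mul_dle p⁻¹ fun i j => by simpa only [hm, sub_sub_sub_cancel_right] using hq i j
  obtain ⟨g', hg', hgP', hgO'⟩ := frame _ d hS1
  have eg : g' = g * (gm ι p)⁻¹ := Units.ext (smul_right_injective _ hr0 (by
    show rf (h ^ r) • _ = rf (h ^ r) • _
    rw [hg', Units.val_mul, ← smul_mul_assoc, hg, gm_inv_val]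
    exact Matrix.map_mul (f := algebraMap k[X] (RatFunc k))))
  let y1 : H.B →ₐ[k] k := (aeval (0 : k)).comp (H.act p yA)
  have hfix1 : H.Fixed m y1 := fixed_map H _ hfix
  have ey : H.act g' ((Algebra.ofId k (RatFunc k)).comp y1) = H.pt _ := by
    have e1 : (Algebra.ofId k (RatFunc k)).comp y1 = ι.comp (H.act p yA) := by
      refine AlgHom.ext fun b => ?_
      have e2 : H.act p yA b = C ((H.act p yA b).coeff 0) :=
        eq_C_of_natDegree_eq_zero (natDegree_eq_zero_iff_degree_le_zero.2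
          ((degree_le_iff_coeff_zero _ _).2 fun e he => hval b e (by simpa using he)))
      show algebraMap k (RatFunc k) (aeval (0 : k) (H.act p yA b)) = rf (H.act p yA b)
      rw [e2, aeval_C, rf_C]
      rfl
    rw [e1, H.act_nat, hyA, eg, ← H.act_mul, inv_mul_cancel_right, H.act_act_inv]
  let β := GeneralLinearGroup.mkOfDetNeZero _ hS1.lead_det
  obtain ⟨K', hK', hK''⟩ := exists_inf hh hS1.deg β rfl g' hg'
  have eβ : H.act β y1 = H.pt k := by
    have e1 : H.act K' ((Algebra.ofId k (OI k)).comp y1) = H.pt _ := by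
      refine H.act_inj (OI k).val Subtype.val_injective ?_
      rw [H.pt_map, ← ey, ← hK', H.act_mul, rv, act_of_fixed H _ _ hfix1]
      rfl
    have e2 := H.act_map (Ideal.Quotient.mkₐ k (mI k)) e1
    rw [hK'', H.pt_map] at e2
    refine H.act_inj (Algebra.ofId k (OI k ⧸ mI k)) (algebraMap k _).injective ?_
    rw [H.pt_map]
    exact e2
  have eβ' : H.act β⁻¹ (H.pt k) = y1 := (H.act_eq_iff _ _ _).1 eβ
  refine ⟨g' * (gm (Algebra.ofId k _) β)⁻¹, β, m, ?_, eβ' ▸ hfix1,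
    inGL_mul hgP' (inGL_inv (inGL_const β)), ?_, ?_⟩
  · rw [H.mem_G, H.act_mul, ← map_inv]
    conv_lhs => rw [← H.pt_map (Algebra.ofId k (RatFunc k)), ← H.act_nat, eβ']
    exact ey
  · rw [← mul_assoc]
    exact inGL_mul hgO' (inGL_inv (inGL_const β))
  · have e : g' * (gm (Algebra.ofId k _) β)⁻¹ *
        (gm (Algebra.ofId k _) β * rv m (XU k) * (gm (Algebra.ofId k _) β)⁻¹)⁻¹ =
        gm (OI k).val K' * (gm (Algebra.ofId k _) β)⁻¹ := by
      rw [← hK', ← hm]
      group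
    rw [e]
    exact inGL_mul (inGL_val K') (inGL_inv (inGL_const β))

/-- GH for a constant point. -/
theorem gh (H : HS k n) {h : k[X]} (hh : h.Monic) (y1 : H.B →ₐ[k] k)
    (φ : GL (Fin n) (RatFunc k))
    (hφ : H.act φ ((Algebra.ofId k (RatFunc k)).comp y1) = H.pt (RatFunc k)) :
    ∃ (g1 : GL (Fin n) (RatFunc k)) (β : GL (Fin n) k) (a : Fin n → ℤ),
      g1 ∈ H.G (RatFunc k) ∧ H.Fixed a (H.act β⁻¹ (H.pt k)) ∧ InGL (PP h) g1 ∧
      InGL (OL h) (φ⁻¹ * g1) ∧
      InGL (OI k) (g1 * (gm (Algebra.ofId k _) β * rv a (XU k) * (gm (Algebra.ofId k _) β)⁻¹)⁻¹) :=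
  gh' H hh _ (fun _ => (OL h).algebraMap_mem _) φ hφ

end Pool.Agent.GF
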