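import Mathlib

/-! Placing a finite reduced algebra over a finite field on the affine line. -/

set_option autoImplicit false

open Polynomial

universe u

namespace Pool.Agent.GF

variable {k : Type u} [Field k] [Finite k]

theorem exists_mu (F : Type u) [Field F] [Algebra k F] [Module.Finite k F] (a : ℕ) (ha : a ≠ 0) :
    ∃ (μ : F[X]) (p : k[X]), μ.Monic ∧ 0 < μ.natDegree ∧ Irreducible p ∧
      p.natDegree = Module.finrank k F * a ∧ μ ∣ p.map (algebraMap k F) ∧
      ∀ c : F, ∃ f : k[X], μ ∣ f.map (algebraMap k F) - C c := by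
  have : Finite F := Module.finite_of_finite k
  have : NeZero a := ⟨ha⟩
  obtain ⟨p, hp⟩ := CharP.exists F
  have : Fact p.Prime := ⟨CharP.char_is_prime F p⟩
  let L := FiniteField.Extension F p a
  let : Algebra k L := ((algebraMap F L).comp (algebraMap k F)).toAlgebra
  have : IsScalarTower k F L := IsScalarTower.of_algebraMap_eq fun _ => rfl
  have : Module.Finite k L := Module.Finite.trans F L
  obtain ⟨α, hα⟩ := Field.exists_primitive_element k L
  have h1 : IsIntegral F α := Algebra.IsIntegral.isIntegral α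
  have h2 : IsIntegral k α := Algebra.IsIntegral.isIntegral α
  refine ⟨minpoly F α, minpoly k α, minpoly.monic h1, minpoly.natDegree_pos h1,
    minpoly.irreducible h2, ?_, minpoly.dvd_map_of_isScalarTower k F α, fun c => ?_⟩
  · rw [(Field.primitive_element_iff_minpoly_natDegree_eq k α).1 hα,
      ← Module.finrank_mul_finrank k F L, FiniteField.finrank_extension]
  · have h3 : algebraMap F L c ∈ (IntermediateField.adjoin k {α}).toSubalgebra := by
      rw [hα]
      trivial
    rw [IntermediateField.adjoin_simple_toSubalgebra_of_isAlgebraic h2.isAlgebraic,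
      Algebra.adjoin_singleton_eq_range_aeval] at h3
    obtain ⟨f, hf⟩ := h3
    refine ⟨f, minpoly.dvd F α ?_⟩
    rw [map_sub, aeval_map_algebraMap, aeval_C]
    exact sub_eq_zero.2 hf

theorem dvd_of_forall {K : Type u} [CommRing K] [IsArtinianRing K] [IsReduced K] {ν h : K[X]}
    (hν : ν.Monic) (H : ∀ z : MaximalSpectrum K,
      ν.map (Ideal.Quotient.mk z.asIdeal) ∣ h.map (Ideal.Quotient.mk z.asIdeal)) : ν ∣ h := by
  rw [← modByMonic_eq_zero_iff_dvd hν]
  ext i
  have h1 : (h %ₘ ν).coeff i ∈ nilradical K := by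
    rw [IsArtinianRing.nilradical_eq_iInf, Submodule.mem_iInf]
    intro z
    have h2 := (modByMonic_eq_zero_iff_dvd (hν.map _)).2 (H z)
    rw [← map_modByMonic _ hν] at h2
    have h3 := congrArg (coeff · i) h2
    simpa [Ideal.Quotient.eq_zero_iff_mem] using h3
  simpa using h1

theorem exists_monic_lift {K : Type u} [CommRing K] [Nontrivial K] {ι : Type u} [Finite ι]
    {I : ι → Ideal K} (hI : Pairwise (Function.onFun IsCoprime I)) (n : ℕ)
    (ν : ∀ i, (K ⧸ I i)[X]) (h1 : ∀ i, (ν i).Monic) (h2 : ∀ i, (ν i).natDegree = n) :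
    ∃ f : K[X], f.Monic ∧ f.natDegree = n ∧ ∀ i, f.map (Ideal.Quotient.mk (I i)) = ν i := by
  choose c hc using fun j : ℕ => Ideal.pi_quotient_surjective hI fun i => (ν i).coeff j
  have h3 : (∑ j ∈ Finset.range n, C (c j) * X ^ j).degree < (n : WithBot ℕ) := by
    rw [← Fin.sum_univ_eq_sum_range fun j => C (c j) * X ^ j]
    exact degree_sum_fin_lt _
  refine ⟨X ^ n + ∑ j ∈ Finset.range n, C (c j) * X ^ j, monic_X_pow_add h3, ?_, fun i => ?_⟩
  · rw [natDegree_add_eq_left_of_degree_lt (by rwa [degree_X_pow]), natDegree_X_pow]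
  · rw [(h1 i).as_sum, h2 i]
    simp only [Polynomial.map_add, Polynomial.map_pow, map_X, Polynomial.map_sum,
      Polynomial.map_mul, map_C]
    exact congrArg _ (Finset.sum_congr rfl fun j _ => by rw [hc j i])

theorem exists_pow_eq {K : Type u} [CommRing K] [Finite K] [IsReduced K] (p : ℕ) [Fact p.Prime]
    [CharP K p] (c : K) (N : ℕ) : ∃ a, N ≤ p ^ a ∧ c ^ p ^ a = c := by
  obtain ⟨a, ha, h⟩ := (frobenius_inj K p).mem_periodicPts c
  refine ⟨a * N, ?_, ?_⟩
  · exact (Nat.le_mul_of_pos_left N ha).trans (Nat.lt_pow_self (Fact.out : p.Prime).one_lt).le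
  · have h1 : (frobenius K p)^[a * N] c = c := h.mul_const N
    rwa [iterate_frobenius] at h1

/-- The polynomial of the ramified cover. -/
theorem exists_nu (K : Type u) [CommRing K] [Nontrivial K] [Algebra k K] [Module.Finite k K]
    [IsReduced K] (f0 : k[X]) (hf0 : f0 ≠ 0) (sp : MaximalSpectrum K → Prop)
    (hs1 : ∀ z z', sp z → sp z' → z = z')
    (hs2 : ∀ z, sp z → ∀ c : K, ∃ r : k, c - algebraMap k K r ∈ z.asIdeal) :
    ∃ ν : K[X], ν.Monic ∧ 0 < ν.natDegree ∧
      (∀ (N : ℕ) (c : K), ∃ f : k[X], ν ^ N ∣ f.map (algebraMap k K) - C c) ∧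
      (∀ z, sp z → ν.coeff 0 ∈ z.asIdeal) ∧
      ∃ p : k[X], ν ∣ p.map (algebraMap k K) ∧ ((∀ z, ¬sp z) → IsCoprime p f0) := by
  classical
  have : Finite K := Module.finite_of_finite k
  have : IsArtinianRing K := isArtinian_of_finite
  have : Fintype (MaximalSpectrum K) := Fintype.ofFinite _
  let : ∀ z : MaximalSpectrum K, Field (K ⧸ z.asIdeal) := fun z =>
    @Ideal.Quotient.field _ _ _ z.isMaximal
  obtain ⟨j, hj⟩ := Countable.exists_injective_nat (MaximalSpectrum K)
  set d : ℕ := ∏ z : MaximalSpectrum K, Module.finrank k (K ⧸ z.asIdeal) with hd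
  have hd0 : 0 < d := Finset.prod_pos fun z _ => Module.finrank_pos
  have key : ∀ z : MaximalSpectrum K, ∃ (μ : (K ⧸ z.asIdeal)[X]) (p : k[X]), μ.Monic ∧
      0 < μ.natDegree ∧ Irreducible p ∧
      p.natDegree = (if sp z then 1 else d * (j z + f0.natDegree + 2)) ∧
      μ ∣ p.map (algebraMap k _) ∧
      (∀ c : K ⧸ z.asIdeal, ∃ f : k[X], μ ∣ f.map (algebraMap k _) - C c) ∧
      (sp z → μ = X) := by
    intro z
    by_cases h : sp z
    · refine ⟨X, X, monic_X, by simp, irreducible_X, by simp [h], by simp, fun c => ?_,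
        fun _ => rfl⟩
      obtain ⟨c, rfl⟩ := Ideal.Quotient.mk_surjective c
      obtain ⟨r, hr⟩ := hs2 z h c
      refine ⟨C r, ?_⟩
      rw [map_C, Ideal.Quotient.eq.2 hr]
      exact ⟨0, by rw [mul_zero]; exact sub_self _⟩
    · obtain ⟨e, he⟩ : Module.finrank k (K ⧸ z.asIdeal) ∣ d :=
        Finset.dvd_prod_of_mem _ (Finset.mem_univ z)
      have he0 : e ≠ 0 := by
        rintro rfl
        omega
      obtain ⟨μ, p, h1, h2, h3, h4, h5, h6⟩ := exists_mu (k := k) (K ⧸ z.asIdeal)
        (e * (j z + f0.natDegree + 2)) (mul_ne_zero he0 (by omega))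
      exact ⟨μ, p, h1, h2, h3, by rw [h4, if_neg h, he, mul_assoc], h5, h6, fun h' => (h h').elim⟩
  choose μ p h1 h2 h3 h4 h5 h6 h7 using key
  have hbig : ∀ z, ¬sp z → f0.natDegree + 2 ≤ (p z).natDegree := fun z hz => by
    rw [h4, if_neg hz]
    exact (by omega : _ ≤ j z + f0.natDegree + 2).trans (Nat.le_mul_of_pos_left _ hd0)
  have hcop : Pairwise (Function.onFun IsCoprime fun z => Ideal.span {p z}) := by
    intro z z' hz
    refine (Ideal.isCoprime_span_singleton_iff _ _).2 ((h3 z).coprime_iff_not_dvd.2 fun h => hz ?_)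
    have h8 := natDegree_eq_of_degree_eq (degree_eq_degree_of_associated
      ((h3 z).associated_of_dvd (h3 z') h))
    by_cases a : sp z <;> by_cases b : sp z'
    · exact hs1 _ _ a b
    · have := hbig z' b
      rw [← h8, h4, if_pos a] at this
      omega
    · have := hbig z a
      rw [h8, h4, if_pos b] at this
      omega
    · rw [h4, h4, if_neg a, if_neg b] at h8
      have := Nat.eq_of_mul_eq_mul_left hd0 h8
      exact hj (by omega)
  set n : ℕ := ∏ z, (μ z).natDegree with hn
  have hn0 : 0 < n := Finset.prod_pos fun z _ => h2 z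
  have hdv : ∀ z, (μ z).natDegree ∣ n := fun z => Finset.dvd_prod_of_mem _ (Finset.mem_univ z)
  obtain ⟨ν, a1, a2, a3⟩ := exists_monic_lift (I := fun z : MaximalSpectrum K => z.asIdeal)
    (fun _ _ h => MaximalSpectrum.isCoprime_of_ne h) n
    (fun z => μ z ^ (n / (μ z).natDegree)) (fun z => (h1 z).pow _) fun z => by
      rw [(h1 z).natDegree_pow, Nat.div_mul_cancel (hdv z)]
  have hpow : ∀ h : K[X], (∀ z, μ z ∣ h.map (Ideal.Quotient.mk z.asIdeal)) → ν ∣ h ^ n :=
    fun h H => dvd_of_forall a1 fun z => by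
      rw [a3, Polynomial.map_pow]
      exact pow_dvd_pow_of_dvd_of_le (H z) (Nat.div_le_self _ _)
  have hmap : ∀ (z : MaximalSpectrum K) (f : k[X]), (f.map (algebraMap k K)).map
      (Ideal.Quotient.mk z.asIdeal) = f.map (algebraMap k _) := fun z f => map_map _ _ _
  refine ⟨ν, a1, a2 ▸ hn0, fun N c => ?_, fun z hz => ?_, (∏ z, p z) ^ n, ?_, fun h => ?_⟩
  · choose f hf using fun z => h6 z (Ideal.Quotient.mk z.asIdeal c)
    obtain ⟨f', hf'⟩ := Ideal.exists_forall_sub_mem_ideal hcop f
    have b1 := hpow (f'.map (algebraMap k K) - C c) fun z => by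
      rw [Polynomial.map_sub, hmap, map_C]
      have b0 : p z ∣ f' - f z := Ideal.mem_span_singleton.1 (hf' z)
      have b2 := (h5 z).trans (Polynomial.map_dvd (algebraMap k (K ⧸ z.asIdeal)) b0)
      rw [Polynomial.map_sub] at b2
      simpa using dvd_add b2 (hf z)
    obtain ⟨q, hq⟩ := CharP.exists k
    have : Fact q.Prime := ⟨CharP.char_is_prime k q⟩
    have : CharP K q := charP_of_injective_algebraMap (algebraMap k K).injective q
    obtain ⟨a, b2, b3⟩ := exists_pow_eq q c (n * N)
    refine ⟨f' ^ q ^ a, ?_⟩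
    have b0 := pow_dvd_pow_of_dvd b1 N
    rw [← pow_mul] at b0
    have b4 := b0.trans (pow_dvd_pow _ b2)
    rwa [sub_pow_char_pow, ← C_pow, b3, ← Polynomial.map_pow] at b4
  · have b1 := congrArg (coeff · 0) (a3 z)
    have b2 : n / (X : (K ⧸ z.asIdeal)[X]).natDegree ≠ 0 := by simpa using hn0.ne'
    simp only [coeff_map, h7 z hz, coeff_X_pow, if_neg b2.symm] at b1
    exact Ideal.Quotient.eq_zero_iff_mem.1 b1
  · rw [Polynomial.map_pow]
    refine hpow _ fun z => ?_
    rw [hmap]
    exact (h5 z).trans (Polynomial.map_dvd _ (Finset.dvd_prod_of_mem _ (Finset.mem_univ z)))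
  · refine IsCoprime.pow_left (IsCoprime.prod_left fun z _ =>
      (h3 z).coprime_iff_not_dvd.2 fun h' => ?_)
    have := natDegree_le_of_dvd h' hf0
    have := hbig z (h z)
    omega

end Pool.Agent.GF
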