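import Pool.Agent.P.MP_c1f06d_ag.f.Ypa
import Pool.Agent.P.MP_c1f06d_ag.f.Fin

/-! The two patches. -/

set_option autoImplicit false

open Polynomial IsLocalRing Pool.Agent.GR.KL TensorProduct

universe u

namespace Pool.Agent.GF

variable {R : Type u} [CommRing R] [IsLocalRing R]

/-- The first patch: the semilocal ring of the line along `c`, with a rational point. -/
theorem red_one {c : R[X]} (hc : c.Monic) (h0 : c.coeff 0 ∈ maximalIdeal R) :
    ∃ (D L : Type u) (_ : CommRing D) (_ : Algebra R D) (_ : CommRing L) (_ : Algebra R L) (t : D)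
      (φ : D →ₐ[R] L) (ρ : L →ₐ[R] RatFunc (ResidueField R)),
      Red c t φ (ρ : L →+* RatFunc (ResidueField R)) (RingHom.id _) ∧ Nonempty (D →ₐ[R] R) := by
  have hd : 0 < c.natDegree := Nat.pos_of_ne_zero fun h => by
    rw [hc.natDegree_eq_zero.1 h] at h0
    simp at h0
  obtain ⟨D, L, _, b1, a1, t1, _, b2, a2, t2, t, φ, ρ, h, -, he⟩ := red_fam (R := R) (O := R)
    (ι := PUnit) (fun _ => ResidueField R) (fun _ _ => rfl)
    (fun x => (residue_surjective (x ⟨⟩)).imp fun _ h _ => h)
    (fun o h => Ideal.mem_map_of_mem (algebraMap R R) ((residue_eq_zero_iff o).1 (h ⟨⟩)))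
    (c := 1) (y := c) hc hd
    (fun b => ⟨b, by simp⟩) (fun f hf => by simpa using hf) (by simp) isCoprime_one_left
  obtain ⟨e, -⟩ := he R 0 fun p ⟨u, v, huv⟩ => by
    have h1 := congrArg (coeff · 0) huv
    simp only [coeff_add, mul_coeff_zero, coeff_one_zero] at h1
    rw [coe_aeval_eq_eval, ← coeff_zero_eq_eval_zero]
    refine isUnit_of_mul_isUnit_right (x := u.coeff 0) ?_
    rw [eq_sub_of_add_eq h1]
    exact isUnit_one_sub_self_of_mem_nonunits _ (Ideal.mul_mem_left (maximalIdeal R) _ h0)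
  have e1 : b1 = a1 := Algebra.algebra_ext b1 a1 fun r =>
    @IsScalarTower.algebraMap_apply R R D _ _ _ _ a1 b1 t1 r
  have e2 : b2 = a2 := Algebra.algebra_ext b2 a2 fun r =>
    @IsScalarTower.algebraMap_apply R R L _ _ _ _ a2 b2 t2 r
  subst e1 e2
  refine ⟨D, L, inferInstance, inferInstance, inferInstance, inferInstance, t, φ,
    (Pi.evalAlgHom R _ PUnit.unit).comp ρ, ⟨h.nb, h.inj, h.unit, h.loc, h.cop,
      fun l hl => h.ker l (_root_.funext fun ⟨⟩ => hl), fun p => ?_⟩, ⟨e⟩⟩
  exact (congrFun (h.comm p) ⟨⟩).trans ((rc_rf _).trans (by simp))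

/-- The second patch: a finite reduced cover placed on the line away from `h`. -/
theorem ypatch [Finite (ResidueField R)] (O : Type u) [CommRing O] [Algebra R O]
    [Module.Finite R O] [Module.Free R O] [Nontrivial O] [IsReduced (ResidueField R ⊗[R] O)]
    {h : R[X]} (hh : h.Monic) :
    ∃ (y : R[X]) (ι : Type u) (_ : Finite ι) (k : ι → Type u) (_ : ∀ z, Field (k z))
      (_ : ∀ z, Algebra R (k z)) (_ : ∀ z, Algebra O (k z))
      (_ : ∀ z, Algebra (ResidueField R) (k z)) (_ : ∀ z, IsScalarTower R O (k z))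
      (_ : ∀ z, IsScalarTower R (ResidueField R) (k z))
      (D L : Type u) (_ : CommRing D) (_ : Algebra R D) (_ : Algebra O D) (_ : IsScalarTower R O D)
      (_ : CommRing L) (_ : Algebra R L) (_ : Algebra O L) (_ : IsScalarTower R O L) (t : D)
      (φ : D →ₐ[O] L) (ρ : L →ₐ[O] ∀ z, RatFunc (k z)),
      y.Monic ∧ 0 < y.natDegree ∧ IsCoprime y h ∧
      Red y t (φ.restrictScalars R) (ρ : L →+* ∀ z, RatFunc (k z))
        (RingHom.pi fun z => rc (ResidueField R) (k z)) ∧ Function.Surjective ρ := by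
  let K := ResidueField R ⊗[R] O
  let π : O →ₐ[R] K := Algebra.TensorProduct.includeRight
  let E := Algebra.TensorProduct.quotIdealMapEquivQuotTensor O (maximalIdeal R)
  have hπ : Function.Surjective π := E.surjective.comp Ideal.Quotient.mk_surjective
  have hk : ∀ o, π o = 0 → o ∈ mB R O := fun o ho =>
    Ideal.Quotient.eq_zero_iff_mem.1 (E.injective (ho.trans (map_zero E).symm))
  have : Nontrivial K := inferInstance
  have : Finite K := Module.finite_of_finite (ResidueField R)
  have : IsArtinianRing K := isArtinian_of_finite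
  have hπ' := map_surjective (π : O →+* K) hπ
  have hk' : ∀ p : O[X], p.map (π : O →+* K) = 0 → p ∈ mB R O[X] := fun p hp =>
    mB_coeff fun i => hk _ ((coeff_map (π : O →+* K) i).symm.trans (by rw [hp, coeff_zero]))
  have ea : ∀ f : R[X], (aeval (X : O[X]) f).map (π : O →+* K) =
      (f.map (residue R)).map (algebraMap _ K) := fun f => by
    rw [aeval_X_left_eq_map, Polynomial.map_map, Polynomial.map_map]
    exact congrArg f.map (RingHom.ext fun r => π.commutes r)
  obtain ⟨ν0, n1, n2, n3, -, p, n4, n5⟩ := exists_nu (k := ResidueField R) K (h.map (residue R))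
    (hh.map _).ne_zero (fun _ => False) (fun _ _ h => h.elim) fun _ h => h.elim
  obtain ⟨ν, rfl, n6, hν⟩ := lifts_and_natDegree_eq_and_monic (hπ' ν0) n1
  have s1 : ∀ b : Polynomial K, ∃ f : Polynomial (ResidueField R),
      ν.map (π : O →+* K) ^ 2 ∣ b - f.map (algebraMap _ K) := fun b => by
    induction b using Polynomial.induction_on' with
    | add a b ha hb =>
      obtain ⟨f, hf⟩ := ha
      obtain ⟨g, hg⟩ := hb
      exact ⟨f + g, by rw [Polynomial.map_add, add_sub_add_comm]; exact dvd_add hf hg⟩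
    | monomial i c =>
      obtain ⟨f, hf⟩ := n3 2 c
      refine ⟨f * X ^ i, ?_⟩
      rw [← C_mul_X_pow_eq_monomial, Polynomial.map_mul, Polynomial.map_pow, map_X, ← sub_mul]
      exact (dvd_sub_comm.1 hf).mul_right _
  have s2 : ∀ b : O[X], ∃ f : R[X], ν ^ 2 ∣ b - aeval X f := fun b => by
    obtain ⟨_, ⟨f, rfl⟩, hf⟩ := (FM.of_monic (R := R) (hν.pow 2)).nak
      (LinearMap.range (aeval (X : O[X]) : R[X] →ₐ[R] O[X]).toLinearMap) (fun b => by
        obtain ⟨f, w, hw⟩ := s1 (b.map (π : O →+* K))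
        obtain ⟨f, rfl⟩ := map_surjective (residue R) residue_surjective f
        obtain ⟨w, rfl⟩ := hπ' w
        refine ⟨aeval X f, ⟨f, rfl⟩, ?_⟩
        rw [show b - aeval X f = ν ^ 2 * w + (b - aeval X f - ν ^ 2 * w) by ring]
        refine Submodule.add_mem_sup (Ideal.mul_mem_right _ _ (Ideal.mem_span_singleton_self _))
          (hk' _ ?_)
        rw [Polynomial.map_sub, Polynomial.map_sub, ea, hw, Polynomial.map_mul, Polynomial.map_pow,
          sub_self]) b
    exact ⟨f, hf⟩
  have : Module.Free R O[X] := Module.Free.trans (S := O)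
  obtain ⟨y, c, hy, h4, h5, h3⟩ := exists_eqn (RT.of_monic (R := R) hν) (FM.of_monic hν) X s2
  have h2 : ∀ b : O[X], ∃ f : R[X], ν ∣ b - aeval X f := fun b =>
    (s2 b).imp fun f hf => (dvd_pow_self ν two_ne_zero).trans hf
  have hd : 0 < ν.natDegree := n6 ▸ n2
  have hyh : IsCoprime y h := by
    obtain ⟨u, v, e⟩ :=
      ((n5 fun _ h => h).map (mapRingHom (algebraMap _ K))).of_isCoprime_of_dvd_left n4
    obtain ⟨u, rfl⟩ := hπ' u
    obtain ⟨v, rfl⟩ := hπ' v
    obtain ⟨a, b, e1⟩ : IsCoprime (aeval X h) ν := by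
      refine (FM.of_monic (R := R) hν).coprime (z' := v) ?_
      rw [show aeval X h * v - 1 = ν * -u + (u * ν + v * aeval X h - 1) by ring]
      refine Submodule.add_mem_sup (Ideal.mul_mem_right _ _ (Ideal.mem_span_singleton_self ν))
        (hk' _ ?_)
      rw [Polynomial.map_sub, Polynomial.map_add, Polynomial.map_mul, Polynomial.map_mul, ea,
        Polynomial.map_one]
      exact sub_eq_zero.2 e
    obtain ⟨f, w, hw⟩ := h2 a
    obtain ⟨q, hq⟩ := h3 (1 - f * h) ⟨b + w * aeval X h, by
      rw [map_sub, map_one, map_mul]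
      linear_combination aeval X h * hw - e1⟩
    exact ⟨q, f, by linear_combination -hq⟩
  have hy0 : 0 < y.natDegree := Nat.pos_of_ne_zero fun h0 => by
    rw [hy.natDegree_eq_zero.1 h0, map_one] at h4
    exact hd.ne' (hν.natDegree_eq_zero.2 (hν.eq_one_of_isUnit
      (isUnit_of_mul_isUnit_right (h4 ▸ isUnit_one : IsUnit (c * ν)))))
  let k : MaximalSpectrum K → Type u := fun z => K ⧸ z.asIdeal
  let : ∀ z, Field (k z) := fun z => @Ideal.Quotient.field _ _ _ z.isMaximal
  let : Algebra O K := (π : O →+* K).toAlgebra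
  have : IsScalarTower R O K := .of_algebraMap_eq fun r => (π.commutes r).symm
  obtain ⟨D, L, _, _, _, _, _, _, _, _, t, φ, ρ, r1, r2, -⟩ := red_fam (R := R) (O := O) k
    (fun r z => congrArg (Ideal.Quotient.mk z.asIdeal) (π.commutes r))
    (fun x => by
      obtain ⟨a, rfl⟩ := (IsArtinianRing.equivPi K).surjective x
      obtain ⟨o, rfl⟩ := hπ a
      exact ⟨o, fun z => rfl⟩)
    (fun o ho => hk o ((IsArtinianRing.equivPi K).injective ((funext ho).trans (map_zero _).symm)))
    hν hd h2 h3 h4 h5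
  exact ⟨y, _, inferInstance, k, inferInstance, inferInstance, inferInstance, inferInstance,
    inferInstance, inferInstance, D, L, inferInstance, inferInstance, inferInstance, inferInstance,
    inferInstance, inferInstance, inferInstance, inferInstance, t, φ, ρ, hy, hy0, hyh, r1, r2⟩

end Pool.Agent.GF
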