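import Pool.Agent.P.MP_c1f06d_ag.f.Const
import Pool.Agent.P.MP_c1f06d_ag.f.Fibre
import Pool.Agent.P.MP_c1f06d_ag.f.GH
import Pool.Agent.P.MP_c1f06d_ag.f.Ypatch
import Pool.Agent.P.MP_c1f06d_ag.f.DAux
import Pool.Agent.P.MP_c1f06d_ag.f.Cover

/-! Descent from `R[X]_f` to `R` for a finite residue field. -/

set_option autoImplicit false

open Matrix Polynomial IsLocalRing
open scoped TensorProduct

universe u

namespace Pool.Agent.GR.HS

open GF KL DC

/-- The closed fibre. -/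
theorem fib {k0 : Type u} [Field k0] {n r : ℕ} (H0 : HS k0 n) (χ : Fin n → Fin r → ℤ)
    (hF : ∀ (Ω : Type u) [Field Ω] [Algebra k0 Ω], H0.Frame χ (H0.pt Ω))
    (hP : ∀ (Ω : Type u) [Field Ω] [Algebra k0 Ω], (H0.van Ω).IsPrime)
    (R : Type u) [CommRing R] [IsLocalRing R] [Algebra k0 R]
    (S : Type u) [CommRing S] [Algebra R S] [Algebra k0 S] [IsScalarTower k0 R S] [Module.Flat R S]
    (x1 x2 : H0.B →ₐ[k0] S) (f : R[X]) (hf : f.map (residue R) ≠ 0)
    (τ : GL (Fin n) (Localization.Away f)) (hτ : H0.Fr R x1 x2 τ)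
    (O : Type u) [CommRing O] [Algebra R O] (x0 : O) (hx0 : IsUnit (aeval x0 f))
    (γ : GL (Fin n) O)
    (hγ : ∀ (T : Type u) [CommRing T] [Algebra R T] [Algebra k0 T] [IsScalarTower k0 R T]
      (i : O →ₐ[R] T) (g : GL (Fin n) T),
      H0.Fr R x2 x2 g ↔ (gm i γ)⁻¹ * g * gm i γ ∈ H0.G T)
    (H1 : HS (ResidueField R) n)
    (hG : ∀ (T : Type u) [CommRing T] [Algebra (ResidueField R) T] [Algebra R T]
      [IsScalarTower R (ResidueField R) T] (g : GL (Fin n) T), g ∈ H1.G T ↔ H0.Fr R x2 x2 g)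
    (hO : Nontrivial (ResidueField R ⊗[R] O))
    {a b H : R[X]} (hH : H.Monic) (hH0 : H.coeff 0 ∈ maximalIdeal R)
    (h3 : ∀ (k : Type u) [Field k] (φ : R →+* k), (∀ r ∈ maximalIdeal R, φ r = 0) →
        ∀ f1 : k[X], f1.Monic → f1 ∣ f.map φ →
          DegZero (H.map φ) (aeval (rf (a.map φ) / rf (b.map φ)) f1))
    (θ : Localization.Away f →ₐ[R] RatFunc (ResidueField R))
    (hb : b.map (residue R) ≠ 0)
    (hθ : θ (algebraMap R[X] _ X) * rf (b.map (residue R)) = rf (a.map (residue R)))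
    {ψ y : (ResidueField R)[X]} (hy : y ≠ 0) (hψ : 0 < ψ.natDegree) {D : ℕ}
    (hD : (XX χ).card.factorial ∣ D) (hd : ψ.natDegree = D * y.natDegree)
    (hc : IsCoprime ((H.map (residue R)).comp ψ) y) :
    ∃ (μ : Fin n → ℤ) (g η : GL (Fin n) (RatFunc (ResidueField R))), H0.Fixed μ (H0.pt k0) ∧
      InGL (PP ((H.map (residue R)).comp ψ * y)) g ∧ InGL (OI _) g ∧
      InGL (OL ((H.map (residue R)).comp ψ)) ((gm (pb ψ hψ) (gm θ τ))⁻¹ * g) ∧
      InGL (OL y) (η⁻¹ * g) ∧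
      ∀ (k : Type u) [Field k] [Algebra R k] [Algebra k0 k] [IsScalarTower k0 R k]
        [Algebra (ResidueField R) k] [IsScalarTower R (ResidueField R) k] (i : O →ₐ[R] k),
          (GeneralLinearGroup.map (algebraMap k (RatFunc k)) (gm i γ))⁻¹ *
            gm (bc (ResidueField R) k) η *
            GeneralLinearGroup.map (algebraMap k (RatFunc k)) (gm i γ) ∈ H0.Gp μ (RatFunc k) := by
  obtain ⟨θx, -⟩ := exists_pt hx0
  obtain ⟨y1, hy1⟩ := Fr.desc H1 hG ((hτ.map θx).map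
    (Algebra.TensorProduct.includeRight : O →ₐ[R] ResidueField R ⊗[R] O))
  obtain ⟨g1, β, a', hg1, hβ, p1, p2, p3⟩ := gh H1 (hH.map (residue R)) y1 (gm θ τ)
    ((hy1 _ _).1 (hτ.map θ))
  obtain ⟨q1, q2, q3, q4⟩ := pull hy hψ hd hc (gm θ τ) g1 β a' p1 p2 p3 _ rfl
  obtain ⟨μ, hμ⟩ := exists_add_sep (XX χ)
  have hμ' := (hF k0).fix.push μ
  refine ⟨_, _, _, hμ', q1, q2, q3, q4, fun k _ _ _ _ _ _ i => ?_⟩
  have em : ∀ p : R[X], (p.map (residue R)).map (algebraMap (ResidueField R) k) =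
      p.map (algebraMap R k) := fun p => by
    rw [Polynomial.map_map]
    congr 1
    exact (IsScalarTower.algebraMap_eq R (ResidueField R) k).symm
  have ne : ∀ p : R[X], p.map (residue R) ≠ 0 → p.map (algebraMap R k) ≠ 0 := fun p hp => by
    rw [← em]
    exact (Polynomial.map_ne_zero_iff (algebraMap (ResidueField R) k).injective).2 hp
  let θk : Localization.Away f →ₐ[R] RatFunc k :=
    ((bc (ResidueField R) k).restrictScalars R).comp θ
  have e1 : θk (algebraMap R[X] _ X) = rf (a.map (algebraMap R k)) / rf (b.map (algebraMap R k)) := by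
    have := congrArg (bc (ResidueField R) k) hθ
    rw [map_mul, bc_rf, bc_rf, em, em] at this
    exact eq_div_of_mul_eq (rf_ne (ne b hb)) this
  have e2 := away_apply θk
  rw [e1] at e2
  obtain ⟨A, _, _, _, ev, ι, σ, s1, s2, s3⟩ := exists_A (ne f hf)
    (e2 f ▸ (IsLocalization.Away.algebraMap_isUnit f).map θk)
  have eX : ∀ p : R[X], aeval (rf (X : k[X])) p = rf (p.map (algebraMap R k)) :=
    fun p => by rw [aeval_rf, comp_X]
  obtain ⟨θ', hθ'⟩ := exists_pt (f := f) (x := rf (X : k[X]))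
    (by rw [eX]; exact (rf_ne (ne f hf)).isUnit)
  have e3 : ι.comp σ = (θ' : Localization.Away f →+* RatFunc k) := away_ext fun p => by
    rw [RingHom.comp_apply, s3, s2, RingHom.coe_coe, hθ', eX]
  have e4 : ev.comp σ = (θk : Localization.Away f →+* RatFunc k) := away_ext fun p => by
    rw [RingHom.comp_apply, s3, s1, RingHom.coe_coe, e2, aeval_map_algebraMap]
  refine eta_mem H0 H1 hμ' (fun s t h => hμ _ (chi_XX χ s) _ (chi_XX χ t) h) (hF _) (hP _)
    (gm i γ) (fun T _ _ _ _ _ _ g => ?_) (not_unit hH hH0) (ne f hf) (fun f1 h1 h2 => ?_) ev ι s1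
    s2 (GeneralLinearGroup.map σ τ) (gm (i.comp θx) τ) ((hG _ _).2 ?_) (gm θ τ) g1
    (Units.ext (Matrix.ext fun s t => DFunLike.congr_fun e4 (τ.val s t))) β a' hβ hg1 p1 p2 p3 hD
    _ (H1.G_map _ hg1) _
  · let _ : Algebra R T := ((algebraMap k T).comp (algebraMap R k)).toAlgebra
    have : IsScalarTower R k T := IsScalarTower.of_algebraMap_eq fun _ => rfl
    have : IsScalarTower R (ResidueField R) T := IsScalarTower.of_algebraMap_eq fun x => by
      rw [IsScalarTower.algebraMap_apply R k T, IsScalarTower.algebraMap_apply (ResidueField R) k T,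
        ← IsScalarTower.algebraMap_apply R _ k]
    have : IsScalarTower k0 R T := IsScalarTower.of_algebraMap_eq fun x => by
      rw [IsScalarTower.algebraMap_apply k0 k T, IsScalarTower.algebraMap_apply R k T,
        ← IsScalarTower.algebraMap_apply k0 R k]
    exact (hG T g).trans (hγ T ((IsScalarTower.toAlgHom R k T).comp i) g)
  · rw [em]
    refine h3 k _ (fun x hx => ?_) f1 h1 h2
    rw [IsScalarTower.algebraMap_apply R (ResidueField R) k]
    exact (congrArg _ ((residue_eq_zero_iff x).2 hx)).trans (map_zero _)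
  · have e5 : GeneralLinearGroup.map ι (GeneralLinearGroup.map σ τ) = gm θ' τ :=
      Units.ext (Matrix.ext fun s t => DFunLike.congr_fun e3 (τ.val s t))
    rw [e5]
    exact (hτ.map θ').mul ((hτ.map (i.comp θx)).map (IsScalarTower.toAlgHom R k (RatFunc k))).inv

/-- DCORE. -/
theorem dcore {k0 : Type u} [Field k0] {n r : ℕ} (H0 : HS k0 n) (χ : Fin n → Fin r → ℤ)
    (hF : ∀ (Ω : Type u) [Field Ω] [Algebra k0 Ω], H0.Frame χ (H0.pt Ω))
    (hP : ∀ (Ω : Type u) [Field Ω] [Algebra k0 Ω], (H0.van Ω).IsPrime)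
    (R : Type u) [CommRing R] [IsDomain R] [IsLocalRing R] [Finite (ResidueField R)] [Algebra k0 R]
    (S : Type u) [CommRing S] [Algebra R S] [Algebra k0 S] [IsScalarTower k0 R S] [Module.Flat R S]
    (x1 x2 : H0.B →ₐ[k0] S) (f : R[X]) (hf : f.map (residue R) ≠ 0)
    (τ : GL (Fin n) (Localization.Away f)) (hτ : H0.Fr R x1 x2 τ)
    (O : Type u) [CommRing O] [Algebra R O] [Module.Finite R O] [Module.Free R O] [Nontrivial O]
    (hred : IsReduced (ResidueField R ⊗[R] O)) (x0 : O) (hx0 : IsUnit (aeval x0 f))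
    (γ : GL (Fin n) O)
    (hγ : ∀ (T : Type u) [CommRing T] [Algebra R T] [Algebra k0 T] [IsScalarTower k0 R T]
      (i : O →ₐ[R] T) (g : GL (Fin n) T),
      H0.Fr R x2 x2 g ↔ (gm i γ)⁻¹ * g * gm i γ ∈ H0.G T)
    (H1 : HS (ResidueField R) n)
    (hG : ∀ (T : Type u) [CommRing T] [Algebra (ResidueField R) T] [Algebra R T]
      [IsScalarTower R (ResidueField R) T] (g : GL (Fin n) T), g ∈ H1.G T ↔ H0.Fr R x2 x2 g) :
    ∃ e : GL (Fin n) R, H0.Fr R x1 x2 e := by
  obtain ⟨a, b, w, H, e, he, hH, hH0, hw, hs, -, h3⟩ := GF.cover f hf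
  obtain ⟨y, ι, _, K, _, _, _, _, _, _, D2, L2, _, _, _, _, _, _, _, _, t2, φ2, ρ2, hy, hy0, hyH,
    R2, s2⟩ := GF.ypatch O hH
  have hD : 2 ≤ 2 * (XX χ).card.factorial := by have := (XX χ).card.factorial_pos; omega
  obtain ⟨ψ, hψ, hψd, hψ0, hψy⟩ := exists_psi hy hy0 hD
  have hψ1 : ψ.natDegree ≠ 0 := by rw [hψd]; positivity
  have hψ2 : 0 < (ψ.map (residue R)).natDegree := by
    rw [hψ.natDegree_map]
    exact Nat.pos_of_ne_zero hψ1
  have hc : (H.comp ψ).Monic := hH.comp hψ hψ1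
  have hc0 : (H.comp ψ).coeff 0 ∈ maximalIdeal R := by
    rwa [coeff_zero_eq_eval_zero, eval_comp, ← coeff_zero_eq_eval_zero ψ, hψ0,
      ← coeff_zero_eq_eval_zero]
  have hcy : IsCoprime (H.comp ψ) y := coprime_comp hψy hyH
  have ec : (H.comp ψ).map (residue R) = (H.map (residue R)).comp (ψ.map (residue R)) :=
    map_comp _ _ _
  obtain ⟨D1, L1, _, _, _, _, t1, φ1, ρ1, R1, ⟨ev0⟩⟩ := red_one hc hc0
  obtain ⟨-, θ1, hθ1⟩ := exists_theta he hs (aeval (φ1 t1) ψ)
    (by rw [← aeval_comp]; exact R1.unit)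
    (by rw [← aeval_comp, aeval_algHom_apply]; exact (R1.cop _ (hw.map (compRingHom ψ))).map _)
  have eX : ∀ p : R[X], aeval (rf (X : (ResidueField R)[X])) p = rf (p.map (residue R)) :=
    fun p => by rw [aeval_rf, comp_X]; rfl
  obtain ⟨hb, θ, hθ⟩ := exists_theta he hs (rf (X : (ResidueField R)[X]))
    (by rw [eX]; exact (rf_ne (hH.map _).ne_zero).isUnit)
    (by
      rw [eX]
      exact (rf_ne (ne_of_coprime (not_unit hH hH0) (hw.map (mapRingHom (residue R))))).isUnit)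
  rw [eX] at hb
  rw [eX, eX] at hθ
  have hb' : b.map (residue R) ≠ 0 := fun h => hb.ne_zero (by rw [h, rf, map_zero])
  obtain ⟨μ, g, η, hμ, g1, g2, g3, g4, g5⟩ := H0.fib χ hF hP R S x1 x2 f hf τ hτ O x0 hx0 γ hγ H1
    hG inferInstance hH hH0 h3 θ hb' hθ (hy.map (residue R)).ne_zero hψ2 (Dvd.intro_left 2 rfl)
    (by rwa [hy.natDegree_map, hψ.natDegree_map]) (ec ▸ hcy.map (mapRingHom (residue R)))
  have e1 : ∀ v, ρ1 (θ1 v) = pb _ hψ2 (θ v) := by
    have h1 := congrArg ρ1 hθ1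
    have h2 := congrArg (pb _ hψ2) hθ
    have h4 : ∀ p : R[X], ρ1 (aeval (aeval (φ1 t1) ψ) p) = pb _ hψ2 (rf (p.map (residue R))) :=
      fun p => by
        rw [← aeval_comp, pb_rf, ← map_comp]
        exact R1.comm _
    rw [map_mul, h4, h4] at h1
    rw [map_mul, ← h1] at h2
    have h5 : (ρ1.comp θ1 : Localization.Away f →+* RatFunc (ResidueField R)) =
        (((pb _ hψ2).restrictScalars R).comp θ : Localization.Away f →ₐ[R] _) :=
      away_ext fun p => (away_apply (ρ1.comp θ1) p).trans (Eq.trans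
        (congrArg (aeval · p) (mul_right_cancel₀ (hb.map (pb _ hψ2)).ne_zero h2).symm)
        (away_apply (((pb _ hψ2).restrictScalars R).comp θ) p).symm)
    exact DFunLike.congr_fun h5
  let _ : Algebra k0 L2 := ((algebraMap R L2).comp (algebraMap k0 R)).toAlgebra
  have : IsScalarTower k0 R L2 := IsScalarTower.of_algebraMap_eq fun _ => rfl
  let _ : ∀ z, Algebra k0 (K z) := fun z => ((algebraMap R (K z)).comp (algebraMap k0 R)).toAlgebra
  have : ∀ z, IsScalarTower k0 R (K z) := fun z => IsScalarTower.of_algebraMap_eq fun _ => rfl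
  let ρ3 : ∀ z, L2 →ₐ[k0] RatFunc (K z) := fun z =>
    (((Pi.evalAlgHom O _ z).comp ρ2).restrictScalars R).restrictScalars k0
  obtain ⟨η', h1, h2⟩ := H0.Gp_lift μ hμ (fun z => RatFunc (K z)) ρ3
    (fun x => (s2 x).imp fun _ h => congrFun h) _
    fun z => g5 (K z) (IsScalarTower.toAlgHom R O (K z))
  let i2 : O →ₐ[R] L2 := IsScalarTower.toAlgHom R O L2
  have hκ : H0.Fr R x2 x2 (gm i2 γ * η' * (gm i2 γ)⁻¹) := (hγ L2 i2 _).2 (by
    rw [show (gm i2 γ)⁻¹ * (gm i2 γ * η' * (gm i2 γ)⁻¹) * gm i2 γ = η' by group]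
    exact H0.Gp_le μ h1)
  have e3 : ∀ z, gm (ρ3 z) (gm i2 γ * η' * (gm i2 γ)⁻¹) = gm (bc (ResidueField R) (K z)) η :=
    fun z => by
      have e2 : gm (ρ3 z) (gm i2 γ) = GeneralLinearGroup.map (algebraMap (K z) (RatFunc (K z)))
          (gm (IsScalarTower.toAlgHom R O (K z)) γ) :=
        Units.ext (Matrix.ext fun s t => (congrFun (ρ2.commutes (γ.val s t)) z).trans
          (IsScalarTower.algebraMap_apply O (K z) (RatFunc (K z)) _))
      rw [map_mul, map_mul, map_inv, e2, h2 z]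
      group
  obtain ⟨T, _, _, au, j, j', ret, a', b', b'', q1, q2, q3, q4, q5⟩ := rig R1 R2 hc hy hcy
    (gm θ1 τ) (gm i2 γ * η' * (gm i2 γ)⁻¹) g ((gm (pb _ hψ2) (gm θ τ))⁻¹ * g) (η⁻¹ * g)
    (by rw [ec]; exact g1) g2 (by rw [ec]; exact g3) g4
    (by
      have : GeneralLinearGroup.map (ρ1 : L1 →+* RatFunc (ResidueField R)) (gm θ1 τ) =
          gm (pb _ hψ2) (gm θ τ) := Units.ext (Matrix.ext fun s t => e1 (τ.val s t))
      rw [this, GeneralLinearGroup.map_id, MonoidHom.id_apply, MonoidHom.id_apply,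
        mul_inv_cancel_left])
    (by
      have : GeneralLinearGroup.map (ρ2 : L2 →+* ∀ z, RatFunc (K z))
          (gm i2 γ * η' * (gm i2 γ)⁻¹) =
          GeneralLinearGroup.map (RingHom.pi fun z => rc (ResidueField R) (K z)) η :=
        Units.ext (Matrix.ext fun s t => funext fun z =>
          (congrArg (fun v : GL (Fin n) (RatFunc (K z)) => v.val s t) (e3 z)).trans
            (DFunLike.congr_fun (rat_ext
              (B := (bc (ResidueField R) (K z) : RatFunc (ResidueField R) →+* RatFunc (K z)))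
              (B' := rc _ _) fun p => (bc_rf p).trans (rc_rf p).symm) (η.val s t)))
      rw [this, ← map_mul, mul_inv_cancel_left])
  exact ⟨_, (Fr.const_left au j j' _ _ R1.inj ret q1 q2 q3 (hτ.map θ1) hκ q4 q5).map ev0⟩

end Pool.Agent.GR.HS
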