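import Mathlib

/-! Column reduced bases of lattices over a polynomial ring. -/

set_option autoImplicit false

open Matrix Polynomial

universe u

namespace Pool.Agent.GF

variable {κ : Type u} [Field κ] {n : ℕ}

/-- The columns of `S` lie in `N`, are independent, and column `j` has degree at most `d j`. -/
structure Adm (N : Submodule κ[X] (Fin n → κ[X])) (S : Matrix (Fin n) (Fin n) κ[X])
    (d : Fin n → ℕ) : Prop where
  mem : ∀ j, (fun i => S i j) ∈ N
  det : S.det ≠ 0
  deg : ∀ i j, (S i j).natDegree ≤ d j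

/-- An admissible pair with the least sum of degrees. -/
structure MinAdm (N : Submodule κ[X] (Fin n → κ[X])) (S : Matrix (Fin n) (Fin n) κ[X])
    (d : Fin n → ℕ) : Prop extends Adm N S d where
  min : ∀ S' d', Adm N S' d' → ∑ j, d j ≤ ∑ j, d' j

variable {N : Submodule κ[X] (Fin n → κ[X])} {S : Matrix (Fin n) (Fin n) κ[X]} {d : Fin n → ℕ}

theorem exists_minAdm (h : Adm N S d) : ∃ S' d', MinAdm N S' d' := by
  classical
  have hex : ∃ s : ℕ, ∃ S' d', Adm N S' d' ∧ ∑ j, d' j = s := ⟨_, S, d, h, rfl⟩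
  obtain ⟨S', d', h1, h2⟩ := Nat.find_spec hex
  refine ⟨S', d', h1, fun S'' d'' h3 => ?_⟩
  rw [h2]
  exact Nat.find_min' hex ⟨S'', d'', h3, rfl⟩

theorem Adm.mulVec_mem (h : Adm N S d) (x : Fin n → κ[X]) : S *ᵥ x ∈ N := by
  have e : S *ᵥ x = ∑ j, x j • fun i => S i j := by
    funext i
    simp only [mulVec, dotProduct, Finset.sum_apply, Pi.smul_apply, smul_eq_mul]
    exact Finset.sum_congr rfl fun j _ => mul_comm _ _
  rw [e]
  exact N.sum_mem fun j _ => N.smul_mem _ (h.mem j)

theorem MinAdm.of_adm (h : MinAdm N S d) {S' : Matrix (Fin n) (Fin n) κ[X]} (h' : Adm N S' d) :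
    MinAdm N S' d := ⟨h', h.min⟩

theorem MinAdm.no_small (h : MinAdm N S d) (i : Fin n) {w : Fin n → κ[X]} (hw : w ∈ N)
    (hd : ∀ k, (w k).degree < d i) : cramer S w i = 0 := by
  by_contra hne
  rw [cramer_apply] at hne
  have h0 : d i ≠ 0 := by
    intro h0
    apply hne
    refine det_eq_zero_of_column_eq_zero i fun k => ?_
    rw [updateCol_self]
    have := hd k
    rw [h0] at this
    exact degree_eq_bot.1 (Nat.WithBot.lt_zero_iff.1 (by exact_mod_cast this))
  have hadm : Adm N (S.updateCol i w) (Function.update d i (d i - 1)) := by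
    refine ⟨fun j => ?_, hne, fun k j => ?_⟩
    · by_cases hj : j = i
      · subst hj
        simpa only [updateCol_self] using hw
      · simpa only [updateCol_ne hj] using h.mem j
    · by_cases hj : j = i
      · subst hj
        rw [updateCol_self, Function.update_self]
        by_cases hk : w k = 0
        · rw [hk, natDegree_zero]; exact Nat.zero_le _
        · have := (natDegree_lt_iff_degree_lt hk).2 (hd k)
          omega
      · rw [updateCol_ne hj, Function.update_of_ne hj]
        exact h.deg k j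
  have h1 := h.min _ _ hadm
  rw [Finset.sum_update_of_mem (Finset.mem_univ i),
    ← Finset.add_sum_erase _ _ (Finset.mem_univ i), Finset.sdiff_singleton_eq_erase] at h1
  omega

theorem cramer_mulVec (S : Matrix (Fin n) (Fin n) κ[X]) (x : Fin n → κ[X]) :
    cramer S (S *ᵥ x) = S.det • x := by
  rw [cramer_eq_adjugate_mulVec, mulVec_mulVec, adjugate_mul, smul_mulVec, one_mulVec]

/-- The matrix of leading coefficients. -/
def lead (S : Matrix (Fin n) (Fin n) κ[X]) (d : Fin n → ℕ) : Matrix (Fin n) (Fin n) κ :=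
  of fun i j => (S i j).coeff (d j)

theorem MinAdm.lead_det (h : MinAdm N S d) : (lead S d).det ≠ 0 := by
  classical
  intro h0
  obtain ⟨v, hv, hc⟩ := exists_mulVec_eq_zero_iff.2 h0
  obtain ⟨j0, hj0⟩ := Function.ne_iff.1 hv
  obtain ⟨i, hi, hmax⟩ := Finset.exists_max_image (Finset.univ.filter fun j => v j ≠ 0) d
    ⟨j0, Finset.mem_filter.2 ⟨Finset.mem_univ _, hj0⟩⟩
  have hvi : v i ≠ 0 := (Finset.mem_filter.1 hi).2
  have hle : ∀ j, v j ≠ 0 → d j ≤ d i := fun j hj =>
    hmax j (Finset.mem_filter.2 ⟨Finset.mem_univ _, hj⟩)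
  let x : Fin n → κ[X] := fun j => X ^ (d i - d j) * C (v j)
  have hz := h.no_small i (h.toAdm.mulVec_mem x) fun k => by
    rw [degree_lt_iff_coeff_zero]
    intro e he
    simp only [mulVec, dotProduct, finsetSum_coeff, x]
    rcases he.eq_or_lt with he | he
    · have := congrFun hc k
      simp only [mulVec, dotProduct, lead, of_apply, Pi.zero_apply] at this
      rw [← this]
      refine Finset.sum_congr rfl fun j _ => ?_
      by_cases hj : v j = 0
      · rw [hj, map_zero, mul_zero, mul_zero, mul_zero, coeff_zero]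
      · rw [← mul_assoc, coeff_mul_C, coeff_mul_X_pow', ← he, if_pos (Nat.sub_le _ _)]
        have := hle j hj
        congr 2
        omega
    · refine Finset.sum_eq_zero fun j _ => ?_
      by_cases hj : v j = 0
      · rw [hj, map_zero, mul_zero, mul_zero, coeff_zero]
      · rw [← mul_assoc, coeff_mul_C, coeff_mul_X_pow']
        have h1 := hle j hj
        have h2 := h.deg k j
        split_ifs with h3
        · rw [coeff_eq_zero_of_natDegree_lt (by omega), zero_mul]
        · rw [zero_mul]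
  rw [cramer_mulVec, Pi.smul_apply, smul_eq_mul] at hz
  rcases mul_eq_zero.1 hz with h1 | h1
  · exact h.det h1
  · rcases mul_eq_zero.1 h1 with h2 | h2
    · exact pow_ne_zero _ X_ne_zero h2
    · exact hvi (C_eq_zero.1 h2)

theorem MinAdm.span (h : MinAdm N S d) {v : Fin n → κ[X]} (hv : v ∈ N) : ∃ q, S *ᵥ q = v := by
  classical
  let a := cramer S v
  let q : Fin n → κ[X] := fun j => a j / S.det
  let a' : Fin n → κ[X] := fun j => a j % S.det
  have ea : a = S.det • q + a' := by
    funext j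
    exact (EuclideanDomain.div_add_mod (a j) S.det).symm
  have e1 : S.det • (v - S *ᵥ q) = S *ᵥ a' := by
    have : S *ᵥ a = S.det • v := mulVec_cramer S v
    rw [ea, mulVec_add, mulVec_smul] at this
    rw [smul_sub, ← this, add_sub_cancel_left]
  have e2 : cramer S (v - S *ᵥ q) = a' := by
    rw [map_sub, cramer_mulVec]
    show a - _ = _
    rw [ea, add_sub_cancel_left]
  by_cases h0 : a' = 0
  · refine ⟨q, ?_⟩
    rw [h0, mulVec_zero] at e1
    funext k
    have := congrFun e1 k
    rw [Pi.smul_apply, smul_eq_mul, Pi.zero_apply] at this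
    exact (sub_eq_zero.1 ((mul_eq_zero.1 this).resolve_left h.det)).symm
  exfalso
  obtain ⟨j0, hj0⟩ := Function.ne_iff.1 h0
  obtain ⟨i, hi, hmax⟩ := Finset.exists_max_image (Finset.univ.filter fun j => a' j ≠ 0)
    (fun j => d j + (a' j).natDegree) ⟨j0, Finset.mem_filter.2 ⟨Finset.mem_univ _, hj0⟩⟩
  have hai : a' i ≠ 0 := (Finset.mem_filter.1 hi).2
  have hlt : (a' i).natDegree < S.det.natDegree :=
    natDegree_lt_natDegree hai (degree_mod_lt _ h.det)
  have hz := h.no_small i (N.sub_mem hv (h.toAdm.mulVec_mem q)) fun k => by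
    by_cases hk : (v - S *ᵥ q) k = 0
    · rw [hk, degree_zero]; exact WithBot.bot_lt_coe _
    rw [← natDegree_lt_iff_degree_lt hk]
    have h1 := congrFun e1 k
    rw [Pi.smul_apply, smul_eq_mul] at h1
    have h2 : ((S *ᵥ a') k).natDegree ≤ d i + (a' i).natDegree := by
      show (∑ j, S k j * a' j).natDegree ≤ _
      refine natDegree_sum_le_of_forall_le _ _ fun j _ => ?_
      by_cases hj : a' j = 0
      · rw [hj, mul_zero, natDegree_zero]; exact Nat.zero_le _
      · have h3 := hmax j (Finset.mem_filter.2 ⟨Finset.mem_univ _, hj⟩)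
        have h4 := h.deg k j
        exact natDegree_mul_le.trans (by omega)
    rw [← h1, natDegree_mul h.det hk] at h2
    omega
  rw [e2] at hz
  exact hai hz

section lat

variable {B : Type u} [CommRing B] [Algebra κ[X] B]

/-- The polynomial vectors in the span of the columns of `Ψ`. -/
def lat (Ψ : Matrix (Fin n) (Fin n) B) : Submodule κ[X] (Fin n → κ[X]) where
  carrier := {v | ∃ w : Fin n → B, Ψ *ᵥ w = fun i => algebraMap κ[X] B (v i)}
  zero_mem' := ⟨0, by rw [mulVec_zero]; funext i; simp⟩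
  add_mem' := by
    rintro a b ⟨w, hw⟩ ⟨w', hw'⟩
    refine ⟨w + w', ?_⟩
    rw [mulVec_add, hw, hw']
    funext i
    simp
  smul_mem' := by
    rintro c a ⟨w, hw⟩
    refine ⟨algebraMap κ[X] B c • w, ?_⟩
    rw [mulVec_smul, hw]
    funext i
    simp

theorem surj_pow {M : κ[X]} (h : ∀ b : B, ∃ f, algebraMap κ[X] B M ∣ b - algebraMap κ[X] B f)
    (r : ℕ) (b : B) : ∃ f, algebraMap κ[X] B (M ^ r) ∣ b - algebraMap κ[X] B f := by
  induction r with
  | zero => exact ⟨0, by simp⟩
  | succ r ih =>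
    obtain ⟨f, c, hc⟩ := ih
    obtain ⟨f', c', hc'⟩ := h c
    refine ⟨f + M ^ r * f', c', ?_⟩
    rw [map_add, map_mul, ← sub_sub, hc, ← mul_sub, hc', pow_succ, map_mul, mul_assoc]

theorem lat_adm {P : κ[X]} (hP : P ≠ 0) {Ψ Ψ' : Matrix (Fin n) (Fin n) B}
    (h1 : Ψ * Ψ' = algebraMap κ[X] B P • (1 : Matrix (Fin n) (Fin n) B)) :
    Adm (lat Ψ) (P • (1 : Matrix (Fin n) (Fin n) κ[X])) fun _ => P.natDegree := by
  refine ⟨fun j => ⟨fun i => Ψ' i j, ?_⟩, ?_, fun i j => ?_⟩
  · funext i
    have := congrFun (congrFun h1 i) j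
    rw [mul_apply] at this
    simp only [mulVec, dotProduct, this, Matrix.smul_apply, one_apply, smul_eq_mul, mul_ite, mul_one,
      mul_zero]
    split_ifs <;> simp
  · rw [det_smul, det_one, mul_one]
    exact pow_ne_zero _ hP
  · rw [Matrix.smul_apply, one_apply]
    split_ifs <;> simp

/-- A minimal pair is a basis of the lattice. -/
theorem MinAdm.basis {P : κ[X]} (hP : P ≠ 0) (hreg : IsLeftRegular (algebraMap κ[X] B P))
    (hs : ∀ b : B, ∃ f, algebraMap κ[X] B P ∣ b - algebraMap κ[X] B f)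
    {Ψ Ψ' : Matrix (Fin n) (Fin n) B}
    (h1 : Ψ * Ψ' = algebraMap κ[X] B P • (1 : Matrix (Fin n) (Fin n) B))
    (h2 : Ψ' * Ψ = algebraMap κ[X] B P • (1 : Matrix (Fin n) (Fin n) B))
    (h : MinAdm (lat Ψ) S d) :
    (∃ S', S * S' = P • (1 : Matrix (Fin n) (Fin n) κ[X])) ∧
      ∃ k1 : GL (Fin n) B, Ψ * (k1 : Matrix (Fin n) (Fin n) B) = S.map (algebraMap κ[X] B) := by
  choose s hs' using fun j => h.span ((lat_adm hP h1).mem j)
  have eS : S * (of fun i j => s j i) = P • (1 : Matrix (Fin n) (Fin n) κ[X]) := by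
    ext1 i j
    exact congrFun (hs' j) i
  refine ⟨⟨_, eS⟩, ?_⟩
  choose w hw using h.mem
  have e1 : Ψ * (of fun i j => w j i) = S.map (algebraMap κ[X] B) := by
    ext1 i j
    exact congrFun (hw j) i
  choose f c hc using fun i j => hs (Ψ i j)
  have ef : (of f).map (algebraMap κ[X] B) = Ψ * (1 - Ψ' * of c) := by
    rw [mul_sub, mul_one, ← mul_assoc, h1, smul_mul_assoc, one_mul]
    ext1 i j
    rw [map_apply, of_apply, Matrix.sub_apply, Matrix.smul_apply, of_apply, smul_eq_mul, ← hc, sub_sub_cancel]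
  have hf : ∀ j, (fun i => f i j) ∈ lat Ψ := fun j =>
    ⟨fun i => (1 - Ψ' * of c) i j, by funext i; exact (congrFun (congrFun ef i) j).symm⟩
  choose q hq using fun j => h.span (hf j)
  have eq : S * (of fun i j => q j i) = of f := by
    ext1 i j
    exact congrFun (hq j) i
  let k2 : Matrix (Fin n) (Fin n) B := (of fun i j => q j i).map (algebraMap κ[X] B) +
    (of fun i j => s j i).map (algebraMap κ[X] B) * of c
  have e2 : S.map (algebraMap κ[X] B) * k2 = Ψ := by
    rw [mul_add, ← mul_assoc, ← Matrix.map_mul, ← Matrix.map_mul, eq, eS, ef, mul_sub, mul_one,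
      ← mul_assoc, h1, Matrix.map_smul' _ _ _ (map_mul _), Matrix.map_one _ (map_zero _) (map_one _),
      sub_add_cancel]
  have e3 : (of fun i j => w j i) * k2 = 1 := by
    have : Ψ' * (Ψ * ((of fun i j => w j i) * k2)) = Ψ' * Ψ := by rw [← mul_assoc Ψ, e1, e2]
    rw [← mul_assoc, h2, smul_mul_assoc, one_mul] at this
    ext1 i j
    exact hreg (congrFun (congrFun this i) j)
  exact ⟨⟨_, k2, e3, mul_eq_one_comm.1 e3⟩, e1⟩

end lat

end Pool.Agent.GF
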