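import Mathlib

/-! Finite etale extensions of a local ring with finite residue field; generic finiteness. -/

set_option autoImplicit false

open TensorProduct Polynomial IsLocalRing

universe u

namespace Pool.Agent.GR.Iso

theorem aeval_mem_of_map_eq_zero {R T : Type u} [CommRing R] [IsLocalRing R] [CommRing T]
    [Algebra R T] (M : Ideal T) (hM : ∀ r ∈ maximalIdeal R, algebraMap R T r ∈ M) (t : T)
    (p : R[X]) (hp : p.map (residue R) = 0) : aeval t p ∈ M := by
  rw [aeval_eq_sum_range]
  refine Ideal.sum_mem _ fun i _ => ?_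
  rw [Algebra.smul_def]
  refine Ideal.mul_mem_right _ _ (hM _ ?_)
  have := congrArg (fun q => q.coeff i) hp
  simpa [residue_eq_zero_iff] using this

/-- A finite etale local extension whose residue field contains given algebraic elements. -/
theorem ext_lift {R : Type u} [CommRing R] [IsLocalRing R] [Finite (ResidueField R)]
    (Ω : Type u) [Field Ω] [Algebra R Ω] [Algebra (ResidueField R) Ω]
    [IsScalarTower R (ResidueField R) Ω] [Algebra.IsAlgebraic (ResidueField R) Ω]
    (s : Set Ω) (hs : s.Finite) :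
    ∃ (T : Type u) (_ : CommRing T) (_ : Algebra R T), Module.Finite R T ∧ Module.Free R T ∧
      Algebra.Etale R T ∧ ∃ π : T →ₐ[R] Ω, s ⊆ Set.range π ∧ ∀ t, π t ≠ 0 → IsUnit t := by
  classical
  set k := ResidueField R
  have : Finite s := hs
  let k' := IntermediateField.adjoin k s
  have : FiniteDimensional k k' :=
    IntermediateField.finiteDimensional_adjoin fun x _ => Algebra.IsIntegral.isIntegral x
  obtain ⟨α, hα⟩ := Field.exists_primitive_element k k'
  let a : Ω := α
  have ha : IsIntegral k a := Algebra.IsIntegral.isIntegral a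
  have hgen : ∀ x ∈ s, ∃ q : k[X], aeval a q = x := by
    intro x hx
    have h1 : (⟨x, IntermediateField.subset_adjoin k s hx⟩ : k') ∈
        IntermediateField.adjoin k {α} := by rw [hα]; trivial
    have h2 : IsAlgebraic k α := Algebra.IsAlgebraic.isAlgebraic α
    rw [← IntermediateField.mem_toSubalgebra,
      IntermediateField.adjoin_simple_toSubalgebra_of_isAlgebraic h2,
      Algebra.adjoin_singleton_eq_range_aeval] at h1
    obtain ⟨q, hq⟩ := h1
    refine ⟨q, ?_⟩
    have := congrArg (k'.val) hq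
    exact (aeval_algHom_apply k'.val α q).trans this
  have hsurj : Function.Surjective (Polynomial.map (residue R) : R[X] → k[X]) :=
    Polynomial.map_surjective _ residue_surjective
  have hae : ∀ p : R[X], aeval a (p.map (residue R)) = aeval a p := fun p =>
    aeval_map_algebraMap k a p
  obtain ⟨P, hP, -, hPm⟩ := lifts_and_natDegree_eq_and_monic
    (f := residue R) (p := minpoly k a) (by
      obtain ⟨q, hq⟩ := hsurj (minpoly k a); exact ⟨q, hq⟩) (minpoly.monic ha)
  have hPa : aeval a P = 0 := by rw [← hae, hP, minpoly.aeval]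
  have hfin := hPm.finite_adjoinRoot
  have hfree := hPm.free_adjoinRoot
  let π : AdjoinRoot P →ₐ[R] Ω := AdjoinRoot.liftAlgHom P (Algebra.ofId R Ω) a (by
    simpa [aeval_def] using hPa)
  have hπ : ∀ q : R[X], π (AdjoinRoot.mk P q) = aeval a q := fun q => by
    simp [π, aeval_def]
  have hunit : ∀ t, π t ≠ 0 → IsUnit t := by
    intro t ht
    obtain ⟨q, rfl⟩ := AdjoinRoot.mk_surjective t
    rw [hπ, ← hae] at ht
    have hc : IsCoprime (minpoly k a) (q.map (residue R)) :=
      (minpoly.irreducible ha).coprime_iff_not_dvd.2 fun h => ht (minpoly.dvd_iff.1 h)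
    obtain ⟨v, w, hvw⟩ := hc
    obtain ⟨v, rfl⟩ := hsurj v
    obtain ⟨w, rfl⟩ := hsurj w
    by_contra hn
    obtain ⟨M, hM, hle⟩ := Ideal.exists_le_maximal (Ideal.span {AdjoinRoot.mk P q})
      (by rwa [Ne, Ideal.span_singleton_eq_top])
    have hcom : (M.comap (algebraMap R (AdjoinRoot P))).IsMaximal :=
      Ideal.isMaximal_comap_of_isIntegral_of_isMaximal M
    have hm : ∀ r ∈ maximalIdeal R, algebraMap R (AdjoinRoot P) r ∈ M := fun r hr => by
      rw [← eq_maximalIdeal hcom] at hr; exact hr
    have h1 := aeval_mem_of_map_eq_zero M hm (AdjoinRoot.root P) (1 - (v * P + w * q)) (by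
      simp [hP, hvw])
    rw [AdjoinRoot.aeval_eq, map_sub, map_add, map_mul, map_mul, AdjoinRoot.mk_self, mul_zero,
      zero_add, map_one] at h1
    have h2 : AdjoinRoot.mk P w * AdjoinRoot.mk P q ∈ M :=
      M.mul_mem_left _ (hle (Ideal.mem_span_singleton_self _))
    exact hM.ne_top ((Ideal.eq_top_iff_one _).2 (by simpa using M.add_mem h1 h2))
  have hder : IsUnit (AdjoinRoot.mk P (derivative P)) := by
    refine hunit _ ?_
    rw [hπ, ← hae, ← derivative_map, hP]
    exact (Algebra.IsSeparable.isSeparable k a).aeval_derivative_ne_zero (minpoly.aeval k a)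
  have het : Algebra.Etale R (AdjoinRoot P) := by
    obtain ⟨w, hw⟩ := hder.exists_right_inv
    obtain ⟨p₁, rfl⟩ := AdjoinRoot.mk_surjective w
    rw [← map_mul, ← map_one (AdjoinRoot.mk P), AdjoinRoot.mk_eq_mk] at hw
    obtain ⟨p₂, hp₂⟩ := hw
    let Q : StandardEtalePair R := ⟨P, hPm, 1, p₁, -p₂, 1, by linear_combination hp₂⟩
    let e : AdjoinRoot P ≃ₐ[AdjoinRoot P] Localization.Away (AdjoinRoot.mk P (1 : R[X])) :=
      IsLocalization.atUnit _ _ (AdjoinRoot.mk P (1 : R[X])) (by rw [map_one]; exact isUnit_one)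
    exact Algebra.Etale.of_equiv (Q.equivAwayAdjoinRoot.trans (e.symm.restrictScalars R))
  refine ⟨AdjoinRoot P, inferInstance, inferInstance, hfin, hfree, het, π, fun x hx => ?_, hunit⟩
  obtain ⟨q, hq⟩ := hgen x hx
  obtain ⟨q, rfl⟩ := hsurj q
  exact ⟨AdjoinRoot.mk P q, by rw [hπ, ← hae, hq]⟩

/-- A standard etale domain is finite after inverting one element of the base. -/
theorem generic_finite (B C : Type u) [CommRing B] [CommRing C] [IsDomain C] [Algebra B C]
    [Nontrivial B] [Algebra.IsStandardEtale B C] :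
    ∃ φ : B, φ ≠ 0 ∧ ∀ (T : Type u) [CommRing T] [Algebra B T], IsUnit (algebraMap B T φ) →
      Module.Finite T (T ⊗[B] C) := by
  obtain ⟨P⟩ := Algebra.IsStandardEtale.nonempty_standardEtalePresentation (R := B) (S := C)
  have hx : IsIntegral B P.x := ⟨P.f, P.monic_f, P.hasMap.1⟩
  have hint : ∀ p : B[X], IsIntegral B (aeval P.x p) := fun p =>
    (IsIntegral.of_mem_of_fg (Algebra.adjoin B {P.x}) hx.fg_adjoin_singleton _
      (aeval_mem_adjoin_singleton _ _))
  have ht : IsUnit (aeval P.x P.g) := P.hasMap.2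
  obtain ⟨w, hw, φ, hφ, e⟩ := (hint P.g).isAlgebraic.exists_nonzero_eq_adjoin_mul
    (mem_nonZeroDivisors_of_ne_zero ht.ne_zero)
  have hwi : IsIntegral B w :=
    IsIntegral.of_mem_of_fg _ (hint P.g).fg_adjoin_singleton _ hw
  refine ⟨φ, hφ, fun T _ _ hu => ?_⟩
  refine Algebra.finite_iff_isIntegral_and_finiteType.2 ⟨⟨fun y => ?_⟩, inferInstance⟩
  induction y with
  | zero => exact isIntegral_zero
  | add a b ha hb => exact ha.add hb
  | tmul t c =>
    obtain ⟨p, m, hp⟩ := P.exists_mul_aeval_x_g_pow_eq_aeval_x c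
    have h1 : IsIntegral B (φ ^ m • c) := by
      have : φ ^ m • c = aeval P.x p * w ^ m := by
        rw [Algebra.smul_def, map_pow, ← e, ← hp]; ring
      rw [this]; exact (hint p).mul (hwi.pow m)
    have h2 : IsIntegral T ((1 : T) ⊗ₜ[B] (φ ^ m • c)) :=
      (h1.map (Algebra.TensorProduct.includeRight : C →ₐ[B] T ⊗[B] C)).tower_top
    obtain ⟨v, hv⟩ := (hu.pow m).exists_left_inv
    have : t ⊗ₜ[B] c = (t * v) • ((1 : T) ⊗ₜ[B] (φ ^ m • c)) := by
      rw [← TensorProduct.smul_tmul, TensorProduct.smul_tmul', smul_eq_mul, Algebra.smul_def,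
        map_pow, mul_one, mul_assoc, hv, mul_one]
    rw [this]
    exact h2.smul _

/-- A point with values in an algebraically closed field where a given element is not zero. -/
theorem exists_point (k A Ω : Type u) [Field k] [CommRing A] [Algebra k A]
    [Algebra.FiniteType k A] [Field Ω] [Algebra k Ω] [IsAlgClosed Ω] (a : A)
    (ha : ¬ IsNilpotent a) : ∃ θ : A →ₐ[k] Ω, θ a ≠ 0 := by
  let A' := Localization.Away a
  have : Nontrivial A' := by
    by_contra h
    rw [not_nontrivial_iff_subsingleton] at h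
    exact ha ((IsLocalization.subsingleton_iff (M := Submonoid.powers a) (S := A')).1 h)
  obtain ⟨M, hM⟩ := Ideal.exists_maximal A'
  let := Ideal.Quotient.field M
  have : Module.Finite k (A' ⧸ M) := finite_of_finite_type_of_isJacobsonRing _ _
  let l : (A' ⧸ M) →ₐ[k] Ω := IsAlgClosed.lift
  refine ⟨(l.comp (Ideal.Quotient.mkₐ k M)).comp (IsScalarTower.toAlgHom k A A'), ?_⟩
  exact ((IsLocalization.Away.algebraMap_isUnit (S := A') a).map
    (l.comp (Ideal.Quotient.mkₐ k M))).ne_zero

end Pool.Agent.GR.Iso
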