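import Pool.Agent.P.MP_c1f06d_ag.r.Stmt
import Pool.Agent.P.MP_c1f06d_ag.f.IsoA

/-! Over a local ring with finite residue field a point of `GL_n / H` lifts to `GL_n` after a
finite etale extension. -/

set_option autoImplicit false

open Matrix TensorProduct Polynomial IsLocalRing

universe u

namespace Pool.Agent.GR.Iso

section ev

variable {k : Type u} [Field k] {n : ℕ} {A A' : Type u} [CommRing A] [Algebra k A] [CommRing A']
  [Algebra k A']

theorem ev_X (g : GL (Fin n) A) (i j : Fin n) :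
    ev k g (algebraMap (MvPolynomial (Fin n × Fin n) k) (OGL k n) (MvPolynomial.X (i, j))) =
      g i j := by
  simp [ev, IsLocalization.Away.liftAlgHom_apply]

theorem ogl_ext {f g : OGL k n →ₐ[k] A}
    (h : ∀ i j, f (algebraMap (MvPolynomial (Fin n × Fin n) k) (OGL k n) (MvPolynomial.X (i, j))) =
      g (algebraMap (MvPolynomial (Fin n × Fin n) k) (OGL k n) (MvPolynomial.X (i, j)))) :
    f = g := by
  refine IsLocalization.algHom_ext (Submonoid.powers (mvPolynomialX (Fin n) (Fin n) k).det) ?_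
  ext ⟨i, j⟩
  exact h i j

theorem ev_map (f : A →ₐ[k] A') (g : GL (Fin n) A) (x : OGL k n) :
    f (ev k g x) = ev k (GeneralLinearGroup.map (f : A →+* A') g) x := by
  have : f.comp (ev k g) = ev k (GeneralLinearGroup.map (f : A →+* A') g) :=
    ogl_ext fun i j => by simp [ev_X]
  exact DFunLike.congr_fun this x

theorem exists_ev (θ : OGL k n →ₐ[k] A) : ∃ g : GL (Fin n) A, ev k g = θ := by
  let φ : MvPolynomial (Fin n × Fin n) k →+* A :=
    (θ : OGL k n →+* A).comp (algebraMap (MvPolynomial (Fin n × Fin n) k) (OGL k n))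
  have hu : IsUnit ((mvPolynomialX (Fin n) (Fin n) k).map φ) := by
    rw [isUnit_iff_isUnit_det, ← RingHom.mapMatrix_apply, ← RingHom.map_det]
    exact (IsLocalization.Away.algebraMap_isUnit (S := OGL k n)
      (mvPolynomialX (Fin n) (Fin n) k).det).map θ
  exact ⟨hu.unit, ogl_ext fun i j => by rw [ev_X]; rfl⟩

variable (H : AffQuot k n)

theorem coset_left {γ γ' : GL (Fin n) A} (h : ∀ b ∈ H.B, ev k γ b = ev k γ' b)
    (g : GL (Fin n) A) : ∀ b ∈ H.B, ev k (g * γ) b = ev k (g * γ') b := by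
  rw [H.coset] at h ⊢
  rwa [show (g * γ)⁻¹ * (g * γ') = γ⁻¹ * γ' by group]

/-- The fibre of `GL_n → GL_n / H` over a point. -/
theorem taut (w : H.B →ₐ[k] A) :
    ∃ (F : Type u) (_ : CommRing F) (_ : Algebra k F) (_ : Algebra A F) (_ : IsScalarTower k A F),
      Module.FaithfullyFlat A F ∧ Algebra.FiniteType A F ∧ ∃ γ : GL (Fin n) F,
        (∀ b : H.B, ev k γ b = algebraMap A F (w b)) ∧
        ∀ (A' : Type u) [CommRing A'] [Algebra k A'] (φ : A →ₐ[k] A') (γ' : GL (Fin n) A'),
          (∀ b : H.B, ev k γ' b = φ (w b)) → ∃ ψ : F →ₐ[k] A',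
            (∀ a, ψ (algebraMap A F a) = φ a) ∧ ∀ x, ψ (ev k γ x) = ev k γ' x := by
  let : Algebra H.B A := (w : H.B →+* A).toAlgebra
  have : IsScalarTower k H.B A := IsScalarTower.of_algebraMap_eq fun c => (w.commutes c).symm
  have := H.ff
  have := H.smooth
  obtain ⟨γ, hγ⟩ := exists_ev ((Algebra.TensorProduct.includeRight :
    OGL k n →ₐ[H.B] A ⊗[H.B] OGL k n).restrictScalars k)
  refine ⟨A ⊗[H.B] OGL k n, inferInstance, inferInstance, inferInstance, inferInstance,
    inferInstance, inferInstance, γ, fun b => ?_, fun A' _ _ φ γ' h => ?_⟩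
  · rw [hγ]
    exact (Algebra.TensorProduct.includeRight : OGL k n →ₐ[H.B] A ⊗[H.B] OGL k n).commutes b
  · let : Algebra H.B A' := ((φ : A →+* A').comp (w : H.B →+* A)).toAlgebra
    have : IsScalarTower k H.B A' :=
      IsScalarTower.of_algebraMap_eq fun c => ((φ.comp w).commutes c).symm
    let φ' : A →ₐ[H.B] A' := { (φ : A →+* A') with commutes' := fun _ => rfl }
    let e' : OGL k n →ₐ[H.B] A' := { (ev k γ' : OGL k n →+* A') with commutes' := h }
    refine ⟨(Algebra.TensorProduct.lift φ' e' fun _ _ => Commute.all _ _).restrictScalars k,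
      fun a => ?_, fun x => ?_⟩
    · simp [φ']
    · rw [hγ]; simp [e']

/-- The action of `GL_n` on the points of `GL_n / H`. -/
theorem move (z : H.B →ₐ[k] A) (u : GL (Fin n) A) : ∃ y : H.B →ₐ[k] A,
    (∀ (A' : Type u) [CommRing A'] [Algebra k A'] (φ : A →ₐ[k] A') (γ : GL (Fin n) A'),
      (∀ b : H.B, ev k γ b = φ (z b)) →
        ∀ b : H.B, ev k (GeneralLinearGroup.map (φ : A →+* A') u * γ) b = φ (y b)) ∧
    ∀ (A' : Type u) [CommRing A'] [Algebra k A'] (φ : A →ₐ[k] A') (γ : GL (Fin n) A'),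
      (∀ b : H.B, ev k γ b = φ (y b)) →
        ∀ b : H.B, ev k ((GeneralLinearGroup.map (φ : A →+* A') u)⁻¹ * γ) b = φ (z b) := by
  obtain ⟨F, _, _, _, _, hff, -, γ, hγ, huniv⟩ := taut H z
  let ι : A →ₐ[k] F := IsScalarTower.toAlgHom k A F
  have hι : Function.Injective ι := FaithfulSMul.algebraMap_injective A F
  let x : H.B →ₐ[k] F := (ev k (GeneralLinearGroup.map (ι : A →+* F) u * γ)).comp H.B.val
  have hx : ∀ b, x b ∈ ι.range := by
    intro b
    let l : F →ₐ[k] F ⊗[A] F := (Algebra.TensorProduct.includeLeft : F →ₐ[A] _).restrictScalars k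
    let r : F →ₐ[k] F ⊗[A] F := (Algebra.TensorProduct.includeRight : F →ₐ[A] _).restrictScalars k
    have hlr : ∀ a, l (algebraMap A F a) = r (algebraMap A F a) := fun a =>
      ((Algebra.TensorProduct.includeLeft : F →ₐ[A] F ⊗[A] F).commutes a).trans
        ((Algebra.TensorProduct.includeRight : F →ₐ[A] F ⊗[A] F).commutes a).symm
    have hu : GeneralLinearGroup.map (l : F →+* F ⊗[A] F)
        (GeneralLinearGroup.map (ι : A →+* F) u) =
        GeneralLinearGroup.map (r : F →+* F ⊗[A] F) (GeneralLinearGroup.map (ι : A →+* F) u) := by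
      ext i j; exact hlr _
    have h1 : l (x b) = r (x b) := by
      simp only [x, AlgHom.comp_apply, ev_map, map_mul, hu]
      refine coset_left H (fun c hc => ?_) _ _ b.2
      rw [← ev_map, ← ev_map, hγ ⟨c, hc⟩, hlr]
    exact ((Algebra.IsEffective.of_faithfullyFlat A F) (x b)).1 (sub_eq_zero.2 h1)
  let y : H.B →ₐ[k] A :=
    ((AlgEquiv.ofInjective ι hι).symm : ι.range →ₐ[k] A).comp (x.codRestrict _ hx)
  have hy : ∀ b, ι (y b) = x b := fun b =>
    congrArg Subtype.val ((AlgEquiv.ofInjective ι hι).apply_symm_apply ⟨x b, hx b⟩)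
  have h1 : ∀ (A' : Type u) [CommRing A'] [Algebra k A'] (φ : A →ₐ[k] A') (γ : GL (Fin n) A'),
      (∀ b : H.B, ev k γ b = φ (z b)) →
        ∀ b : H.B, ev k (GeneralLinearGroup.map (φ : A →+* A') u * γ) b = φ (y b) := by
    intro A' _ _ φ γ' h b
    obtain ⟨ψ, hψ, hψ'⟩ := huniv A' φ γ' h
    have e1 : GeneralLinearGroup.map (ψ : F →+* A') γ = γ' := by
      ext i j
      have := hψ' (algebraMap (MvPolynomial (Fin n × Fin n) k) (OGL k n) (MvPolynomial.X (i, j)))
      rwa [ev_X, ev_X] at this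
    have e2 : GeneralLinearGroup.map (ψ : F →+* A') (GeneralLinearGroup.map (ι : A →+* F) u) =
        GeneralLinearGroup.map (φ : A →+* A') u := by
      ext i j; exact hψ _
    rw [← hψ (y b), show algebraMap A F (y b) = x b from hy b]
    simp only [x, AlgHom.comp_apply, ev_map, map_mul, e1, e2]
    rfl
  refine ⟨y, h1, fun A' _ _ φ γ' h b => ?_⟩
  obtain ⟨F', _, _, _, _, hff', -, γ2, hγ2, -⟩ := taut H (φ.comp z)
  let ι' : A' →ₐ[k] F' := IsScalarTower.toAlgHom k A' F'
  have hι' : Function.Injective ι' := FaithfulSMul.algebraMap_injective A' F'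
  have h2 := h1 F' (ι'.comp φ) γ2 hγ2
  have e : GeneralLinearGroup.map (ι' : A' →+* F') (GeneralLinearGroup.map (φ : A →+* A') u) =
      GeneralLinearGroup.map (ι'.comp φ : A →+* F') u := by
    ext i j; rfl
  apply hι'
  rw [ev_map, map_mul, map_inv, e]
  have h3 := coset_left H (γ := GeneralLinearGroup.map (ι' : A' →+* F') γ')
    (γ' := GeneralLinearGroup.map (ι'.comp φ : A →+* F') u * γ2) (fun c hc => by
      rw [← ev_map, h ⟨c, hc⟩, h2 ⟨c, hc⟩]; rfl)
    (GeneralLinearGroup.map (ι'.comp φ : A →+* F') u)⁻¹ b b.2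
  rw [h3, inv_mul_cancel_left, hγ2]
  rfl

end ev

theorem flat_ne_zero {B C : Type u} [CommRing B] [IsDomain B] [CommRing C] [Nontrivial C]
    [Algebra B C] [Algebra.Etale B C] {φ : B} (hφ : φ ≠ 0) : algebraMap B C φ ≠ 0 := by
  have : IsSMulRegular C φ :=
    Module.Flat.isSMulRegular_of_nonZeroDivisors (mem_nonZeroDivisors_of_ne_zero hφ)
  intro h0
  have h1 : φ • (1 : C) = φ • (0 : C) := by rw [Algebra.smul_def, h0, zero_mul, smul_zero]
  exact one_ne_zero (this h1)

theorem chart (B O : Type u) [CommRing B] [CommRing O] [IsDomain O] [Algebra B O]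
    [Algebra.Smooth B O] :
    ∃ f : O, f ≠ 0 ∧ ∃ (d : ℕ) (_ : Algebra (MvPolynomial (Fin d) B) (Localization.Away f)),
      Algebra.IsStandardEtale (MvPolynomial (Fin d) B) (Localization.Away f) ∧
      ∀ b : B, algebraMap (MvPolynomial (Fin d) B) (Localization.Away f) (MvPolynomial.C b) =
        algebraMap O (Localization.Away f) (algebraMap B O b) := by
  obtain ⟨f, hf, d, _, htw, hse⟩ := Algebra.IsSmoothAt.exists_isStandardEtale_mvPolynomial
    (R := B) (S := O) (p := ⊥)
  exact ⟨f, by simpa using hf, d, inferInstance, hse, fun b =>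
    (IsScalarTower.algebraMap_apply B (MvPolynomial (Fin d) B) (Localization.Away f) b).symm.trans
      (IsScalarTower.algebraMap_apply B O (Localization.Away f) b)⟩

theorem cover (B C T Ω : Type u) [CommRing B] [CommRing C] [CommRing T] [Algebra B C] [Algebra B T]
    [Algebra.Etale B C] (hfin : Module.Finite T (T ⊗[B] C)) [Field Ω] (π : T →+* Ω) (θ : C →+* Ω)
    (h : π.comp (algebraMap B T) = θ.comp (algebraMap B C)) :
    ∃ (O : Type u) (_ : CommRing O) (_ : Algebra T O), Module.Finite T O ∧ Algebra.Etale T O ∧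
      Nontrivial O ∧ ∃ j : C →+* O, ∀ b, j (algebraMap B C b) = algebraMap T O (algebraMap B T b) := by
  refine ⟨T ⊗[B] C, inferInstance, inferInstance, hfin, inferInstance, ?_,
    (Algebra.TensorProduct.includeRight : C →ₐ[B] T ⊗[B] C), fun b =>
      (Algebra.TensorProduct.includeRight : C →ₐ[B] T ⊗[B] C).commutes b⟩
  let : Algebra B Ω := (π.comp (algebraMap B T)).toAlgebra
  let π' : T →ₐ[B] Ω := { π with commutes' := fun _ => rfl }
  let θ' : C →ₐ[B] Ω := { θ with commutes' := fun b => (DFunLike.congr_fun h b).symm }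
  exact (Algebra.TensorProduct.lift π' θ' fun _ _ => Commute.all _ _).toRingHom.domain_nontrivial

/-- Isotriviality over a local ring with finite residue field. -/
theorem isotriv {k₀ : Type u} [Field k₀] {n : ℕ} (H : AffQuot k₀ n) {R : Type u} [CommRing R]
    [IsLocalRing R] [Algebra k₀ R] [Finite (ResidueField R)] (z : H.B →ₐ[k₀] R) (f : R[X])
    (hf : f.map (residue R) ≠ 0) :
    ∃ (O : Type u) (_ : CommRing O) (_ : Algebra R O) (_ : Algebra k₀ O)
      (_ : IsScalarTower k₀ R O), Module.Finite R O ∧ Module.Free R O ∧ Nontrivial O ∧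
      Algebra.Etale R O ∧ IsReduced (ResidueField R ⊗[R] O) ∧ (∃ x₀ : O, IsUnit (aeval x₀ f)) ∧
      ∃ γ : GL (Fin n) O, ∀ b : H.B, ev k₀ γ b = algebraMap R O (z b) := by
  classical
  let Ω := AlgebraicClosure (ResidueField R)
  have hdom : IsDomain (OGL k₀ n) := IsLocalization.isDomain_localization
    (powers_le_nonZeroDivisors_of_noZeroDivisors (det_mvPolynomialX_ne_zero (Fin n) k₀))
  have := H.smooth
  obtain ⟨f₁, hf₁, d, _, hse, hBC⟩ := chart H.B (OGL k₀ n)
  let C := Localization.Away f₁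
  let B' := MvPolynomial (Fin d) H.B
  have : IsDomain C := IsLocalization.isDomain_localization
    (powers_le_nonZeroDivisors_of_noZeroDivisors hf₁)
  obtain ⟨φ, hφ, hfin⟩ := generic_finite B' C
  have hφ' : algebraMap B' C φ ≠ 0 := flat_ne_zero hφ
  have : Algebra.FiniteType k₀ (OGL k₀ n) :=
    Algebra.FiniteType.trans (S := MvPolynomial (Fin n × Fin n) k₀) inferInstance inferInstance
  have : Algebra.FiniteType k₀ C :=
    Algebra.FiniteType.trans (S := OGL k₀ n) inferInstance inferInstance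
  obtain ⟨θ, hθ⟩ := exists_point k₀ C Ω (algebraMap B' C φ) fun h => hφ' h.eq_zero
  obtain ⟨g, hg⟩ := exists_ev (θ.comp (IsScalarTower.toAlgHom k₀ (OGL k₀ n) C))
  let ρ : R →ₐ[k₀] Ω := IsScalarTower.toAlgHom k₀ R Ω
  obtain ⟨γ₀, hγ₀⟩ : ∃ γ₀ : GL (Fin n) Ω, ∀ b : H.B, ev k₀ γ₀ b = ρ (z b) := by
    obtain ⟨F, _, _, _, _, hff, hft, γ, hγ, -⟩ := taut H (ρ.comp z)
    have : Nontrivial F := (FaithfulSMul.algebraMap_injective Ω F).nontrivial
    obtain ⟨ψ, -⟩ := exists_point Ω F Ω 1 not_isNilpotent_one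
    refine ⟨GeneralLinearGroup.map (ψ.restrictScalars k₀ : F →+* Ω) γ, fun b => ?_⟩
    rw [← ev_map, hγ]
    exact ψ.commutes _
  obtain ⟨t₀, ht₀⟩ : ∃ t₀ : Ω, aeval t₀ f ≠ 0 := by
    by_contra hc
    push Not at hc
    have h1 : (f.map (residue R)).map (algebraMap (ResidueField R) Ω) = 0 :=
      Polynomial.zero_of_eval_zero _ fun t => by
        rw [eval_map_algebraMap, ← ResidueField.algebraMap_eq, aeval_map_algebraMap]; exact hc t
    exact hf ((Polynomial.map_eq_zero_iff (algebraMap (ResidueField R) Ω).injective).1 h1)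
  let ub : GL (Fin n) Ω := g * γ₀⁻¹
  let a : Fin d → Ω := fun i => θ (algebraMap B' C (MvPolynomial.X i))
  obtain ⟨T, _, _, hTfin, hTfree, hTet, π, hπ, hunit⟩ := ext_lift (R := R) Ω
    ((Set.range fun p : Fin n × Fin n => ub p.1 p.2) ∪ Set.range a ∪ {t₀})
    (((Set.finite_range _).union (Set.finite_range _)).union (Set.finite_singleton _))
  choose U hU using fun i j : Fin n => hπ (Or.inl (Or.inl ⟨(i, j), rfl⟩))
  choose a' ha' using fun i : Fin d => hπ (Or.inl (Or.inr ⟨i, rfl⟩))
  obtain ⟨x₀, hx₀⟩ := hπ (Or.inr rfl)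
  have hUu : IsUnit (Matrix.of U) := by
    rw [isUnit_iff_isUnit_det]
    refine hunit _ ?_
    have : (π : T →+* Ω).mapMatrix (Matrix.of U) = (ub : Matrix (Fin n) (Fin n) Ω) := by
      ext i j; exact hU i j
    rw [show π (Matrix.of U).det = (π : T →+* Ω) (Matrix.of U).det from rfl, RingHom.map_det, this]
    exact ((isUnit_iff_isUnit_det _).1 ub.isUnit).ne_zero
  let : Algebra k₀ T := ((algebraMap R T).comp (algebraMap k₀ R)).toAlgebra
  have : IsScalarTower k₀ R T := IsScalarTower.of_algebraMap_eq fun _ => rfl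
  let π₀ : T →ₐ[k₀] Ω := π.restrictScalars k₀
  obtain ⟨y, hy1, hy2⟩ := move H ((IsScalarTower.toAlgHom k₀ R T).comp z) hUu.unit
  have hπy : ∀ b : H.B, π (y b) = θ (algebraMap B' C (MvPolynomial.C b)) := by
    intro b
    have h1 := hy1 Ω π₀ γ₀ (fun c => by rw [hγ₀]; exact (π.commutes _).symm) b
    have h2 : GeneralLinearGroup.map (π₀ : T →+* Ω) hUu.unit = ub := by
      ext i j; exact hU i j
    rw [h2, inv_mul_cancel_right, hg] at h1
    rw [hBC]
    exact h1.symm
  let : Algebra B' T := (MvPolynomial.eval₂Hom (y : H.B →+* T) a').toAlgebra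
  have hBT : ∀ b : H.B, algebraMap B' T (MvPolynomial.C b) = y b := fun b =>
    MvPolynomial.eval₂Hom_C _ _ _
  have hcomp : (π : T →+* Ω).comp (algebraMap B' T) = (θ : C →+* Ω).comp (algebraMap B' C) := by
    refine MvPolynomial.ringHom_ext (fun b => ?_) fun i => ?_
    · simpa [hBT] using hπy b
    · have : algebraMap B' T (MvPolynomial.X i) = a' i := MvPolynomial.eval₂Hom_X' _ _ _
      simpa [this] using ha' i
  have hφu : IsUnit (algebraMap B' T φ) :=
    hunit _ (by rw [show π (algebraMap B' T φ) = θ (algebraMap B' C φ) from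
      DFunLike.congr_fun hcomp φ]; exact hθ)
  obtain ⟨O, _, _, hOfin, hOet, hOnt, j, hj⟩ :=
    cover B' C T Ω (hfin T hφu) (π : T →+* Ω) (θ : C →+* Ω) hcomp
  let : Algebra R O := ((algebraMap T O).comp (algebraMap R T)).toAlgebra
  have : IsScalarTower R T O := IsScalarTower.of_algebraMap_eq fun _ => rfl
  let : Algebra k₀ O := ((algebraMap T O).comp (algebraMap k₀ T)).toAlgebra
  have : IsScalarTower k₀ T O := IsScalarTower.of_algebraMap_eq fun _ => rfl
  have hR : IsScalarTower k₀ R O := IsScalarTower.of_algebraMap_eq fun _ => rfl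
  have hfinO : Module.Finite R O := Module.Finite.trans T O
  have hetO : Algebra.Etale R O := Algebra.Etale.comp R T O
  have hjb : ∀ b : H.B, j (algebraMap (OGL k₀ n) C b) = algebraMap T O (y b) := fun b => by
    rw [← hBT, ← hj, hBC]; rfl
  let j₀ : OGL k₀ n →ₐ[k₀] O :=
    { j.comp (algebraMap (OGL k₀ n) C) with
      commutes' := fun c => (hjb (algebraMap k₀ H.B c)).trans (by rw [y.commutes]; rfl) }
  obtain ⟨γ', hγ'⟩ := exists_ev j₀
  refine ⟨O, inferInstance, inferInstance, inferInstance, hR, hfinO,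
    Module.free_of_flat_of_isLocalRing, hOnt, hetO,
    Algebra.FormallyUnramified.isReduced_of_field (ResidueField R) _,
    ⟨algebraMap T O x₀, ?_⟩, _, hy2 O (IsScalarTower.toAlgHom k₀ T O) γ' fun b => ?_⟩
  · rw [aeval_algebraMap_apply]
    refine (hunit _ ?_).map _
    rwa [← aeval_algHom_apply, hx₀]
  · rw [hγ']; exact hjb b

end Pool.Agent.GR.Iso
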