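import Pool.Agent.P.MP_c1f06d_ag.r.Lin

/-! Block determinants, and the vanishing of the central cocharacter. -/

set_option autoImplicit false

open Matrix

universe u

namespace Pool.Agent.GR.KL

variable {n : ℕ} {A : Type u} [CommRing A]

/-- The determinant of the diagonal block of weight `m`. -/
def ch (ν : Fin n → ℤ) (m : ℤ) (M : Mat n A) : A :=
  (M.submatrix (fun i : {i // ν i = m} => i.1) fun i : {i // ν i = m} => i.1).det

theorem ch_mul {ν : Fin n → ℤ} (m : ℤ) {M : Mat n A} (hM : InL ν M) (N : Mat n A) :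
    ch ν m (M * N) = ch ν m M * ch ν m N := by
  unfold ch
  rw [← det_mul]
  congr 1
  ext i j
  simp only [submatrix_apply, mul_apply]
  rw [← Finset.sum_subtype (Finset.univ.filter fun l => ν l = m) (by simp)
    fun l => M i.1 l * N l j.1]
  symm
  refine Finset.sum_subset (Finset.filter_subset _ _) fun l _ hl => ?_
  have h1 : ν l ≠ m := by simpa using hl
  rw [hM i.1 l (by rw [i.2]; exact h1.symm), zero_mul]

theorem ch_one (ν : Fin n → ℤ) (m : ℤ) : ch ν m (1 : Mat n A) = 1 := by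
  unfold ch
  rw [submatrix_one _ Subtype.val_injective, det_one]

theorem ch_diagonal (ν : Fin n → ℤ) (m : ℤ) (d : Fin n → A) :
    ch ν m (diagonal d) = ∏ i ∈ Finset.univ.filter fun i => ν i = m, d i := by
  unfold ch
  rw [submatrix_diagonal _ _ Subtype.val_injective, det_diagonal]
  exact (Finset.prod_subtype _ (by simp) d).symm

theorem ch_map {A' : Type u} [CommRing A'] (f : A →+* A') (ν : Fin n → ℤ) (m : ℤ) (M : Mat n A) :
    ch ν m (M.map f) = f (ch ν m M) := by
  unfold ch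
  rw [RingHom.map_det]
  rfl

theorem ch_mem (S : Subring A) (ν : Fin n → ℤ) (m : ℤ) {M : Mat n A} (h : ∀ i j, M i j ∈ S) :
    ch ν m M ∈ S := by
  unfold ch
  rw [det_apply']
  exact S.sum_mem fun σ _ => S.mul_mem (intCast_mem S _) (S.prod_mem fun i _ => h _ _)

theorem ch_mul_inv {ν : Fin n → ℤ} (m : ℤ) {g : GL (Fin n) A} (hg : InL ν (g : Mat n A)) :
    ch ν m (g : Mat n A) * ch ν m ((g⁻¹ : GL (Fin n) A) : Mat n A) = 1 := by
  rw [← ch_mul m hg, Units.mul_inv, ch_one]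

/-- The value at `s` of the diagonal cocharacter with weights `a`. -/
def rv (a : Fin n → ℤ) (s : Aˣ) : GL (Fin n) A := dgU fun i => s ^ a i

theorem rv_val (a : Fin n → ℤ) (s : Aˣ) :
    (rv a s : Mat n A) = diagonal fun i => ((s ^ a i : Aˣ) : A) := rfl

theorem rv_add (a b : Fin n → ℤ) (s : Aˣ) : rv (a + b) s = rv a s * rv b s := by
  ext1
  rw [Units.val_mul, rv_val, rv_val, rv_val, diagonal_mul_diagonal]
  simp [_root_.zpow_add]

theorem rv_zero (s : Aˣ) : rv (0 : Fin n → ℤ) s = 1 := by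
  ext1
  rw [rv_val]
  simp

theorem inL_rv (ν a : Fin n → ℤ) (s : Aˣ) : InL ν (rv a s : Mat n A) := fun i j h => by
  rw [rv_val]
  exact diagonal_apply_ne _ fun e => h (by rw [e])

section field

variable {K : Type u} [Field K]

theorem ch_ne {ν : Fin n → ℤ} (m : ℤ) {g : GL (Fin n) K} (hg : InL ν (g : Mat n K)) :
    ch ν m (g : Mat n K) ≠ 0 := left_ne_zero_of_mul_eq_one (ch_mul_inv m hg)

theorem ch_inv {ν : Fin n → ℤ} (m : ℤ) {g : GL (Fin n) K} (hg : InL ν (g : Mat n K)) :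
    ch ν m ((g⁻¹ : GL (Fin n) K) : Mat n K) = (ch ν m (g : Mat n K))⁻¹ :=
  eq_inv_of_mul_eq_one_right (ch_mul_inv m hg)

theorem ch_conj {ν : Fin n → ℤ} (m : ℤ) {g t : GL (Fin n) K} (hg : InL ν (g : Mat n K))
    (ht : InL ν (t : Mat n K)) :
    ch ν m ((g * t * g⁻¹ : GL (Fin n) K) : Mat n K) = ch ν m (t : Mat n K) := by
  rw [Units.val_mul, Units.val_mul, ch_mul m (hg.mul ht), ch_mul m hg, ch_inv m hg]
  field_simp [ch_ne m hg]

theorem ch_rv (ν : Fin n → ℤ) (m : ℤ) (a : Fin n → ℤ) (s : Kˣ) :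
    ch ν m (rv a s : Mat n K) = (s : K) ^ ∑ i ∈ Finset.univ.filter fun i => ν i = m, a i := by
  rw [rv_val, ch_diagonal, ← Units.coe_prod, ← Units.val_zpow_eq_zpow_val]
  congr 1
  generalize Finset.univ.filter (fun i => ν i = m) = S
  induction S using Finset.cons_induction with
  | empty => simp
  | cons i S hi ih => rw [Finset.prod_cons, Finset.sum_cons, ih, _root_.zpow_add]

end field

theorem eq_zero_of_blocks {d : ℕ} (a : Fin d → Fin n → ℤ)
    (h : ∀ j m, ∑ i ∈ Finset.univ.filter fun i => (∑ l, a l) i = m, a j i = 0) : ∑ l, a l = 0 := by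
  set ν := ∑ l, a l with hν
  have h1 : ∀ j, ∑ i, ν i * a j i = 0 := fun j => by
    rw [← Finset.sum_fiberwise_of_maps_to (s := Finset.univ) (t := Finset.univ.image ν) (g := ν)
      fun i _ => Finset.mem_image_of_mem _ (Finset.mem_univ i)]
    refine Finset.sum_eq_zero fun m _ => ?_
    rw [Finset.sum_congr rfl fun i hi => by rw [(Finset.mem_filter.1 hi).2], ← Finset.mul_sum, h j m,
      mul_zero]
  have h2 : ∑ i, ν i * ν i = 0 := by
    have : ∀ i, ν i * ν i = ∑ j, ν i * a j i := fun i => by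
      rw [← Finset.mul_sum, hν, Finset.sum_apply]
    rw [Finset.sum_congr rfl fun i _ => this i, Finset.sum_comm]
    exact Finset.sum_eq_zero fun j _ => h1 j
  funext i
  exact mul_self_eq_zero.1
    ((Finset.sum_eq_zero_iff_of_nonneg fun i _ => mul_self_nonneg (ν i)).1 h2 i (Finset.mem_univ i))

/-- If the sum of the conjugates of `a` vanishes, a power of `rv a s` is in `Gp`. -/
theorem pow_mem (G Gp : Subgroup (GL (Fin n) A)) (hN : ∀ g ∈ G, ∀ x ∈ Gp, g * x * g⁻¹ ∈ Gp)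
    (a : Fin n → ℤ) (s : Aˣ) (ht : rv a s ∈ G)
    (hc : ∀ g ∈ G, g * rv a s * g⁻¹ * (rv a s)⁻¹ ∈ Gp) {d : ℕ} (nj : Fin d → GL (Fin n) A)
    (hn : ∀ j, nj j ∈ G) (aj : Fin d → Fin n → ℤ)
    (hj : ∀ j, nj j * rv a s * (nj j)⁻¹ = rv (aj j) s) (h0 : ∑ j, aj j = 0) :
    rv a s ^ d ∈ Gp := by
  have key : ∀ S : Finset (Fin d), rv (∑ j ∈ S, aj j) s * (rv a s ^ S.card)⁻¹ ∈ Gp := by
    intro S
    induction S using Finset.cons_induction with
    | empty => simp [rv_zero, Gp.one_mem]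
    | cons j S hjS ih =>
      rw [Finset.sum_cons, Finset.card_cons, rv_add, pow_succ', ← hj j]
      have e : nj j * rv a s * (nj j)⁻¹ * rv (∑ j ∈ S, aj j) s * (rv a s * rv a s ^ S.card)⁻¹ =
          nj j * rv a s * (nj j)⁻¹ * (rv a s)⁻¹ *
            (rv a s * (rv (∑ j ∈ S, aj j) s * (rv a s ^ S.card)⁻¹) * (rv a s)⁻¹) := by group
      rw [e]
      exact Gp.mul_mem (hc _ (hn j)) (hN _ ht _ ih)
  have := key Finset.univ
  rw [h0, rv_zero, one_mul, Finset.card_univ, Fintype.card_fin] at this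
  exact (Gp.inv_mem_iff).1 this

end Pool.Agent.GR.KL
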