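import Mathlib

/-! Neighbourhoods of a finite closed subscheme of the affine line. -/

set_option autoImplicit false

open Polynomial IsLocalRing

universe u

namespace Pool.Agent.GF

section basic

variable (R : Type u) [CommRing R] {B : Type u} [CommRing B] [Algebra R B]

/-- `B / G` is finite over `R`. -/
def FM (G : B) : Prop := ∃ N : Submodule R B, N.FG ∧ ∀ b, ∃ a ∈ N, G ∣ b - a

/-- Multiplication by `G` has a linear retraction. -/
def RT (G : B) : Prop := ∃ r : B →ₗ[R] B, ∀ b, r (G * b) = b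

variable {R}

theorem FM.finite {G : B} (h : FM R G) : Module.Finite R (B ⧸ Ideal.span {G}) := by
  obtain ⟨N, h1, h2⟩ := h
  have h3 := h1.map (Ideal.Quotient.mkₐ R (Ideal.span {G})).toLinearMap
  refine ⟨?_⟩
  rwa [show N.map (Ideal.Quotient.mkₐ R (Ideal.span {G})).toLinearMap = ⊤ from ?_] at h3
  refine eq_top_iff.2 fun x _ => ?_
  obtain ⟨b, rfl⟩ := Ideal.Quotient.mk_surjective x
  obtain ⟨a, ha, hb⟩ := h2 b
  exact ⟨a, ha, (Ideal.Quotient.eq.2 (Ideal.mem_span_singleton.2 hb)).symm⟩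

theorem FM.mul {G G' : B} (h : FM R G) (h' : FM R G') : FM R (G * G') := by
  obtain ⟨N, h1, h2⟩ := h
  obtain ⟨N', h1', h2'⟩ := h'
  refine ⟨N ⊔ N'.map (LinearMap.mulLeft R G), h1.sup (h1'.map _), fun b => ?_⟩
  obtain ⟨a, ha, c, hc⟩ := h2 b
  obtain ⟨a', ha', c', hc'⟩ := h2' c
  exact ⟨a + G * a', Submodule.add_mem_sup ha ⟨a', ha', rfl⟩, c',
    by linear_combination hc + G * hc'⟩

theorem FM.of_dvd {G G' : B} (h : FM R G) (h' : G' ∣ G) : FM R G' := by
  obtain ⟨N, h1, h2⟩ := h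
  exact ⟨N, h1, fun b => (h2 b).imp fun a ha => ⟨ha.1, h'.trans ha.2⟩⟩

theorem FM.ext {G : B} (h : FM R G) (B' : Type u) [CommRing B'] [Algebra R B'] [Algebra B B']
    [IsScalarTower R B B'] [Module.Finite B B'] : FM R (algebraMap B B' G) := by
  obtain ⟨N, h1, h2⟩ := h
  obtain ⟨t, ht⟩ := Module.Finite.fg_top (R := B) (M := B')
  refine ⟨N.map (IsScalarTower.toAlgHom R B B').toLinearMap * Submodule.span R t,
    (h1.map _).mul (Submodule.fg_span t.finite_toSet), fun b => ?_⟩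
  obtain ⟨z, -, rfl⟩ := Submodule.mem_span_finset.1 (ht ▸ Submodule.mem_top : b ∈ _)
  choose a ha hb using h2
  refine ⟨∑ i ∈ t, a (z i) • i, Submodule.sum_mem _ fun i hi => ?_, ?_⟩
  · rw [Algebra.smul_def]
    exact Submodule.mul_mem_mul ⟨_, ha _, rfl⟩ (Submodule.subset_span hi)
  · rw [← Finset.sum_sub_distrib]
    refine Finset.dvd_sum fun i _ => ?_
    rw [← sub_smul, Algebra.smul_def]
    exact (_root_.map_dvd _ (hb _)).mul_right _

theorem FM.of_monic [Nontrivial B] {G : B[X]} (hG : G.Monic) [Module.Finite R B] : FM R G := by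
  have : Module.Finite B (degreeLT B G.natDegree) :=
    Module.Finite.equiv (degreeLTEquiv B G.natDegree).symm
  have : Module.Finite R (degreeLT B G.natDegree) := Module.Finite.trans B _
  refine ⟨LinearMap.range ((degreeLT B G.natDegree).subtype.restrictScalars R),
    Submodule.fg_range _, fun b => ⟨b %ₘ G, ⟨⟨_, mem_degreeLT.2 ?_⟩, rfl⟩, b /ₘ G, ?_⟩⟩
  · exact (degree_modByMonic_lt b hG).trans_le degree_le_natDegree
  · linear_combination -modByMonic_add_div b G

theorem FM.integral {G : B} (h : FM R G) (y : B) : ∃ d : R[X], d.Monic ∧ G ∣ aeval y d := by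
  have := h.finite
  obtain ⟨d, h1, h2⟩ := Algebra.IsIntegral.isIntegral (R := R)
    (Ideal.Quotient.mkₐ R (Ideal.span {G}) y)
  refine ⟨d, h1, Ideal.mem_span_singleton.1 (Ideal.Quotient.eq_zero_iff_mem.1 ?_)⟩
  rw [← aeval_def, aeval_algHom_apply] at h2
  exact h2

theorem RT.reg {G : B} (h : RT R G) {b : B} (hb : G * b = 0) : b = 0 := by
  obtain ⟨r, hr⟩ := h
  rw [← hr b, hb, map_zero]

theorem RT.of_dvd {G G' : B} (h : RT R G) (h' : G' ∣ G) : RT R G' := by
  obtain ⟨r, hr⟩ := h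
  obtain ⟨c, rfl⟩ := h'
  exact ⟨r ∘ₗ LinearMap.mulLeft R c, fun b => by
    rw [← hr b, LinearMap.comp_apply, LinearMap.mulLeft_apply, hr, ← hr b]
    exact congrArg r (by rw [hr]; ring)⟩

theorem RT.ext {G : B} (h : RT R G) (B' : Type u) [CommRing B'] [Algebra R B'] [Algebra B B']
    [IsScalarTower R B B'] [Module.Free B B'] : RT R (algebraMap B B' G) := by
  obtain ⟨r, hr⟩ := h
  let e := (Module.Free.chooseBasis B B').repr
  refine ⟨e.symm.toLinearMap.restrictScalars R ∘ₗ Finsupp.mapRange.linearMap r ∘ₗ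
    e.toLinearMap.restrictScalars R, fun b => ?_⟩
  show e.symm (Finsupp.mapRange r (map_zero r) (e _)) = b
  rw [LinearEquiv.symm_apply_eq, ← Algebra.smul_def, map_smul]
  ext i
  exact hr _

theorem RT.of_monic {G : B[X]} (hG : G.Monic) : RT R G := by
  have h : ∀ f, G * (f /ₘ G) = f - f %ₘ G := fun f => by
    linear_combination modByMonic_add_div f G
  let r : B[X] →ₗ[B] B[X] :=
    { toFun := fun f => f /ₘ G
      map_add' := fun f g => hG.isRegular.left (by
        show G * _ = G * _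
        rw [mul_add, h, h, h, add_modByMonic]
        ring)
      map_smul' := fun c f => hG.isRegular.left (by
        show G * _ = G * (c • _)
        rw [mul_smul_comm, h, h, smul_modByMonic, smul_sub]) }
  exact ⟨r.restrictScalars R, fun b => mul_divByMonic_cancel_left b hG⟩

end basic

section loc

variable (R : Type u) [CommRing R] [IsLocalRing R] (B : Type u) [CommRing B] [Algebra R B]

/-- The extension of the maximal ideal. -/
abbrev mB : Ideal B := (maximalIdeal R).map (algebraMap R B)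

variable {R B}

theorem mB_map {B' : Type u} [CommRing B'] [Algebra R B'] (f : B →ₐ[R] B') {b : B}
    (h : b ∈ mB R B) : f b ∈ mB R B' := by
  have h1 := Ideal.mem_map_of_mem (f : B →+* B') h
  rwa [Ideal.map_map, f.comp_algebraMap] at h1

theorem FM.nak {G : B} (h : FM R G) (N0 : Submodule R B)
    (H : ∀ b, ∃ a ∈ N0, b - a ∈ Ideal.span {G} ⊔ mB R B) (b : B) : ∃ a ∈ N0, G ∣ b - a := by
  obtain ⟨N, h1, h2⟩ := h
  let I := (Ideal.span {G}).restrictScalars R
  have h3 : ⊤ ≤ N ⊔ I := fun b _ => by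
    obtain ⟨a, ha, hb⟩ := h2 b
    rw [← add_sub_cancel a b]
    exact Submodule.add_mem_sup ha (Ideal.mem_span_singleton.2 hb)
  have h4 : maximalIdeal R • (⊤ : Submodule R B) ≤ (N0 ⊔ I) ⊔ maximalIdeal R • N := by
    refine (Submodule.smul_mono le_rfl h3).trans ?_
    rw [Submodule.smul_sup]
    exact sup_le le_sup_right (Submodule.smul_le_right.trans (le_sup_right.trans le_sup_left))
  have h5 : N ≤ N0 ⊔ I := by
    refine Submodule.le_of_le_smul_of_le_jacobson_bot h1 (maximalIdeal_le_jacobson ⊥) fun x _ => ?_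
    obtain ⟨a, ha, hb⟩ := H x
    obtain ⟨y, hy, z, hz, e⟩ := Submodule.mem_sup.1 hb
    rw [show x = a + y + z by linear_combination -e]
    refine add_mem (Submodule.mem_sup_left (Submodule.add_mem_sup ha hy)) (h4 ?_)
    rw [Ideal.smul_top_eq_map]
    exact hz
  obtain ⟨a, ha, y, hy, e⟩ := Submodule.mem_sup.1 ((h3.trans (sup_le h5 le_sup_right))
    (Submodule.mem_top : b ∈ _))
  exact ⟨a, ha, by rw [← e, add_sub_cancel_left]; exact Ideal.mem_span_singleton.1 hy⟩

theorem FM.coprime {G z z' : B} (h : FM R G) (H : z * z' - 1 ∈ Ideal.span {G} ⊔ mB R B) :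
    IsCoprime z G := by
  obtain ⟨a, ⟨c, rfl⟩, d, hd⟩ := h.nak (LinearMap.range (LinearMap.mulLeft R z)) (fun b =>
    ⟨z * (z' * b), ⟨_, rfl⟩, by
      rw [show b - z * (z' * b) = -b * (z * z' - 1) by ring]
      exact Ideal.mul_mem_left _ _ H⟩) 1
  exact ⟨c, d, by rw [LinearMap.mulLeft_apply] at hd; linear_combination -hd⟩

theorem free_quot [Module.Flat R B] {G : B} (h1 : RT R G) (h2 : FM R G) :
    Module.Free R (B ⧸ Ideal.span {G}) := by
  obtain ⟨r, hr⟩ := h1
  have := h2.finite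
  let s0 : B →ₗ[R] B := LinearMap.id - LinearMap.mulLeft R G ∘ₗ r
  let s : (B ⧸ Ideal.span {G}) →ₗ[R] B :=
    ((Ideal.span {G}).restrictScalars R).liftQ s0 (fun b hb => by
      obtain ⟨c, rfl⟩ := Ideal.mem_span_singleton.1 hb
      simp [s0, hr]) ∘ₗ (Submodule.Quotient.restrictScalarsEquiv R (Ideal.span {G})).symm
  have : Module.Flat R (B ⧸ Ideal.span {G}) :=
    Module.Flat.of_retract s (Ideal.Quotient.mkₐ R (Ideal.span {G})).toLinearMap (by
      refine LinearMap.ext fun x => ?_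
      obtain ⟨b, rfl⟩ := Ideal.Quotient.mk_surjective x
      show Ideal.Quotient.mk _ (b - G * r b) = Ideal.Quotient.mk _ b
      exact Ideal.Quotient.eq.2 (Ideal.mem_span_singleton.2 ⟨-r b, by ring⟩))
  exact Module.free_of_flat_of_isLocalRing

/-- The equation of the image in the affine line. -/
theorem exists_eqn [Module.Flat R B] {G : B} (h1 : RT R G) (h2 : FM R G) (T : B)
    (h3 : ∀ b, ∃ f : R[X], G ^ 2 ∣ b - aeval T f) :
    ∃ (m : R[X]) (c : B), m.Monic ∧ aeval T m = c * G ∧ IsCoprime c G ∧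
      ∀ f : R[X], G ∣ aeval T f → m ∣ f := by
  have := h2.finite
  have := free_quot h1 h2
  let π := Ideal.Quotient.mkₐ R (Ideal.span {G})
  let m := (Algebra.lmul R _ (π T)).charpoly
  have hm : m.Monic := LinearMap.charpoly_monic _
  have h4 : aeval (π T) m = 0 := Algebra.aeval_self_charpoly_lmul _
  have h0 : ∀ b, π b = 0 ↔ G ∣ b := fun b =>
    Ideal.Quotient.eq_zero_iff_mem.trans Ideal.mem_span_singleton
  let φ := AdjoinRoot.liftAlgHom m (Algebra.ofId R _) (π T) h4
  have hφ : ∀ f, φ (AdjoinRoot.mk m f) = π (aeval T f) := fun f => by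
    rw [← aeval_algHom_apply]
    rfl
  have := hm.free_adjoinRoot
  have := hm.finite_adjoinRoot
  have h5 := OrzechProperty.bijective_of_surjective_of_finrank_le φ.toLinearMap (fun x => by
    obtain ⟨b, rfl⟩ := Ideal.Quotient.mk_surjective x
    obtain ⟨f, hf⟩ := h3 b
    refine ⟨AdjoinRoot.mk m f, (hφ f).trans (sub_eq_zero.1 ?_).symm⟩
    exact (map_sub π b _).symm.trans ((h0 _).2 ((dvd_pow_self G two_ne_zero).trans hf))) (by
    rw [(AdjoinRoot.powerBasis' hm).finrank]
    exact (LinearMap.charpoly_natDegree _).le)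
  have h6 : ∀ f : R[X], G ∣ aeval T f → m ∣ f := fun f hf =>
    AdjoinRoot.mk_eq_zero.1 (h5.1 (((hφ f).trans ((h0 _).2 hf)).trans (map_zero φ).symm))
  rw [aeval_algHom_apply] at h4
  obtain ⟨c, hc⟩ := (h0 _).1 h4
  obtain ⟨f, v, hv⟩ := h3 G
  obtain ⟨w, rfl⟩ := h6 f ⟨1 - G * v, by linear_combination -hv⟩
  rw [map_mul, hc] at hv
  refine ⟨m, c, hm, hc.trans (mul_comm _ _), ⟨aeval T w, v, ?_⟩, h6⟩
  exact sub_eq_zero.1 (h1.reg (by linear_combination -hv))

end loc

section nb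

variable {R : Type u} [CommRing R]

/-- `R[T] / m = B / m` and `m` is regular on `B`. -/
structure NB (m : R[X]) {B : Type u} [CommRing B] [Algebra R B] (T : B) : Prop where
  reg : ∀ b, aeval T m * b = 0 → b = 0
  sur : ∀ b, ∃ f : R[X], aeval T m ∣ b - aeval T f
  ker : ∀ f : R[X], aeval T m ∣ aeval T f → m ∣ f

theorem nb_loc {B : Type u} [CommRing B] [Algebra R B] {G T c h : B} {m : R[X]}
    (h1 : ∀ b, G * b = 0 → b = 0) (h2 : ∀ b, ∃ f : R[X], G ∣ b - aeval T f)
    (h3 : ∀ f : R[X], G ∣ aeval T f → m ∣ f) (h4 : aeval T m = c * G) (h5 : c ∣ h)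
    (h6 : IsCoprime h G) (B' : Type u) [CommRing B'] [Algebra R B'] [Algebra B B']
    [IsScalarTower R B B'] [IsLocalization.Away h B'] : NB m (algebraMap B B' T) := by
  have hu := IsLocalization.Away.algebraMap_isUnit (S := B') h
  have hc : IsUnit (algebraMap B B' c) := isUnit_of_dvd_unit (_root_.map_dvd _ h5) hu
  have e : ∀ f : R[X], aeval (algebraMap B B' T) f = algebraMap B B' (aeval T f) := fun f =>
    aeval_algebraMap_apply _ _ _
  have e1 : ∀ b, aeval (algebraMap B B' T) m ∣ b ↔ algebraMap B B' G ∣ b := fun b => by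
    rw [e, h4, map_mul, hc.mul_left_dvd]
  refine ⟨fun b hb => ?_, fun b => ?_, fun f hf => h3 f ?_⟩
  · have h7 := IsLocalization.nonZeroDivisors_le_comap (Submonoid.powers h) B'
      (mem_nonZeroDivisors_iff_left.2 h1)
    rw [e, h4, map_mul, mul_assoc, hc.mul_right_eq_zero] at hb
    exact mem_nonZeroDivisors_iff_left.1 h7 b hb
  · obtain ⟨k, a, ha⟩ := IsLocalization.Away.surj h b
    obtain ⟨u, v, huv⟩ := h6.pow_left (m := k)
    obtain ⟨f, w, hf⟩ := h2 (u * a)
    have h7 := congrArg (algebraMap B B') huv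
    have h8 := congrArg (algebraMap B B') hf
    simp only [map_add, map_mul, map_pow, map_one, map_sub] at h7 h8
    refine ⟨f, (e1 _).2 ⟨algebraMap B B' w + algebraMap B B' v * b, ?_⟩⟩
    rw [e]
    linear_combination h8 + algebraMap B B' u * ha - b * h7
  · obtain ⟨b, hb⟩ := (e1 _).1 hf
    obtain ⟨k, a, ha⟩ := IsLocalization.Away.surj h b
    have h7 : algebraMap B B' (h ^ k * aeval T f) = algebraMap B B' (G * a) := by
      rw [map_mul, map_mul, map_pow, ← e, hb, ← ha]
      ring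
    obtain ⟨j, hj⟩ := IsLocalization.Away.exists_of_eq h h7
    refine (h6.symm.pow_right (n := j + k)).dvd_of_dvd_mul_left ⟨h ^ j * a, ?_⟩
    linear_combination hj

theorem NB.prod {B1 B2 : Type u} [CommRing B1] [Algebra R B1] [CommRing B2] [Algebra R B2]
    {m1 m2 : R[X]} {T1 : B1} {T2 : B2} (h1 : NB m1 T1) (h2 : NB m2 T2) (h : IsCoprime m1 m2)
    (u1 : IsUnit (aeval T1 m2)) (u2 : IsUnit (aeval T2 m1)) : NB (m1 * m2) (T1, T2) := by
  have e : ∀ f : R[X], aeval (T1, T2) f = (aeval T1 f, aeval T2 f) := fun f =>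
    Prod.ext (aeval_algHom_apply (AlgHom.fst R B1 B2) _ f).symm
      (aeval_algHom_apply (AlgHom.snd R B1 B2) _ f).symm
  have e1 : ∀ b : B1 × B2, aeval (T1, T2) (m1 * m2) ∣ b ↔
      aeval T1 m1 ∣ b.1 ∧ aeval T2 m2 ∣ b.2 := fun b => by
    rw [e, Prod.mk_dvd_mk, map_mul, map_mul, u1.mul_right_dvd, u2.mul_left_dvd]
  refine ⟨fun b hb => ?_, fun b => ?_, fun f hf => ?_⟩
  · rw [e, map_mul, map_mul] at hb
    have a1 : aeval T1 m1 * aeval T1 m2 * b.1 = 0 := congrArg Prod.fst hb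
    have a2 : aeval T2 m1 * aeval T2 m2 * b.2 = 0 := congrArg Prod.snd hb
    rw [mul_assoc] at a1 a2
    exact Prod.ext (u1.mul_right_eq_zero.1 (h1.reg _ a1)) (h2.reg _ (u2.mul_right_eq_zero.1 a2))
  · obtain ⟨f1, c1, a1⟩ := h1.sur b.1
    obtain ⟨f2, c2, a2⟩ := h2.sur b.2
    obtain ⟨u, v, huv⟩ := h
    have a3 := congrArg (aeval T1) huv
    have a4 := congrArg (aeval T2) huv
    simp only [map_add, map_mul, map_one] at a3 a4
    refine ⟨v * m2 * f1 + u * m1 * f2, (e1 _).2 ⟨⟨c1 + aeval T1 u * (aeval T1 f1 - aeval T1 f2), ?_⟩,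
      ⟨c2 + aeval T2 v * (aeval T2 f2 - aeval T2 f1), ?_⟩⟩⟩
    · simp only [e, Prod.fst_sub, map_add, map_mul]
      linear_combination a1 - aeval T1 f1 * a3
    · simp only [e, Prod.snd_sub, map_add, map_mul]
      linear_combination a2 - aeval T2 f2 * a4
  · rw [e1, e] at hf
    exact h.mul_dvd (h1.ker f hf.1) (h2.ker f hf.2)

variable {B : Type u} [CommRing B] [Algebra R B] {m : R[X]} {T : B}

theorem NB.ker_pow (h : NB m T) (r : ℕ) : ∀ f : R[X], aeval T m ^ r ∣ aeval T f → m ^ r ∣ f := by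
  induction r with
  | zero => simp
  | succ r ih =>
    rintro f ⟨d, hd⟩
    obtain ⟨f1, rfl⟩ := h.ker f ⟨aeval T m ^ r * d, by rw [hd]; ring⟩
    rw [pow_succ']
    refine mul_dvd_mul_left _ (ih f1 ⟨d, sub_eq_zero.1 (h.reg _ ?_)⟩)
    rw [map_mul] at hd
    linear_combination hd

theorem NB.sur_pow [Nontrivial R] (h : NB m T) (hm : m.Monic) (r : ℕ) (b : B) :
    ∃ f : R[X], f.degree < (r * m.natDegree : ℕ) ∧ aeval T m ^ r ∣ b - aeval T f := by
  have h1 : ∃ f : R[X], aeval T m ^ r ∣ b - aeval T f := by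
    induction r with
    | zero => exact ⟨0, by simp⟩
    | succ r ih =>
      obtain ⟨f, d, hd⟩ := ih
      obtain ⟨f', d', hd'⟩ := h.sur d
      refine ⟨f + m ^ r * f', d', ?_⟩
      simp only [map_add, map_mul, map_pow]
      linear_combination hd + aeval T m ^ r * hd'
  obtain ⟨f, d, hd⟩ := h1
  refine ⟨f %ₘ m ^ r, ?_, d + aeval T (f /ₘ m ^ r), ?_⟩
  · rw [← hm.natDegree_pow]
    exact (degree_modByMonic_lt f (hm.pow r)).trans_le degree_le_natDegree
  · have h2 := congrArg (aeval T) (modByMonic_add_div f (m ^ r))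
    simp only [map_add, map_mul, map_pow] at h2
    linear_combination hd - h2

end nb

end Pool.Agent.GF
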