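import Pool.Agent.P.MP_c1f06d_ag.f.RigA
import Pool.Agent.P.MP_c1f06d_ag.f.Rat

/-! Rigidity with an augmented ring of functions outside the patch. -/

set_option autoImplicit false

open Polynomial IsLocalRing Matrix Pool.Agent.GR.KL

universe u

namespace Pool.Agent.GF

variable {R : Type u} [CommRing R] {n : ℕ}

/-- Base change of invertible matrices. -/
abbrev gl {A A' : Type u} [CommRing A] [Algebra R A] [CommRing A'] [Algebra R A']
    (f : A →ₐ[R] A') : GL (Fin n) A →* GL (Fin n) A' := GeneralLinearGroup.map (f : A →+* A')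

theorem gl_lift {A L : Type u} [CommRing A] [CommRing L] (ψ : A →+* L) (h : Function.Injective ψ)
    (g : GL (Fin n) L) (h1 : ∀ i j, g.val i j ∈ Set.range ψ)
    (h2 : ∀ i j, g⁻¹.val i j ∈ Set.range ψ) : ∃ c, GeneralLinearGroup.map ψ c = g := by
  choose x hx using h1
  choose y hy using h2
  have ex : (of x).map ψ = g.val := Matrix.ext hx
  have ey : (of y).map ψ = g⁻¹.val := Matrix.ext hy
  have e : of x * of y = 1 := Matrix.map_injective h (by
    show (of x * of y).map ψ = (1 : Matrix (Fin n) (Fin n) A).map ψ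
    rw [Matrix.map_mul, ex, ey, g.mul_inv, Matrix.map_one _ (map_zero ψ) (map_one ψ)])
  exact ⟨⟨of x, of y, e, mul_eq_one_comm.1 e⟩, Units.ext ex⟩

theorem gl_prod {A A' : Type u} [CommRing A] [CommRing A'] (g : GL (Fin n) A)
    (g' : GL (Fin n) A') : ∃ c : GL (Fin n) (A × A'), GeneralLinearGroup.map (RingHom.fst A A') c = g ∧
      GeneralLinearGroup.map (RingHom.snd A A') c = g' := by
  have e : (of fun i j => (g.val i j, g'.val i j)) * (of fun i j => (g⁻¹.val i j, g'⁻¹.val i j))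
      = 1 := by
    ext i j
    · have := congrFun (congrFun g.mul_inv i) j
      simpa [mul_apply, Prod.fst_sum, one_apply, apply_ite Prod.fst] using this
    · have := congrFun (congrFun g'.mul_inv i) j
      simpa [mul_apply, Prod.snd_sum, one_apply, apply_ite Prod.snd] using this
  exact ⟨⟨_, _, e, mul_eq_one_comm.1 e⟩, Units.ext rfl, Units.ext rfl⟩

variable [IsLocalRing R]

theorem mB_lin {A A' : Type u} [CommRing A] [Algebra R A] [CommRing A'] [Algebra R A']
    (f : A →ₗ[R] A') {x : A} (h : x ∈ mB R A) : f x ∈ mB R A' := by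
  have h1 : x ∈ maximalIdeal R • (⊤ : Submodule R A) := by
    rw [Ideal.smul_top_eq_map]
    exact h
  have h2 := Submodule.mem_map_of_mem (f := f) h1
  rw [Submodule.map_smul''] at h2
  have h3 := Submodule.smul_mono le_rfl le_top h2
  rwa [Ideal.smul_top_eq_map] at h3

theorem mB_prod {A A' : Type u} [CommRing A] [Algebra R A] [CommRing A'] [Algebra R A']
    {x : A × A'} (h : x.1 ∈ mB R A) (h' : x.2 ∈ mB R A') : x ∈ mB R (A × A') := by
  have := add_mem (mB_lin (LinearMap.inl R A A') h) (mB_lin (LinearMap.inr R A A') h')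
  simpa using this

theorem Spl.rigT {L B : Type u} [CommRing L] [Algebra R L] [CommRing B] [Algebra R B]
    {N : Submodule R L} {φ : B →ₐ[R] L} (h : Spl N φ.range) (hφ : Function.Injective φ)
    (κ : GL (Fin n) L) (a a' : Matrix (Fin n) (Fin n) L) (b b' : Matrix (Fin n) (Fin n) B)
    (ha : ∀ i j, ∀ x ∈ N, a i j * x ∈ N) (ha' : ∀ i j, ∀ x ∈ N, a' i j * x ∈ N)
    (h1 : ∀ i j, (a * a' - 1) i j ∈ mB R L) (h2 : ∀ i j, (a - κ.val * b.map φ) i j ∈ mB R L)
    (h3 : ∀ i j, (a' - b'.map φ * κ⁻¹.val) i j ∈ mB R L) :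
    ∃ (T : Type u) (_ : CommRing T) (_ : Algebra R T) (au : T →ₐ[R] R) (ι : T →ₐ[R] L)
      (ret : L →ₗ[R] T) (g : GL (Fin n) T) (c : GL (Fin n) B),
      (∀ t, ret (ι t) = t - algebraMap R T (au t)) ∧ (∀ d, ret (φ d) = 0) ∧ gl au g = 1 ∧
        gl ι g = κ * gl φ c := by
  obtain ⟨g, h4, h5, h6, h7⟩ := h.rig κ a a' (b.map φ) (b'.map φ) ha ha' (fun i j => ⟨_, rfl⟩)
    (fun i j => ⟨_, rfl⟩) h1 h2 h3
  obtain ⟨c, hc⟩ := gl_lift (φ : B →+* L) hφ (κ⁻¹ * g) h6 (by rwa [_root_.mul_inv_rev, inv_inv])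
  let N' := N.toNonUnitalSubalgebra fun x y hx hy => h.mul x hx y hy
  let ι : Unitization R N' →ₐ[R] L := Unitization.lift (NonUnitalSubalgebraClass.subtype N')
  have hι : ∀ t, ι t = algebraMap R L t.fst + t.snd := fun t => rfl
  let au := Unitization.fstHom R N'
  have hc' : IsCompl N φ.range.toSubmodule := ⟨Submodule.disjoint_def.2 h.inf,
    codisjoint_iff_le_sup.2 fun x _ => by
      obtain ⟨y, hy, e⟩ := h.sum x
      rw [← add_sub_cancel y x]
      exact Submodule.add_mem_sup hy e⟩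
  let p := Submodule.projectionOnto N _ hc'
  let i0 : N →ₗ[R] Unitization R N' := Unitization.inrHom R R N'
  have hp : ∀ d, p (φ d) = 0 := fun d => Submodule.projectionOnto_apply_of_mem_right hc' ⟨d, rfl⟩
  let lf : (x : Matrix (Fin n) (Fin n) L) → (∀ i j, (x - 1) i j ∈ N) →
      Matrix (Fin n) (Fin n) (Unitization R N') := fun x hx => 1 + of fun i j => i0 ⟨_, hx i j⟩
  have l1 : ∀ x hx, au.mapMatrix (lf x hx) = 1 := fun x hx => by
    rw [map_add, map_one, add_eq_left]
    rfl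
  have l2 : ∀ x hx, ι.mapMatrix (lf x hx) = x := fun x hx => by
    rw [map_add, map_one, ← eq_sub_iff_add_eq']
    ext i j
    exact (hι _).trans ((congrArg (· + (x - 1) i j) (map_zero _)).trans (zero_add _))
  have e : lf _ h4 * lf _ h5 = 1 := by
    have e1 : au.mapMatrix (lf _ h4 * lf _ h5) = au.mapMatrix 1 := by
      rw [map_mul, l1, l1, map_one, one_mul]
    have e2 : ι.mapMatrix (lf _ h4 * lf _ h5) = ι.mapMatrix 1 := by
      rw [map_mul, l2, l2, map_one, g.mul_inv]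
    refine Matrix.ext fun i j => ?_
    have e3 : ((lf _ h4 * lf _ h5) i j).fst = ((1 : Matrix (Fin n) (Fin n) (Unitization R N')) i j).fst :=
      congrFun (congrFun e1 i) j
    have e4 : ι ((lf _ h4 * lf _ h5) i j) = ι ((1 : Matrix (Fin n) (Fin n) (Unitization R N')) i j) :=
      congrFun (congrFun e2 i) j
    rw [hι, hι, e3, add_right_inj] at e4
    exact Unitization.ext e3 (Subtype.ext e4)
  refine ⟨Unitization R N', inferInstance, inferInstance, au, ι, i0 ∘ₗ p,
    ⟨_, _, e, mul_eq_one_comm.1 e⟩, c, fun t => ?_, fun d => ?_, Units.ext (l1 _ h4), ?_⟩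
  · rw [LinearMap.comp_apply, hι, map_add, ← φ.commutes, hp, zero_add, eq_sub_iff_add_eq']
    exact (congrArg (_ + i0 ·) (Submodule.projectionOnto_apply_left hc' t.snd)).trans
      (Unitization.inl_fst_add_inr_snd_eq t)
  · rw [LinearMap.comp_apply, hp, map_zero]
  · rw [hc, mul_inv_cancel_left]
    exact Units.ext (l2 _ h4)

theorem Spl.rigR {L B K : Type u} [CommRing L] [Algebra R L] [CommRing B] [Algebra R B]
    [CommRing K] {N : Submodule R L} {φ : B →ₐ[R] L} (h : Spl N φ.range)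
    (hφ : Function.Injective φ) (ρ : L →+* K) (hρ : ∀ l, ρ l = 0 → l ∈ mB R L)
    (κ : GL (Fin n) L) (g β : GL (Fin n) K) (e : g = GeneralLinearGroup.map ρ κ * β)
    (hg : ∀ i j, ∃ a, (∀ x ∈ N, a * x ∈ N) ∧ ρ a = g.val i j)
    (hg' : ∀ i j, ∃ a, (∀ x ∈ N, a * x ∈ N) ∧ ρ a = g⁻¹.val i j)
    (hβ : ∀ i j, ∃ d, ρ (φ d) = β.val i j) (hβ' : ∀ i j, ∃ d, ρ (φ d) = β⁻¹.val i j) :
    ∃ (T : Type u) (_ : CommRing T) (_ : Algebra R T) (au : T →ₐ[R] R) (ι : T →ₐ[R] L)
      (ret : L →ₗ[R] T) (a : GL (Fin n) T) (c : GL (Fin n) B),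
      (∀ t, ret (ι t) = t - algebraMap R T (au t)) ∧ (∀ d, ret (φ d) = 0) ∧ gl au a = 1 ∧
        gl ι a = κ * gl φ c := by
  choose a ha h1 using hg
  choose a' ha' h2 using hg'
  choose b h3 using hβ
  choose b' h4 using hβ'
  have e1 : ρ.mapMatrix (of a) = g.val := Matrix.ext h1
  have e2 : ρ.mapMatrix (of a') = g⁻¹.val := Matrix.ext h2
  have e3 : ρ.mapMatrix ((of b).map φ) = β.val := Matrix.ext h3
  have e4 : ρ.mapMatrix ((of b').map φ) = β⁻¹.val := Matrix.ext h4
  have e5 : ρ.mapMatrix κ.val = (GeneralLinearGroup.map ρ κ).val := rfl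
  have e6 : ρ.mapMatrix κ⁻¹.val = (GeneralLinearGroup.map ρ κ)⁻¹.val := rfl
  have key : ∀ x : Matrix (Fin n) (Fin n) L, ρ.mapMatrix x = 0 → ∀ i j, x i j ∈ mB R L :=
    fun x hx i j => hρ _ (congrFun (congrFun hx i) j)
  refine h.rigT hφ κ (of a) (of a') (of b) (of b') ha ha' (key _ ?_) (key _ ?_) (key _ ?_)
  · rw [map_sub, map_mul, e1, e2, g.mul_inv, map_one, sub_self]
  · rw [map_sub, map_mul, e1, e3, e5, e, Units.val_mul, sub_self]
  · rw [map_sub, map_mul, e2, e4, e6, e, _root_.mul_inv_rev, Units.val_mul, sub_self]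

theorem mem_mB_poly {p : R[X]} (h : p.map (residue R) = 0) : p ∈ mB R R[X] :=
  Ideal.mem_map_C_iff.2 fun i => (residue_eq_zero_iff _).1 (by rw [← coeff_map, h, coeff_zero])

theorem coprime_of_red {p c : R[X]} (hc : c.Monic)
    (h : IsCoprime (p.map (residue R)) (c.map (residue R))) : IsCoprime p c := by
  obtain ⟨u, v, e⟩ := h
  obtain ⟨u, rfl⟩ := map_surjective (residue R) residue_surjective u
  obtain ⟨v, rfl⟩ := map_surjective (residue R) residue_surjective v
  refine (FM.of_monic (R := R) hc).coprime (z' := u) ?_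
  rw [show p * u - 1 = c * -v + (u * p + v * c - 1) by ring]
  refine Submodule.add_mem_sup (Ideal.mul_mem_right _ _ (Ideal.mem_span_singleton_self c))
    (mem_mB_poly ?_)
  simp only [Polynomial.map_sub, Polynomial.map_add, Polynomial.map_mul, Polynomial.map_one, e,
    sub_self]

/-- A neighbourhood `D` of the zero set of `c`, the punctured neighbourhood `L`, and the
reduction `ρ` of `L` modulo the maximal ideal. -/
structure Red (c : R[X]) {D L K : Type u} [CommRing D] [Algebra R D] [CommRing L] [Algebra R L]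
    [CommRing K] (t : D) (φ : D →ₐ[R] L) (ρ : L →+* K) (j : RatFunc (ResidueField R) →+* K) :
    Prop where
  nb : NB c t
  inj : Function.Injective φ
  unit : IsUnit (aeval (φ t) c)
  loc : ∀ l, ∃ (r : ℕ) (b : D), l * aeval (φ t) c ^ r = φ b
  cop : ∀ p, IsCoprime p c → IsUnit (aeval t p)
  ker : ∀ l, ρ l = 0 → l ∈ mB R L
  comm : ∀ p : R[X], ρ (aeval (φ t) p) = j (rf (p.map (residue R)))

theorem lift_PP {L K : Type u} [CommRing L] [Algebra R L] [CommRing K] {M : R[X]} (hM : M.Monic)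
    {s : L} (hs : IsUnit (aeval s M)) {ρ : L →+* K} {j : RatFunc (ResidueField R) →+* K}
    (h : ∀ p : R[X], ρ (aeval s p) = j (rf (p.map (residue R)))) {x : RatFunc (ResidueField R)}
    (h1 : x ∈ PP (M.map (residue R))) (h2 : x ∈ OI _) :
    ∃ a, (∀ y ∈ Neg M s, a * y ∈ Neg M s) ∧ ρ a = j x := by
  obtain ⟨r, p, e⟩ := mem_PP.1 h1
  have h3 : p.natDegree ≤ r * M.natDegree := by
    by_cases h0 : x = 0
    · rw [h0, zero_mul, ← map_zero (algebraMap (Polynomial (ResidueField R)) _)] at e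
      simp [← rf_inj e]
    have h4 := intDegree_of_eq h0 ((hM.map _).pow r).ne_zero e
    rw [(hM.map _).natDegree_pow, hM.natDegree_map] at h4
    rw [mem_OI_iff] at h2
    omega
  obtain ⟨P, rfl, h5⟩ := exists_natDegree_eq_of_mem_lifts
    (map_surjective (residue R) residue_surjective p)
  obtain ⟨v, hv⟩ := (hs.pow r).exists_right_inv
  have h6 : aeval s P * v * aeval s M ^ r = aeval s P := by linear_combination aeval s P * hv
  refine ⟨aeval s P * v, fun y hy => Neg.mul (h5.trans_le h3) h6 hy,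
    ((hs.pow r).map ρ).mul_right_cancel ?_⟩
  rw [← map_mul, h6, h, ← e, ← map_pow, h, Polynomial.map_pow, map_mul]

variable {c c' : R[X]} {D L K D' L' K' : Type u} [CommRing D] [Algebra R D] [CommRing L]
  [Algebra R L] [CommRing K] [CommRing D'] [Algebra R D'] [CommRing L'] [Algebra R L'] [CommRing K']
  {t : D} {φ : D →ₐ[R] L} {ρ : L →+* K} {j : RatFunc (ResidueField R) →+* K}
  {t' : D'} {φ' : D' →ₐ[R] L'} {ρ' : L' →+* K'} {j' : RatFunc (ResidueField R) →+* K'}

theorem Red.lift (h : Red c t φ ρ j) (hc : c.Monic) {x : RatFunc (ResidueField R)}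
    (hx : x ∈ OL (c.map (residue R))) : ∃ d, ρ (φ d) = j x := by
  obtain ⟨w, p, h1, e⟩ := mem_OL.1 hx
  obtain ⟨w, rfl⟩ := map_surjective (residue R) residue_surjective w
  obtain ⟨p, rfl⟩ := map_surjective (residue R) residue_surjective p
  have hu := h.cop w (coprime_of_red hc h1)
  obtain ⟨v, hv⟩ := hu.exists_right_inv
  refine ⟨aeval t p * v, ((hu.map φ).map ρ).mul_right_cancel ?_⟩
  rw [← map_mul, ← map_mul, mul_assoc, mul_comm v, hv, mul_one, ← aeval_algHom_apply φ,
    ← aeval_algHom_apply φ, h.comm, h.comm, ← e, map_mul]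

/-- Rigidity: a gluing datum that is trivial modulo the maximal ideal is trivial. -/
theorem rig (h : Red c t φ ρ j) (h' : Red c' t' φ' ρ' j') (hc : c.Monic) (hc' : c'.Monic)
    (hcc : IsCoprime c c') (κ : GL (Fin n) L) (κ' : GL (Fin n) L')
    (g β β' : GL (Fin n) (RatFunc (ResidueField R)))
    (hP : (∀ i l, g.val i l ∈ PP (c.map (residue R) * c'.map (residue R))) ∧
      ∀ i l, g⁻¹.val i l ∈ PP (c.map (residue R) * c'.map (residue R)))
    (hI : (∀ i l, g.val i l ∈ OI _) ∧ ∀ i l, g⁻¹.val i l ∈ OI _)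
    (hβ : (∀ i l, β.val i l ∈ OL (c.map (residue R))) ∧
      ∀ i l, β⁻¹.val i l ∈ OL (c.map (residue R)))
    (hβ' : (∀ i l, β'.val i l ∈ OL (c'.map (residue R))) ∧
      ∀ i l, β'⁻¹.val i l ∈ OL (c'.map (residue R)))
    (e : GeneralLinearGroup.map j g = GeneralLinearGroup.map ρ κ * GeneralLinearGroup.map j β)
    (e' : GeneralLinearGroup.map j' g =
      GeneralLinearGroup.map ρ' κ' * GeneralLinearGroup.map j' β') :
    ∃ (T : Type u) (_ : CommRing T) (_ : Algebra R T) (au : T →ₐ[R] R) (ι : T →ₐ[R] L)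
      (ι' : T →ₐ[R] L') (ret : L × L' →ₗ[R] T) (a : GL (Fin n) T) (b : GL (Fin n) D)
      (b' : GL (Fin n) D'), (∀ x, ret (ι x, ι' x) = x - algebraMap R T (au x)) ∧
        (∀ d d', ret (φ d, φ' d') = 0) ∧ gl au a = 1 ∧ gl ι a = κ * gl φ b ∧
          gl ι' a = κ' * gl φ' b' := by
  have u := h.cop c' hcc.symm
  have u' := h'.cop c hcc
  have ea : ∀ f : R[X], aeval ((φ.prodMap φ') (t, t')) f = (aeval (φ t) f, aeval (φ' t') f) :=
    fun f => Prod.ext (aeval_algHom_apply (AlgHom.fst R L L') _ f).symm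
      (aeval_algHom_apply (AlgHom.snd R L L') _ f).symm
  have hi : Function.Injective (φ.prodMap φ') := h.inj.prodMap h'.inj
  have hu : IsUnit (aeval ((φ.prodMap φ') (t, t')) (c * c')) := by
    rw [ea, Prod.isUnit_iff, map_mul, map_mul]
    exact ⟨h.unit.mul (aeval_algHom_apply φ t c' ▸ u.map φ),
      (aeval_algHom_apply φ' t' c ▸ u'.map φ').mul h'.unit⟩
  have hs := (h.nb.prod h'.nb hcc u u').spl (hc.mul hc') (φ.prodMap φ') hi hu fun l => by
    obtain ⟨r, b, hb⟩ := h.loc l.1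
    obtain ⟨r', b', hb'⟩ := h'.loc l.2
    refine ⟨r + r', (b * aeval t (c ^ r' * c' ^ (r + r')),
      b' * aeval t' (c' ^ r * c ^ (r + r'))), ?_⟩
    rw [ea]
    refine Prod.ext ?_ ?_
    · show l.1 * aeval (φ t) (c * c') ^ (r + r') = φ (b * aeval t (c ^ r' * c' ^ (r + r')))
      simp only [map_mul, map_pow, ← hb, ← aeval_algHom_apply φ]
      ring
    · show l.2 * aeval (φ' t') (c * c') ^ (r + r') = φ' (b' * aeval t' (c' ^ r * c ^ (r + r')))
      simp only [map_mul, map_pow, ← hb', ← aeval_algHom_apply φ']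
      ring
  have hl : ∀ x, x ∈ PP (c.map (residue R) * c'.map (residue R)) → x ∈ OI _ → ∃ a,
      (∀ y ∈ Neg (c * c') ((φ.prodMap φ') (t, t')), a * y ∈ Neg (c * c') ((φ.prodMap φ') (t, t')))
        ∧ (ρ.prodMap ρ') a = (j.prod j') x := fun x h1 h2 =>
    lift_PP (hc.mul hc') hu (fun p => by rw [ea]; exact Prod.ext (h.comm p) (h'.comm p))
      (by rwa [Polynomial.map_mul]) h2
  have hm : ∀ x x', x ∈ OL (c.map (residue R)) → x' ∈ OL (c'.map (residue R)) →
      ∃ d, (ρ.prodMap ρ') ((φ.prodMap φ') d) = (j x, j' x') := fun x x' h1 h2 => by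
    obtain ⟨d, hd⟩ := h.lift hc h1
    obtain ⟨d', hd'⟩ := h'.lift hc' h2
    exact ⟨(d, d'), Prod.ext hd hd'⟩
  obtain ⟨κ2, rfl, rfl⟩ := gl_prod κ κ'
  obtain ⟨β2, e1, e2⟩ := gl_prod (GeneralLinearGroup.map j β) (GeneralLinearGroup.map j' β')
  have e3 : ∀ i l, β2.val i l = (j (β.val i l), j' (β'.val i l)) := fun i l => Prod.ext
    (congrArg (fun x => x.val i l) e1) (congrArg (fun x => x.val i l) e2)
  have e4 : ∀ i l, β2⁻¹.val i l = (j (β⁻¹.val i l), j' (β'⁻¹.val i l)) := fun i l => Prod.ext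
    (congrArg (fun x => x⁻¹.val i l) e1) (congrArg (fun x => x⁻¹.val i l) e2)
  obtain ⟨T, _, _, au, ι, ret, a, b, a1, a2, a3, a4⟩ := hs.rigR hi (ρ.prodMap ρ')
    (fun l hl => mB_prod (h.ker _ (congrArg Prod.fst hl)) (h'.ker _ (congrArg Prod.snd hl))) κ2
    (GeneralLinearGroup.map (j.prod j') g) β2 (by
      have a1 := (congrArg _ e1).trans e.symm
      have a2 := (congrArg _ e2).trans e'.symm
      refine Units.ext (Matrix.ext fun i l => Prod.ext ?_ ?_)
      · exact ((congrArg (fun x => x.val i l) (map_mul (GeneralLinearGroup.map (RingHom.fst K K'))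
          (GeneralLinearGroup.map (ρ.prodMap ρ') κ2) β2)).trans (congrArg (fun x => x.val i l) a1)).symm
      · exact ((congrArg (fun x => x.val i l) (map_mul (GeneralLinearGroup.map (RingHom.snd K K'))
          (GeneralLinearGroup.map (ρ.prodMap ρ') κ2) β2)).trans (congrArg (fun x => x.val i l) a2)).symm)
    (fun i l => hl _ (hP.1 i l) (hI.1 i l)) (fun i l => hl _ (hP.2 i l) (hI.2 i l))
    (fun i l => e3 i l ▸ hm _ _ (hβ.1 i l) (hβ'.1 i l))
    (fun i l => e4 i l ▸ hm _ _ (hβ.2 i l) (hβ'.2 i l))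
  refine ⟨T, inferInstance, inferInstance, au, (AlgHom.fst R L L').comp ι,
    (AlgHom.snd R L L').comp ι, ret, a, gl (AlgHom.fst R D D') b, gl (AlgHom.snd R D D') b,
    a1, fun d d' => a2 (d, d'), a3, ?_, ?_⟩
  · exact (congrArg (GeneralLinearGroup.map (RingHom.fst L L')) a4).trans (map_mul _ _ _)
  · exact (congrArg (GeneralLinearGroup.map (RingHom.snd L L')) a4).trans (map_mul _ _ _)

end Pool.Agent.GF
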