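import Pool.Agent.P.MP_c1f06d_ag.f.Nb

/-! Rigidity of the trivial bundle on the projective line over a local ring, abstract form. -/

set_option autoImplicit false

open Polynomial IsLocalRing Matrix

universe u

namespace Pool.Agent.GF

variable {R : Type u} [CommRing R] [IsLocalRing R]

theorem nak_gen {V : Type u} [AddCommGroup V] [Module R V] {W F : Submodule R V} (hF : F.FG)
    (h1 : ⊤ ≤ W ⊔ F) (h2 : ⊤ ≤ W ⊔ maximalIdeal R • ⊤) : ⊤ ≤ W := by
  refine h1.trans (sup_le le_rfl ?_)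
  refine Submodule.le_of_le_smul_of_le_jacobson_bot hF (maximalIdeal_le_jacobson ⊥)
    (le_top.trans (h2.trans (sup_le le_sup_left ((Submodule.smul_mono le_rfl h1).trans ?_))))
  rw [Submodule.smul_sup]
  exact sup_le (Submodule.smul_le_right.trans le_sup_left) le_sup_right

variable {L : Type u} [CommRing L] [Algebra R L] {n : ℕ}

theorem mv_mem {S : Type u} [SetLike S L] [AddSubmonoidClass S L] {P : S}
    {c : Matrix (Fin n) (Fin n) L} {v : Fin n → L} {i : Fin n} (h : ∀ j, c i j * v j ∈ P) :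
    (c *ᵥ v) i ∈ P := by
  rw [mulVec, dotProduct]
  exact sum_mem fun j _ => h j

theorem mm_mem {S : Type u} [SetLike S L] [AddSubmonoidClass S L] {P : S}
    {c d : Matrix (Fin n) (Fin n) L} {i j : Fin n} (h : ∀ l, c i l * d l j ∈ P) :
    (c * d) i j ∈ P := by
  rw [mul_apply]
  exact sum_mem fun j _ => h j

theorem pi_mem {W : Submodule R (Fin n → L)} {F : Submodule R L} {v : Fin n → L}
    (h : ∀ i x, x ∈ F → Pi.single i x ∈ W) (hv : ∀ i, v i ∈ F) : v ∈ W := by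
  rw [← Finset.univ_sum_single v]
  exact W.sum_mem fun i _ => h i _ (hv i)

theorem pi_mB {v : Fin n → L} (hv : ∀ i, v i ∈ mB R L) :
    v ∈ maximalIdeal R • (⊤ : Submodule R (Fin n → L)) := by
  refine pi_mem (F := maximalIdeal R • ⊤) (fun i x hx => ?_) fun i => ?_
  · refine Submodule.smul_mono le_rfl le_top (?_ : _ ∈ _ • Submodule.map (LinearMap.single R _ i) ⊤)
    rw [← Submodule.map_smul'']
    exact ⟨x, hx, rfl⟩
  · rw [Ideal.smul_top_eq_map]
    exact hv i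

/-- `L` is the sum of `N` and `D`, and `D` is finite modulo enough denominators. -/
structure Spl (N : Submodule R L) (D : Subalgebra R L) : Prop where
  mul : ∀ x ∈ N, ∀ y ∈ N, x * y ∈ N
  sum : ∀ x, ∃ y ∈ N, x - y ∈ D
  inf : ∀ x ∈ N, x ∈ D → x = 0
  fin : ∀ s : Finset L, ∃ (μ : L) (F : Submodule R L), F.FG ∧ (∀ x ∈ s, μ * x ∈ D) ∧
    ∀ d ∈ D, ∃ f ∈ F, ∃ d' ∈ D, d = f + μ * d'

theorem Spl.half {N : Submodule R L} {D : Subalgebra R L} (h : Spl N D)
    (κ κ' a a' b : Matrix (Fin n) (Fin n) L) (hκ : κ * κ' = 1)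
    (ha : ∀ i j, ∀ x ∈ N, a i j * x ∈ N) (hb : ∀ i j, b i j ∈ D)
    (h1 : ∀ i j, (a * a' - 1) i j ∈ mB R L) (h2 : ∀ i j, (a - κ * b) i j ∈ mB R L) :
    ∃ c : Matrix (Fin n) (Fin n) L, (∀ i j, c i j ∈ D) ∧ ∀ i j, (κ * c - 1) i j ∈ N := by
  classical
  let W : Submodule R (Fin n → L) := Submodule.pi Set.univ (fun _ => N) ⊔
    (Submodule.pi Set.univ fun _ => D.toSubmodule).map (κ.mulVecLin.restrictScalars R)
  have hW : ∀ x y : Fin n → L, (∀ i, x i ∈ N) → (∀ i, y i ∈ D) → x + κ *ᵥ y ∈ W :=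
    fun x y hx hy => Submodule.add_mem_sup (fun i _ => hx i) ⟨y, fun i _ => hy i, rfl⟩
  have hm : ∀ (c : Matrix (Fin n) (Fin n) L) (v : Fin n → L), (∀ i j, c i j ∈ mB R L) →
      c *ᵥ v ∈ maximalIdeal R • (⊤ : Submodule R (Fin n → L)) := fun c v hc =>
    pi_mB fun i => mv_mem fun j => Ideal.mul_mem_right _ _ (hc i j)
  choose p hp hq using h.sum
  obtain ⟨μ, F, hF, h3, h4⟩ := h.fin (Finset.univ.image fun x : Fin n × Fin n => κ' x.1 x.2)
  choose! f hf d hd h5 using h4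
  have h6 : ⊤ ≤ W := by
    refine nak_gen (F := Submodule.pi Set.univ fun _ => F) (Submodule.fg_pi fun _ => hF)
      (fun v _ => ?_) fun v _ => ?_
    · have e : v = (fun i => p (v i)) + κ *ᵥ ((μ • κ') *ᵥ fun i => d (v i - p (v i))) +
          fun i => f (v i - p (v i)) := by
        rw [mulVec_mulVec, Matrix.mul_smul, hκ, smul_mulVec, one_mulVec]
        funext i
        simp only [Pi.add_apply, Pi.smul_apply, smul_eq_mul]
        linear_combination h5 _ (hq (v i))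
      rw [e]
      refine Submodule.add_mem_sup (hW _ _ (fun i => hp _) fun i => ?_) fun i _ => hf _ (hq _)
      exact mv_mem fun j => D.mul_mem
        (h3 _ (Finset.mem_image.2 ⟨(i, j), Finset.mem_univ _, rfl⟩)) (hd _ (hq _))
    · let x : Fin n → L := fun i => p ((a' *ᵥ v) i)
      have e : v = a *ᵥ x + κ *ᵥ (b *ᵥ (a' *ᵥ v - x)) +
          ((a - κ * b) *ᵥ (a' *ᵥ v - x) - (a * a' - 1) *ᵥ v) := by
        simp only [sub_mulVec, mulVec_sub, ← mulVec_mulVec, one_mulVec]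
        abel
      rw [e]
      refine Submodule.add_mem_sup (hW _ _ (fun i => ?_) fun i => ?_)
        (sub_mem (hm _ _ h2) (hm _ _ h1))
      · exact mv_mem fun j => ha _ _ _ (hp _)
      · exact mv_mem fun j => D.mul_mem (hb _ _) (hq _)
  have h7 : ∀ j, ∃ y : Fin n → L, (∀ i, y i ∈ D) ∧
      ∀ i, (κ *ᵥ y) i - (1 : Matrix (Fin n) (Fin n) L) i j ∈ N := fun j => by
    obtain ⟨x, hx, _, ⟨y, hy, rfl⟩, e⟩ := Submodule.mem_sup.1
      (h6 (Submodule.mem_top (x := fun i => (1 : Matrix (Fin n) (Fin n) L) i j)))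
    refine ⟨y, fun i => hy i trivial, fun i => ?_⟩
    rw [← congrFun e i]
    simpa using hx i trivial
  choose y hy hy' using h7
  exact ⟨of fun i j => y j i, fun i j => hy j i, fun i j => hy' j i⟩

/-- Rigidity. -/
theorem Spl.rig {N : Submodule R L} {D : Subalgebra R L} (h : Spl N D)
    (κ : GL (Fin n) L) (a a' b b' : Matrix (Fin n) (Fin n) L)
    (ha : ∀ i j, ∀ x ∈ N, a i j * x ∈ N) (ha' : ∀ i j, ∀ x ∈ N, a' i j * x ∈ N)
    (hb : ∀ i j, b i j ∈ D) (hb' : ∀ i j, b' i j ∈ D)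
    (h1 : ∀ i j, (a * a' - 1) i j ∈ mB R L) (h2 : ∀ i j, (a - κ.val * b) i j ∈ mB R L)
    (h3 : ∀ i j, (a' - b' * κ⁻¹.val) i j ∈ mB R L) :
    ∃ g : GL (Fin n) L, (∀ i j, (g.val - 1) i j ∈ N) ∧ (∀ i j, (g⁻¹.val - 1) i j ∈ N) ∧
      (∀ i j, (κ⁻¹ * g).val i j ∈ D) ∧ ∀ i j, (g⁻¹ * κ).val i j ∈ D := by
  obtain ⟨c, hc, h4⟩ := h.half κ.val κ⁻¹.val a a' b κ.mul_inv ha hb h1 h2
  obtain ⟨c', hc', h5⟩ := h.half κ⁻¹.valᵀ κ.valᵀ a'ᵀ aᵀ b'ᵀ
    (by rw [← transpose_mul, κ.mul_inv, transpose_one]) (fun i j => ha' j i) (fun i j => hb' j i)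
    (fun i j => by rw [← transpose_mul, ← transpose_one, ← transpose_sub]; exact h1 j i)
    (fun i j => by rw [← transpose_mul]; exact h3 j i)
  have h6 : ∀ i j, (c'ᵀ * κ⁻¹.val - 1) i j ∈ N := fun i j => by
    have := h5 j i
    rwa [← transpose_transpose c', ← transpose_mul, ← transpose_one, ← transpose_sub] at this
  have e : c'ᵀ * κ⁻¹.val * (κ.val * c) = c'ᵀ * c := by
    rw [Matrix.mul_assoc, ← Matrix.mul_assoc _ _ c, κ.inv_mul, Matrix.one_mul]
  have h7 : c'ᵀ * κ⁻¹.val * (κ.val * c) = 1 := by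
    rw [← sub_eq_zero]
    ext i j
    refine h.inf _ ?_ ?_
    · rw [show c'ᵀ * κ⁻¹.val * (κ.val * c) - 1 = (c'ᵀ * κ⁻¹.val - 1) * (κ.val * c - 1) +
        (c'ᵀ * κ⁻¹.val - 1) + (κ.val * c - 1) by noncomm_ring]
      exact add_mem (add_mem (mm_mem fun l => h.mul _ (h6 _ _) _ (h4 _ _)) (h6 _ _)) (h4 _ _)
    · rw [e]
      refine sub_mem (mm_mem fun l => D.mul_mem (hc' _ _) (hc _ _)) ?_
      rw [one_apply]
      split_ifs
      exacts [D.one_mem, D.zero_mem]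
  refine ⟨⟨κ.val * c, c'ᵀ * κ⁻¹.val, mul_eq_one_comm.1 h7, h7⟩, h4, h6, fun i j => ?_,
    fun i j => ?_⟩
  · rw [Units.val_mul, ← Matrix.mul_assoc, κ.inv_mul, Matrix.one_mul]
    exact hc i j
  · rw [Units.val_mul, Units.inv_mk, Matrix.mul_assoc, κ.inv_mul, Matrix.mul_one]
    exact hc' j i

theorem deg_mul_lt {f g : R[X]} {a b : ℕ} (h1 : f.degree < a) (h2 : g.natDegree ≤ b) :
    (f * g).degree < (a + b : ℕ) := by
  refine (degree_mul_le _ _).trans_lt ?_
  refine (add_le_add le_rfl (degree_le_of_natDegree_le h2)).trans_lt ?_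
  rw [Nat.cast_add]
  exact WithBot.add_lt_add_right (by simp) h1

/-- The fractions of negative degree with denominator a power of `M`. -/
def Neg (M : R[X]) (t : L) : Submodule R L where
  carrier := {l | ∃ (r : ℕ) (f : R[X]), f.degree < (r * M.natDegree : ℕ) ∧
    l * aeval t M ^ r = aeval t f}
  zero_mem' := ⟨0, 0, by simp, by simp⟩
  smul_mem' := by
    rintro c l ⟨r, f, h1, h2⟩
    exact ⟨r, c • f, (degree_smul_le c f).trans_lt h1, by rw [smul_mul_assoc, h2, map_smul]⟩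
  add_mem' := by
    rintro l l' ⟨r, f, h1, h2⟩ ⟨r', f', h1', h2'⟩
    have key : ∀ (r r' : ℕ) (f : R[X]), f.degree < (r * M.natDegree : ℕ) →
        (f * M ^ r').degree < ((r + r') * M.natDegree : ℕ) := fun r r' f h =>
      add_mul r r' _ ▸ deg_mul_lt h natDegree_pow_le
    refine ⟨r + r', f * M ^ r' + f' * M ^ r, (degree_add_le _ _).trans_lt
      (max_lt (key r r' f h1) (add_comm r r' ▸ key r' r f' h1')), ?_⟩
    simp only [map_add, map_mul, map_pow, ← h2, ← h2']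
    ring

theorem Neg.mul {M : R[X]} {t x y : L} {r : ℕ} {f : R[X]} (h1 : f.natDegree ≤ r * M.natDegree)
    (h2 : x * aeval t M ^ r = aeval t f) (hy : y ∈ Neg M t) : x * y ∈ Neg M t := by
  obtain ⟨r', f', h1', h2'⟩ := hy
  refine ⟨r' + r, f' * f, add_mul r' r _ ▸ deg_mul_lt h1' h1, ?_⟩
  rw [map_mul, ← h2, ← h2']
  ring

theorem NB.spl {B : Type u} [CommRing B] [Algebra R B] {M : R[X]} {T : B} (h : NB M T)
    (hM : M.Monic) (φ : B →ₐ[R] L) (h1 : Function.Injective φ) (h2 : IsUnit (aeval (φ T) M))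
    (h3 : ∀ l, ∃ (r : ℕ) (b : B), l * aeval (φ T) M ^ r = φ b) : Spl (Neg M (φ T)) φ.range := by
  have e : ∀ f : R[X], aeval (φ T) f = φ (aeval T f) := fun f => aeval_algHom_apply φ T f
  refine ⟨?_, fun x => ?_, ?_, fun s => ?_⟩
  · rintro x ⟨r, f, a1, a2⟩ y hy
    exact Neg.mul (natDegree_le_of_degree_le a1.le) a2 hy
  · obtain ⟨r, b, hb⟩ := h3 x
    obtain ⟨f, a1, d, hd⟩ := h.sur_pow hM r b
    have a2 := congrArg φ hd
    rw [map_sub, map_mul, map_pow, ← e, ← e] at a2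
    exact ⟨x - φ d, ⟨r, f, a1, by linear_combination hb + a2⟩, d, by simp⟩
  · rintro _ ⟨r, f, a1, a2⟩ ⟨b, rfl⟩
    have a3 : aeval T f = aeval T M ^ r * b := h1 (by
      rw [← e, ← a2, map_mul, map_pow, ← e, mul_comm]
      rfl)
    have a4 : f = 0 := by_contra fun h0 => (hM.pow r).not_dvd_of_degree_lt h0
      (by rwa [degree_eq_natDegree (hM.pow r).ne_zero, hM.natDegree_pow]) (h.ker_pow r f ⟨b, a3⟩)
    rw [a4, map_zero] at a2
    exact (h2.pow r).mul_left_eq_zero.1 a2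
  · choose r b hb using h3
    let k := s.sup r
    refine ⟨aeval (φ T) M ^ k, (degreeLT R (k * M.natDegree)).map (aeval (φ T)).toLinearMap,
      Submodule.FG.map _ ?_, fun x hx => ?_, ?_⟩
    · exact Module.Finite.iff_fg.1 (Module.Finite.equiv (degreeLTEquiv R _).symm)
    · obtain ⟨j, hj⟩ := Nat.exists_eq_add_of_le (Finset.le_sup (f := r) hx)
      refine ⟨b x * aeval T M ^ j, ?_⟩
      show φ _ = _
      rw [map_mul, map_pow, ← e, ← hb, show k = _ from hj]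
      ring
    · rintro _ ⟨c, rfl⟩
      obtain ⟨f, a1, d, hd⟩ := h.sur_pow hM k c
      have a2 := congrArg φ hd
      rw [map_sub, map_mul, map_pow, ← e, ← e] at a2
      exact ⟨_, ⟨f, mem_degreeLT.2 a1, rfl⟩, φ d, ⟨d, rfl⟩, sub_eq_iff_eq_add'.1 a2⟩

end Pool.Agent.GF
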