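import Pool.Agent.P.MP_c1f06d_ag.f.Rig

/-! The semilocal neighbourhood of a monic polynomial and its reduction. -/

set_option autoImplicit false

open Polynomial IsLocalRing Pool.Agent.GR.KL

universe u

namespace Pool.Agent.GF

section rl

variable {k k' : Type u} [Field k] [Field k']

/-- The map of fields of rational functions induced by an injective map of polynomial rings. -/
noncomputable def rl (f : k[X] →+* k'[X]) (hf : Function.Injective f) : RatFunc k →+* RatFunc k' :=
  IsFractionRing.lift (g := (algebraMap k'[X] (RatFunc k')).comp f)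
    ((RatFunc.algebraMap_injective k').comp hf)

theorem rl_rf (f : k[X] →+* k'[X]) (hf : Function.Injective f) (p : k[X]) :
    rl f hf (rf p) = rf (f p) := IsFractionRing.lift_algebraMap _ p

theorem rl_PP (f : k[X] →+* k'[X]) (hf : Function.Injective f) {h : k[X]} {x : RatFunc k}
    (hx : x ∈ PP h) : rl f hf x ∈ PP (f h) := by
  obtain ⟨N, p, e⟩ := mem_PP.1 hx
  exact mem_PP.2 ⟨N, f p, by rw [← map_pow, ← rl_rf f hf, ← map_mul, e, rl_rf]⟩

theorem rl_OL (f : k[X] →+* k'[X]) (hf : Function.Injective f) {h : k[X]} {x : RatFunc k}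
    (hx : x ∈ OL h) : rl f hf x ∈ OL (f h) := by
  obtain ⟨w, p, h1, e⟩ := mem_OL.1 hx
  exact mem_OL.2 ⟨f w, f p, h1.map f, by rw [← rl_rf f hf, ← map_mul, e, rl_rf]⟩

theorem rl_OI (f : k[X] →+* k'[X]) (hf : Function.Injective f) {d : ℕ}
    (hd : ∀ p, (f p).natDegree = p.natDegree * d) {x : RatFunc k} (hx : x ∈ OI k) :
    rl f hf x ∈ OI k' := by
  obtain ⟨p, q, h0, h1, e⟩ := hx
  exact ⟨f p, f q, (map_ne_zero_iff f hf).2 h0, by rw [hd, hd]; exact Nat.mul_le_mul_right d h1,
    by rw [← rl_rf f hf, ← map_mul, e, rl_rf]⟩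

variable (k k') in
/-- Extension of the constants. -/
noncomputable def rc [Algebra k k'] : RatFunc k →+* RatFunc k' :=
  rl (mapRingHom (algebraMap k k')) (map_injective _ (algebraMap k k').injective)

theorem rc_rf [Algebra k k'] (p : k[X]) : rc k k' (rf p) = rf (p.map (algebraMap k k')) :=
  rl_rf _ _ p

theorem exists_part (ν : k[X]) (q : k[X]) : q ≠ 0 →
    ∃ (N : ℕ) (a b : k[X]), IsCoprime b ν ∧ q * a = ν ^ N * b := by
  induction q using WfDvdMonoid.induction_on_irreducible with
  | zero => exact fun h => (h rfl).elim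
  | unit u hu => exact fun _ => ⟨0, 1, u, (isCoprime_mul_unit_left_left hu 1 ν).2 isCoprime_one_left
      |>.of_isCoprime_of_dvd_left (by simp), by simp⟩
  | mul q p hq hp ih =>
    intro _
    obtain ⟨N, a, b, h1, e⟩ := ih hq
    by_cases h : p ∣ ν
    · obtain ⟨c, rfl⟩ := h
      exact ⟨N + 1, a * c, b, h1, by linear_combination p * c * e⟩
    · exact ⟨N, a, p * b, (hp.coprime_iff_not_dvd.2 h).mul_left h1, by linear_combination p * e⟩

end rl

variable {R : Type u} [CommRing R]

theorem nb_loc' {B : Type u} [CommRing B] [Algebra R B] {G T c : B} {m : R[X]} {S : Submonoid B}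
    (h1 : ∀ b, G * b = 0 → b = 0) (h2 : ∀ b, ∃ f : R[X], G ∣ b - aeval T f)
    (h3 : ∀ f : R[X], G ∣ aeval T f → m ∣ f) (h4 : aeval T m = c * G) (h5 : c ∈ S)
    (h6 : ∀ s ∈ S, IsCoprime s G) (B' : Type u) [CommRing B'] [Algebra R B'] [Algebra B B']
    [IsScalarTower R B B'] [IsLocalization S B'] : NB m (algebraMap B B' T) := by
  have hc : IsUnit (algebraMap B B' c) := IsLocalization.map_units B' (⟨c, h5⟩ : S)
  have e : ∀ f : R[X], aeval (algebraMap B B' T) f = algebraMap B B' (aeval T f) := fun f =>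
    aeval_algebraMap_apply _ _ _
  have e1 : ∀ b, aeval (algebraMap B B' T) m ∣ b ↔ algebraMap B B' G ∣ b := fun b => by
    rw [e, h4, map_mul, hc.mul_left_dvd]
  refine ⟨fun b hb => ?_, fun b => ?_, fun f hf => h3 f ?_⟩
  · have h7 := IsLocalization.nonZeroDivisors_le_comap S B' (mem_nonZeroDivisors_iff_left.2 h1)
    rw [e, h4, map_mul, mul_assoc, hc.mul_right_eq_zero] at hb
    exact mem_nonZeroDivisors_iff_left.1 h7 b hb
  · obtain ⟨⟨a, s, hs⟩, ha⟩ := IsLocalization.surj S b
    obtain ⟨u, v, huv⟩ := h6 s hs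
    obtain ⟨f, w, hf⟩ := h2 (u * a)
    have h7 := congrArg (algebraMap B B') huv
    have h8 := congrArg (algebraMap B B') hf
    simp only [map_add, map_mul, map_one, map_sub] at h7 h8 ha
    refine ⟨f, (e1 _).2 ⟨algebraMap B B' w + algebraMap B B' v * b, ?_⟩⟩
    rw [e]
    linear_combination h8 + algebraMap B B' u * ha - b * h7
  · obtain ⟨b, hb⟩ := (e1 _).1 hf
    obtain ⟨⟨a, s, hs⟩, ha⟩ := IsLocalization.surj S b
    have h7 : algebraMap B B' (s * aeval T f) = algebraMap B B' (G * a) := by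
      rw [map_mul, map_mul, ← e, hb, ← ha]
      ring
    obtain ⟨⟨s', hs'⟩, hj⟩ := (IsLocalization.eq_iff_exists S B').1 h7
    refine ((h6 s' hs').mul_left (h6 s hs)).symm.dvd_of_dvd_mul_left ⟨s' * a, ?_⟩
    linear_combination hj

theorem poly_lift {O ι : Type u} [CommRing O] [Finite ι] {k : ι → Type u} [∀ z, CommRing (k z)]
    [∀ z, Algebra O (k z)] (h : ∀ x : ∀ z, k z, ∃ o, ∀ z, algebraMap O (k z) o = x z)
    (p : ∀ z, (k z)[X]) : ∃ P : O[X], ∀ z, P.map (algebraMap O (k z)) = p z := by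
  obtain ⟨q, rfl⟩ := (piEquiv k).surjective p
  obtain ⟨P, rfl⟩ := map_surjective (algebraMap O (∀ z, k z))
    (fun x => (h x).imp fun o ho => funext ho) q
  exact ⟨P, fun z => (Polynomial.map_map (algebraMap O (∀ z, k z)) (Pi.evalRingHom k z) P).symm⟩

variable [IsLocalRing R]

theorem mB_coeff {O : Type u} [CommRing O] [Algebra R O] {p : O[X]}
    (h : ∀ i, p.coeff i ∈ mB R O) : p ∈ mB R O[X] := by
  rw [p.as_sum_support]
  exact sum_mem fun i _ => mB_lin ((monomial i).restrictScalars R) (h i)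

theorem red_fam {O ι : Type u} [CommRing O] [Algebra R O] [Module.Finite R O] [Nontrivial O]
    [Finite ι] (k : ι → Type u) [∀ z, Field (k z)] [∀ z, Algebra O (k z)]
    [∀ z, Algebra (ResidueField R) (k z)]
    (k1 : ∀ r z, algebraMap O (k z) (algebraMap R O r) = algebraMap _ (k z) (residue R r))
    (k2 : ∀ x : ∀ z, k z, ∃ o, ∀ z, algebraMap O (k z) o = x z)
    (k3 : ∀ o, (∀ z, algebraMap O (k z) o = 0) → o ∈ mB R O)
    {ν c : O[X]} {y : R[X]} (hν : ν.Monic) (hd : 0 < ν.natDegree)
    (h2 : ∀ b, ∃ f : R[X], ν ∣ b - aeval X f) (h3 : ∀ f : R[X], ν ∣ aeval X f → y ∣ f)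
    (h4 : aeval X y = c * ν) (h5 : IsCoprime c ν) :
    ∃ (D L : Type u) (_ : CommRing D) (_ : Algebra R D) (_ : Algebra O D) (_ : IsScalarTower R O D)
      (_ : CommRing L) (_ : Algebra R L) (_ : Algebra O L) (_ : IsScalarTower R O L) (t : D)
      (φ : D →ₐ[O] L) (ρ : L →ₐ[O] ∀ z, RatFunc (k z)),
      Red y t (φ.restrictScalars R) (ρ : L →+* ∀ z, RatFunc (k z))
        (RingHom.pi fun z => rc (ResidueField R) (k z)) ∧ Function.Surjective ρ ∧
      ∀ (A : Type u) [CommRing A] [Algebra O A] (x : A),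
        (∀ p : O[X], IsCoprime p ν → IsUnit (aeval x p)) → ∃ e : D →ₐ[O] A, e t = x := by
  let S : Submonoid O[X] :=
    { carrier := {f | IsCoprime f ν}
      one_mem' := isCoprime_one_left
      mul_mem' := fun ha hb => IsCoprime.mul_left ha hb }
  let D := Localization S
  let t := algebraMap O[X] D X
  have nb : NB y t := nb_loc' (S := S) (fun b hb => hν.isRegular.left (hb.trans (mul_zero ν).symm))
    h2 h3 h4 h5 (fun _ h => h) D
  let L := Localization.Away (aeval t y)
  let φ := IsScalarTower.toAlgHom O D L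
  let ψ : O[X] →ₐ[O] ∀ z, RatFunc (k z) := aeval fun z => rf X
  have hψ : ∀ p z, ψ p z = rf (p.map (algebraMap O (k z))) := fun p z => by
    rw [show ψ p z = _ from (aeval_algHom_apply (Pi.evalAlgHom O _ z) _ p).symm,
      ← aeval_X_left_apply (p.map _), aeval_map_algebraMap]
    exact aeval_algHom_apply (IsScalarTower.toAlgHom O (k z)[X] (RatFunc (k z))) X p
  have hn : ∀ z, ¬IsUnit (ν.map (algebraMap O (k z))) := fun z =>
    not_isUnit_of_natDegree_pos _ (by rwa [hν.natDegree_map])
  have hu : ∀ p : O[X], (∀ z, p.map (algebraMap O (k z)) ≠ 0) → IsUnit (ψ p) := fun p hp =>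
    Pi.isUnit_iff.2 fun z => by
      rw [hψ]
      exact (rf_ne (hp z)).isUnit
  have hS : ∀ s : S, IsUnit (ψ s) := fun s => hu _ fun z =>
    ne_of_coprime (hn z) ((show IsCoprime s.1 ν from s.2).map (mapRingHom (algebraMap O (k z))))
  let ρ0 : D →ₐ[O] ∀ z, RatFunc (k z) := IsLocalization.liftAlgHom hS
  have e0 : ∀ p, ρ0 (algebraMap O[X] D p) = ψ p := fun p => IsLocalization.lift_eq hS p
  have et : ∀ f : R[X], aeval t f = algebraMap O[X] D (aeval X f) := fun f =>
    aeval_algebraMap_apply _ _ _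
  have hy : IsUnit (ρ0 (aeval t y)) := by
    rw [et, e0, h4, map_mul]
    exact (hS ⟨c, h5⟩).mul (hu _ fun z => (hν.map _).ne_zero)
  let ρ : L →ₐ[O] ∀ z, RatFunc (k z) :=
    IsLocalization.Away.liftAlgHom (S := L) (aeval t y) (f := ρ0) hy
  have e1 : ∀ d, ρ (φ d) = ρ0 d := fun d => IsLocalization.Away.lift_eq _ hy d
  have e2 : ∀ f : R[X], aeval (φ.restrictScalars R t) f = φ (aeval t f) := fun f =>
    aeval_algHom_apply (φ.restrictScalars R) t f
  have hyu : IsUnit (φ (aeval t y)) :=
    IsLocalization.Away.algebraMap_isUnit (S := L) (aeval t y)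
  have hk : ∀ p : O[X], (∀ z, p.map (algebraMap O (k z)) = 0) → p ∈ mB R O[X] := fun p hp =>
    mB_coeff fun i => k3 _ fun z => by rw [← coeff_map, hp, coeff_zero]
  refine ⟨D, L, inferInstance, inferInstance, inferInstance, inferInstance, inferInstance,
    inferInstance, inferInstance, inferInstance, t, φ, ρ,
    ⟨nb, ?_, e2 y ▸ hyu, fun l => ?_, fun p hp => ?_, fun l hl => ?_, fun p => ?_⟩, fun x => ?_,
    fun A _ _ x hx => ?_⟩
  · exact IsLocalization.injective L
      (Submonoid.powers_le.2 (mem_nonZeroDivisors_iff_left.2 nb.reg))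
  · rw [e2]
    exact IsLocalization.Away.surj (aeval t y) l
  · rw [et]
    refine IsLocalization.map_units D (⟨_, ?_⟩ : S)
    have h6 := hp.map (aeval (X : O[X])).toRingHom
    exact IsCoprime.of_mul_right_right (h4 ▸ h6 : IsCoprime _ (c * ν))
  · obtain ⟨r, d, hd⟩ := IsLocalization.Away.surj (aeval t y) l
    obtain ⟨⟨a, s⟩, ha⟩ := IsLocalization.surj S d
    have h6 : ψ a = 0 := by
      rw [← e0, ← ha, map_mul, ← e1, show φ d = _ from hd.symm, map_mul, show ρ l = 0 from hl,
        zero_mul, zero_mul]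
    have h7 := mB_map (B' := L) ((φ.restrictScalars R).comp (IsScalarTower.toAlgHom R O[X] D))
      (hk a fun z => rf_inj ((hψ a z).symm.trans ((congrFun h6 z).trans (map_zero _).symm)))
    have h8 : l * (φ (aeval t y) ^ r * φ (algebraMap O[X] D s)) ∈ mB R L := by
      rw [← mul_assoc, show l * φ (aeval t y) ^ r = φ d from hd, ← map_mul, ha]
      exact h7
    exact (Ideal.mul_unit_mem_iff_mem _
      ((hyu.pow r).mul ((IsLocalization.map_units D s).map φ))).1 h8
  · funext z
    show ρ (aeval (φ.restrictScalars R t) p) z = rc _ _ _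
    rw [e2, e1, et, e0, hψ, rc_rf, aeval_X_left_eq_map, Polynomial.map_map, Polynomial.map_map]
    exact congrArg (fun f => rf (p.map f)) (RingHom.ext fun r => k1 r z)
  · choose N a b g1 g2 using fun z => exists_part (ν.map (algebraMap O (k z))) _
      (x z).denom_ne_zero
    have := Fintype.ofFinite ι
    let M := Finset.univ.sup N
    choose m hm using fun z => Nat.exists_eq_add_of_le (Finset.le_sup (f := N) (Finset.mem_univ z))
    obtain ⟨P, hP⟩ := poly_lift k2 fun z => (x z).num * a z * ν.map (algebraMap O (k z)) ^ m z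
    obtain ⟨Q, hQ⟩ := poly_lift k2 b
    choose u v huv using g1
    obtain ⟨U, hU⟩ := poly_lift k2 u
    obtain ⟨V, hV⟩ := poly_lift k2 v
    have hQν : IsCoprime Q ν := by
      refine (FM.of_monic (R := R) hν).coprime (z' := U) ?_
      rw [show Q * U - 1 = ν * -V + (U * Q + V * ν - 1) by ring]
      refine Submodule.add_mem_sup (Ideal.mul_mem_right _ _ (Ideal.mem_span_singleton_self ν))
        (hk _ fun z => ?_)
      simp only [Polynomial.map_sub, Polynomial.map_add, Polynomial.map_mul, Polynomial.map_one,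
        hU, hV, hQ, huv, sub_self]
    have h6 : IsUnit (φ (algebraMap O[X] D (ν ^ M * Q))) := by
      rw [map_mul, map_mul, map_pow, map_pow]
      refine (IsUnit.pow _ (isUnit_of_mul_isUnit_right (x := φ (algebraMap O[X] D c)) ?_)).mul
        ((IsLocalization.map_units D (⟨Q, hQν⟩ : S)).map φ)
      rwa [← map_mul, ← map_mul, ← h4, ← et]
    obtain ⟨w, hw⟩ := h6.exists_right_inv
    refine ⟨φ (algebraMap O[X] D P) * w, (h6.map ρ).mul_right_cancel ?_⟩
    rw [← map_mul, mul_assoc, mul_comm w, hw, mul_one, e1, e1, e0, e0]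
    funext z
    rw [Pi.mul_apply, hψ, hψ, hP, Polynomial.map_mul, Polynomial.map_pow, hQ,
      show M = _ from hm z, pow_add, mul_right_comm _ _ (b z), ← g2]
    have h7 : x z * rf (x z).denom = rf (x z).num := by
      rw [← eq_div_iff (rf_ne (x z).denom_ne_zero), RatFunc.num_div_denom]
    simp only [rf, map_mul] at h7 ⊢
    rw [← h7]
    ring
  · exact ⟨IsLocalization.liftAlgHom (M := S) (f := aeval x) fun s => hx _ s.2,
      (IsLocalization.lift_eq _ _).trans (aeval_X x)⟩

end Pool.Agent.GF
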